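import Pool.Agent.R512.Q.Inst2
import Pool.Agent.Y958.E.Glue
import Pool.Agent.Y434.E.Nwi

/-!
Library R512.U (helper512): uniformity in the multiplicative functions, gluing along blocks, for a factor with
values in the roots of unity (after `Pool.Agent.Y958.E.Glue`).
-/

set_option autoImplicit false

namespace Pool.Agent.R512.U

open Finset Filter Topology
open Pool.Agent.Y958.U
open Pool.Agent.Y958.E
open Pool.Agent.Y958.TC (ind)
open Pool.Agent.R512.Q (CR psC mainC ru_norm)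

open Classical in
/-- the block of `n` -/
noncomputable def bl (P : ℕ → ℕ) (n : ℕ) : ℕ := Nat.findGreatest (fun m => P m ≤ n) n

lemma bl_eq {P : ℕ → ℕ} (hP : StrictMono P) {m n : ℕ} (h1 : P m ≤ n) (h2 : n < P (m + 1)) : bl P n = m := by
  classical
  unfold bl
  rw [Nat.findGreatest_eq_iff]
  refine ⟨(hP.id_le m).trans h1, fun _ => h1, fun k hk _ h3 => ?_⟩
  have := hP.monotone (by omega : m + 1 ≤ k)
  omega

/-- the sums over a residue class -/
noncomputable def Sc {d : ℕ} (h : Fin (d + 1) → ℕ) (f : ℕ → ℂ) (g : Fin d → ℕ → ℂ) (Q r N : ℕ) : ℂ :=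
  ∑ n ∈ Icc 1 N, psC f (fun n => n % Q = r % Q) g h n

lemma psC_le1 {d : ℕ} (h : Fin (d + 1) → ℕ) (f : ℕ → ℂ) (hf : ∀ n, ‖f n‖ ≤ 1) (g : Fin d → ℕ → ℂ)
    (hg : ∀ i n, ‖g i n‖ ≤ 1) (V : ℕ → Prop) (n : ℕ) : ‖psC f V g h n‖ ≤ 1 := by
  unfold psC
  rw [norm_mul, norm_mul]
  have h1 := norm_ind_le V n
  have h2 := hf (n + h 0)
  have h3 := norm_prod_F g hg (fun i => n + h i.succ)
  calc ‖(ind V n : ℂ)‖ * ‖f (n + h 0)‖ * ‖∏ i : Fin d, g i (n + h i.succ)‖ ≤
      1 * 1 * 1 := by gcongr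
    _ = 1 := by norm_num

lemma Sc_small {d : ℕ} (h : Fin (d + 1) → ℕ) (f : ℕ → ℂ) (hf : ∀ n, ‖f n‖ ≤ 1) (g : Fin d → ℕ → ℂ)
    (hg : ∀ i n, ‖g i n‖ ≤ 1) (Q r N : ℕ)
    (hQ : 1 ≤ Q) (i : Fin d) :
    ‖Sc h f g Q r N‖ ≤ ∑ m ∈ range (N / Q + 1), ‖g i (Q * m + (r % Q + h i.succ))‖ := by
  classical
  unfold Sc
  refine (norm_sum_le _ _).trans ?_
  have h3 : ∀ n ∈ Icc 1 N, ‖psC f (fun n => n % Q = r % Q) g h n‖ ≤
      if n % Q = r % Q then ‖g i (n + h i.succ)‖ else 0 := by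
    intro n _
    unfold psC
    rw [norm_mul, norm_mul]
    split_ifs with hn
    · have e1 : ind (fun n => n % Q = r % Q) n = 1 := by unfold Pool.Agent.Y958.TC.ind; rw [if_pos hn]
      rw [e1, Complex.ofReal_one, norm_one, one_mul, norm_prod, ← mul_prod_erase univ _ (mem_univ i)]
      have h4 : ∏ x ∈ univ.erase i, ‖g x (n + h x.succ)‖ ≤ 1 :=
        prod_le_one (fun _ _ => norm_nonneg _) fun j _ => hg j _
      calc ‖f (n + h 0)‖ * (‖g i (n + h i.succ)‖ * ∏ x ∈ univ.erase i, ‖g x (n + h x.succ)‖) ≤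
          1 * (‖g i (n + h i.succ)‖ * 1) := by
            apply mul_le_mul (hf _) (mul_le_mul_of_nonneg_left h4 (norm_nonneg _)) _ zero_le_one
            exact mul_nonneg (norm_nonneg _) (prod_nonneg fun _ _ => norm_nonneg _)
        _ = _ := by ring
    · have e1 : ind (fun n => n % Q = r % Q) n = 0 := by unfold Pool.Agent.Y958.TC.ind; rw [if_neg hn]
      rw [e1, Complex.ofReal_zero, norm_zero, zero_mul, zero_mul]
  refine (sum_le_sum h3).trans ?_
  rw [← sum_filter]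
  have h4 : ∑ n ∈ (Icc 1 N).filter (fun n => n % Q = r % Q), ‖g i (n + h i.succ)‖ =
      ∑ m ∈ ((Icc 1 N).filter (fun n => n % Q = r % Q)).image (fun n => n / Q),
        ‖g i (Q * m + (r % Q + h i.succ))‖ := by
    rw [sum_image]
    · apply sum_congr rfl
      intro n hn
      rw [mem_filter] at hn
      congr 2
      have h5 := Nat.div_add_mod n Q
      rw [hn.2] at h5
      omega
    · intro n hn m hm hnm
      rw [mem_coe, mem_filter] at hn hm
      have h5 := Nat.div_add_mod n Q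
      have h6 := Nat.div_add_mod m Q
      simp only at hnm
      rw [← h5, ← h6, hnm, hn.2, hm.2]
  rw [h4]
  apply sum_le_sum_of_subset_of_nonneg
  · intro m hm
    rw [mem_image] at hm
    obtain ⟨n, hn, rfl⟩ := hm
    rw [mem_filter, mem_Icc] at hn
    rw [mem_range]
    have := Nat.div_le_div_right (c := Q) hn.1.2
    omega
  · intro m _ _
    exact norm_nonneg _

/-- rapidly increasing blocks `[P j, P (j + 1))` and windows `(y j, x j]` well inside the blocks -/
structure Blocks (P y x : ℕ → ℕ) : Prop where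
  mono : StrictMono P
  one : ∀ m, 1 ≤ P m
  low : ∀ m, (m + 1) * P m ≤ y m
  win : ∀ m, (m + 1) * y m ≤ x m
  up : ∀ m, (m + 2) * (x m + 1) ≤ P (m + 1)

lemma Blocks.ratio {P y x : ℕ → ℕ} (h : Blocks P y x) : Tendsto (fun m => (x m : ℝ) / y m) atTop atTop := by
  apply tendsto_atTop_mono (f := fun m : ℕ => (m : ℝ) + 1)
  · intro m
    have h1 : 1 ≤ y m := by
      have h2 := h.one m
      have h3 := h.low m
      have h4 : P m ≤ (m + 1) * P m := Nat.le_mul_of_pos_left _ (by omega)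
      omega
    have hy'0 : (0 : ℝ) < y m := by exact_mod_cast h1
    rw [le_div_iff₀ hy'0]
    exact_mod_cast h.win m
  · exact tendsto_atTop_add_const_right _ _ tendsto_natCast_atTop_atTop

lemma Blocks.y1 {P y x : ℕ → ℕ} (h : Blocks P y x) (m : ℕ) : 1 ≤ y m := by
  have h2 := h.one m
  have h3 := h.low m
  have h4 : P m ≤ (m + 1) * P m := Nat.le_mul_of_pos_left _ (by omega)
  omega

/-- the two point condition for a function of the blocks -/
def E2P (m r : ℕ) (δ₀ : ℝ) (y x : ℕ → ℕ) (F : ℕ → ℂ) : Prop :=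
  ∀ (V : ℕ → Prop) (A : ℕ), 1 ≤ A → (∀ n, V (n + A) ↔ V n) → 0 < dv V A → ∀ s' R : ℕ, 1 ≤ R →
    ∃ E' : Set ℕ, NW y x E' ∧ ∀ W : ℕ, ∃ N₀ : ℕ, ∀ N, (∃ j, y j < N ∧ N ≤ x j) → N₀ ≤ N → ∀ M, N ≤ M →
      M ≤ W * N → M ∉ E' →
      ‖AvC M (fun n => (ind V n : ℂ) * (F (n + s') ^ r * (starRingEnd ℂ) (F (n + s' + R) ^ r)))‖ ≤
        (1 - δ₀) * dv V A

open Classical in
theorem blockM (d m q : ℕ) [hq' : Fact q.Prime] (hm0 : 1 ≤ m) (hqm : q ∣ m) (δ₀ : ℝ)
    (hδ₀ : 0 < δ₀) (hδ₁ : δ₀ ≤ 1) : ∃ c : ℝ, 0 < c ∧ c < 1 ∧ ∀ h : Fin (d + 1) → ℕ, Function.Injective h →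
    ∀ Q r : ℕ, 1 ≤ Q → ∃ Tz : ℕ → ℕ, ∀ P y x : ℕ → ℕ, Blocks P y x → (∀ j, 1 ≤ j → Tz j ≤ P j) →
      ∀ (fm : ℕ → ℕ → ℂ), (∀ j, CR m (fm j)) → ∀ (gm : ℕ → Fin d → ℕ → ℂ), (∀ j i, BM (gm j i)) →
      E2P m (m / q) δ₀ y x (fun n => fm (bl P n) n) → ∀ η : ℝ, 0 < η → ∃ J : ℕ, ∀ j : ℕ, J ≤ j →
      ∑ N ∈ Ioc (y j) (x j), (if (1 - c) * ((N : ℝ) / Q) < ‖Sc h (fm j) (gm j) Q r N‖ then (1 : ℝ) / N else 0) ≤
        η * Real.log ((x j : ℝ) / y j) := by
  obtain ⟨c, hc0, hc1, hU⟩ := mainC d m q hm0 hqm δ₀ hδ₀ hδ₁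
  refine ⟨c / 2, by positivity, by linarith, fun h hinj Q r hQ => ?_⟩
  have hQ0 : (0 : ℝ) < Q := by exact_mod_cast hQ
  have hd0 : (0 : ℝ) < (d : ℝ) + 1 := by positivity
  set τ : ℝ := c / ((d : ℝ) + 1) with hτ
  have hτ0 : 0 < τ := by positivity
  have hτ1 : τ < 1 := by
    rw [hτ, div_lt_one hd0]
    have : (0 : ℝ) ≤ d := Nat.cast_nonneg _
    linarith
  have hτd : (d : ℝ) * τ ≤ c := by
    rw [hτ, mul_div_assoc', div_le_iff₀ hd0]
    nlinarith
  obtain ⟨K, hK⟩ := Pool.Agent.Y220.EL.tkl τ hτ0 hτ1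
  -- the thresholds of the dichotomy
  have hT : ∀ z : ℕ, ∃ N₀ : ℕ, ∀ i : Fin d, ∀ g : ℕ → ℂ, BM g →
      K ≤ ∑ p ∈ (Icc 1 z).filter (fun p => p.Prime ∧ ¬ p ∣ Q ∧ ‖g p‖ < 1 - τ), 1 / (p : ℝ) →
      ∀ N : ℕ, N₀ ≤ N → ∑ n ∈ range N, ‖g (Q * n + (r % Q + h i.succ))‖ ≤ N / 2 := by
    intro z
    have h1 : ∀ i : Fin d, ∃ N₀ : ℕ, ∀ g : ℕ → ℂ, BM g →
      K ≤ ∑ p ∈ (Icc 1 z).filter (fun p => p.Prime ∧ ¬ p ∣ Q ∧ ‖g p‖ < 1 - τ), 1 / (p : ℝ) →
      ∀ N : ℕ, N₀ ≤ N → ∑ n ∈ range N, ‖g (Q * n + (r % Q + h i.succ))‖ ≤ N / 2 :=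
      fun i => hK Q (r % Q + h i.succ) z hQ
    choose N₀ hN₀ using h1
    refine ⟨∑ i, N₀ i, fun i g hg hKg N hN => hN₀ i g hg hKg N (le_trans ?_ hN)⟩
    exact single_le_sum (f := N₀) (fun _ _ => Nat.zero_le _) (mem_univ i)
  choose Tz hTz using hT
  refine ⟨fun j => Tz j * Q, fun P y x hBl hPT fm hfm gm hgBM hE2 η hη => ?_⟩
  have hPmono := hBl.mono
  have hP1 := hBl.one
  have hy'1 := hBl.y1
  have hxP := hBl.up
  have hfn : ∀ j n, ‖fm j n‖ = 1 := fun j n => ru_norm (by omega) ((hfm j).pow n)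
  set F0 : ℕ → ℂ := fun n => fm (bl P n) n with hF0
  have hF0n : ∀ n, ‖F0 n‖ = 1 := fun n => hfn _ _
  set F : Fin d → ℕ → ℂ := fun i n => gm (bl P n) i n with hF
  have hF1 : ∀ i n, ‖F i n‖ ≤ 1 := fun i n => (hgBM (bl P n) i).1 n
  have hbm : ∀ m n, P m ≤ n → n < P (m + 1) → bl P n = m := fun m n h1 h2 => bl_eq hPmono h1 h2
  set good : ℕ → Prop := fun m => ∀ i : Fin d, ∑ p ∈ (Icc 1 m).filter
    (fun p => p.Prime ∧ ¬ p ∣ Q ∧ ‖gm m i p‖ < 1 - τ), 1 / (p : ℝ) < K with hgood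
  set V : ℕ → Prop := fun n => n % Q = r % Q with hV
  have hVp : ∀ n, V (n + Q) ↔ V n := fun n => by
    simp only [hV, Nat.add_mod_right]
  have hdv : dv V Q = 1 / Q := dv_class Q r hQ
  set H : ℕ := ∑ i, h i with hHd
  have hhH : ∀ i, h i ≤ H := fun i => single_le_sum (f := h) (fun _ _ => Nat.zero_le _) (mem_univ i)
  obtain ⟨m₀, hm₀⟩ := exists_nat_ge (6 * Q / c + Q / (1 - c) + H + 1)
  have hm₀H : H ≤ m₀ := by
    have h1 : (0 : ℝ) ≤ 6 * Q / c := by positivity
    have h2 : (0 : ℝ) ≤ Q / (1 - c) := div_nonneg hQ0.le (by linarith)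
    exact_mod_cast (by linarith : (H : ℝ) ≤ m₀)
  have hm₀1 : 1 ≤ m₀ := by
    have h1 : (0 : ℝ) ≤ 6 * Q / c := by positivity
    have h2 : (0 : ℝ) ≤ Q / (1 - c) := div_nonneg hQ0.le (by linarith)
    have h3 : (0 : ℝ) ≤ H := Nat.cast_nonneg _
    exact_mod_cast (by linarith : (1 : ℝ) ≤ m₀)
  set E : Set ℕ := {N | (1 - c) * dv V Q < ‖AvC N (psC F0 V F h)‖ ∧
    ∃ m, m₀ ≤ m ∧ good m ∧ y m < N ∧ N ≤ x m} with hE
  set Bad : ℕ → Set ℕ := fun M => {p | good (bl P M) ∧ p ≤ bl P M ∧ ¬ p ∣ Q ∧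
    ∃ i, ‖gm (bl P M) i p‖ < 1 - τ} with hBad
  set s : ℕ → ℕ → ℂ := fun M p => if good (bl P M) ∧ p ≤ bl P M ∧ ¬ p ∣ Q then
    fm (bl P M) p * ∏ i, gm (bl P M) i p else 1 with hs
  have hLy : ∀ m, P m ≤ y m := fun m => le_trans (Nat.le_mul_of_pos_left _ (by omega)) (hBl.low m)
  -- the sums of the glued functions
  have hcmp : ∀ m N, m₀ ≤ m → y m < N → N ≤ x m →
      ‖∑ n ∈ range N, psC F0 V F h n - Sc h (fm m) (gm m) Q r N‖ ≤ 3 * P m := by
    intro m N hm hN1 hN2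
    have hPN : P m ≤ N := by
      have h1 := hLy m
      omega
    have hterm : ∀ n ∈ Ico (P m) N, psC F0 V F h n = psC (fm m) V (gm m) h n := by
      intro n hn
      rw [mem_Ico] at hn
      have hb : ∀ j, bl P (n + h j) = m := fun j => hbm m (n + h j) (by omega) (by
        have h1 := hhH j
        have h2 := hxP m
        have h3 : (m + 2) * (x m + 1) = x m + 1 + (m + 1) * (x m + 1) := by ring
        have h4 : m + 1 ≤ (m + 1) * (x m + 1) := Nat.le_mul_of_pos_right _ (by omega)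
        omega)
      unfold psC
      simp only [hF0, hF]
      rw [hb 0]
      congr 1
      apply prod_congr rfl
      intro i _
      rw [hb i.succ]
    have h1 : ∑ n ∈ range N, psC F0 V F h n = ∑ n ∈ range (P m), psC F0 V F h n +
        ∑ n ∈ Ico (P m) N, psC (fm m) V (gm m) h n := by
      rw [← sum_range_add_sum_Ico _ hPN]
      congr 1
      exact sum_congr rfl hterm
    have h2 : Sc h (fm m) (gm m) Q r N = ∑ n ∈ Ico 1 (P m), psC (fm m) V (gm m) h n +
        (∑ n ∈ Ico (P m) N, psC (fm m) V (gm m) h n + psC (fm m) V (gm m) h N) := by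
      unfold Sc
      have e : Icc 1 N = Ico 1 (N + 1) := by
        ext n; simp only [mem_Icc, mem_Ico]; omega
      rw [e, ← sum_Ico_consecutive _ (hP1 m) (by omega : P m ≤ N + 1), sum_Ico_succ_top hPN]
    have e : ∑ n ∈ range N, psC F0 V F h n - Sc h (fm m) (gm m) Q r N =
        ∑ n ∈ range (P m), psC F0 V F h n - ∑ n ∈ Ico 1 (P m), psC (fm m) V (gm m) h n -
          psC (fm m) V (gm m) h N := by
      rw [h1, h2]; ring
    rw [e]
    have hps1 : ∀ n, ‖psC F0 V F h n‖ ≤ 1 := psC_le1 h F0 (fun n => (hF0n n).le) F hF1 V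
    have htm1 : ∀ n, ‖psC (fm m) V (gm m) h n‖ ≤ 1 :=
      psC_le1 h (fm m) (fun n => (hfn m n).le) (gm m) (fun i n => (hgBM m i).1 n) V
    have h3 : ‖∑ n ∈ range (P m), psC F0 V F h n‖ ≤ P m := by
      refine (norm_sum_le _ _).trans ((sum_le_sum fun n _ => hps1 n).trans (le_of_eq ?_))
      simp
    have h4 : ‖∑ n ∈ Ico 1 (P m), psC (fm m) V (gm m) h n‖ ≤ P m := by
      refine (norm_sum_le _ _).trans ((sum_le_sum fun n _ => htm1 n).trans ?_)
      rw [sum_const, Nat.card_Ico, nsmul_eq_mul, mul_one]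
      exact_mod_cast Nat.sub_le _ _
    have h5 := norm_sub_le (∑ n ∈ range (P m), psC F0 V F h n - ∑ n ∈ Ico 1 (P m), psC (fm m) V (gm m) h n)
      (psC (fm m) V (gm m) h N)
    have h6 := norm_sub_le (∑ n ∈ range (P m), psC F0 V F h n) (∑ n ∈ Ico 1 (P m), psC (fm m) V (gm m) h n)
    have h7 := htm1 N
    have h8 : (1 : ℝ) ≤ P m := by exact_mod_cast hP1 m
    linarith
  -- bad scales of the blocks belong to `E`
  have hbadE : ∀ m N, m₀ ≤ m → y m < N → N ≤ x m → (1 - c / 2) * ((N : ℝ) / Q) < ‖Sc h (fm m) (gm m) Q r N‖ →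
      N ∈ E := by
    intro m N hm hN1 hN2 hN3
    have hLN : (m + 1) * P m < N := lt_of_le_of_lt (hBl.low m) hN1
    have hN0 : (0 : ℝ) < N := by exact_mod_cast (by omega : 0 < N)
    have hmm : (m₀ : ℝ) ≤ m := by exact_mod_cast hm
    refine ⟨?_, m, hm, ?_, hN1, hN2⟩
    · rw [hdv]
      unfold AvC
      rw [norm_div, Complex.norm_natCast, lt_div_iff₀ hN0]
      have h1 := hcmp m N hm hN1 hN2
      have h2 : ‖Sc h (fm m) (gm m) Q r N‖ - 3 * P m ≤ ‖∑ n ∈ range N, psC F0 V F h n‖ := by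
        have h3 := norm_sub_norm_le (Sc h (fm m) (gm m) Q r N) (∑ n ∈ range N, psC F0 V F h n)
        rw [norm_sub_rev] at h3
        linarith
      have h3 : ((m : ℝ) + 1) * P m ≤ N := by
        have : (m + 1) * P m ≤ N := hLN.le
        exact_mod_cast this
      have h4 : 6 * Q / c ≤ (m : ℝ) + 1 := by
        have h5 : (0 : ℝ) ≤ Q / (1 - c) := div_nonneg hQ0.le (by linarith)
        have h6 : (0 : ℝ) ≤ H := Nat.cast_nonneg _
        linarith
      have h5 : 3 * (P m : ℝ) ≤ c / 2 * ((N : ℝ) / Q) := by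
        have hPm : (0 : ℝ) ≤ P m := Nat.cast_nonneg _
        have h6 : 6 * Q / c * P m ≤ N := (mul_le_mul_of_nonneg_right h4 hPm).trans h3
        have h7 : 6 * Q * P m ≤ N * c := by
          have := mul_le_mul_of_nonneg_right h6 hc0.le
          refine le_trans (le_of_eq ?_) this
          field_simp
        rw [mul_div_assoc', le_div_iff₀ hQ0]
        linarith
      have h6 : (1 - c) * (1 / (Q : ℝ)) * N = (1 - c / 2) * ((N : ℝ) / Q) - c / 2 * ((N : ℝ) / Q) := by ring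
      rw [h6]
      linarith
    · by_contra hng
      simp only [hgood] at hng
      push Not at hng
      obtain ⟨i, hi⟩ := hng
      have h1 := hTz m i (gm m i) (hgBM m i) hi (N / Q + 1) (by
        have h2 : Tz m * Q ≤ N := by
          have h3 : Tz m * Q ≤ P m := hPT m (by omega)
          have h4 := hLy m
          omega
        have h3 : Tz m ≤ N / Q := (Nat.le_div_iff_mul_le (by omega)).2 h2
        omega)
      have h2 := Sc_small h (fm m) (fun n => (hfn m n).le) (gm m) (fun i n => (hgBM m i).1 n) Q r N hQ i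
      have h3 := hN3.trans_le (h2.trans h1)
      push_cast at h3
      have h4 : ((N / Q : ℕ) : ℝ) ≤ N / Q := Nat.cast_div_le
      have h5 : (Q : ℝ) / (1 - c) ≤ N := by
        have h6 : (0 : ℝ) ≤ 6 * Q / c := by positivity
        have h7 : (0 : ℝ) ≤ H := Nat.cast_nonneg _
        have h8 : (m : ℝ) ≤ N := by
          have h9 : m + 1 ≤ (m + 1) * P m := Nat.le_mul_of_pos_right _ (hP1 m)
          exact_mod_cast (by omega : m ≤ N)
        linarith
      rw [div_le_iff₀ (by linarith)] at h5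
      have h6 : 1 ≤ (N : ℝ) / Q * (1 - c) := by
        rw [div_mul_eq_mul_div, le_div_iff₀ hQ0, one_mul]
        exact h5
      nlinarith
  have hratio := hBl.ratio
  have hNull : NullId (NW y x) := Pool.Agent.Y434.E.Nwi.nwi Pool.Agent.Y304.U.pw y x hy'1 hratio
  have hfin := hU (NW y x) hNull F0 F0 (fun n => (hfm _).pow n) (fun n => (hF0n n).le) V Q hQ hVp
    (by rw [hdv]; positivity) h hinj F F hF1 hF1 Bad s (d * |K|)
    (by
      intro M p
      simp only [hs]
      split_ifs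
      · rw [norm_mul, norm_prod, hfn, one_mul]
        exact prod_le_one (fun i _ => norm_nonneg _) fun i _ => (hgBM _ i).1 _
      · simp)
    (by
      intro M p hp
      simp only [hs]
      split_ifs with hpA
      · have h2 : ∀ i, 1 - τ ≤ ‖gm (bl P M) i p‖ := by
          intro i
          by_contra hcon
          exact hp ⟨hpA.1, hpA.2.1, hpA.2.2, i, not_le.1 hcon⟩
        rw [norm_mul, norm_prod, hfn, one_mul]
        have h3 : (1 - τ) ^ d ≤ ∏ i : Fin d, ‖gm (bl P M) i p‖ := by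
          calc (1 - τ) ^ d = ∏ _i : Fin d, (1 - τ) := by simp
            _ ≤ ∏ i : Fin d, ‖gm (bl P M) i p‖ := prod_le_prod (fun i _ => by linarith) fun i _ => h2 i
        have h4 := one_add_mul_le_pow (show (-2 : ℝ) ≤ -τ by linarith) d
        have h5 : (1 : ℝ) + d * -τ = 1 - d * τ := by ring
        rw [h5] at h4
        have h6 : (1 : ℝ) + -τ = 1 - τ := by ring
        rw [h6] at h4
        linarith
      · simp; linarith)
    (by
      intro M X
      by_cases hgd : good (bl P M)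
      · have h2 : ∑ p ∈ (Icc 1 X).filter (fun p => p.Prime ∧ p ∈ Bad M), (1 : ℝ) / p ≤
            ∑ i : Fin d, ∑ p ∈ (Icc 1 (bl P M)).filter
              (fun p => p.Prime ∧ ¬ p ∣ Q ∧ ‖gm (bl P M) i p‖ < 1 - τ), 1 / (p : ℝ) := by
          have h3 : (Icc 1 X).filter (fun p => p.Prime ∧ p ∈ Bad M) ⊆
              (Icc 1 (bl P M)).filter (fun p => p.Prime ∧ p ∈ Bad M) := by
            intro p hp
            rw [mem_filter, mem_Icc] at hp ⊢
            exact ⟨⟨hp.1.1, hp.2.2.2.1⟩, hp.2⟩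
          refine (sum_le_sum_of_subset_of_nonneg h3 fun p _ _ => by positivity).trans ?_
          simp only [sum_filter]
          rw [sum_comm]
          apply sum_le_sum
          intro p _
          split_ifs with hp
          · obtain ⟨hpp, _, _, hpA, i, hi⟩ := hp
            refine le_trans ?_ (single_le_sum (f := fun i : Fin d => if p.Prime ∧ ¬ p ∣ Q ∧
              ‖gm (bl P M) i p‖ < 1 - τ then 1 / (p : ℝ) else 0) (fun i _ => by split_ifs <;> positivity) (mem_univ i))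
            rw [if_pos ⟨hpp, hpA, hi⟩]
          · exact sum_nonneg fun i _ => by split_ifs <;> positivity
        have h3 : ∑ i : Fin d, ∑ p ∈ (Icc 1 (bl P M)).filter
              (fun p => p.Prime ∧ ¬ p ∣ Q ∧ ‖gm (bl P M) i p‖ < 1 - τ), 1 / (p : ℝ) ≤ ∑ i : Fin d, |K| :=
          sum_le_sum fun i _ => (hgd i).le.trans (le_abs_self K)
        have h4 : ∑ i : Fin d, |K| = d * |K| := by
          rw [sum_const, card_univ, Fintype.card_fin, nsmul_eq_mul]
        exact le_of_eq_of_le (by congr!) ((h2.trans h3).trans (le_of_eq h4))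
      · have h2 : (Icc 1 X).filter (fun p => p.Prime ∧ p ∈ Bad M) = ∅ := by
          rw [filter_eq_empty_iff]
          rintro p _ ⟨_, hp⟩
          exact hgd hp.1
        refine le_of_eq_of_le (b := 0) ?_ (by positivity)
        rw [← sum_empty (f := fun p : ℕ => (1 : ℝ) / p), ← h2]
        congr!)
    E
    (by
      intro R hR
      obtain ⟨E', hE'1, hE'2⟩ := hE2 V Q hQ hVp (by rw [hdv]; positivity) (h 0) R hR
      refine ⟨E', hE'1, fun W => ?_⟩
      obtain ⟨N₀, hN₀⟩ := hE'2 W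
      refine ⟨N₀, fun N hN hNN M h1 h2 h3 => ?_⟩
      obtain ⟨-, j, -, -, hj1, hj2⟩ := hN
      exact hN₀ N ⟨j, hj1, hj2⟩ hNN M h1 h2 h3)
    (by
      intro W
      refine ⟨P (m₀ + W + W * H + 1), fun N hN hNW M hNM hMW p hp hpW hpQ hpB k hMk hpk hk => ?_⟩
      obtain ⟨-, m, hm, hgd, hN1, hN2⟩ := hN
      have hxPm := hxP m
      have hmW : W + W * H + 1 ≤ m := by
        by_contra hc
        push Not at hc
        have h1 := hPmono.monotone (by omega : m + 1 ≤ m₀ + W + W * H + 1)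
        have h2 : x m < P (m + 1) := by
          have h3 : x m + 1 ≤ (m + 2) * (x m + 1) := Nat.le_mul_of_pos_left _ (by omega)
          omega
        omega
      have hLN : (m + 1) * P m < N := lt_of_le_of_lt (hBl.low m) hN1
      have hPL : P m ≤ (m + 1) * P m := Nat.le_mul_of_pos_left _ (by omega)
      have hMx : M ≤ W * x m := hMW.trans (Nat.mul_le_mul_left _ hN2)
      have hbound : W * x m + W * H < P (m + 1) := by
        refine lt_of_lt_of_le ?_ hxPm
        have h1 : W * x m ≤ m * x m := Nat.mul_le_mul_right _ (by omega)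
        have h2 : (m + 2) * (x m + 1) = m * x m + 2 * x m + m + 2 := by ring
        omega
      have hW0 : 1 ≤ W := hp.one_le.trans hpW
      have hbM : bl P M = m := hbm m M (by omega) (by omega)
      have hk1 : P m ≤ k := by
        have h1 : (m + 1) * P m ≤ W * k := by omega
        have h2 : W * P m ≤ W * k := by
          refine le_trans ?_ h1
          exact Nat.mul_le_mul_right _ (by omega)
        exact Nat.le_of_mul_le_mul_left h2 hW0
      have hpk2 : ∀ i, p * (k + h i) < P (m + 1) := by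
        intro i
        have h1 : p * (k + h i) = p * k + p * h i := by ring
        have h2 : p * h i ≤ W * H := Nat.mul_le_mul hpW (hhH i)
        omega
      have hk2 : ∀ i, k + h i ≤ p * (k + h i) := fun i => Nat.le_mul_of_pos_left _ hp.pos
      have hpm : p ≤ m := by omega
      have hpQ' := prime_ndvd hp hpQ
      have hb1 : ∀ i, bl P (p * (k + h i)) = m := fun i =>
        hbm m (p * (k + h i)) (by have := hk2 i; omega) (hpk2 _)
      have hb2 : ∀ i, bl P (k + h i) = m := fun i =>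
        hbm m (k + h i) (by omega) (lt_of_le_of_lt (hk2 _) (hpk2 _))
      have hk0 : ∀ i, k + h i ≠ 0 := fun i => by have := hP1 m; omega
      simp only [hs]
      rw [hbM, if_pos ⟨hgd, hpm, hpQ'⟩]
      have e1 : ∏ i : Fin d, F i (p * (k + h i.succ)) =
          (∏ i, gm m i p) * ∏ i : Fin d, F i (k + h i.succ) := by
        rw [← prod_mul_distrib]
        apply prod_congr rfl
        intro i _
        simp only [hF]
        rw [hb1, hb2]
        apply (hgBM m i).2 p _ hp.one_le (Nat.one_le_iff_ne_zero.2 (hk0 _))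
        rw [Nat.Prime.coprime_iff_not_dvd hp]
        exact hk _
      have e2 : F0 (p * (k + h 0)) = fm m p * F0 (k + h 0) := by
        simp only [hF0]
        rw [hb1, hb2]
        exact (hfm m).mul p _ hp.ne_zero (hk0 _)
      rw [e1, e2]
      ring)
    (fun N hN => hN.1)
  -- conclusion
  have hev := hfin.eventually_lt_const (show (0 : ℝ) < η by positivity)
  obtain ⟨J, hJ⟩ := eventually_atTop.1 (hev.and ((eventually_ge_atTop m₀).and (hratio.eventually_gt_atTop 1)))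
  refine ⟨J, fun j hj => ?_⟩
  obtain ⟨hm1, hm2, hm3⟩ := hJ j hj
  have h2 : 0 < Real.log ((x j : ℝ) / y j) := Real.log_pos hm3
  rw [div_lt_iff₀ h2] at hm1
  refine le_trans (sum_le_sum fun N hN => ?_) hm1.le
  rw [mem_Ioc] at hN
  split_ifs with h3 h4 h4
  · exact le_rfl
  · exact absurd (hbadE j N hm2 hN.1 hN.2 h3) h4
  · positivity
  · exact le_rfl

end Pool.Agent.R512.U
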