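import Pool.Agent.Helper601.Mertens

/-!
Library R512.U (helper512): means of nonnegative multiplicative functions bounded by one and away from one at the
primes.
-/

set_option autoImplicit false

namespace Pool.Agent.R512.U

open Finset Filter Topology

lemma pi_small (ε : ℝ) (hε : 0 < ε) : ∃ N₀ : ℕ, ∀ N : ℕ, N₀ ≤ N →
    (((Icc 1 N).filter Nat.Prime).card : ℝ) ≤ ε * N := by
  classical
  obtain ⟨W, hW⟩ : ∃ W : ℕ, W = ⌈Real.exp (4 / ε)⌉₊ + 1 := ⟨_, rfl⟩
  have hW1 : 1 ≤ W := by omega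
  have hW0 : (0 : ℝ) < W := by exact_mod_cast hW1
  have hlW : 4 / ε ≤ Real.log W := by
    rw [Real.le_log_iff_exp_le hW0]
    refine (Nat.le_ceil _).trans ?_
    rw [hW]
    push_cast
    linarith
  have hlW0 : 0 < Real.log W := lt_of_lt_of_le (by positivity) hlW
  refine ⟨⌈2 * W / ε⌉₊, fun N hN => ?_⟩
  have hN' : 2 * (W : ℝ) / ε ≤ N := (Nat.le_ceil _).trans (by exact_mod_cast hN)
  rw [div_le_iff₀ hε] at hN'
  have h1 : (((Icc 1 N).filter Nat.Prime).card : ℝ) ≤ W +
      (((Icc 1 N).filter Nat.Prime).filter (fun p => W < p)).card := by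
    have h2 := Finset.card_filter_add_card_filter_not (s := (Icc 1 N).filter Nat.Prime) (fun p => W < p)
    have h3 : (((Icc 1 N).filter Nat.Prime).filter (fun p => ¬ W < p)).card ≤ W := by
      calc (((Icc 1 N).filter Nat.Prime).filter (fun p => ¬ W < p)).card ≤ (Icc 1 W).card := by
            apply card_le_card
            intro p hp
            rw [mem_filter, mem_filter, mem_Icc] at hp
            rw [mem_Icc]
            omega
        _ = W := by simp
    have h4 : ((Icc 1 N).filter Nat.Prime).card ≤ W + (((Icc 1 N).filter Nat.Prime).filter (fun p => W < p)).card := by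
      omega
    exact_mod_cast h4
  have h2 : ((((Icc 1 N).filter Nat.Prime).filter (fun p => W < p)).card : ℝ) * Real.log W ≤ 2 * N := by
    have h3 := Pool.Agent.Helper601.Mertens.theta_le N
    have h4 : ∑ p ∈ ((Icc 1 N).filter Nat.Prime).filter (fun p => W < p), Real.log W ≤
        ∑ p ∈ (Icc 1 N).filter Nat.Prime, Real.log p := by
      refine (sum_le_sum (g := fun p : ℕ => Real.log p) fun p hp => ?_).trans
        (sum_le_sum_of_subset_of_nonneg (filter_subset _ _) fun p hp _ => ?_)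
      · rw [mem_filter] at hp
        exact Real.log_le_log hW0 (by exact_mod_cast hp.2.le)
      · rw [mem_filter, mem_Icc] at hp
        exact Real.log_nonneg (by exact_mod_cast hp.1.1)
    rw [sum_const, nsmul_eq_mul] at h4
    exact h4.trans h3
  have h3 : ((((Icc 1 N).filter Nat.Prime).filter (fun p => W < p)).card : ℝ) ≤ ε / 2 * N := by
    set C : ℝ := ((((Icc 1 N).filter Nat.Prime).filter (fun p => W < p)).card : ℝ) with hC
    have hC0 : 0 ≤ C := Nat.cast_nonneg _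
    have h4 : C * (4 / ε) ≤ 2 * N := (mul_le_mul_of_nonneg_left hlW hC0).trans h2
    have h5 : C * (4 / ε) = C * 4 / ε := by ring
    rw [h5, div_le_iff₀ hε] at h4
    linarith
  linarith

/-- at the primes dividing exactly once -/
lemma le_prod_ex (g : ℕ → ℝ) (hg0 : ∀ n, 0 ≤ g n)
    (hmul : ∀ m n : ℕ, 1 ≤ m → 1 ≤ n → Nat.Coprime m n → g (m * n) = g m * g n) (hg1 : ∀ n, g n ≤ 1) (S : Finset ℕ) :
    (∀ p ∈ S, p.Prime) → ∀ n : ℕ, 1 ≤ n → (∀ p ∈ S, p ∣ n ∧ ¬ p ^ 2 ∣ n) → g n ≤ ∏ p ∈ S, g p := by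
  classical
  refine Finset.induction_on S ?_ ?_
  · intro _ n _ _
    rw [prod_empty]
    exact hg1 n
  · intro p S hpS ih hS n hn hex
    obtain ⟨⟨m, hm⟩, hp2⟩ := hex p (mem_insert_self _ _)
    have hpp := hS p (mem_insert_self _ _)
    have hm1 : 1 ≤ m := by
      rcases Nat.eq_zero_or_pos m with h | h
      · rw [h, mul_zero] at hm; omega
      · exact h
    have hpm : ¬ p ∣ m := by
      rintro ⟨k, hk⟩
      apply hp2
      rw [hm, hk, pow_two, ← mul_assoc]
      exact dvd_mul_right _ _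
    have hcop : Nat.Coprime p m := (Nat.Prime.coprime_iff_not_dvd hpp).2 hpm
    rw [prod_insert hpS, hm, hmul p m hpp.one_le hm1 hcop]
    apply mul_le_mul_of_nonneg_left _ (hg0 p)
    apply ih (fun q hq => hS q (mem_insert_of_mem hq)) m hm1
    intro q hq
    have hqp := hS q (mem_insert_of_mem hq)
    obtain ⟨h1, h2⟩ := hex q (mem_insert_of_mem hq)
    have hne : q ≠ p := fun h => hpS (h ▸ hq)
    constructor
    · rw [hm] at h1
      rcases (Nat.Prime.dvd_mul hqp).1 h1 with h3 | h3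
      · exact absurd ((Nat.prime_dvd_prime_iff_eq hqp hpp).1 h3) hne
      · exact h3
    · intro h3
      apply h2
      rw [hm]
      exact Dvd.dvd.mul_left h3 _

lemma bonf {ι : Type*} (S : Finset ι) (a : ι → ℝ) : (∀ i ∈ S, 0 ≤ a i ∧ a i ≤ 1) →
    ∏ i ∈ S, (1 - a i) ≤ 1 - ∑ i ∈ S, a i + (∑ i ∈ S, a i) ^ 2 / 2 := by
  classical
  refine Finset.induction_on S ?_ ?_
  · intro _
    simp
  · intro i S hiS ih h
    rw [prod_insert hiS, sum_insert hiS]
    have h1 := ih (fun j hj => h j (mem_insert_of_mem hj))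
    have h2 := h i (mem_insert_self _ _)
    set P := ∏ j ∈ S, (1 - a j)
    set T := ∑ j ∈ S, a j
    have h3 : (1 - a i) * P ≤ (1 - a i) * (1 - T + T ^ 2 / 2) := mul_le_mul_of_nonneg_left h1 (by linarith)
    have h4 : 0 ≤ a i * T ^ 2 := mul_nonneg h2.1 (sq_nonneg _)
    nlinarith [sq_nonneg (a i)]

lemma card_dvd (N d : ℕ) (hd : 0 < d) : (((Icc 1 N).filter (fun n => d ∣ n)).card : ℝ) ≤ (N : ℝ) / d ∧
    (N : ℝ) / d - 1 ≤ (((Icc 1 N).filter (fun n => d ∣ n)).card : ℝ) := by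
  have h1 : ((Icc 1 N).filter (fun n => d ∣ n)).card = N / d := by
    have h2 : (Icc 1 N).filter (fun n => d ∣ n) = (Ioc 0 N).filter (fun n => d ∣ n) := rfl
    rw [h2, Nat.Ioc_filter_dvd_card_eq_div]
  rw [h1]
  have hd0 : (0 : ℝ) < d := by exact_mod_cast hd
  constructor
  · exact Nat.cast_div_le
  · have h2 : N < d * (N / d + 1) := Nat.lt_mul_div_succ _ hd
    have h3 : (N : ℝ) < d * ((N / d : ℕ) + 1) := by exact_mod_cast h2
    rw [tsub_le_iff_right, div_le_iff₀ hd0]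
    linarith

/-- the mean of `g` and the primes of a finite set -/
theorem mean_bonf (g : ℕ → ℝ) (hg0 : ∀ n, 0 ≤ g n) (hg1 : ∀ n, g n ≤ 1)
    (hmul : ∀ m n : ℕ, 1 ≤ m → 1 ≤ n → Nat.Coprime m n → g (m * n) = g m * g n) (S : Finset ℕ)
    (hS : ∀ p ∈ S, p.Prime) (N : ℕ) :
    ∑ n ∈ Icc 1 N, g n ≤ N * (1 - (∑ p ∈ S, (1 - g p) / p) / 2 + (∑ p ∈ S, (1 - g p) / p) ^ 2 / 2 +
      ∑ p ∈ S, 1 / (p : ℝ) ^ 2) + S.card := by
  classical
  set a : ℕ → ℝ := fun p => 1 - g p with ha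
  have ha0 : ∀ p, 0 ≤ a p := fun p => by have := hg1 p; simp only [ha]; linarith
  have ha1 : ∀ p, a p ≤ 1 := fun p => by have := hg0 p; simp only [ha]; linarith
  set D : ℝ := ∑ p ∈ S, a p / p with hD
  have hN0 : (0 : ℝ) ≤ N := Nat.cast_nonneg _
  -- pointwise
  set e : ℕ → ℕ → ℝ := fun p n => if p ∣ n ∧ ¬ p ^ 2 ∣ n then 1 else 0 with he
  have he1 : ∀ p n, e p n ≤ if p ∣ n then 1 else 0 := by
    intro p n
    simp only [he]
    split_ifs with h1 h2 h2
    · exact le_rfl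
    · exact absurd h1.1 h2
    · exact zero_le_one
    · exact le_rfl
  have he0 : ∀ p n, 0 ≤ e p n := by
    intro p n
    simp only [he]
    split_ifs <;> norm_num
  have hpt : ∀ n ∈ Icc 1 N, g n ≤ 1 - ∑ p ∈ S, a p * e p n + (∑ p ∈ S, a p * e p n) ^ 2 / 2 := by
    intro n hn
    rw [mem_Icc] at hn
    have h1 := le_prod_ex g hg0 hmul hg1 (S.filter (fun p => p ∣ n ∧ ¬ p ^ 2 ∣ n))
      (fun p hp => hS p (mem_filter.1 hp).1) n hn.1 (fun p hp => (mem_filter.1 hp).2)
    have h2 := bonf (S.filter (fun p => p ∣ n ∧ ¬ p ^ 2 ∣ n)) a (fun i _ => ⟨ha0 i, ha1 i⟩)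
    have h3 : ∑ p ∈ S.filter (fun p => p ∣ n ∧ ¬ p ^ 2 ∣ n), a p = ∑ p ∈ S, a p * e p n := by
      rw [sum_filter]
      apply sum_congr rfl
      intro p _
      simp only [he]
      split_ifs <;> simp
    rw [h3] at h2
    refine h1.trans (le_of_eq_of_le ?_ h2)
    apply prod_congr rfl
    intro p _
    simp only [ha]
    ring
  refine (sum_le_sum hpt).trans ?_
  rw [sum_add_distrib, sum_sub_distrib, ← sum_div]
  have h1 : ∑ n ∈ Icc 1 N, (1 : ℝ) = N := by simp
  -- the first moment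
  have h2 : N * D - N * (∑ p ∈ S, 1 / (p : ℝ) ^ 2) - S.card ≤ ∑ n ∈ Icc 1 N, ∑ p ∈ S, a p * e p n := by
    rw [sum_comm]
    have h3 : ∀ p ∈ S, N * (a p / p) - N * (1 / (p : ℝ) ^ 2) - 1 ≤ ∑ n ∈ Icc 1 N, a p * e p n := by
      intro p hp
      have hpp := hS p hp
      have hp0 : (0 : ℝ) < p := by exact_mod_cast hpp.pos
      rw [← mul_sum]
      have h4 : (((Icc 1 N).filter (fun n => p ∣ n)).card : ℝ) - (((Icc 1 N).filter (fun n => p ^ 2 ∣ n)).card : ℝ) ≤
          ∑ n ∈ Icc 1 N, e p n := by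
        rw [card_filter, card_filter]
        push_cast
        rw [← sum_sub_distrib]
        apply sum_le_sum
        intro n _
        simp only [he]
        by_cases h5 : p ∣ n
        · by_cases h6 : p ^ 2 ∣ n
          · simp [h5, h6]
          · simp [h5, h6]
        · have h6 : ¬ p ^ 2 ∣ n := fun h => h5 ((dvd_pow_self p two_ne_zero).trans h)
          simp [h5, h6]
      have h5 := (card_dvd N p hpp.pos).2
      have h6 := (card_dvd N (p ^ 2) (pow_pos hpp.pos 2)).1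
      push_cast at h6
      have h7 : (N : ℝ) / p - 1 - N / (p : ℝ) ^ 2 ≤ ∑ n ∈ Icc 1 N, e p n := by linarith
      have h8 : a p * ((N : ℝ) / p - 1 - N / (p : ℝ) ^ 2) ≤ a p * ∑ n ∈ Icc 1 N, e p n :=
        mul_le_mul_of_nonneg_left h7 (ha0 p)
      have h9 : a p * (1 + N / (p : ℝ) ^ 2) ≤ 1 * (1 + N / (p : ℝ) ^ 2) :=
        mul_le_mul_of_nonneg_right (ha1 p) (by positivity)
      have e1 : a p * ((N : ℝ) / p - 1 - N / (p : ℝ) ^ 2) = N * (a p / p) - a p * (1 + N / (p : ℝ) ^ 2) := by ring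
      have e2 : (N : ℝ) * (1 / (p : ℝ) ^ 2) = N / (p : ℝ) ^ 2 := by ring
      rw [e2]
      linarith
    refine le_trans (le_of_eq ?_) (sum_le_sum h3)
    rw [sum_sub_distrib, sum_sub_distrib, ← mul_sum, ← mul_sum]
    simp [hD]
  -- the second moment
  have h3 : ∑ n ∈ Icc 1 N, (∑ p ∈ S, a p * e p n) ^ 2 ≤ N * (D ^ 2 + D) := by
    have h4 : ∀ n ∈ Icc 1 N, (∑ p ∈ S, a p * e p n) ^ 2 ≤
        ∑ p ∈ S, ∑ q ∈ S, a p * a q * (if p ∣ n ∧ q ∣ n then 1 else 0) := by
      intro n _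
      rw [pow_two, sum_mul_sum]
      apply sum_le_sum
      intro p _
      apply sum_le_sum
      intro q _
      have h5 : e p n * e q n ≤ if p ∣ n ∧ q ∣ n then 1 else 0 := by
        have h6 := mul_le_mul (he1 p n) (he1 q n) (he0 q n) (by split_ifs <;> norm_num)
        refine h6.trans (le_of_eq ?_)
        by_cases h7 : p ∣ n <;> by_cases h8 : q ∣ n <;> simp [h7, h8]
      have h6 : a p * e p n * (a q * e q n) = a p * a q * (e p n * e q n) := by ring
      rw [h6]
      exact mul_le_mul_of_nonneg_left h5 (mul_nonneg (ha0 p) (ha0 q))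
    refine (sum_le_sum h4).trans ?_
    rw [sum_comm]
    have h5 : ∀ p ∈ S, ∑ n ∈ Icc 1 N, ∑ q ∈ S, a p * a q * (if p ∣ n ∧ q ∣ n then (1 : ℝ) else 0) ≤
        N * (a p / p * D + a p / p) := by
      intro p hp
      rw [sum_comm]
      have hpp := hS p hp
      have hp0 : (0 : ℝ) < p := by exact_mod_cast hpp.pos
      have h6 : ∀ q ∈ S, ∑ n ∈ Icc 1 N, a p * a q * (if p ∣ n ∧ q ∣ n then (1 : ℝ) else 0) ≤
          N * (a p / p * (a q / q)) + if q = p then N * (a p / p) else 0 := by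
        intro q hq
        have hqp := hS q hq
        have hq0 : (0 : ℝ) < q := by exact_mod_cast hqp.pos
        rw [← mul_sum]
        have h7 : ∑ n ∈ Icc 1 N, (if p ∣ n ∧ q ∣ n then (1 : ℝ) else 0) =
            (((Icc 1 N).filter (fun n => p ∣ n ∧ q ∣ n)).card : ℝ) := by
          rw [card_filter]
          push_cast
          rfl
        rw [h7]
        split_ifs with hqp'
        · subst hqp'
          have h8 := (card_dvd N q hqp.pos).1
          have h9 : (((Icc 1 N).filter (fun n => q ∣ n ∧ q ∣ n)).card : ℝ) ≤ N / q := by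
            simpa using h8
          have h10 : a q * a q * (((Icc 1 N).filter (fun n => q ∣ n ∧ q ∣ n)).card : ℝ) ≤ a q * 1 * (N / q) := by
            apply mul_le_mul _ h9 (Nat.cast_nonneg _) (mul_nonneg (ha0 q) zero_le_one)
            exact mul_le_mul_of_nonneg_left (ha1 q) (ha0 q)
          have h11 : 0 ≤ N * (a q / q * (a q / q)) :=
            mul_nonneg hN0 (mul_nonneg (div_nonneg (ha0 q) hq0.le) (div_nonneg (ha0 q) hq0.le))
          have e1 : a q * 1 * (N / q) = N * (a q / q) := by ring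
          rw [e1] at h10
          linarith
        · have hcop : Nat.Coprime p q := (Nat.coprime_primes hpp hqp).2 (fun h => hqp' h.symm)
          have h8 := (card_dvd N (p * q) (Nat.mul_pos hpp.pos hqp.pos)).1
          have h9 : (((Icc 1 N).filter (fun n => p ∣ n ∧ q ∣ n)).card : ℝ) ≤ N / (p * q) := by
            refine le_trans ?_ (h8.trans (le_of_eq (by push_cast; rfl)))
            exact_mod_cast card_le_card (fun n hn => by
              rw [mem_filter] at hn ⊢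
              exact ⟨hn.1, hcop.mul_dvd_of_dvd_of_dvd hn.2.1 hn.2.2⟩)
          rw [add_zero]
          refine (mul_le_mul_of_nonneg_left h9 (mul_nonneg (ha0 p) (ha0 q))).trans (le_of_eq ?_)
          field_simp
      refine (sum_le_sum h6).trans (le_of_eq ?_)
      rw [sum_add_distrib, ← mul_sum, ← mul_sum, sum_ite_eq' S p (fun _ => N * (a p / p)), if_pos hp]
      ring
    refine (sum_le_sum h5).trans (le_of_eq ?_)
    rw [← mul_sum, sum_add_distrib, ← sum_mul]
    ring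
  rw [h1]
  have h4 : (∑ n ∈ Icc 1 N, (∑ p ∈ S, a p * e p n) ^ 2) / 2 ≤ N * (D ^ 2 + D) / 2 :=
    div_le_div_of_nonneg_right h3 (by norm_num)
  have e2 : N * (1 - D / 2 + D ^ 2 / 2 + ∑ p ∈ S, 1 / (p : ℝ) ^ 2) + S.card =
      N - (N * D - N * (∑ p ∈ S, 1 / (p : ℝ) ^ 2) - S.card) + N * (D ^ 2 + D) / 2 := by ring
  rw [e2]
  linarith

/-- **means away from one** -/
theorem mean_far (δ : ℝ) (hδ0 : 0 < δ) (hδ : δ ≤ 1 / 8) : ∃ A₀ N₀ : ℕ, ∀ A : ℕ, A₀ ≤ A → ∀ N : ℕ, N₀ ≤ N →
    ∀ g : ℕ → ℝ, (∀ n, 0 ≤ g n) → (∀ n, g n ≤ 1) →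
    (∀ m n : ℕ, 1 ≤ m → 1 ≤ n → Nat.Coprime m n → g (m * n) = g m * g n) →
    δ < ∑ p ∈ (Ioc A N).filter Nat.Prime, (1 - g p) / p → ∑ n ∈ Icc 1 N, g n ≤ (1 - δ / 4) * N := by
  classical
  obtain ⟨N₀, hN₀⟩ := pi_small (δ / 16) (by positivity)
  refine ⟨⌈16 / δ⌉₊ + 1, N₀, fun A hA N hN g hg0 hg1 hmul hsum => ?_⟩
  have hA1 : 16 / δ ≤ A := (Nat.le_ceil _).trans (by exact_mod_cast (by omega : ⌈16 / δ⌉₊ ≤ A))
  have hA0 : (0 : ℝ) < A := by exact_mod_cast (by omega : 0 < A)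
  rw [div_le_iff₀ hδ0] at hA1
  -- truncation
  set E : ℕ → ℝ := fun M => ∑ p ∈ (Ioc A M).filter Nat.Prime, (1 - g p) / p with hE
  obtain ⟨M, hM1, hM2⟩ : ∃ M : ℕ, (δ < E M ∧ M ≤ N) ∧ ∀ M' < M, ¬ (δ < E M' ∧ M' ≤ N) := by
    have hex : ∃ M : ℕ, δ < E M ∧ M ≤ N := ⟨N, hsum, le_rfl⟩
    exact ⟨Nat.find hex, Nat.find_spec hex, fun M' h => Nat.find_min hex h⟩
  have hAM : A < M := by
    by_contra hc
    push Not at hc
    have h1 : E M = 0 := by
      simp only [hE]
      rw [Ioc_eq_empty_of_le hc]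
      simp
    have := hM1.1
    linarith
  have hM0 : (0 : ℝ) < M := by exact_mod_cast (by omega : 0 < M)
  have hE2 : E M ≤ 2 * δ := by
    have h1 : E (M - 1) ≤ δ := by
      by_contra hc
      push Not at hc
      exact hM2 (M - 1) (by omega) ⟨hc, by omega⟩
    have h2 : E M ≤ E (M - 1) + 1 / M := by
      have h3 : Ioc A M = insert M (Ioc A (M - 1)) := by
        ext n
        rw [mem_insert, mem_Ioc, mem_Ioc]
        omega
      simp only [hE]
      rw [h3, filter_insert]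
      split_ifs with hMp
      · rw [sum_insert (by
          intro h
          rw [mem_filter, mem_Ioc] at h
          omega)]
        have h4 : (1 - g M) / (M : ℝ) ≤ 1 / M :=
          div_le_div_of_nonneg_right (by have := hg0 M; linarith) hM0.le
        linarith
      · have : (0 : ℝ) ≤ 1 / M := by positivity
        linarith
    have h3 : 1 / (M : ℝ) ≤ δ := by
      rw [div_le_iff₀ hM0]
      have : (A : ℝ) ≤ M := by exact_mod_cast hAM.le
      nlinarith
    linarith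
  have h1 := mean_bonf g hg0 hg1 hmul ((Ioc A M).filter Nat.Prime) (fun p hp => (mem_filter.1 hp).2) N
  have h2 : ∑ p ∈ (Ioc A M).filter Nat.Prime, (1 - g p) / (p : ℝ) = E M := rfl
  rw [h2] at h1
  have h3 : ∑ p ∈ (Ioc A M).filter Nat.Prime, 1 / (p : ℝ) ^ 2 ≤ δ / 16 := by
    have h4 : ∑ p ∈ (Ioc A M).filter Nat.Prime, 1 / (p : ℝ) ^ 2 ≤ ∑ p ∈ Ioc A M, 1 / (p : ℝ) ^ 2 :=
      sum_le_sum_of_subset_of_nonneg (filter_subset _ _) fun _ _ _ => by positivity
    have h5 : ∀ M : ℕ, A ≤ M → ∑ p ∈ Ioc A M, 1 / (p : ℝ) ^ 2 ≤ 1 / (A : ℝ) - 1 / (M : ℝ) := by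
      intro M hM
      induction M, hM using Nat.le_induction with
      | base => simp
      | succ M hM ih =>
        rw [← Finset.insert_Ioc_right_eq_Ioc_add_one hM, sum_insert (by simp)]
        have hM0 : (0 : ℝ) < M := by exact_mod_cast (by omega : 0 < M)
        have h6 : 1 / ((M + 1 : ℕ) : ℝ) ^ 2 ≤ 1 / M - 1 / ((M + 1 : ℕ) : ℝ) := by
          push_cast
          rw [div_sub_div _ _ hM0.ne' (by positivity), div_le_div_iff₀ (by positivity) (by positivity)]
          nlinarith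
        linarith
    have h6 := h5 M hAM.le
    have h7 : (0 : ℝ) ≤ 1 / M := by positivity
    have h8 : 1 / (A : ℝ) ≤ δ / 16 := by
      rw [div_le_div_iff₀ hA0 (by norm_num)]
      linarith
    linarith
  have h4 : (((Ioc A M).filter Nat.Prime).card : ℝ) ≤ δ / 16 * N := by
    refine le_trans ?_ (hN₀ N hN)
    exact_mod_cast card_le_card (fun p hp => by
      rw [mem_filter, mem_Ioc] at hp
      rw [mem_filter, mem_Icc]
      exact ⟨⟨by omega, by omega⟩, hp.2⟩)
  refine h1.trans ?_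
  have hN0 : (0 : ℝ) ≤ N := Nat.cast_nonneg _
  have h5 : 1 - E M / 2 + E M ^ 2 / 2 + ∑ p ∈ (Ioc A M).filter Nat.Prime, 1 / (p : ℝ) ^ 2 ≤ 1 - 5 * δ / 16 := by
    have h6 := hM1.1
    nlinarith
  have h6 := mul_le_mul_of_nonneg_left h5 hN0
  nlinarith

end Pool.Agent.R512.U
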