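import Pool.Agent.R512.U.RealE

/-!
Library R512.U (helper512): uniform bounds in windows for varying completely multiplicative factors with values `±1`.
-/

set_option autoImplicit false

namespace Pool.Agent.R512.U

open Finset Filter Topology
open Pool.Agent.Y958.U
open Pool.Agent.Y958.E
open Pool.Agent.Y872.L (CM cm_abs)

/-- **windows** -/
theorem winR (d : ℕ) : ∃ c : ℝ, 0 < c ∧ c < 1 ∧ ∀ h : Fin (d + 1) → ℕ, Function.Injective h →
    ∀ Q a : ℕ, 1 ≤ Q → ∀ η : ℝ, 0 < η → ∃ A : ℕ, 1 ≤ A ∧ ∀ y x : ℕ, A ≤ y → A * y ≤ x →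
      ∀ f : ℕ → ℤ, CM f → (∀ X : ℕ, y ≤ A * X → SMn A X f) →
      ∀ g : Fin d → ℕ → ℂ, (∀ i, BM (g i)) →
      ∑ N ∈ Ioc y x, (open Classical in if (1 - c) * ((N : ℝ) / Q) < ‖Sc h (uC f) g Q a N‖
        then (1 : ℝ) / N else 0) ≤ η * Real.log ((x : ℝ) / y) := by
  classical
  obtain ⟨c, hc0, hc1, hB⟩ := realA d
  refine ⟨c, hc0, hc1, fun h hinj Q a hQ η hη => ?_⟩
  obtain ⟨Tz, hTz⟩ := hB h hinj Q a hQ
  by_contra hcon
  push Not at hcon
  have hcon' : ∀ A : ℕ, ∃ y x : ℕ, ∃ f : ℕ → ℤ, ∃ g : Fin d → ℕ → ℂ, 1 ≤ A → A ≤ y ∧ A * y ≤ x ∧ CM f ∧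
      (∀ X : ℕ, y ≤ A * X → SMn A X f) ∧ (∀ i, BM (g i)) ∧
      η * Real.log ((x : ℝ) / y) < ∑ N ∈ Ioc y x, (if (1 - c) * ((N : ℝ) / Q) < ‖Sc h (uC f) g Q a N‖
        then (1 : ℝ) / N else 0) := by
    intro A
    by_cases hA : 1 ≤ A
    · obtain ⟨y, x, h1, h2, f, h3, h4, g, h5, h6⟩ := hcon A hA
      exact ⟨y, x, f, g, fun _ => ⟨h1, h2, h3, h4, h5, by convert h6⟩⟩
    · exact ⟨0, 0, fun _ => 0, fun _ _ => 0, fun hh => absurd hh hA⟩
  choose Yf Xf Ff Gf hbad using hcon'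
  -- the parameters
  set Om : ℕ → ℕ → ℕ := fun X' m => (m + 1) * ((m + 1) * (X' + 1)) + (m + 1) * (Tz m + 1) + 4 * (m + 1) with hOm
  have hOm1 : ∀ X' m, 1 ≤ Om X' m := fun X' m => by simp only [hOm]; omega
  obtain ⟨Am, hAm0, hAms⟩ : ∃ Am : ℕ → ℕ, Am 0 = Om 0 0 ∧ ∀ m, Am (m + 1) = Om (Xf (Am m)) (m + 1) :=
    ⟨fun m => Nat.rec (Om 0 0) (fun m A => Om (Xf A) (m + 1)) m, rfl, fun m => rfl⟩
  have hAmO : ∀ m, ∃ X', Am m = Om X' m := by
    intro m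
    rcases m with _ | m
    · exact ⟨0, hAm0⟩
    · exact ⟨_, hAms m⟩
  have hAm1 : ∀ m, 1 ≤ Am m := fun m => by
    obtain ⟨X', h1⟩ := hAmO m
    rw [h1]
    exact hOm1 _ _
  set ym : ℕ → ℕ := fun m => Yf (Am m) with hym
  set xm : ℕ → ℕ := fun m => Xf (Am m) with hxm
  set P : ℕ → ℕ := fun m => ym m / (m + 1) with hP
  have hb : ∀ m, Am m ≤ ym m ∧ Am m * ym m ≤ xm m ∧ CM (Ff (Am m)) ∧
      (∀ X : ℕ, ym m ≤ Am m * X → SMn (Am m) X (Ff (Am m))) ∧ (∀ i, BM (Gf (Am m) i)) ∧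
      η * Real.log ((xm m : ℝ) / ym m) < ∑ N ∈ Ioc (ym m) (xm m), (if (1 - c) * ((N : ℝ) / Q) <
        ‖Sc h (uC (Ff (Am m))) (Gf (Am m)) Q a N‖ then (1 : ℝ) / N else 0) := fun m => hbad (Am m) (hAm1 m)
  have hA4 : ∀ m, 4 * (m + 1) ≤ Am m := fun m => by
    obtain ⟨X', h1⟩ := hAmO m
    rw [h1]
    simp only [hOm]
    omega
  have hlow : ∀ m, (m + 1) * P m ≤ ym m := fun m => Nat.mul_div_le _ _
  have hwin : ∀ m, (m + 1) * ym m ≤ xm m := fun m =>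
    (Nat.mul_le_mul_right _ (by have := hA4 m; omega)).trans (hb m).2.1
  have hPge : ∀ m, ∀ z : ℕ, (m + 1) * z ≤ Am m → z ≤ P m := by
    intro m z hz
    rw [hP]
    simp only
    rw [Nat.le_div_iff_mul_le (by omega), mul_comm]
    exact hz.trans (hb m).1
  have hP1 : ∀ m, 1 ≤ P m := fun m => hPge m 1 (by have := hA4 m; omega)
  have hPT : ∀ m, 1 ≤ m → Tz m ≤ P m := by
    intro m _
    apply hPge
    obtain ⟨X', h1⟩ := hAmO m
    rw [h1]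
    simp only [hOm]
    have : (m + 1) * Tz m ≤ (m + 1) * (Tz m + 1) := Nat.mul_le_mul_left _ (by omega)
    omega
  have hup : ∀ m, (m + 2) * (xm m + 1) ≤ P (m + 1) := by
    intro m
    apply hPge
    rw [hAms]
    simp only [hOm, hxm]
    have : (m + 1 + 1) * ((m + 2) * (Xf (Am m) + 1)) = (m + 1 + 1) * ((m + 1 + 1) * (Xf (Am m) + 1)) := by ring
    omega
  have hmono : StrictMono P := by
    apply strictMono_nat_of_lt_succ
    intro m
    have h1 := hlow m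
    have h2 := hwin m
    have h3 := hup m
    have h4 : P m ≤ (m + 1) * P m := Nat.le_mul_of_pos_left _ (by omega)
    have h5 : ym m ≤ (m + 1) * ym m := Nat.le_mul_of_pos_left _ (by omega)
    have h6 : xm m + 1 ≤ (m + 2) * (xm m + 1) := Nat.le_mul_of_pos_left _ (by omega)
    omega
  have hBl : Blocks P ym xm := ⟨hmono, hP1, hlow, hwin, hup⟩
  obtain ⟨J, hJ⟩ := hTz P ym xm hBl hPT (fun m => Ff (Am m)) (fun m => (hb m).2.2.1) (fun B => ⟨B, fun j hj X hX => by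
    have hBA : B ≤ Am j := by have := hA4 j; omega
    refine SMn_mono hBA ((hb j).2.2.2.1 X ?_)
    have h1 : ym j < (j + 1) * (P j + 1) := by
      rw [hP]
      simp only
      exact Nat.lt_mul_div_succ _ (by omega)
    have hX1 : 1 ≤ X := by have := hP1 j; omega
    have h2 : (j + 1) * (P j + 1) ≤ (j + 1) * (4 * X) := Nat.mul_le_mul_left _ (by omega)
    have h3 : (j + 1) * (4 * X) = 4 * (j + 1) * X := by ring
    have h4 : 4 * (j + 1) * X ≤ Am j * X := Nat.mul_le_mul_right _ (hA4 j)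
    omega⟩) (fun m => Gf (Am m)) (fun m i => (hb m).2.2.2.2.1 i) η hη
  have h1 := (hb J).2.2.2.2.2
  have h2 := hJ J le_rfl
  refine absurd (lt_of_lt_of_le h1 (le_of_eq_of_le ?_ h2)) (lt_irrefl _)
  congr!

end Pool.Agent.R512.U
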