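import Pool.Agent.R512.U.Dist2
import Pool.Agent.R512.U.WinR

/-!
Library R512.U (helper512): small means in residue classes when `f` is far from the real characters, uniformly in `f`.
-/

set_option autoImplicit false

namespace Pool.Agent.R512.U

open Finset Filter Topology
open Pool.Agent.Y872.L (CM Tw rs_bdd cm_abs rs_tw)
open Pool.Agent.TH823.MRS
open Pool.Agent.R512.U.Hal (dst dst_term dst_mono mean_chi)
open Pool.Agent.Y958.E (harm_win)

/-- far from the real characters of small modulus -/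
def Far (A N : ℕ) (f : ℕ → ℤ) : Prop := ∀ (q : ℕ) (χ : DirichletCharacter ℂ q), 1 ≤ q → q ≤ A → χ ^ 2 = 1 →
  (A : ℝ) ≤ dst f χ N

lemma Far.mono {A A' N N' : ℕ} {f : ℕ → ℤ} (hf : CM f) (h : Far A N f) (hA : A' ≤ A) (hN : N ≤ N') : Far A' N' f := by
  intro q χ h1 h2 h3
  have h4 := h q χ h1 (h2.trans hA) h3
  have h5 : (A' : ℝ) ≤ A := by exact_mod_cast hA
  exact h5.trans (h4.trans (dst_mono hf χ hN))

/-- sums over reduced residue classes -/
theorem cls_copU (q b : ℕ) (hq : 0 < q) (hbq : Nat.Coprime b q) (ε : ℝ) (hε : 0 < ε) :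
    ∃ A : ℕ, ∀ N : ℕ, A ≤ N → ∀ f : ℕ → ℤ, CM f → Far A N f →
      |∑ n ∈ Icc 1 N, ((rs f q (b % q) n : ℤ) : ℝ)| ≤ ε * N := by
  classical
  haveI : NeZero q := ⟨hq.ne'⟩
  have hφ : 0 < Fintype.card (DirichletCharacter ℂ q) := Fintype.card_pos
  have hb : IsUnit (b : ZMod q) := (ZMod.isUnit_iff_coprime b q).2 hbq
  choose Ac hAc using fun χ : DirichletCharacter ℂ q => mean_chi hq χ ε hε
  refine ⟨q + ∑ χ, Ac χ, fun N hN f hf hfar => ?_⟩
  have hkey : ∀ n : ℕ, (Fintype.card (DirichletCharacter ℂ q) : ℂ) * ((rs f q (b % q) n : ℤ) : ℂ) =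
      ∑ χ : DirichletCharacter ℂ q, χ (b : ZMod q)⁻¹ * ((f n : ℂ) * χ (n : ZMod q)) := by
    intro n
    have h1 := DirichletCharacter.sum_char_inv_mul_char_eq ℂ hb (n : ZMod q)
    have h2 : ∑ χ : DirichletCharacter ℂ q, χ (b : ZMod q)⁻¹ * ((f n : ℂ) * χ (n : ZMod q)) =
        (f n : ℂ) * ∑ χ : DirichletCharacter ℂ q, χ (b : ZMod q)⁻¹ * χ (n : ZMod q) := by
      rw [mul_sum]
      apply sum_congr rfl
      intro χ _
      ring
    rw [h2, h1]
    unfold rs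
    have e2 : ((b : ZMod q) = (n : ZMod q)) ↔ n % q = b % q := by
      rw [ZMod.natCast_eq_natCast_iff']
      exact eq_comm
    by_cases h : n % q = b % q
    · rw [if_pos h, if_pos (e2.2 h)]
      have e3 : (Fintype.card (DirichletCharacter ℂ q) : ℂ) = (q.totient : ℂ) := by
        rw [← Nat.card_eq_fintype_card]
        have := DirichletCharacter.card_eq_totient_of_hasEnoughRootsOfUnity ℂ q
        rw [this]
      rw [e3]
      ring
    · rw [if_neg h, if_neg (fun hh => h (e2.1 hh))]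
      simp
  have h2 : (Fintype.card (DirichletCharacter ℂ q) : ℂ) * ((∑ n ∈ Icc 1 N, ((rs f q (b % q) n : ℤ) : ℝ) : ℝ) : ℂ) =
      ∑ χ : DirichletCharacter ℂ q, χ (b : ZMod q)⁻¹ * (∑ n ∈ Icc 1 N, (f n : ℂ) * χ (n : ZMod q)) := by
    push_cast
    rw [mul_sum, sum_congr rfl fun n _ => hkey n, sum_comm]
    apply sum_congr rfl
    intro χ _
    rw [mul_sum]
  have h3 : ‖∑ χ : DirichletCharacter ℂ q, χ (b : ZMod q)⁻¹ * (∑ n ∈ Icc 1 N, (f n : ℂ) * χ (n : ZMod q))‖ ≤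
      Fintype.card (DirichletCharacter ℂ q) * (ε * N) := by
    refine (norm_sum_le _ _).trans ?_
    have h4 : ∀ χ ∈ (univ : Finset (DirichletCharacter ℂ q)),
        ‖χ (b : ZMod q)⁻¹ * (∑ n ∈ Icc 1 N, (f n : ℂ) * χ (n : ZMod q))‖ ≤ ε * N := by
      intro χ _
      have h5 : Ac χ ≤ ∑ χ, Ac χ := single_le_sum (f := Ac) (fun _ _ => Nat.zero_le _) (mem_univ χ)
      have h6 := hAc χ N (by omega) f hf (fun hχ => by
        have h7 := hfar q χ hq (by omega) hχ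
        refine le_trans ?_ h7
        exact_mod_cast (by omega : Ac χ ≤ q + ∑ χ, Ac χ))
      rw [norm_mul]
      calc ‖χ (b : ZMod q)⁻¹‖ * ‖∑ n ∈ Icc 1 N, (f n : ℂ) * χ (n : ZMod q)‖ ≤
          1 * ‖∑ n ∈ Icc 1 N, (f n : ℂ) * χ (n : ZMod q)‖ :=
            mul_le_mul_of_nonneg_right (χ.norm_le_one _) (norm_nonneg _)
        _ ≤ ε * N := by rw [one_mul]; exact h6
    refine (sum_le_sum h4).trans (le_of_eq ?_)
    rw [sum_const, nsmul_eq_mul, card_univ]
  rw [← h2, norm_mul, Complex.norm_natCast, Complex.norm_real, Real.norm_eq_abs] at h3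
  exact le_of_mul_le_mul_left h3 (by exact_mod_cast hφ)

/-- sums over all residue classes -/
theorem clsU (q b : ℕ) (hq : 0 < q) (ε : ℝ) (hε : 0 < ε) :
    ∃ A : ℕ, 1 ≤ A ∧ ∀ N₁ N : ℕ, A ≤ N₁ → A * N₁ ≤ N → ∀ f : ℕ → ℤ, CM f → Far A N₁ f →
      |∑ n ∈ Icc 1 N, ((rs f q b n : ℤ) : ℝ)| ≤ ε * N := by
  classical
  rcases Nat.lt_or_ge b q with hbq | hbq
  swap
  · refine ⟨1, le_rfl, fun N₁ N _ _ f _ _ => ?_⟩
    have : ∀ n ∈ Icc 1 N, ((rs f q b n : ℤ) : ℝ) = 0 := by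
      intro n _
      unfold rs
      rw [if_neg]
      · simp
      · intro h
        have := Nat.mod_lt n hq
        omega
    rw [sum_congr rfl this, sum_const_zero, abs_zero]
    positivity
  obtain ⟨d, hd⟩ : ∃ d, d = Nat.gcd b q := ⟨_, rfl⟩
  have hd0 : 0 < d := by rw [hd]; exact Nat.gcd_pos_of_pos_right _ hq
  obtain ⟨q', hq'⟩ : d ∣ q := by rw [hd]; exact Nat.gcd_dvd_right _ _
  obtain ⟨b', hb'⟩ : d ∣ b := by rw [hd]; exact Nat.gcd_dvd_left _ _
  have hq'0 : 0 < q' := by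
    rcases Nat.eq_zero_or_pos q' with h | h
    · rw [h, mul_zero] at hq'; omega
    · exact h
  have hcop : Nat.Coprime b' q' := by
    have h1 : d * Nat.gcd b' q' = d * 1 := by
      rw [← Nat.gcd_mul_left, ← hb', ← hq', mul_one]
      exact hd.symm
    exact Nat.eq_of_mul_eq_mul_left hd0 h1
  have hb'q' : b' < q' := by
    rw [hb', hq'] at hbq
    exact Nat.lt_of_mul_lt_mul_left hbq
  obtain ⟨A, hA⟩ := cls_copU q' b' hq'0 hcop ε hε
  refine ⟨A + d + 1, by omega, fun N₁ N hN₁ hN f hf hfar => ?_⟩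
  have hNd : N₁ ≤ N / d := by
    rw [Nat.le_div_iff_mul_le hd0, mul_comm]
    exact (Nat.mul_le_mul_right _ (by omega)).trans hN
  have hN₀ := hA (N / d) (by omega) f hf (hfar.mono hf (by omega) hNd)
  rw [Nat.mod_eq_of_lt hb'q'] at hN₀
  have h1 : ∑ n ∈ Icc 1 N, ((rs f q b n : ℤ) : ℝ) =
      (f d : ℝ) * ∑ m ∈ Icc 1 (N / d), ((rs f q' b' m : ℤ) : ℝ) := by
    have h2 : ∑ n ∈ Icc 1 N, ((rs f q b n : ℤ) : ℝ) =
        ∑ n ∈ (Icc 1 N).filter (fun n => d ∣ n), ((rs f q b n : ℤ) : ℝ) := by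
      rw [sum_filter]
      apply sum_congr rfl
      intro n _
      split_ifs with h
      · rfl
      · unfold rs
        rw [if_neg]
        · simp
        · intro hh
          apply h
          have h3 : d ∣ n % q := by rw [hh, hb']; exact dvd_mul_right _ _
          have h4 : d ∣ q * (n / q) := by
            rw [hq']
            exact Dvd.dvd.mul_right (dvd_mul_right _ _) _
          have h5 := Nat.div_add_mod n q
          rw [← h5]
          exact dvd_add h4 h3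
    rw [h2, mul_sum]
    symm
    apply sum_nbij' (fun m => d * m) (fun n => n / d)
    · intro m hm
      rw [mem_Icc] at hm
      rw [mem_filter, mem_Icc]
      refine ⟨⟨Nat.mul_pos hd0 (by omega), ?_⟩, dvd_mul_right _ _⟩
      exact (Nat.mul_le_mul_left d hm.2).trans (Nat.mul_div_le N d)
    · intro n hn
      rw [mem_filter, mem_Icc] at hn
      rw [mem_Icc]
      exact ⟨Nat.div_pos (Nat.le_of_dvd (by omega) hn.2) hd0, Nat.div_le_div_right hn.1.2⟩
    · intro m _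
      exact Nat.mul_div_cancel_left _ hd0
    · intro n hn
      rw [mem_filter] at hn
      exact Nat.mul_div_cancel' hn.2
    · intro m _
      unfold rs
      have e : (d * m) % q = b ↔ m % q' = b' := by
        rw [hq', Nat.mul_mod_mul_left, hb']
        constructor
        · intro h
          exact Nat.eq_of_mul_eq_mul_left hd0 h
        · intro h
          rw [h]
      by_cases h : m % q' = b'
      · rw [if_pos h, if_pos (e.2 h), hf.mul]
        push_cast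
        rfl
      · rw [if_neg h, if_neg (fun hh => h (e.1 hh))]
        simp
  rw [h1, abs_mul]
  have h2 : |(f d : ℝ)| ≤ 1 := by
    have := cm_abs hf d
    exact_mod_cast this
  have h4 : ((N / d : ℕ) : ℝ) ≤ N := by exact_mod_cast Nat.div_le_self _ _
  calc |(f d : ℝ)| * |∑ m ∈ Icc 1 (N / d), ((rs f q' b' m : ℤ) : ℝ)| ≤ 1 * (ε * ((N / d : ℕ) : ℝ)) :=
        mul_le_mul h2 hN₀ (abs_nonneg _) zero_le_one
    _ ≤ ε * N := by
        rw [one_mul]
        exact mul_le_mul_of_nonneg_left h4 hε.le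

/-- the distance moves slowly -/
lemma dst_slow {f : ℕ → ℤ} (hf : CM f) {q : ℕ} (χ : DirichletCharacter ℂ q) {N N' : ℕ} (hN : 1 ≤ N) (h : N ≤ N') :
    dst f χ N' ≤ dst f χ N + 2 * Real.log ((N' : ℝ) / N) := by
  classical
  have h1 : dst f χ N' = dst f χ N + ∑ p ∈ (Ioc N N').filter Nat.Prime,
      (1 - ((f p : ℂ) * χ (p : ZMod q)).re) / (p : ℝ) := by
    unfold Pool.Agent.R512.U.Hal.dst
    rw [← sum_union]
    · apply sum_congr _ fun _ _ => rfl
      rw [← filter_union]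
      congr 1
      ext n
      rw [mem_union, mem_Icc, mem_Icc, mem_Ioc]
      omega
    · apply disjoint_filter_filter
      rw [disjoint_left]
      intro n hn
      rw [mem_Icc] at hn
      rw [mem_Ioc]
      omega
  rw [h1]
  apply add_le_add le_rfl
  have h2 : ∑ p ∈ (Ioc N N').filter Nat.Prime, (1 - ((f p : ℂ) * χ (p : ZMod q)).re) / (p : ℝ) ≤
      ∑ n ∈ Ioc N N', 2 * ((1 : ℝ) / n) := by
    refine le_trans ?_ (sum_le_sum_of_subset_of_nonneg (filter_subset Nat.Prime _) fun _ _ _ => by positivity)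
    apply sum_le_sum
    intro p _
    rw [mul_one_div]
    exact div_le_div_of_nonneg_right (dst_term hf χ p).2 (Nat.cast_nonneg _)
  refine h2.trans ?_
  rw [← mul_sum]
  exact mul_le_mul_of_nonneg_left (harm_win N N' hN h) (by norm_num)

/-- small means in residue classes from the distances -/
theorem smn_of_far (B : ℕ) : ∃ A : ℕ, 1 ≤ A ∧ ∀ y : ℕ, A ≤ y → ∀ f : ℕ → ℤ, CM f → Far A y f →
    ∀ X : ℕ, y ≤ B * X → SMn B X f := by
  classical
  have h1 : ∀ q b : ℕ, ∃ A : ℕ, 0 < q → ∀ N₁ N : ℕ, A ≤ N₁ → A * N₁ ≤ N → ∀ f : ℕ → ℤ, CM f → Far A N₁ f →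
      |∑ n ∈ Icc 1 N, ((rs f q b n : ℤ) : ℝ)| ≤ 1 / (B + 1) * N := by
    intro q b
    by_cases hq : 0 < q
    · obtain ⟨A, _, hA⟩ := clsU q b hq (1 / (B + 1)) (by positivity)
      exact ⟨A, fun _ => hA⟩
    · exact ⟨0, fun h => absurd h hq⟩
  choose Aq hAq using h1
  obtain ⟨A₀, hA₀⟩ : ∃ A₀ : ℕ, A₀ = 1 + ∑ q ∈ range (B + 1), ∑ b ∈ range (B + 1), Aq q b := ⟨_, rfl⟩
  have hA₀1 : 1 ≤ A₀ := by omega
  obtain ⟨Z, hZ⟩ : ∃ Z : ℕ, Z = A₀ * (B + 1) ^ 2 := ⟨_, rfl⟩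
  have hZ1 : 1 ≤ Z := by rw [hZ]; exact Nat.mul_pos hA₀1 (by positivity)
  refine ⟨A₀ + ⌈2 * Real.log (2 * Z)⌉₊ + Z * A₀, by omega, fun y hy f hf hfar X hX => ?_⟩
  obtain ⟨N₁, hN₁⟩ : ∃ N₁ : ℕ, N₁ = y / Z := ⟨_, rfl⟩
  have hAN₁ : A₀ ≤ N₁ := by
    rw [hN₁, Nat.le_div_iff_mul_le (by omega), mul_comm]
    omega
  have hN₁y : N₁ ≤ y := by rw [hN₁]; exact Nat.div_le_self _ _
  have hyN₁ : y ≤ 2 * Z * N₁ := by
    have h2 : y < Z * (N₁ + 1) := by
      rw [hN₁]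
      exact Nat.lt_mul_div_succ _ (by omega)
    have h3 : Z * (N₁ + 1) ≤ Z * (2 * N₁) := Nat.mul_le_mul_left _ (by omega)
    have h4 : Z * (2 * N₁) = 2 * Z * N₁ := by ring
    omega
  have hN₁0 : (0 : ℝ) < N₁ := by exact_mod_cast (by omega : 0 < N₁)
  have hfar1 : Far A₀ N₁ f := by
    intro q χ hq1 hq2 hχ
    have h2 := hfar q χ hq1 (by omega) hχ
    have h3 := dst_slow hf χ (by omega) hN₁y
    have h4 : Real.log ((y : ℝ) / N₁) ≤ Real.log (2 * Z) := by
      apply Real.log_le_log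
      · exact div_pos (by exact_mod_cast (by omega : 0 < y)) hN₁0
      · rw [div_le_iff₀ hN₁0]
        exact_mod_cast hyN₁
    have h5 := Nat.le_ceil (2 * Real.log (2 * Z))
    push_cast at h2
    have h6 : (0 : ℝ) ≤ (Z : ℝ) * A₀ := by positivity
    linarith
  intro q b hq1 hqB N hXN hNX
  have hN1 : A₀ * N₁ ≤ N := by
    have h2 : Z * N₁ ≤ y := by rw [hN₁]; exact Nat.mul_div_le _ _
    have h3 : y ≤ B * (B * N) := hX.trans (Nat.mul_le_mul_left _ hXN)
    have h4 : B * (B * N) ≤ (B + 1) ^ 2 * N := by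
      have : (B + 1) ^ 2 * N = B * (B * N) + (2 * B + 1) * N := by ring
      omega
    have h5 : Z * N₁ = (B + 1) ^ 2 * (A₀ * N₁) := by rw [hZ]; ring
    have h6 : (B + 1) ^ 2 * (A₀ * N₁) ≤ (B + 1) ^ 2 * N := by omega
    exact Nat.le_of_mul_le_mul_left h6 (by positivity)
  by_cases hbB : b < B + 1
  swap
  · have : ∀ n ∈ Icc 1 N, ((rs f q b n : ℤ) : ℝ) = 0 := by
      intro n _
      unfold rs
      rw [if_neg]
      · simp
      · intro h
        have := Nat.mod_lt n (show 0 < q by omega)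
        omega
    rw [sum_congr rfl this, sum_const_zero, abs_zero, mul_zero]
    positivity
  have hle : Aq q b ≤ A₀ := by
    have h2 : Aq q b ≤ ∑ b ∈ range (B + 1), Aq q b :=
      single_le_sum (f := fun b => Aq q b) (fun _ _ => Nat.zero_le _) (mem_range.2 hbB)
    have h3 : ∑ b ∈ range (B + 1), Aq q b ≤ ∑ q ∈ range (B + 1), ∑ b ∈ range (B + 1), Aq q b :=
      single_le_sum (f := fun q => ∑ b ∈ range (B + 1), Aq q b) (fun _ _ => Nat.zero_le _) (mem_range.2 (by omega))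
    omega
  have h2 := hAq q b (by omega) N₁ N (hle.trans hAN₁) ((Nat.mul_le_mul_right _ hle).trans hN1) f hf
    (hfar1.mono hf hle le_rfl)
  have hB0 : (0 : ℝ) ≤ B := Nat.cast_nonneg _
  have h3 : (B : ℝ) * |∑ n ∈ Icc 1 N, ((rs f q b n : ℤ) : ℝ)| ≤ B * (1 / (B + 1) * N) :=
    mul_le_mul_of_nonneg_left h2 hB0
  refine h3.trans ?_
  have h4 : (B : ℝ) * (1 / (B + 1) * N) = (B / (B + 1)) * N := by ring
  rw [h4]
  have h5 : (B : ℝ) / (B + 1) ≤ 1 := by
    rw [div_le_one (by positivity)]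
    linarith
  have h6 : (0 : ℝ) ≤ N := Nat.cast_nonneg _
  nlinarith

/-- **windows**, from the distances -/
theorem winF (d : ℕ) : ∃ c : ℝ, 0 < c ∧ c < 1 ∧ ∀ h : Fin (d + 1) → ℕ, Function.Injective h →
    ∀ Q a : ℕ, 1 ≤ Q → ∀ η : ℝ, 0 < η → ∃ A : ℕ, 1 ≤ A ∧ ∀ y x : ℕ, A ≤ y → A * y ≤ x →
      ∀ f : ℕ → ℤ, CM f → Far A y f →
      ∀ g : Fin d → ℕ → ℂ, (∀ i, Pool.Agent.Y958.E.BM (g i)) →
      ∑ N ∈ Ioc y x, (open Classical in if (1 - c) * ((N : ℝ) / Q) < ‖Sc h (uC f) g Q a N‖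
        then (1 : ℝ) / N else 0) ≤ η * Real.log ((x : ℝ) / y) := by
  classical
  obtain ⟨c, hc0, hc1, hW⟩ := winR d
  refine ⟨c, hc0, hc1, fun h hinj Q a hQ η hη => ?_⟩
  obtain ⟨A₁, hA₁, h1⟩ := hW h hinj Q a hQ η hη
  obtain ⟨A₂, hA₂, h2⟩ := smn_of_far A₁
  refine ⟨A₁ + A₂, by omega, fun y x hy hx f hf hfar g hg => ?_⟩
  exact h1 y x (by omega) ((Nat.mul_le_mul_right _ (by omega)).trans hx) f hf
    (h2 y (by omega) f hf (hfar.mono hf (by omega) le_rfl)) g hg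

end Pool.Agent.R512.U
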