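import Pool.Agent.R512.U.Hal
import Pool.Agent.Helper601.Mertens

/-!
Library R512.U (helper512): the generating functions of `f χ` are small when `f` is far from the real characters,
uniformly in `f` (after `Pool.Agent.Y290.LT.Sup`).
-/

set_option autoImplicit false

namespace Pool.Agent.R512.U.Hal

open Finset Filter Topology
open Pool.Agent.Y872.L (CM)
open Pool.Agent.Y290.LT.Sup
open Pool.Agent.Y122.LT (DS tw DS_eq CMC)

/-- the lower bound -/
noncomputable def Ls {q : ℕ} (ψ : DirichletCharacter ℂ q) (p : ℕ) (δ y : ℝ) : ℝ :=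
  (p : ℝ) ^ (-(1 + δ)) - (ψ (p : ZMod q) * (p : ℂ) ^ (-(pt δ (2 * y)))).re

lemma Ls_eq {q : ℕ} (ψ : DirichletCharacter ℂ q) {p : ℕ} (hp : 0 < p) (δ y : ℝ) :
    Ls ψ p δ y = (p : ℝ) ^ (-(1 + δ)) * (1 - (ψ (p : ZMod q) * (p : ℂ) ^ (-((2 * y : ℝ) * Complex.I))).re) := by
  unfold Ls
  rw [cpow_split hp]
  have : ψ (p : ZMod q) * (((p : ℝ) ^ (-(1 + δ)) : ℝ) * (p : ℂ) ^ (-((2 * y : ℝ) * Complex.I))) =
      (((p : ℝ) ^ (-(1 + δ)) : ℝ) : ℂ) * (ψ (p : ZMod q) * (p : ℂ) ^ (-((2 * y : ℝ) * Complex.I))) := by ring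
  rw [this, Complex.re_ofReal_mul]
  ring

lemma Lb {q : ℕ} (ψ : DirichletCharacter ℂ q) {p : ℕ} (hp : 0 < p) (y : ℝ) :
    0 ≤ 1 - (ψ (p : ZMod q) * (p : ℂ) ^ (-((2 * y : ℝ) * Complex.I))).re := by
  have h1 : ‖ψ (p : ZMod q) * (p : ℂ) ^ (-((2 * y : ℝ) * Complex.I))‖ ≤ 1 := by
    rw [norm_mul, norm_u hp, mul_one]
    exact ψ.norm_le_one _
  have := (Complex.re_le_norm _).trans h1
  linarith

lemma Ls_nonneg {q : ℕ} (ψ : DirichletCharacter ℂ q) {p : ℕ} (hp : 0 < p) (δ y : ℝ) : 0 ≤ Ls ψ p δ y := by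
  rw [Ls_eq ψ hp]
  exact mul_nonneg (by positivity) (Lb ψ hp y)

lemma Ls_mono {q : ℕ} (ψ : DirichletCharacter ℂ q) {p : ℕ} (hp : p.Prime) {δ : ℝ} (hδ : 0 ≤ δ) (y : ℝ) :
    Ls ψ p δ y ≤ Ls ψ p 0 y := by
  rw [Ls_eq ψ hp.pos, Ls_eq ψ hp.pos]
  refine mul_le_mul_of_nonneg_right ?_ (Lb ψ hp.pos y)
  refine Real.rpow_le_rpow_of_exponent_le ?_ (by linarith)
  exact_mod_cast hp.one_lt.le

lemma Ls_cont {q : ℕ} (ψ : DirichletCharacter ℂ q) {p : ℕ} (hp : 0 < p) :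
    Continuous (fun x : ℝ × ℝ => Ls ψ p x.1 x.2) := by
  have hp' : (p : ℝ) ≠ 0 := by exact_mod_cast hp.ne'
  have hp'' : (p : ℂ) ≠ 0 := by exact_mod_cast hp.ne'
  unfold Ls
  refine Continuous.sub ?_ ?_
  · exact Continuous.rpow continuous_const (by fun_prop) (fun x => Or.inl hp')
  · refine Complex.continuous_re.comp (continuous_const.mul ?_)
    refine Continuous.const_cpow (by unfold pt; fun_prop) (Or.inl hp'')

/-- comparison with the square of the character -/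
lemma Ls_le {f : ℕ → ℤ} (hf : CM f) {q : ℕ} (χ : DirichletCharacter ℂ q) {p : ℕ} (hp : p.Prime) (δ y : ℝ) :
    Ls (χ ^ 2) p δ y ≤ 4 * g f χ p δ y := by
  have hp0 := hp.pos
  set b : ℂ := ((f p : ℂ) * χ (p : ZMod q)) * (p : ℂ) ^ (-(y * Complex.I)) with hb
  have hb1 : ‖b‖ ≤ 1 := b_norm hf χ hp0 y
  have e1 : ((f p : ℂ)) ^ 2 = 1 := by
    rcases hf.val p hp0 with h | h <;> simp [h]
  have e2 : b ^ 2 = (χ ^ 2) (p : ZMod q) * (p : ℂ) ^ (-((2 * y : ℝ) * Complex.I)) := by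
    have e3 : (p : ℂ) ^ (-((2 * y : ℝ) * Complex.I)) = ((p : ℂ) ^ (-(y * Complex.I))) ^ 2 := by
      rw [← Complex.cpow_nat_mul]
      congr 1
      push_cast
      ring
    rw [e3, hb, mul_pow, mul_pow, e1, one_mul, MulChar.pow_apply' _ two_ne_zero]
  rw [Ls_eq _ hp0, ← e2, g_eq χ hp0]
  have h2 : (0 : ℝ) ≤ (p : ℝ) ^ (-(1 + δ)) := by positivity
  have h3 := key_ineq hb1
  calc (p : ℝ) ^ (-(1 + δ)) * (1 - (b ^ 2).re) ≤ (p : ℝ) ^ (-(1 + δ)) * (4 * (1 - b.re)) :=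
        mul_le_mul_of_nonneg_left h3 h2
    _ = _ := by ring

lemma nonsumm_L {q : ℕ} (ψ : DirichletCharacter ℂ q) (hq : 0 < q) (y : ℝ) (h : ψ ≠ 1 ∨ y ≠ 0) :
    ¬ Summable (fun p : Nat.Primes => Ls ψ p 0 y) := by
  intro hsum
  haveI : NeZero q := ⟨hq.ne'⟩
  set B : ℝ := ∑' p : Nat.Primes, Ls ψ p 0 y with hB
  -- the `L`-function is bounded
  have hpt : pt 0 (2 * y) ≠ 1 ∨ ψ ≠ 1 := by
    rcases h with h | h
    · exact Or.inr h
    · left
      intro h1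
      have h2 := congrArg Complex.im h1
      simp [pt] at h2
      exact h h2
  have hcont : ContinuousAt (fun δ : ℝ => ‖DirichletCharacter.LFunction ψ (pt δ (2 * y))‖) 0 := by
    have h1 : ContinuousAt (DirichletCharacter.LFunction ψ) (pt 0 (2 * y)) :=
      (DirichletCharacter.differentiableAt_LFunction ψ _ hpt).continuousAt
    have h2 : Continuous (fun δ : ℝ => pt δ (2 * y)) := by
      unfold pt
      fun_prop
    exact (ContinuousAt.comp (f := fun δ : ℝ => pt δ (2 * y)) h1 h2.continuousAt).norm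
  obtain ⟨C, hC1, hC⟩ : ∃ C : ℝ, 1 ≤ C ∧
      ∀ᶠ δ : ℝ in 𝓝[>] 0, ‖DirichletCharacter.LFunction ψ (pt δ (2 * y))‖ ≤ C := by
    refine ⟨‖DirichletCharacter.LFunction ψ (pt 0 (2 * y))‖ + 1, by
      have := norm_nonneg (DirichletCharacter.LFunction ψ (pt 0 (2 * y)))
      linarith, ?_⟩
    have h3 := hcont.eventually (ge_mem_nhds (lt_add_one _))
    exact h3.filter_mono nhdsWithin_le_nhds
  have key : ∀ᶠ δ : ℝ in 𝓝[>] 0,
      ∑' p : Nat.Primes, ((p : ℕ) : ℝ) ^ (-(1 + δ)) ≤ B + (Real.log C + K) := by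
    filter_upwards [hC, self_mem_nhdsWithin] with δ h1 hδ
    have hδ' : (0 : ℝ) < δ := hδ
    have hs : 1 < (pt δ (2 * y)).re := by rw [pt_re]; linarith
    have hbd : ∀ p : ℕ, p.Prime →
        ‖dirichletSummandHom ψ (Complex.ne_zero_of_one_lt_re hs) p‖ ≤ 1 / (p : ℝ) := by
      intro p hp
      show ‖ψ (p : ZMod q) * (p : ℂ) ^ (-(pt δ (2 * y)))‖ ≤ 1 / (p : ℝ)
      rw [norm_mul, norm_pow δ _ hp.pos]
      have h2 := ψ.norm_le_one (p : ZMod q)
      have h3 : (0 : ℝ) ≤ (p : ℝ) ^ (-(1 + δ)) := by positivity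
      have h4 := rpow_le_inv hδ'.le hp
      nlinarith
    have h5 := lower (dirichletSummandHom ψ (Complex.ne_zero_of_one_lt_re hs))
      (summable_dirichletSummand ψ hs) hbd
    have h6 := summ_re (dirichletSummandHom ψ (Complex.ne_zero_of_one_lt_re hs))
      (summable_dirichletSummand ψ hs) hbd
    rw [tsum_dirichletSummand ψ hs, ← DirichletCharacter.LFunction_eq_LSeries ψ hs] at h5
    have h7 : Real.exp (∑' p : Nat.Primes,
        (dirichletSummandHom ψ (Complex.ne_zero_of_one_lt_re hs) (p : ℕ)).re - K) ≤ C := h5.trans h1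
    have h8 := Real.log_le_log (Real.exp_pos _) h7
    rw [Real.log_exp] at h8
    have hsP : Summable (fun p : Nat.Primes => ((p : ℕ) : ℝ) ^ (-(1 + δ))) :=
      Nat.Primes.summable_rpow.2 (by linarith)
    have h9 : ∑' p : Nat.Primes, (((p : ℕ) : ℝ) ^ (-(1 + δ)) -
        (dirichletSummandHom ψ (Complex.ne_zero_of_one_lt_re hs) (p : ℕ)).re) ≤
        ∑' p : Nat.Primes, Ls ψ p 0 y := by
      refine (hsP.sub h6).tsum_le_tsum (fun p => ?_) hsum
      exact Ls_mono ψ p.2 hδ'.le y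
    rw [hsP.tsum_sub h6] at h9
    linarith
  -- finite sums
  have hfin : ∀ S : Finset Nat.Primes,
      ∑ p ∈ S, (1 / ((p : ℕ) : ℝ)) ≤ B + (Real.log C + K) := by
    intro S
    have h1 : Tendsto (fun δ : ℝ => ∑ p ∈ S, ((p : ℕ) : ℝ) ^ (-(1 + δ))) (𝓝[>] 0)
        (𝓝 (∑ p ∈ S, (1 / ((p : ℕ) : ℝ)))) := by
      have h2 : Continuous (fun δ : ℝ => ∑ p ∈ S, ((p : ℕ) : ℝ) ^ (-(1 + δ))) := by
        refine continuous_finsetSum _ fun p _ => ?_
        refine Continuous.rpow continuous_const (by fun_prop) (fun x => ?_)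
        left
        exact_mod_cast p.2.ne_zero
      have h3 := h2.tendsto 0
      have h4 : ∑ p ∈ S, ((p : ℕ) : ℝ) ^ (-(1 + (0 : ℝ))) = ∑ p ∈ S, (1 / ((p : ℕ) : ℝ)) := by
        refine sum_congr rfl fun p _ => ?_
        rw [add_zero, Real.rpow_neg_one, one_div]
      rw [h4] at h3
      exact h3.mono_left nhdsWithin_le_nhds
    refine le_of_tendsto h1 ?_
    filter_upwards [key, self_mem_nhdsWithin] with δ h2 hδ
    have hδ' : (0 : ℝ) < δ := hδ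
    refine le_trans ?_ h2
    exact (Nat.Primes.summable_rpow.2 (by linarith)).sum_le_tsum S (fun p _ => by positivity)
  exact Nat.Primes.not_summable_one_div
    (summable_of_sum_le (fun p => by positivity) hfin)

lemma g_summ {f : ℕ → ℤ} (hf : CM f) {q : ℕ} (χ : DirichletCharacter ℂ q) {θ : ℝ} (hθ : 0 < θ) (y : ℝ) :
    Summable (fun p : Nat.Primes => g f χ p θ y) := by
  have h6 := summ_re (Phi hf χ θ y hθ) (Phi_summ hf χ θ y hθ) (Phi_prime hf χ θ y hθ)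
  have hsP : Summable (fun p : Nat.Primes => ((p : ℕ) : ℝ) ^ (-(1 + θ))) :=
    Nat.Primes.summable_rpow.2 (by linarith)
  exact hsP.sub h6

/-- the distances on a compact set away from the pole -/
theorem away {q : ℕ} (hq : 0 < q) (χ : DirichletCharacter ℂ q) (Z : Set ℝ) (hZ : IsCompact Z)
    (h : ∀ y ∈ Z, χ ^ 2 ≠ 1 ∨ y ≠ 0) (M : ℝ) : ∃ θ₀ : ℝ, 0 < θ₀ ∧ ∀ θ : ℝ, 0 < θ → θ < θ₀ → ∀ y ∈ Z,
      ∀ f : ℕ → ℤ, CM f → M ≤ ∑' p : Nat.Primes, g f χ p θ y := by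
  have hloc : ∀ y₀ ∈ Z, ∀ᶠ z : ℝ × ℝ in 𝓝 ((0 : ℝ), y₀),
      0 < z.1 → ∀ f : ℕ → ℤ, CM f → M ≤ ∑' p : Nat.Primes, g f χ p z.1 z.2 := by
    intro y₀ hy₀
    have hns := nonsumm_L (χ ^ 2) hq y₀ (h y₀ hy₀)
    obtain ⟨S, hS⟩ : ∃ S : Finset Nat.Primes, 4 * M < ∑ p ∈ S, Ls (χ ^ 2) p 0 y₀ := by
      by_contra hcon
      push Not at hcon
      exact hns (summable_of_sum_le (fun p => Ls_nonneg (χ ^ 2) p.2.pos 0 y₀) hcon)
    have hc : Continuous (fun x : ℝ × ℝ => ∑ p ∈ S, Ls (χ ^ 2) p x.1 x.2) :=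
      continuous_finsetSum _ fun p _ => Ls_cont (χ ^ 2) p.2.pos
    have h1 : ∀ᶠ z : ℝ × ℝ in 𝓝 ((0 : ℝ), y₀), 4 * M < ∑ p ∈ S, Ls (χ ^ 2) p z.1 z.2 :=
      (hc.tendsto ((0 : ℝ), y₀)).eventually (lt_mem_nhds hS)
    filter_upwards [h1] with z h3 hz f hf
    have h7 := g_summ hf χ hz z.2
    have h9 : ∑ p ∈ S, g f χ p z.1 z.2 ≤ ∑' p : Nat.Primes, g f χ p z.1 z.2 :=
      h7.sum_le_tsum S (fun p _ => g_nonneg hf χ p.2.pos z.1 z.2)
    have h10 : ∑ p ∈ S, Ls (χ ^ 2) p z.1 z.2 ≤ ∑ p ∈ S, 4 * g f χ p z.1 z.2 :=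
      sum_le_sum fun p _ => Ls_le hf χ p.2 z.1 z.2
    rw [← mul_sum] at h10
    linarith
  have hev : ∀ᶠ θ : ℝ in 𝓝 0, ∀ y ∈ Z, 0 < θ → ∀ f : ℕ → ℤ, CM f → M ≤ ∑' p : Nat.Primes, g f χ p θ y :=
    IsCompact.eventually_forall_of_forall_eventually (x₀ := (0 : ℝ)) (K := Z)
      (P := fun θ y : ℝ => 0 < θ → ∀ f : ℕ → ℤ, CM f → M ≤ ∑' p : Nat.Primes, g f χ p θ y) hZ hloc
  obtain ⟨r, hr, hball⟩ := Metric.eventually_nhds_iff.1 hev
  refine ⟨r, hr, fun θ hθ hθr y hy f hf => ?_⟩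
  exact hball (by rw [Real.dist_eq, sub_zero, abs_of_pos hθ]; exact hθr) y hy hθ f hf

/-- near the pole -/
lemma L1_near (q : ℕ) (hq : 0 < q) : ∃ C r : ℝ, 1 ≤ C ∧ 0 < r ∧ ∀ s : ℂ, s ≠ 1 → ‖s - 1‖ < r →
    ∀ _ : NeZero q, ‖s - 1‖ * ‖DirichletCharacter.LFunction (1 : DirichletCharacter ℂ q) s‖ ≤ C := by
  haveI : NeZero q := ⟨hq.ne'⟩
  have h1 := (DirichletCharacter.LFunctionTrivChar_residue_one (N := q)).norm
  have h2 := h1.eventually (ge_mem_nhds (lt_add_one _))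
  rw [eventually_nhdsWithin_iff, Metric.eventually_nhds_iff] at h2
  obtain ⟨r, hr, h3⟩ := h2
  refine ⟨‖∏ p ∈ q.primeFactors, (1 - (p : ℂ)⁻¹)‖ + 1, r, by
    have := norm_nonneg (∏ p ∈ q.primeFactors, (1 - (p : ℂ)⁻¹))
    linarith, hr, fun s hs hsr _ => ?_⟩
  have h4 := h3 (y := s) (by rwa [dist_eq_norm]) hs
  rw [norm_mul] at h4
  exact h4

/-- near `1` the zeta function is at least `1/(2θ)` -/
lemma zeta_lo : ∀ᶠ θ : ℝ in 𝓝[>] 0,
    1 / 2 ≤ θ * Real.exp (∑' p : Nat.Primes, ((p : ℕ) : ℝ) ^ (-(1 + θ)) + K) := by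
  have h1 := tendsto_sub_mul_tsum_nat_rpow
  have h2 : Tendsto (fun δ : ℝ => 1 + δ) (𝓝[>] 0) (𝓝[>] 1) := by
    refine tendsto_nhdsWithin_iff.2 ⟨?_, ?_⟩
    · have : Tendsto (fun δ : ℝ => 1 + δ) (𝓝 0) (𝓝 (1 + 0)) := by
        exact (continuous_const.add continuous_id).tendsto _
      rw [add_zero] at this
      exact this.mono_left nhdsWithin_le_nhds
    · filter_upwards [self_mem_nhdsWithin] with δ hδ
      have : (0 : ℝ) < δ := hδ
      simpa using this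
  have h3 := (h1.comp h2).eventually (lt_mem_nhds (show (1 : ℝ) / 2 < 1 by norm_num))
  filter_upwards [h3, self_mem_nhdsWithin] with δ h4 hδ
  have hδ' : (0 : ℝ) < δ := hδ
  have hs : 1 < (pt δ 0).re := by rw [pt_re]; linarith
  have h5 := upper (riemannZetaSummandHom (Complex.ne_zero_of_one_lt_re hs))
    (summable_riemannZetaSummand hs) (fun p hp => by
      show ‖(p : ℂ) ^ (-(pt δ 0))‖ ≤ 1 / (p : ℝ)
      rw [norm_pow δ 0 hp.pos]
      exact rpow_le_inv hδ'.le hp)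
  have h6 : (∑' p : Nat.Primes, (riemannZetaSummandHom (Complex.ne_zero_of_one_lt_re hs) (p : ℕ)).re)
      = ∑' p : Nat.Primes, ((p : ℕ) : ℝ) ^ (-(1 + δ)) := by
    apply tsum_congr
    intro p
    show (((p : ℕ) : ℂ) ^ (-(pt δ 0))).re = _
    rw [cpow_split p.2.pos]
    simp
  rw [h6] at h5
  have h7 : ∑' n : ℕ, 1 / (n : ℝ) ^ (1 + δ) ≤
      ‖∑' n : ℕ, riemannZetaSummandHom (Complex.ne_zero_of_one_lt_re hs) n‖ := by
    refine le_trans (le_of_eq ?_) (Complex.re_le_norm _)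
    rw [Complex.re_tsum (summable_riemannZetaSummand hs).of_norm]
    apply tsum_congr
    intro n
    show _ = ((n : ℂ) ^ (-(pt δ 0))).re
    rcases Nat.eq_zero_or_pos n with rfl | hn
    · rw [Nat.cast_zero, Nat.cast_zero, Complex.zero_cpow (neg_ne_zero.2 (pt_ne hδ' 0)), Complex.zero_re,
        Real.zero_rpow (by linarith), div_zero]
    · rw [cpow_split hn]
      simp only [Complex.ofReal_zero, zero_mul, neg_zero, Complex.cpow_zero, mul_one, Complex.ofReal_re]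
      rw [Real.rpow_neg (by positivity), one_div]
  simp only [Function.comp_def] at h4
  have h8 : (1 + δ - 1) = δ := by ring
  rw [h8] at h4
  calc 1 / 2 ≤ δ * ∑' n : ℕ, 1 / (n : ℝ) ^ (1 + δ) := h4.le
    _ ≤ _ := mul_le_mul_of_nonneg_left (h7.trans h5) hδ'.le

/-- intermediate heights -/
lemma mid {q : ℕ} (hq : 0 < q) (χ : DirichletCharacter ℂ q) (hχ : χ ^ 2 = 1) (M : ℝ) : ∃ D r : ℝ, 0 < D ∧ 0 < r ∧
    ∀ θ : ℝ, 0 < θ → θ < r → ∀ y : ℝ, |y| < r → D * θ ≤ |y| → ∀ f : ℕ → ℤ, CM f →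
      M ≤ ∑' p : Nat.Primes, g f χ p θ y := by
  haveI : NeZero q := ⟨hq.ne'⟩
  obtain ⟨C, r₁, hC1, hr₁, hL⟩ := L1_near q hq
  have hz := zeta_lo
  rw [eventually_nhdsWithin_iff, Metric.eventually_nhds_iff] at hz
  obtain ⟨r₂, hr₂, hz⟩ := hz
  refine ⟨C * Real.exp (4 * M + 2 * K), min (r₁ / 4) r₂, by positivity, lt_min (by linarith) hr₂,
    fun θ hθ hθr y hyr hDy f hf => ?_⟩
  have hθr₁ : θ < r₁ / 4 := hθr.trans_le (min_le_left _ _)
  have hθr₂ : θ < r₂ := hθr.trans_le (min_le_right _ _)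
  have hyr₁ : |y| < r₁ / 4 := hyr.trans_le (min_le_left _ _)
  have hy0 : 0 < |y| := lt_of_lt_of_le (by positivity) hDy
  have hzθ := hz (y := θ) (by rw [Real.dist_eq, sub_zero, abs_of_pos hθ]; exact hθr₂) hθ
  have hs : 1 < (pt θ (2 * y)).re := by rw [pt_re]; linarith
  have hs1 : pt θ (2 * y) - 1 = (θ : ℂ) + ((2 * y : ℝ) : ℂ) * Complex.I := by
    unfold pt
    push_cast
    ring
  have him : 2 * |y| ≤ ‖pt θ (2 * y) - 1‖ := by
    have h1 := Complex.abs_im_le_norm (pt θ (2 * y) - 1)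
    rw [hs1] at h1 ⊢
    simp only [Complex.add_im, Complex.ofReal_im, Complex.mul_im, Complex.I_im, Complex.I_re,
      Complex.ofReal_re, mul_one, mul_zero, zero_add, add_zero] at h1
    rw [abs_mul, abs_of_pos (by norm_num : (0 : ℝ) < 2)] at h1
    exact h1
  have hne : pt θ (2 * y) ≠ 1 := by
    intro h
    rw [h, sub_self, norm_zero] at him
    linarith
  have hnr : ‖pt θ (2 * y) - 1‖ < r₁ := by
    rw [hs1]
    refine (norm_add_le _ _).trans_lt ?_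
    rw [norm_mul, Complex.norm_I, mul_one, Complex.norm_real, Complex.norm_real, Real.norm_of_nonneg hθ.le,
      Real.norm_eq_abs, abs_mul, abs_of_pos (by norm_num : (0 : ℝ) < 2)]
    linarith
  have hL1 := hL _ hne hnr inferInstance
  set ψ : DirichletCharacter ℂ q := 1 with hψ
  have hbd : ∀ p : ℕ, p.Prime →
      ‖dirichletSummandHom ψ (Complex.ne_zero_of_one_lt_re hs) p‖ ≤ 1 / (p : ℝ) := by
    intro p hp
    show ‖ψ (p : ZMod q) * (p : ℂ) ^ (-(pt θ (2 * y)))‖ ≤ 1 / (p : ℝ)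
    rw [norm_mul, norm_pow θ _ hp.pos]
    have h2 := ψ.norm_le_one (p : ZMod q)
    have h3 : (0 : ℝ) ≤ (p : ℝ) ^ (-(1 + θ)) := by positivity
    have h4 := rpow_le_inv hθ.le hp
    nlinarith
  have h5 := lower (dirichletSummandHom ψ (Complex.ne_zero_of_one_lt_re hs))
    (summable_dirichletSummand ψ hs) hbd
  have h6 := summ_re (dirichletSummandHom ψ (Complex.ne_zero_of_one_lt_re hs))
    (summable_dirichletSummand ψ hs) hbd
  rw [tsum_dirichletSummand ψ hs, ← DirichletCharacter.LFunction_eq_LSeries ψ hs] at h5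
  have hsP : Summable (fun p : Nat.Primes => ((p : ℕ) : ℝ) ^ (-(1 + θ))) :=
    Nat.Primes.summable_rpow.2 (by linarith)
  set S1 : ℝ := ∑' p : Nat.Primes, ((p : ℕ) : ℝ) ^ (-(1 + θ)) with hS1
  set S2 : ℝ := ∑' p : Nat.Primes, (dirichletSummandHom ψ (Complex.ne_zero_of_one_lt_re hs) (p : ℕ)).re with hS2
  have h9 : S1 - S2 ≤ 4 * ∑' p : Nat.Primes, g f χ p θ y := by
    rw [hS1, hS2, ← hsP.tsum_sub h6, ← tsum_mul_left]
    refine (hsP.sub h6).tsum_le_tsum (fun p => ?_) ((g_summ hf χ hθ y).mul_left 4)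
    have h10 := Ls_le hf χ p.2 θ y
    rw [hχ] at h10
    exact h10
  have h10 : Real.exp (S2 - K) * (2 * |y|) ≤ C := by
    refine le_trans ?_ hL1
    rw [mul_comm]
    exact mul_le_mul him h5 (Real.exp_pos _).le (norm_nonneg _)
  have h11 : Real.exp (4 * M) ≤ Real.exp (S1 - S2) := by
    have e1 : Real.exp (S1 - S2) * Real.exp (S2 - K) = Real.exp (S1 + K) * Real.exp (-(2 * K)) := by
      rw [← Real.exp_add, ← Real.exp_add]
      congr 1
      ring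
    have e2 : C * Real.exp (4 * M) * θ ≤ |y| * Real.exp (-(2 * K)) := by
      have e3 : C * Real.exp (4 * M + 2 * K) * θ * Real.exp (-(2 * K)) ≤ |y| * Real.exp (-(2 * K)) :=
        mul_le_mul_of_nonneg_right hDy (Real.exp_pos _).le
      have e4 : C * Real.exp (4 * M + 2 * K) * θ * Real.exp (-(2 * K)) = C * Real.exp (4 * M) * θ := by
        have : Real.exp (4 * M + 2 * K) * Real.exp (-(2 * K)) = Real.exp (4 * M) := by
          rw [← Real.exp_add]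
          congr 1
          ring
        calc C * Real.exp (4 * M + 2 * K) * θ * Real.exp (-(2 * K)) =
            C * (Real.exp (4 * M + 2 * K) * Real.exp (-(2 * K))) * θ := by ring
          _ = _ := by rw [this]
      linarith
    -- exp(S1-S2) * C ≥ exp(S1-S2) exp(S2-K) 2|y| = exp(S1+K) exp(-2K) 2|y|
    have hE := Real.exp_pos (S1 - S2)
    have hEK := Real.exp_pos (-(2 * K))
    have e5 : Real.exp (S1 - S2) * (Real.exp (S2 - K) * (2 * |y|)) ≤ Real.exp (S1 - S2) * C :=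
      mul_le_mul_of_nonneg_left h10 hE.le
    have e6 : Real.exp (S1 - S2) * (Real.exp (S2 - K) * (2 * |y|)) =
        Real.exp (S1 + K) * (Real.exp (-(2 * K)) * (2 * |y|)) := by
      rw [← mul_assoc, e1]
      ring
    have e7 : (θ * Real.exp (S1 + K)) * (2 * (|y| * Real.exp (-(2 * K)))) ≤ θ * (Real.exp (S1 - S2) * C) := by
      have e8 : (θ * Real.exp (S1 + K)) * (2 * (|y| * Real.exp (-(2 * K)))) =
          θ * (Real.exp (S1 + K) * (Real.exp (-(2 * K)) * (2 * |y|))) := by ring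
      rw [e8, ← e6]
      exact mul_le_mul_of_nonneg_left e5 hθ.le
    have e9 : (1 / 2) * (2 * (|y| * Real.exp (-(2 * K)))) ≤
        (θ * Real.exp (S1 + K)) * (2 * (|y| * Real.exp (-(2 * K)))) :=
      mul_le_mul_of_nonneg_right hzθ (by positivity)
    have e10 : C * Real.exp (4 * M) * θ ≤ θ * (Real.exp (S1 - S2) * C) := by linarith
    have e11 : (C * θ) * Real.exp (4 * M) ≤ (C * θ) * Real.exp (S1 - S2) := by linarith
    exact le_of_mul_le_mul_left e11 (by positivity)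
  rw [Real.exp_le_exp] at h11
  linarith

end Pool.Agent.R512.U.Hal
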