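import Pool.Agent.R512.U.Dist

/-!
Library R512.U (helper512): the mean values of `f χ` are small when `f` is far from the real characters,
uniformly in `f`.
-/

set_option autoImplicit false

namespace Pool.Agent.R512.U.Hal

open Finset Filter Topology
open Pool.Agent.Y872.L (CM)
open Pool.Agent.Y290.LT.Sup
open Pool.Agent.Y122.LT (DS tw DS_eq CMC S m m_nonneg)

/-- the distance to a character up to `N` -/
noncomputable def dst (f : ℕ → ℤ) {q : ℕ} (χ : DirichletCharacter ℂ q) (N : ℕ) : ℝ :=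
  ∑ p ∈ (Icc 1 N).filter Nat.Prime, (1 - ((f p : ℂ) * χ (p : ZMod q)).re) / (p : ℝ)

lemma dst_term {f : ℕ → ℤ} (hf : CM f) {q : ℕ} (χ : DirichletCharacter ℂ q) (p : ℕ) :
    0 ≤ 1 - ((f p : ℂ) * χ (p : ZMod q)).re ∧ 1 - ((f p : ℂ) * χ (p : ZMod q)).re ≤ 2 := by
  have h1 : ‖(f p : ℂ) * χ (p : ZMod q)‖ ≤ 1 := by
    rw [norm_mul]
    calc ‖(f p : ℂ)‖ * ‖χ (p : ZMod q)‖ ≤ 1 * 1 :=
          mul_le_mul (absf hf p) (χ.norm_le_one _) (norm_nonneg _) zero_le_one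
      _ = 1 := one_mul 1
  have h2 := (abs_le.1 ((Complex.abs_re_le_norm _).trans h1))
  constructor <;> linarith [h2.1, h2.2]

lemma dst_mono {f : ℕ → ℤ} (hf : CM f) {q : ℕ} (χ : DirichletCharacter ℂ q) {N N' : ℕ} (h : N ≤ N') :
    dst f χ N ≤ dst f χ N' := by
  unfold dst
  apply sum_le_sum_of_subset_of_nonneg
  · exact filter_subset_filter _ (Icc_subset_Icc_right h)
  · intro p _ _
    exact div_nonneg (dst_term hf χ p).1 (Nat.cast_nonneg _)

lemma cpow_sub_one {p : ℕ} (hp : 0 < p) (y : ℝ) :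
    ‖(p : ℂ) ^ (-(y * Complex.I)) - 1‖ ≤ |y| * Real.log p := by
  have e1 : (p : ℂ) ^ (-(y * Complex.I)) = Complex.exp (Complex.I * ((-(y * Real.log p) : ℝ) : ℂ)) := by
    rw [Complex.cpow_def_of_ne_zero (by exact_mod_cast hp.ne'), ← Complex.natCast_log]
    congr 1
    push_cast
    ring
  rw [e1]
  refine Real.norm_exp_I_mul_ofReal_sub_one_le.trans (le_of_eq ?_)
  rw [Real.norm_eq_abs, abs_neg, abs_mul, abs_of_nonneg (Real.log_nonneg (by exact_mod_cast hp))]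

/-- low heights -/
lemma lowh : ∃ C₂ : ℝ, 0 ≤ C₂ ∧ ∀ T : ℝ, 1 ≤ T → ∀ (q : ℕ) (χ : DirichletCharacter ℂ q), ∀ f : ℕ → ℤ, CM f →
    ∀ y D : ℝ, |y| ≤ D * (1 / T) →
      Real.exp (-1) * dst f χ ⌊Real.exp T⌋₊ - D * (1 + C₂) ≤ ∑' p : Nat.Primes, g f χ p (1 / T) y := by
  obtain ⟨C₂, hC₂⟩ := Pool.Agent.Helper601.Mertens.mertens_log
  refine ⟨|C₂|, abs_nonneg _, fun T hT q χ f hf y D hyD => ?_⟩
  have hT0 : 0 < T := by linarith
  have hθ : 0 < 1 / T := by positivity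
  set N : ℕ := ⌊Real.exp T⌋₊ with hN
  have hN1 : 1 ≤ N := by
    rw [hN, Nat.one_le_floor_iff]
    exact Real.one_le_exp hT0.le
  have hN0 : (0 : ℝ) < N := by exact_mod_cast hN1
  have hNT : Real.log N ≤ T := by
    rw [Real.log_le_iff_le_exp hN0]
    exact Nat.floor_le (Real.exp_pos _).le
  have hD : 0 ≤ D := by
    have h1 := (abs_nonneg y).trans hyD
    by_contra hc
    push Not at hc
    have : D * (1 / T) < 0 := mul_neg_of_neg_of_pos hc hθ
    linarith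
  -- the finite sum
  have h1 : ∑ p ∈ (Icc 1 N).filter Nat.Prime, g f χ p (1 / T) y ≤ ∑' p : Nat.Primes, g f χ p (1 / T) y := by
    have hs := g_summ hf χ hθ y
    obtain ⟨S, hS⟩ : ∃ S : Finset Nat.Primes, S = Finset.subtype Nat.Prime (Icc 1 N) := ⟨_, rfl⟩
    have h2 : ∑ p ∈ S, g f χ p (1 / T) y ≤ ∑' p : Nat.Primes, g f χ p (1 / T) y :=
      hs.sum_le_tsum S (fun p _ => g_nonneg hf χ p.2.pos (1 / T) y)
    refine le_of_eq_of_le ?_ h2
    rw [hS]
    exact (sum_subtype_eq_sum_filter (s := Icc 1 N) (p := Nat.Prime) (fun p => g f χ p (1 / T) y)).symm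
  refine le_trans ?_ h1
  have h3 : ∀ p ∈ (Icc 1 N).filter Nat.Prime,
      Real.exp (-1) * ((1 - ((f p : ℂ) * χ (p : ZMod q)).re) / (p : ℝ)) - (D / T) * (Real.log p / p) ≤
        g f χ p (1 / T) y := by
    intro p hp
    rw [mem_filter, mem_Icc] at hp
    have hp0 : 0 < p := hp.1.1
    have hpr : (0 : ℝ) < p := by exact_mod_cast hp0
    have hlog0 : 0 ≤ Real.log p := Real.log_nonneg (by exact_mod_cast hp.1.1)
    have hlogT : Real.log p ≤ T := (Real.log_le_log hpr (by exact_mod_cast hp.1.2)).trans hNT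
    rw [g_eq χ hp0]
    have h4 := dst_term hf χ p
    set b : ℂ := (f p : ℂ) * χ (p : ZMod q) with hb
    have hb1 : ‖b‖ ≤ 1 := by
      rw [hb, norm_mul]
      calc ‖(f p : ℂ)‖ * ‖χ (p : ZMod q)‖ ≤ 1 * 1 :=
            mul_le_mul (absf hf p) (χ.norm_le_one _) (norm_nonneg _) zero_le_one
        _ = 1 := one_mul 1
    have h5 : (b * (p : ℂ) ^ (-(y * Complex.I))).re ≤ b.re + |y| * Real.log p := by
      have e1 : b * (p : ℂ) ^ (-(y * Complex.I)) = b + b * ((p : ℂ) ^ (-(y * Complex.I)) - 1) := by ring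
      rw [e1, Complex.add_re]
      have e2 : (b * ((p : ℂ) ^ (-(y * Complex.I)) - 1)).re ≤ |y| * Real.log p := by
        refine (Complex.re_le_norm _).trans ?_
        rw [norm_mul]
        calc ‖b‖ * ‖(p : ℂ) ^ (-(y * Complex.I)) - 1‖ ≤ 1 * (|y| * Real.log p) :=
              mul_le_mul hb1 (cpow_sub_one hp0 y) (norm_nonneg _) zero_le_one
          _ = _ := one_mul _
      linarith
    have h6 : Real.exp (-1) * (1 / p) ≤ (p : ℝ) ^ (-(1 + 1 / T)) := by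
      rw [neg_add, Real.rpow_add hpr, Real.rpow_neg_one, one_div, mul_comm]
      refine mul_le_mul_of_nonneg_left ?_ (by positivity)
      rw [Real.rpow_def_of_pos hpr, Real.exp_le_exp, mul_neg, neg_le_neg_iff]
      have : Real.log p * (1 / T) ≤ T * (1 / T) := mul_le_mul_of_nonneg_right hlogT hθ.le
      have e : T * (1 / T) = 1 := mul_one_div_cancel hT0.ne'
      linarith
    have h7 : (p : ℝ) ^ (-(1 + 1 / T)) ≤ 1 / p :=
      rpow_le_inv hθ.le hp.2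
    have h8 : 0 ≤ 1 - (b * (p : ℂ) ^ (-(y * Complex.I))).re := by
      have e1 : ‖b * (p : ℂ) ^ (-(y * Complex.I))‖ ≤ 1 := by rw [norm_mul, norm_u hp0, mul_one]; exact hb1
      have := (Complex.re_le_norm _).trans e1
      linarith
    have h9 : Real.exp (-1) * (1 / p) * (1 - b.re) ≤ (p : ℝ) ^ (-(1 + 1 / T)) * (1 - b.re) :=
      mul_le_mul_of_nonneg_right h6 h4.1
    have h10 : (p : ℝ) ^ (-(1 + 1 / T)) * (|y| * Real.log p) ≤ (1 / p) * ((D * (1 / T)) * Real.log p) :=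
      mul_le_mul h7 (mul_le_mul_of_nonneg_right hyD hlog0) (by positivity) (by positivity)
    have h11 : (p : ℝ) ^ (-(1 + 1 / T)) * (1 - b.re - |y| * Real.log p) ≤
        (p : ℝ) ^ (-(1 + 1 / T)) * (1 - (b * (p : ℂ) ^ (-(y * Complex.I))).re) :=
      mul_le_mul_of_nonneg_left (by linarith) (by positivity)
    have e3 : Real.exp (-1) * ((1 - b.re) / (p : ℝ)) = Real.exp (-1) * (1 / p) * (1 - b.re) := by
      field_simp
    have e4 : (D / T) * (Real.log p / p) = (1 / p) * ((D * (1 / T)) * Real.log p) := by field_simp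
    rw [e3, e4]
    linarith
  refine le_trans ?_ (sum_le_sum h3)
  rw [sum_sub_distrib, ← mul_sum, ← mul_sum]
  have h4 : ∑ p ∈ (Icc 1 N).filter Nat.Prime, Real.log p / p ≤ T + |C₂| := by
    have h5 := (abs_le.1 (hC₂ N hN1)).2
    have h6 := le_abs_self C₂
    linarith
  have h5 : (D / T) * ∑ p ∈ (Icc 1 N).filter Nat.Prime, Real.log p / p ≤ D * (1 + |C₂|) := by
    calc (D / T) * ∑ p ∈ (Icc 1 N).filter Nat.Prime, Real.log p / p ≤ (D / T) * (T + |C₂|) :=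
          mul_le_mul_of_nonneg_left h4 (by positivity)
      _ = D * (1 + |C₂| / T) := by field_simp
      _ ≤ D * (1 + |C₂|) := by
          apply mul_le_mul_of_nonneg_left _ hD
          have : |C₂| / T ≤ |C₂| := div_le_self (abs_nonneg _) hT
          linarith
  have h6 : Real.exp (-1) * dst f χ N = Real.exp (-1) *
      ∑ p ∈ (Icc 1 N).filter Nat.Prime, (1 - ((f p : ℂ) * χ (p : ZMod q)).re) / (p : ℝ) := rfl
  linarith

/-- all heights -/
theorem allh {q : ℕ} (hq : 0 < q) (χ : DirichletCharacter ℂ q) (B M : ℝ) : ∃ A T₀ : ℝ, 1 ≤ T₀ ∧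
    ∀ T : ℝ, T₀ ≤ T → ∀ f : ℕ → ℤ, CM f → (χ ^ 2 = 1 → A ≤ dst f χ ⌊Real.exp T⌋₊) → ∀ y : ℝ, |y| ≤ B →
      M ≤ ∑' p : Nat.Primes, g f χ p (1 / T) y := by
  by_cases hχ : χ ^ 2 = 1
  swap
  · obtain ⟨θ₀, hθ₀, h⟩ := away hq χ (Set.Icc (-B) B) isCompact_Icc (fun y _ => Or.inl hχ) M
    refine ⟨0, max 1 (2 / θ₀), le_max_left _ _, fun T hT f hf _ y hy => ?_⟩
    have hT1 : 1 ≤ T := (le_max_left _ _).trans hT
    have hT2 : 2 / θ₀ ≤ T := (le_max_right _ _).trans hT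
    rw [div_le_iff₀ hθ₀] at hT2
    have hT0 : 0 < T := by linarith
    refine h (1 / T) (by positivity) ?_ y (abs_le.1 hy) f hf
    rw [div_lt_iff₀ hT0]
    linarith
  obtain ⟨D, r, hD, hr, hmid⟩ := mid hq χ hχ M
  obtain ⟨θ₀, hθ₀, haw⟩ := away hq χ (Set.Icc (-B) B ∩ {y : ℝ | r ≤ |y|})
    (isCompact_Icc.inter_right (isClosed_le continuous_const continuous_abs)) (fun y hy => Or.inr (by
      intro h0
      have : r ≤ |y| := hy.2
      rw [h0, abs_zero] at this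
      linarith)) M
  obtain ⟨C₂, hC₂, hlow⟩ := lowh
  refine ⟨Real.exp 1 * (M + D * (1 + C₂)), max 1 (max (2 / θ₀) (2 / r)), le_max_left _ _,
    fun T hT f hf hA y hy => ?_⟩
  have hT1 : 1 ≤ T := (le_max_left _ _).trans hT
  have hT2 : 2 / θ₀ ≤ T := ((le_max_left _ _).trans (le_max_right _ _)).trans hT
  have hT3 : 2 / r ≤ T := ((le_max_right _ _).trans (le_max_right _ _)).trans hT
  rw [div_le_iff₀ hθ₀] at hT2
  rw [div_le_iff₀ hr] at hT3
  have hT0 : 0 < T := by linarith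
  have hθ : 0 < 1 / T := by positivity
  have hθ1 : 1 / T < θ₀ := by rw [div_lt_iff₀ hT0]; linarith
  have hθ2 : 1 / T < r := by rw [div_lt_iff₀ hT0]; linarith
  by_cases hyr : r ≤ |y|
  · exact haw (1 / T) hθ hθ1 y ⟨abs_le.1 hy, hyr⟩ f hf
  push Not at hyr
  by_cases hyD : D * (1 / T) ≤ |y|
  · exact hmid (1 / T) hθ hθ2 y hyr hyD f hf
  push Not at hyD
  have h1 := hlow T hT1 q χ f hf y D hyD.le
  have h2 := hA hχ
  have h3 : Real.exp (-1) * (Real.exp 1 * (M + D * (1 + C₂))) ≤ Real.exp (-1) * dst f χ ⌊Real.exp T⌋₊ :=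
    mul_le_mul_of_nonneg_left h2 (Real.exp_pos _).le
  have h4 : Real.exp (-1) * (Real.exp 1 * (M + D * (1 + C₂))) = M + D * (1 + C₂) := by
    rw [← mul_assoc, ← Real.exp_add]
    simp
  linarith

/-- the generating functions -/
theorem gen_small {q : ℕ} (hq : 0 < q) (χ : DirichletCharacter ℂ q) (B η : ℝ) (hη : 0 < η) : ∃ A T₀ : ℝ, 1 ≤ T₀ ∧
    ∀ T : ℝ, T₀ ≤ T → ∀ f : ℕ → ℤ, CM f → (χ ^ 2 = 1 → A ≤ dst f χ ⌊Real.exp T⌋₊) → ∀ y : ℝ, |y| ≤ B →
      (1 / T) * ‖DS (tw (fun n => (f n : ℂ) * χ (n : ZMod q)) (1 + 1 / T)) y‖ ≤ η := by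
  obtain ⟨M, hM⟩ : ∃ M : ℝ, 2 * Real.exp (2 * K - M) ≤ η := by
    refine ⟨2 * K - Real.log (η / 2), ?_⟩
    have : 2 * K - (2 * K - Real.log (η / 2)) = Real.log (η / 2) := by ring
    rw [this, Real.exp_log (by positivity)]
    linarith
  obtain ⟨A, T₀, hT₀, h⟩ := allh hq χ B M
  have hz := zeta_up
  rw [eventually_nhdsWithin_iff, Metric.eventually_nhds_iff] at hz
  obtain ⟨r, hr, hz⟩ := hz
  refine ⟨A, max T₀ (2 / r), hT₀.trans (le_max_left _ _), fun T hT f hf hA y hy => ?_⟩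
  have hT1 : T₀ ≤ T := (le_max_left _ _).trans hT
  have hT2 : 2 / r ≤ T := (le_max_right _ _).trans hT
  rw [div_le_iff₀ hr] at hT2
  have hT0 : 0 < T := by linarith
  have hθ : 0 < 1 / T := by positivity
  have hθ1 : 1 / T < r := by rw [div_lt_iff₀ hT0]; linarith
  have h1 := h T hT1 f hf hA y hy
  have h2 := hz (y := 1 / T) (by rw [Real.dist_eq, sub_zero, abs_of_pos hθ]; exact hθ1) hθ
  have h5 := upper (Phi hf χ (1 / T) y hθ) (Phi_summ hf χ (1 / T) y hθ) (Phi_prime hf χ (1 / T) y hθ)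
  have h6 := summ_re (Phi hf χ (1 / T) y hθ) (Phi_summ hf χ (1 / T) y hθ) (Phi_prime hf χ (1 / T) y hθ)
  have hsP : Summable (fun p : Nat.Primes => ((p : ℕ) : ℝ) ^ (-(1 + 1 / T))) :=
    Nat.Primes.summable_rpow.2 (by linarith)
  have h8 : ∑' p : Nat.Primes, g f χ p (1 / T) y = ∑' p : Nat.Primes, ((p : ℕ) : ℝ) ^ (-(1 + 1 / T)) -
      ∑' p : Nat.Primes, (Phi hf χ (1 / T) y hθ (p : ℕ)).re := hsP.tsum_sub h6
  have h9 : DS (tw (fun n => (f n : ℂ) * χ (n : ZMod q)) (1 + 1 / T)) y = ∑' n, Phi hf χ (1 / T) y hθ n := by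
    rw [DS_eq (by simp [hf.zero]), LSeries]
    refine tsum_congr fun n => ?_
    rw [Phi_apply]
    rcases Nat.eq_zero_or_pos n with h0 | h0
    · subst h0; simp [hf.zero]
    · rw [LSeries.term_of_ne_zero h0.ne', div_eq_mul_inv, ← Complex.cpow_neg, pt]
  rw [h9]
  calc (1 / T) * ‖∑' n, Phi hf χ (1 / T) y hθ n‖
      ≤ (1 / T) * Real.exp (∑' p : Nat.Primes, (Phi hf χ (1 / T) y hθ (p : ℕ)).re + K) :=
        mul_le_mul_of_nonneg_left h5 hθ.le
    _ = ((1 / T) * Real.exp (∑' p : Nat.Primes, ((p : ℕ) : ℝ) ^ (-(1 + 1 / T)) - K)) *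
        Real.exp (2 * K - ∑' p : Nat.Primes, g f χ p (1 / T) y) := by
        rw [mul_assoc, ← Real.exp_add]
        congr 2
        rw [h8]
        ring
    _ ≤ 2 * Real.exp (2 * K - ∑' p : Nat.Primes, g f χ p (1 / T) y) :=
        mul_le_mul_of_nonneg_right h2 (Real.exp_pos _).le
    _ ≤ 2 * Real.exp (2 * K - M) := by
        have : Real.exp (2 * K - ∑' p : Nat.Primes, g f χ p (1 / T) y) ≤
            Real.exp (2 * K - M) := Real.exp_le_exp.2 (by linarith)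
        linarith
    _ ≤ η := hM

/-- the means of `f χ` -/
theorem mean_chi {q : ℕ} (hq : 0 < q) (χ : DirichletCharacter ℂ q) (ε : ℝ) (hε : 0 < ε) : ∃ A : ℕ,
    ∀ N : ℕ, A ≤ N → ∀ f : ℕ → ℤ, CM f → (χ ^ 2 = 1 → (A : ℝ) ≤ dst f χ N) →
      ‖∑ n ∈ Icc 1 N, (f n : ℂ) * χ (n : ZMod q)‖ ≤ ε * N := by
  obtain ⟨B, η, T₁, hη, hT₁, hm⟩ := m_scaleU ε hε
  obtain ⟨A, T₀, hT₀, hg⟩ := gen_small hq χ B η hη
  refine ⟨⌈A⌉₊ + ⌈Real.exp (max T₀ T₁)⌉₊ + 1, fun N hN f hf hd => ?_⟩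
  have hN0 : (0 : ℝ) < N := by exact_mod_cast (by omega : 0 < N)
  have h1 : Real.exp (max T₀ T₁) ≤ N := (Nat.le_ceil _).trans (by exact_mod_cast (by omega : ⌈Real.exp (max T₀ T₁)⌉₊ ≤ N))
  have h2 : max T₀ T₁ ≤ Real.log N := by rwa [Real.le_log_iff_exp_le hN0]
  have h3 : T₀ ≤ Real.log N := (le_max_left _ _).trans h2
  have h4 : T₁ ≤ Real.log N := (le_max_right _ _).trans h2
  have hCMC : CMC (fun n => (f n : ℂ) * χ (n : ZMod q)) := by
    refine ⟨by simp [hf.zero], by simp [hf.one], fun u v => ?_, fun n => ?_⟩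
    · rw [hf.mul, Nat.cast_mul, map_mul]
      push_cast
      ring
    · rw [norm_mul]
      calc ‖(f n : ℂ)‖ * ‖χ (n : ZMod q)‖ ≤ 1 * 1 :=
            mul_le_mul (absf hf n) (χ.norm_le_one _) (norm_nonneg _) zero_le_one
        _ = 1 := one_mul 1
  have h5 := hm _ hCMC (Real.log N) h4 (fun y hy => by
    refine hg (Real.log N + 2) (by linarith) f hf (fun hχ => ?_) y hy
    have h6 := hd hχ
    have h7 : A ≤ ((⌈A⌉₊ + ⌈Real.exp (max T₀ T₁)⌉₊ + 1 : ℕ) : ℝ) :=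
      (Nat.le_ceil _).trans (by exact_mod_cast (by omega))
    refine (h7.trans h6).trans (dst_mono hf χ ?_)
    apply Nat.le_floor
    rw [Real.exp_add, Real.exp_log hN0]
    have : (1 : ℝ) ≤ Real.exp 2 := Real.one_le_exp (by norm_num)
    nlinarith)
  have h6 : m (fun n => (f n : ℂ) * χ (n : ZMod q)) (Real.log N) =
      ‖∑ n ∈ Icc 1 N, (f n : ℂ) * χ (n : ZMod q)‖ / N := by
    unfold m S
    rw [Real.exp_log hN0, Nat.floor_natCast, Real.exp_neg, Real.exp_log hN0]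
    rfl
  rw [h6, div_le_iff₀ hN0] at h5
  exact h5

end Pool.Agent.R512.U.Hal
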