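import Pool.Agent.R512.U.MInst
import Pool.Agent.R512.G.Expo
import Pool.Agent.TH575.OM.ScaleS

/-!
Library R512.U (helper512): exponential sums of completely multiplicative functions with values `±1`, uniformly, from
small means in residue classes near the scale.
-/

set_option autoImplicit false

namespace Pool.Agent.R512.U

open Finset Filter Topology Pool.Agent.H376R2.MR Pool.Agent.H970R2.X
open Pool.Agent.H807R2.Dav (ee norm_ee ee_add ee_int ee_pow ee_zero)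
open Pool.Agent.TH823.MRS
open Pool.Agent.R512.G (minor_bound')
open Pool.Agent.TH575.OM (nat_sumC GC)
open Pool.Agent.Y872.L (CM Tw rs_bdd cm_abs rs_tw)

/-- small means in the residue classes at the scales near `X` -/
def SMn (B X : ℕ) (f : ℕ → ℤ) : Prop := ∀ q b : ℕ, 1 ≤ q → q ≤ B → ∀ N : ℕ, X ≤ B * N → N ≤ B * X →
  (B : ℝ) * |∑ n ∈ Icc 1 N, ((rs f q b n : ℤ) : ℝ)| ≤ N

lemma SMn_mono {B B' X : ℕ} {f : ℕ → ℤ} (h : B ≤ B') (hs : SMn B' X f) : SMn B X f := by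
  intro q b hq hqB N h1 h2
  have h3 := hs q b hq (hqB.trans h) N (h1.trans (Nat.mul_le_mul_right _ h)) (h2.trans (Nat.mul_le_mul_right _ h))
  refine le_trans (mul_le_mul_of_nonneg_right ?_ (abs_nonneg _)) h3
  exact_mod_cast h

/-- low frequencies from the summatory function -/
lemma abelU (g : ℕ → ℤ) (k : ℤ) (Y ε : ℝ) (hY6 : 6 ≤ Y) (hε0 : 0 ≤ ε)
    (hS : ∀ n : ℕ, Y / 6 ≤ n → (n : ℝ) ≤ 3 * Y → |∑ m ∈ Icc 1 n, ((g m : ℤ) : ℝ)| ≤ ε * n) :
    ‖GGg g Y k‖ ≤ ε * (18 * (2 + |(k : ℝ)|)) := by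
  have hYpos : 0 < Y := by linarith
  have he : Real.exp 1 < 3 := by
    have := Real.exp_one_lt_d9
    linarith
  set N := ⌊Real.exp 1 * Y⌋₊ with hN
  have hNle : (N : ℝ) ≤ Real.exp 1 * Y := Nat.floor_le (by positivity)
  have hNlt : Real.exp 1 * Y < N + 1 := Nat.lt_floor_add_one _
  have h1 : GGg g Y k =
      ∑ n ∈ Icc 1 N, (((g n : ℤ) : ℝ) : ℂ) * ((bw Y n : ℂ) * ch k (Real.log n)) := by
    unfold GGg DP WN
    apply Finset.sum_congr rfl
    intro n hn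
    push_cast
    ring
  rw [h1, smallk_abel]
  have h2 : bw Y (N + 1) = 0 := smallk_bw_zero_right hYpos (by push_cast; exact hNlt.le)
  rw [h2]
  simp only [Complex.ofReal_zero, zero_mul, mul_zero, zero_add]
  calc ‖∑ n ∈ Icc 1 N, ((∑ m ∈ Icc 1 n, ((g m : ℤ) : ℝ) : ℝ) : ℂ) *
        ((bw Y n : ℂ) * ch k (Real.log n) - (bw Y (n + 1) : ℂ) * ch k (Real.log (n + 1 : ℕ)))‖
      ≤ ∑ n ∈ Icc 1 N, ‖((∑ m ∈ Icc 1 n, ((g m : ℤ) : ℝ) : ℝ) : ℂ) *
        ((bw Y n : ℂ) * ch k (Real.log n) - (bw Y (n + 1) : ℂ) * ch k (Real.log (n + 1 : ℕ)))‖ :=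
        norm_sum_le _ _
    _ ≤ ∑ n ∈ Icc 1 N, ε * (2 + |(k : ℝ)|) * 6 / Y := by
        apply Finset.sum_le_sum
        intro n hn
        rw [mem_Icc] at hn
        have hnpos : (0 : ℝ) < n := by exact_mod_cast hn.1
        by_cases hsmall : ((n + 1 : ℕ) : ℝ) * Real.exp 1 ≤ Y
        · have h3 : bw Y (n + 1) = 0 := smallk_bw_zero_left hYpos (by omega) hsmall
          have h4 : bw Y n = 0 := by
            apply smallk_bw_zero_left hYpos hn.1
            refine le_trans ?_ hsmall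
            push_cast
            have := Real.exp_pos 1
            nlinarith
          rw [h3, h4]
          simp only [Complex.ofReal_zero, zero_mul, sub_zero, mul_zero, norm_zero]
          positivity
        · push Not at hsmall
          push_cast at hsmall
          have h5 : Y / 6 ≤ n := by
            have h51 : Y < (n + 1) * 3 := hsmall.trans (by nlinarith)
            linarith
          have h6 : (n : ℝ) ≤ 3 * Y := by
            have h61 : (n : ℝ) ≤ N := by exact_mod_cast hn.2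
            nlinarith
          have h7 := hS n h5 h6
          rw [norm_mul, Complex.norm_real, Real.norm_eq_abs]
          have h8 := smallk_f_diff Y k hn.1
          calc |∑ m ∈ Icc 1 n, ((g m : ℤ) : ℝ)| * _ ≤ (ε * n) * ((2 + |(k : ℝ)|) / (n : ℝ) ^ 2) :=
                mul_le_mul h7 h8 (norm_nonneg _) (by positivity)
            _ = ε * (2 + |(k : ℝ)|) * (1 / n) := by field_simp
            _ ≤ ε * (2 + |(k : ℝ)|) * (6 / Y) := by
                apply mul_le_mul_of_nonneg_left _ (by positivity)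
                rw [div_le_div_iff₀ hnpos hYpos]
                linarith
            _ = ε * (2 + |(k : ℝ)|) * 6 / Y := by ring
    _ = N * (ε * (2 + |(k : ℝ)|) * 6 / Y) := by
        rw [Finset.sum_const, Nat.card_Icc, nsmul_eq_mul]
        simp
    _ ≤ (3 * Y) * (ε * (2 + |(k : ℝ)|) * 6 / Y) := by
        apply mul_le_mul_of_nonneg_right _ (by positivity)
        nlinarith
    _ = ε * (18 * (2 + |(k : ℝ)|)) := by field_simp; ring

/-- the mean squares over all frequencies, uniformly -/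
theorem mrkU (q b : ℕ) (hq : 1 ≤ q) (δ η : ℝ) (hδ : 0 < δ) (hη : 0 < η) : ∃ h : ℝ, 1 ≤ h ∧ ∃ B X₀ : ℕ,
    ∀ X : ℕ, X₀ ≤ X → ∀ f : ℕ → ℤ, CM f → SMn B X f → ∀ Y : ℝ, δ * X ≤ Y → Y ≤ 9 * X →
    ∑ k ∈ FK ⌊Y / h⌋₊, ‖GGg (rs f q b) Y k‖ ^ 2 ≤ η := by
  obtain ⟨c, hc, hR⟩ := rich_ap q hq
  obtain ⟨T₀, h, hh, Y₀, hmr⟩ := mr_largeU (P1 q) c hc hR (η / 2) (by linarith)
  -- the low frequencies
  set ε : ℝ := min 1 (η / (2 * ((2 * T₀ + 1) * (18 * (2 + T₀)) ^ 2))) with hε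
  have hD0 : (0 : ℝ) < (2 * T₀ + 1) * (18 * (2 + T₀)) ^ 2 := by positivity
  have hε0 : 0 < ε := lt_min one_pos (by positivity)
  have hε1 : ε ≤ 1 := min_le_left _ _
  have hε2 : (2 * T₀ + 1) * (18 * (2 + (T₀ : ℝ))) ^ 2 * ε ≤ η / 2 := by
    have h1 : ε ≤ η / (2 * ((2 * T₀ + 1) * (18 * (2 + T₀)) ^ 2)) := min_le_right _ _
    rw [le_div_iff₀ (by positivity)] at h1
    linarith
  set B : ℕ := q + ⌈1 / ε⌉₊ + ⌈6 / δ⌉₊ + 27 with hB
  set X₀ : ℕ := ⌈Y₀ / δ⌉₊ + ⌈6 / δ⌉₊ with hX₀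
  refine ⟨h, hh, B, X₀, fun X hX f hf hsm Y hY1 hY2 => ?_⟩
  have hX1 : Y₀ / δ ≤ X := (Nat.le_ceil _).trans (by exact_mod_cast (by omega : ⌈Y₀ / δ⌉₊ ≤ X))
  have hX2 : 6 / δ ≤ X := (Nat.le_ceil _).trans (by exact_mod_cast (by omega : ⌈6 / δ⌉₊ ≤ X))
  rw [div_le_iff₀ hδ] at hX1 hX2
  have hYY₀ : Y₀ ≤ Y := by linarith
  have hY6 : 6 ≤ Y := by linarith
  have h1 := hmr f (rs f q b) (cm_abs hf) (rs_bdd hf q b) (rs_tw hf q b) Y hYY₀
  have hlow : ∀ k : ℤ, ‖GGg (rs f q b) Y k‖ ≤ ε * (18 * (2 + |(k : ℝ)|)) := by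
    intro k
    apply abelU _ k Y ε hY6 hε0.le
    intro n hn1 hn2
    have hn0 : (0 : ℝ) < n := by linarith
    have hBδ : 6 / δ ≤ B := (Nat.le_ceil _).trans (by exact_mod_cast (by omega : ⌈6 / δ⌉₊ ≤ B))
    have hBε : 1 / ε ≤ B := (Nat.le_ceil _).trans (by exact_mod_cast (by omega : ⌈1 / ε⌉₊ ≤ B))
    rw [div_le_iff₀ hδ] at hBδ
    rw [div_le_iff₀ hε0] at hBε
    have hB0 : (0 : ℝ) < B := by exact_mod_cast (by omega : 0 < B)
    have h2 : (X : ℝ) ≤ B * n := by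
      have h3 : (X : ℝ) * 6 ≤ X * (B * δ) := mul_le_mul_of_nonneg_left hBδ (Nat.cast_nonneg _)
      have h4 : (B : ℝ) * (δ * X) ≤ B * (6 * n) := mul_le_mul_of_nonneg_left (by linarith) hB0.le
      nlinarith
    have h3 : (n : ℝ) ≤ B * X := by
      have h4 : (27 : ℝ) ≤ B := by exact_mod_cast (by omega : 27 ≤ B)
      have h5 : (27 : ℝ) * X ≤ B * X := mul_le_mul_of_nonneg_right h4 (Nat.cast_nonneg _)
      linarith
    have h4 := hsm q b hq (by omega) n (by exact_mod_cast h2) (by exact_mod_cast h3)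
    set S : ℝ := |∑ m ∈ Icc 1 n, ((rs f q b m : ℤ) : ℝ)| with hSd
    have hS0 : 0 ≤ S := abs_nonneg _
    have h5 : S ≤ (B * ε) * S := by
      have := mul_le_mul_of_nonneg_right hBε hS0
      linarith
    have h6 : ε * (B * S) ≤ ε * n := mul_le_mul_of_nonneg_left h4 hε0.le
    linarith
  rw [← sum_filter_add_sum_filter_not (FK ⌊Y / h⌋₊) (fun k : ℤ => T₀ ≤ k.natAbs)]
  have h3 : ∑ k ∈ (FK ⌊Y / h⌋₊).filter (fun k : ℤ => ¬ T₀ ≤ k.natAbs), ‖GGg (rs f q b) Y k‖ ^ 2 ≤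
      ∑ k ∈ FK T₀, ‖GGg (rs f q b) Y k‖ ^ 2 := by
    apply sum_le_sum_of_subset_of_nonneg _ (fun _ _ _ => by positivity)
    intro k hk
    rw [mem_filter] at hk
    rw [FK, mem_Ioo]
    have := hk.2
    omega
  have h4 : ∑ k ∈ FK T₀, ‖GGg (rs f q b) Y k‖ ^ 2 ≤ η / 2 := by
    have h5 : ∀ k ∈ FK T₀, ‖GGg (rs f q b) Y k‖ ^ 2 ≤ (18 * (2 + (T₀ : ℝ))) ^ 2 * ε := by
      intro k hk
      rw [FK, mem_Ioo] at hk
      have hkT : |(k : ℝ)| ≤ T₀ := by
        rw [abs_le]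
        constructor
        · have : (-(T₀ : ℤ) : ℤ) ≤ k := hk.1.le
          exact_mod_cast this
        · exact_mod_cast hk.2.le
      have h6 : ‖GGg (rs f q b) Y k‖ ≤ ε * (18 * (2 + T₀)) :=
        (hlow k).trans (mul_le_mul_of_nonneg_left (by linarith) hε0.le)
      have h7 := pow_le_pow_left₀ (norm_nonneg _) h6 2
      have h8 : (ε * (18 * (2 + (T₀ : ℝ)))) ^ 2 = ε * ε * (18 * (2 + T₀)) ^ 2 := by ring
      have h9 : ε * ε * (18 * (2 + (T₀ : ℝ))) ^ 2 ≤ ε * 1 * (18 * (2 + T₀)) ^ 2 := by gcongr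
      linarith
    refine (sum_le_sum h5).trans ?_
    rw [sum_const, nsmul_eq_mul]
    have hcard : ((FK T₀).card : ℝ) ≤ 2 * T₀ + 1 := by
      have : (FK T₀).card ≤ 2 * T₀ + 1 := by
        rw [FK, Int.card_Ioo]
        omega
      exact_mod_cast this
    have h6 : ((FK T₀).card : ℝ) * ((18 * (2 + (T₀ : ℝ))) ^ 2 * ε) ≤ (2 * T₀ + 1) * ((18 * (2 + (T₀ : ℝ))) ^ 2 * ε) :=
      mul_le_mul_of_nonneg_right hcard (by positivity)
    linarith
  linarith

/-- uniform bounds for exponential sums with slowly varying weights -/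
theorem expoR (ε : ℝ) (hε : 0 < ε) (A : ℝ) (hA : 0 ≤ A) : ∃ B : ℕ, ∃ H₀ : ℝ, ∃ X₀ : ℕ, ∀ X : ℕ, X₀ ≤ X →
    ∀ f : ℕ → ℤ, CM f → SMn B X f → ∀ H : ℝ, H₀ ≤ H → H ≤ X → ∀ T : ℕ → ℂ,
      (∀ n : ℕ, ‖T n‖ ≤ H) → (∀ n m : ℕ, ‖T n - T m‖ ≤ A * |(n : ℝ) - m|) → (∀ n : ℕ, 3 * X < n → T n = 0) →
      ∀ α : ℝ, ‖∑ n ∈ Icc 1 (3 * X), (f n : ℂ) * ee ((n : ℝ) * α) * T n‖ ≤ ε * H * X := by
  classical
  obtain ⟨P, hP⟩ := LS_large (max 1 ((15 / ε) ^ 2))
  have hL1 : 1 ≤ LS P := (le_max_left _ _).trans hP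
  have hLε : (15 / ε) ^ 2 ≤ LS P := (le_max_right _ _).trans hP
  obtain ⟨W, hW⟩ : ∃ W : ℕ, W = ⌈(P : ℝ) ^ 2 * (1 + 3 * A * P)⌉₊ + P + 1 := ⟨_, rfl⟩
  have hW1 : 1 ≤ W := by omega
  have hPW : P ≤ W := by omega
  have hPW2 : (P : ℝ) ^ 2 * (1 + 3 * A * P) ≤ W := by
    refine (Nat.le_ceil _).trans ?_
    exact_mod_cast (by omega : ⌈(P : ℝ) ^ 2 * (1 + 3 * A * P)⌉₊ ≤ W)
  have hW0 : (0 : ℝ) < W := by exact_mod_cast hW1
  -- the residue classes
  obtain ⟨δ', η', hδ', hη', hNS⟩ := nat_sumC (ε / W) (by positivity)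
  have hns : ∀ q b : ℕ, ∃ B : ℕ, ∃ H₀ : ℝ, ∃ X₀ : ℕ, 1 ≤ q → ∀ X : ℕ, X₀ ≤ X → ∀ f : ℕ → ℤ, CM f → SMn B X f →
      ∀ H : ℝ, H₀ ≤ H → H ≤ X → ∀ T : ℕ → ℂ,
      (∀ n : ℕ, ‖T n‖ ≤ H) → (∀ n m : ℕ, ‖T n - T m‖ ≤ (A + 7 * W) * |(n : ℝ) - m|) → (∀ n : ℕ, 3 * X < n → T n = 0) →
      ‖∑ n ∈ Icc 1 (3 * X), (rs f q b n : ℂ) * T n‖ ≤ (ε / W) * H * X := by
    intro q b
    rcases Nat.eq_zero_or_pos q with h | h
    · exact ⟨0, 0, 0, fun h' => by omega⟩
    · obtain ⟨h0, hh0, B, X1, h1⟩ := mrkU q b h δ' η' hδ' hη'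
      obtain ⟨H₀, X₀, h2⟩ := hNS h0 hh0 (A + 7 * W) (by positivity)
      refine ⟨B, H₀, X₀ + X1, fun _ X hX f hf hsm => ?_⟩
      refine h2 X (by omega) (fun n => ((rs f q b n : ℤ) : ℂ)) (fun n => ?_) (h1 X (by omega) f hf hsm)
      rw [Complex.norm_intCast]
      exact_mod_cast rs_bdd hf q b n
  choose Bf H₀f X₀f hns using hns
  refine ⟨∑ q ∈ range (W + 1), ∑ b ∈ range q, Bf q b, (∑ q ∈ range (W + 1), ∑ b ∈ range q, |H₀f q b|) + 1,
    (∑ q ∈ range (W + 1), ∑ b ∈ range q, X₀f q b) + P, fun X hX f hf hsm H hH hHX T hT hT2 hT3 α => ?_⟩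
  have hsum0 : 0 ≤ ∑ q ∈ range (W + 1), ∑ b ∈ range q, |H₀f q b| := sum_nonneg fun _ _ => sum_nonneg fun _ _ => abs_nonneg _
  have hH0 : 0 < H := by linarith
  have hX0 : (0 : ℝ) < X := by linarith
  by_cases hα : ∀ q : ℕ, 1 ≤ q → q ≤ W → ∀ a : ℤ, (W : ℝ) / H < |α - a / q|
  · refine (minor_bound' f f (cm_abs hf) (cm_abs hf) (fun p m _ _ => hf.mul p m) W X H A hH0 hHX hA T hT hT2 hT3 α hW1 hα P hPW hPW2 hL1 (by omega)).trans ?_
    have hs : 15 / ε ≤ √(LS P) := Real.le_sqrt_of_sq_le hLε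
    have hs0 : 0 < √(LS P) := Real.sqrt_pos.2 (by linarith)
    rw [div_le_iff₀ hs0]
    rw [div_le_iff₀ hε] at hs
    have hHX0 : 0 ≤ H * X := by positivity
    nlinarith
  · push Not at hα
    obtain ⟨q, hq1, hqW, a, ha⟩ := hα
    have hq0 : (0 : ℝ) < q := by exact_mod_cast hq1
    obtain ⟨β, hβ⟩ : ∃ β, β = α - a / q := ⟨_, rfl⟩
    rw [← hβ] at ha
    have hsplit : ∑ n ∈ Icc 1 (3 * X), (f n : ℂ) * ee ((n : ℝ) * α) * T n =
        ∑ b ∈ range q, ee ((b : ℝ) * (a / q)) * ∑ n ∈ Icc 1 (3 * X), (rs f q b n : ℂ) * (ee ((n : ℝ) * β) * T n) := by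
      simp_rw [mul_sum]
      rw [sum_comm]
      apply sum_congr rfl
      intro n _
      rw [sum_eq_single (n % q)]
      · unfold rs
        rw [if_pos rfl]
        have e1 : ee ((n : ℝ) * α) = ee (((n % q : ℕ) : ℝ) * (a / q)) * ee ((n : ℝ) * β) := by
          rw [← ee_add]
          obtain ⟨k, hk⟩ : ∃ k, k = n / q := ⟨_, rfl⟩
          have e2 : (n : ℝ) = q * (k : ℝ) + ((n % q : ℕ) : ℝ) := by
            rw [hk]
            exact_mod_cast (Nat.div_add_mod n q).symm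
          have e3 : (n : ℝ) * α = (((n % q : ℕ) : ℝ) * (a / q) + (n : ℝ) * β) + ((((k : ℤ) * a : ℤ)) : ℝ) := by
            rw [hβ]
            have : (n : ℝ) * α = (n : ℝ) * (a / q) + n * (α - a / q) := by ring
            rw [this]
            have e4 : (n : ℝ) * (a / q) = (((n % q : ℕ) : ℝ) * (a / q)) + ((((k : ℤ) * a : ℤ)) : ℝ) := by
              push_cast
              nth_rewrite 1 [e2]
              field_simp
              push_cast
              ring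
            rw [e4]
            ring
          rw [e3, ee_add, ee_int, mul_one]
        rw [e1]
        ring
      · intro b _ hne
        unfold rs
        rw [if_neg (Ne.symm hne)]
        simp
      · intro h
        exfalso
        apply h
        rw [mem_range]
        exact Nat.mod_lt _ hq1
    rw [hsplit]
    refine (norm_sum_le _ _).trans ?_
    have hterm : ∀ b ∈ range q, ‖ee ((b : ℝ) * (a / q)) * ∑ n ∈ Icc 1 (3 * X), (rs f q b n : ℂ) * (ee ((n : ℝ) * β) * T n)‖ ≤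
        (ε / W) * H * X := by
      intro b hbq
      rw [norm_mul, norm_ee, one_mul]
      have hqW' : q ∈ range (W + 1) := by rw [mem_range]; omega
      have e1 : |H₀f q b| ≤ ∑ q ∈ range (W + 1), ∑ b ∈ range q, |H₀f q b| := by
        have g1 := single_le_sum (f := fun b => |H₀f q b|) (fun b _ => abs_nonneg _) hbq
        have g2 := single_le_sum (f := fun q => ∑ b ∈ range q, |H₀f q b|) (fun q _ => sum_nonneg fun _ _ => abs_nonneg _) hqW'
        exact g1.trans g2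
      have e2 : X₀f q b ≤ ∑ q ∈ range (W + 1), ∑ b ∈ range q, X₀f q b := by
        have g1 := single_le_sum (f := fun b => X₀f q b) (fun b _ => Nat.zero_le _) hbq
        have g2 := single_le_sum (f := fun q => ∑ b ∈ range q, X₀f q b) (fun q _ => Nat.zero_le _) hqW'
        exact g1.trans g2
      have e3 := le_abs_self (H₀f q b)
      have e4 : Bf q b ≤ ∑ q ∈ range (W + 1), ∑ b ∈ range q, Bf q b := by
        have g1 := single_le_sum (f := fun b => Bf q b) (fun b _ => Nat.zero_le _) hbq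
        have g2 := single_le_sum (f := fun q => ∑ b ∈ range q, Bf q b) (fun q _ => Nat.zero_le _) hqW'
        exact g1.trans g2
      apply hns q b hq1 X (by omega) f hf (SMn_mono e4 hsm) H (by linarith) hHX (fun n => ee ((n : ℝ) * β) * T n)
      · intro n
        rw [norm_mul, norm_ee, one_mul]
        exact hT n
      · intro n m
        have e4 : ee ((n : ℝ) * β) * T n - ee ((m : ℝ) * β) * T m =
            ee ((n : ℝ) * β) * (T n - T m) + (ee ((n : ℝ) * β) - ee ((m : ℝ) * β)) * T m := by ring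
        rw [e4]
        refine (norm_add_le _ _).trans ?_
        rw [norm_mul, norm_mul, norm_ee, one_mul]
        have e5 := ee_lip ((n : ℝ) * β) ((m : ℝ) * β)
        have e6 : |(n : ℝ) * β - m * β| ≤ |(n : ℝ) - m| * (W / H) := by
          rw [← sub_mul, abs_mul]
          exact mul_le_mul_of_nonneg_left ha (abs_nonneg _)
        have e7 : ‖ee ((n : ℝ) * β) - ee ((m : ℝ) * β)‖ * ‖T m‖ ≤ (7 * (|(n : ℝ) - m| * (W / H))) * H := by
          apply mul_le_mul _ (hT m) (norm_nonneg _) (by positivity)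
          exact e5.trans (mul_le_mul_of_nonneg_left e6 (by norm_num))
        have e8 : (7 * (|(n : ℝ) - m| * (W / H))) * H = 7 * W * |(n : ℝ) - m| := by field_simp
        have e9 := hT2 n m
        rw [e8] at e7
        linarith
      · intro n hn
        rw [hT3 n hn, mul_zero]
    refine (sum_le_sum hterm).trans ?_
    rw [sum_const, card_range, nsmul_eq_mul]
    have hqW2 : (q : ℝ) ≤ W := by exact_mod_cast hqW
    calc (q : ℝ) * ((ε / W) * H * X) ≤ W * ((ε / W) * H * X) := mul_le_mul_of_nonneg_right hqW2 (by positivity)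
      _ = ε * H * X := by field_simp


end Pool.Agent.R512.U
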