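import Pool.Agent.R512.U.TwR
import Pool.Agent.R512.U.Bonf

/-!
Library R512.U (helper512): uniform statements, one factor nearly real up to a twist.
-/

set_option autoImplicit false

namespace Pool.Agent.R512.U

open Finset Filter Topology
open Pool.Agent.Y958.U
open Pool.Agent.Y958.E
open Pool.Agent.Y872.L (CM)
open Pool.Agent.R512.U.Hal (dst)

/-- the completely multiplicative function with given values at the primes -/
def cmf (u : ℕ → ℤ) (n : ℕ) : ℤ := if n = 0 then 0 else (n.primeFactorsList.map u).prod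

lemma cmf_prime (u : ℕ → ℤ) {p : ℕ} (hp : p.Prime) : cmf u p = u p := by
  unfold cmf
  rw [if_neg hp.ne_zero, Nat.primeFactorsList_prime hp]
  simp

lemma cmf_cm (u : ℕ → ℤ) (hu : ∀ p, u p = 1 ∨ u p = -1) : CM (cmf u) := by
  refine ⟨by simp [cmf], by simp [cmf], fun m n => ?_, fun n hn => ?_⟩
  · rcases Nat.eq_zero_or_pos m with hm | hm
    · subst hm; simp [cmf]
    rcases Nat.eq_zero_or_pos n with hn | hn
    · subst hn; simp [cmf]
    unfold cmf
    rw [if_neg (Nat.mul_pos hm hn).ne', if_neg hm.ne', if_neg hn.ne',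
      ((Nat.perm_primeFactorsList_mul hm.ne' hn.ne').map u).prod_eq, List.map_append, List.prod_append]
  · unfold cmf
    rw [if_neg hn.ne']
    induction n.primeFactorsList with
    | nil => left; simp
    | cons p l ih =>
      rw [List.map_cons, List.prod_cons]
      rcases hu p with h1 | h1 <;> rcases ih with h2 | h2 <;> rw [h1, h2] <;> norm_num

/-- the twisted function -/
noncomputable def zt (f : ℕ → ℂ) {Q : ℕ} (χ : DirichletCharacter ℂ Q) (t : ℝ) (p : ℕ) : ℂ :=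
  f p * (starRingEnd ℂ) (χ ((p : ℕ) : ZMod Q) * nit t p)

lemma zt_le {f : ℕ → ℂ} (hf : ∀ n, ‖f n‖ ≤ 1) {Q : ℕ} (χ : DirichletCharacter ℂ Q) (t : ℝ) (p : ℕ) :
    ‖zt f χ t p‖ ≤ 1 := by
  unfold zt
  rw [norm_mul, RCLike.norm_conj, norm_mul, nit_norm, mul_one]
  calc ‖f p‖ * ‖χ ((p : ℕ) : ZMod Q)‖ ≤ 1 * 1 :=
        mul_le_mul (hf p) (χ.norm_le_one _) (norm_nonneg _) zero_le_one
    _ = 1 := one_mul 1

lemma zt_eq {f : ℕ → ℂ} {Q : ℕ} (hQ : 1 ≤ Q) (χ : DirichletCharacter ℂ Q) (t : ℝ) {p : ℕ} (hp : p.Prime)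
    (hpQ : Q < p) : ‖zt f χ t p‖ = ‖f p‖ := by
  unfold zt
  have hcop : Nat.Coprime p Q := (Nat.Prime.coprime_iff_not_dvd hp).2 fun h =>
    absurd (Nat.le_of_dvd hQ h) (by omega)
  have h1 : ‖χ ((p : ℕ) : ZMod Q)‖ = 1 := by
    rw [← ZMod.coe_unitOfCoprime p hcop]
    exact χ.unit_norm_eq_one _
  rw [norm_mul, RCLike.norm_conj, norm_mul, nit_norm, h1, mul_one, mul_one]

/-- the deficit of the real part -/
lemma far_step {z : ℂ} (hz : ‖z‖ ≤ 1) {a : ℝ} (ha : a = ‖z‖) : (1 - |z.re|) / 2 - z.im ^ 2 / 2 ≤ 1 - a := by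
  have h1 : a ^ 2 = z.re ^ 2 + z.im ^ 2 := by
    rw [ha, Complex.sq_norm, Complex.normSq_apply]
    ring
  have h2 : |z.re| ≤ 1 := (Complex.abs_re_le_norm z).trans hz
  have h3 : z.re ^ 2 ≤ |z.re| := by
    rw [← sq_abs]
    nlinarith [abs_nonneg z.re]
  have h4 : 0 ≤ a := by rw [ha]; exact norm_nonneg _
  have h5 : a ≤ 1 := by rw [ha]; exact hz
  nlinarith

/-- **most scales** -/
theorem finC (d : ℕ) : ∃ c : ℝ, 0 < c ∧ c < 1 ∧
    ∀ h : Fin (d + 1) → ℕ, Function.Injective h → ∀ (B : ℕ) (η : ℝ), 0 < η → ∃ A : ℕ, 1 ≤ A ∧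
      ∀ y x : ℕ, A ≤ y → A * y ≤ x →
      ∀ f : ℕ → ℂ, BM f → ∀ g : Fin d → ℕ → ℂ, (∀ i, BM (g i)) →
      ∀ (Q : ℕ) (χ : DirichletCharacter ℂ Q) (t : ℝ), 1 ≤ Q → Q ≤ B → |t| ≤ B * y →
      ∑ p ∈ (Ioc B x).filter Nat.Prime, (zt f χ t p).im ^ 2 / (p : ℝ) ≤ c →
      (∀ (q : ℕ) (ψ : DirichletCharacter ℂ q), 1 ≤ q → q ≤ A → ψ ^ 2 = 1 →
        (A : ℝ) ≤ ∑ p ∈ (Icc 1 y).filter Nat.Prime,
          (1 - (zt f χ t p).re * (ψ ((p : ℕ) : ZMod q)).re) / (p : ℝ)) →
      ∑ N ∈ Ioc y x, (open Classical in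
        if (1 - c) * (N : ℝ) < ‖∑ n ∈ Icc 1 N, f (n + h 0) * ∏ i : Fin d, g i (n + h i.succ)‖
          then (1 : ℝ) / N else 0) ≤
        η * Real.log ((x : ℝ) / y) := by
  classical
  obtain ⟨c₁, δ₁, hc₁, hc₁1, hδ₁, hU⟩ := unifR d
  obtain ⟨δ, hδ⟩ : ∃ δ, δ = min δ₁ (1 / 2) := ⟨_, rfl⟩
  have hδ0 : 0 < δ := by rw [hδ]; exact lt_min hδ₁ (by norm_num)
  have hδδ₁ : δ ≤ δ₁ := by rw [hδ]; exact min_le_left _ _
  have hδ2 : δ ≤ 1 / 2 := by rw [hδ]; exact min_le_right _ _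
  obtain ⟨A₀, N₀, hfarm⟩ := mean_far (δ / 4) (by positivity) (by linarith)
  obtain ⟨c, hc⟩ : ∃ c, c = min c₁ (δ / 32) := ⟨_, rfl⟩
  have hc0 : 0 < c := by rw [hc]; exact lt_min hc₁ (by positivity)
  have hcc₁ : c ≤ c₁ := by rw [hc]; exact min_le_left _ _
  have hcδ : c ≤ δ / 32 := by rw [hc]; exact min_le_right _ _
  refine ⟨c, hc0, by linarith, fun h hinj B η hη => ?_⟩
  obtain ⟨Bm, hBm⟩ : ∃ Bm, Bm = B + A₀ := ⟨_, rfl⟩
  obtain ⟨ω₀, hω₀1, hω⟩ := hU h hinj Bm η hη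
  obtain ⟨A, hA⟩ : ∃ A, A = ω₀ + Bm + 1 + N₀ + ⌈32 * (h 0 : ℝ) / δ⌉₊ + ⌈Real.exp (Real.log ω₀ / η)⌉₊ := ⟨_, rfl⟩
  refine ⟨A, by omega, fun y x hyA hxA f hf g hg Q χ t hQ hQB ht him hfar => ?_⟩
  have hy1 : 1 ≤ y := by omega
  have hy0 : (0 : ℝ) < y := by exact_mod_cast hy1
  have hyx : y ≤ x := le_trans (Nat.le_mul_of_pos_left _ (by omega)) hxA
  have hlog0 : 0 ≤ Real.log ((x : ℝ) / y) := by
    apply Real.log_nonneg
    rw [le_div_iff₀ hy0, one_mul]
    exact_mod_cast hyx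
  set z : ℕ → ℂ := fun p => zt f χ t p with hz
  have hz1 : ∀ p, ‖z p‖ ≤ 1 := fun p => zt_le hf.1 χ t p
  have hre1 : ∀ p, |(z p).re| ≤ 1 := fun p => (Complex.abs_re_le_norm _).trans (hz1 p)
  set E : ℕ → ℝ := fun N => ∑ p ∈ (Ioc Bm N).filter Nat.Prime, (1 - |(z p).re|) / (p : ℝ) with hE
  have hEmono : ∀ N N' : ℕ, N ≤ N' → E N ≤ E N' := by
    intro N N' hNN
    simp only [hE]
    apply sum_le_sum_of_subset_of_nonneg
    · exact filter_subset_filter _ (Ioc_subset_Ioc_right hNN)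
    · intro p _ _
      exact div_nonneg (by have := hre1 p; linarith) (Nat.cast_nonneg _)
  obtain ⟨Ns, hNs⟩ : ∃ Ns, Ns = Nat.findGreatest (fun N => E N ≤ δ) x := ⟨_, rfl⟩
  have hNsx : Ns ≤ x := by rw [hNs]; exact Nat.findGreatest_le x
  have hE0 : E 0 ≤ δ := by
    have : E 0 = 0 := by
      simp only [hE]
      rw [Ioc_eq_empty_of_le (Nat.zero_le _)]
      simp
    rw [this]
    exact hδ0.le
  have hENs : E Ns ≤ δ := by
    rw [hNs]
    exact Nat.findGreatest_spec (P := fun N => E N ≤ δ) (Nat.zero_le x) hE0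
  have hNsgt : ∀ N, Ns < N → N ≤ x → δ < E N := by
    intro N h1 h2
    by_contra hc
    push Not at hc
    have := Nat.le_findGreatest (P := fun N => E N ≤ δ) h2 hc
    omega
  -- beyond `Ns`
  have hbey : ∀ N ∈ Ioc y x, ¬ N ≤ Ns →
      ¬ ((1 - c) * (N : ℝ) < ‖∑ n ∈ Icc 1 N, f (n + h 0) * ∏ i : Fin d, g i (n + h i.succ)‖) := by
    intro N hN hNNs
    rw [mem_Ioc] at hN
    push Not at hNNs ⊢
    have h1 := hNsgt N hNNs hN.2
    have h2 : δ / 4 < ∑ p ∈ (Ioc Bm N).filter Nat.Prime, (1 - ‖f p‖) / (p : ℝ) := by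
      have h3 : ∀ p ∈ (Ioc Bm N).filter Nat.Prime, (1 / 2) * ((1 - |(z p).re|) / (p : ℝ)) -
          (1 / 2) * ((z p).im ^ 2 / (p : ℝ)) ≤ (1 - ‖f p‖) / (p : ℝ) := by
        intro p hp
        rw [mem_filter, mem_Ioc] at hp
        have hp0 : (0 : ℝ) < p := by exact_mod_cast hp.2.pos
        have h4 := far_step (hz1 p) (a := ‖f p‖) (zt_eq hQ χ t hp.2 (by omega)).symm
        have h5 := div_le_div_of_nonneg_right h4 hp0.le
        refine le_of_eq_of_le ?_ h5
        ring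
      have h4 := sum_le_sum h3
      rw [sum_sub_distrib, ← mul_sum, ← mul_sum] at h4
      have h5 : ∑ p ∈ (Ioc Bm N).filter Nat.Prime, (z p).im ^ 2 / (p : ℝ) ≤ c := by
        refine le_trans ?_ him
        apply sum_le_sum_of_subset_of_nonneg
        · exact filter_subset_filter _ (Ioc_subset_Ioc (by omega) hN.2)
        · intro p _ _
          exact div_nonneg (sq_nonneg _) (Nat.cast_nonneg _)
      have h6 : E N = ∑ p ∈ (Ioc Bm N).filter Nat.Prime, (1 - |(z p).re|) / (p : ℝ) := rfl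
      rw [← h6] at h4
      linarith
    have hN₀N : N₀ ≤ N := by omega
    have h3 : ∑ n ∈ Icc 1 (N + h 0), ‖f n‖ ≤ (1 - δ / 4 / 4) * ((N + h 0 : ℕ) : ℝ) := by
      refine hfarm Bm (by omega) (N + h 0) (by omega) (fun n => ‖f n‖) (fun n => norm_nonneg _) hf.1
        (fun m n hm hn hmn => ?_) ?_
      · show ‖f (m * n)‖ = ‖f m‖ * ‖f n‖
        rw [hf.2 m n hm hn hmn, norm_mul]
      · refine h2.trans_le ?_
        apply sum_le_sum_of_subset_of_nonneg
        · exact filter_subset_filter _ (Ioc_subset_Ioc_right (by omega))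
        · intro p _ _
          exact div_nonneg (by have := hf.1 p; linarith) (Nat.cast_nonneg _)
    have h4 : ‖∑ n ∈ Icc 1 N, f (n + h 0) * ∏ i : Fin d, g i (n + h i.succ)‖ ≤
        ∑ n ∈ Icc 1 N, ‖f (n + h 0)‖ := by
      refine (norm_sum_le _ _).trans (sum_le_sum fun n _ => ?_)
      rw [norm_mul, norm_prod]
      exact mul_le_of_le_one_right (norm_nonneg _) (prod_le_one (fun _ _ => norm_nonneg _) fun i _ => (hg i).1 _)
    have h5 : ∑ n ∈ Icc 1 N, ‖f (n + h 0)‖ ≤ ∑ n ∈ Icc 1 (N + h 0), ‖f n‖ := by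
      have h6 : ∑ n ∈ Icc 1 N, ‖f (n + h 0)‖ = ∑ n ∈ (Icc 1 N).map (addRightEmbedding (h 0)), ‖f n‖ := by
        rw [sum_map]
        rfl
      rw [h6]
      apply sum_le_sum_of_subset_of_nonneg
      · intro n hn
        rw [Finset.mem_map] at hn
        obtain ⟨m, hm, rfl⟩ := hn
        rw [mem_Icc] at hm ⊢
        simp only [addRightEmbedding_apply]
        omega
      · intro n _ _
        exact norm_nonneg _
    have h6 : 32 * (h 0 : ℝ) / δ ≤ N := (Nat.le_ceil _).trans (Nat.cast_le.2 (by omega))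
    rw [div_le_iff₀ hδ0] at h6
    have hN0 : (0 : ℝ) ≤ N := Nat.cast_nonneg _
    have hh0 : (0 : ℝ) ≤ (h 0 : ℝ) := Nat.cast_nonneg _
    push_cast at h3
    have h7 : c * N ≤ δ / 32 * N := mul_le_mul_of_nonneg_right hcδ hN0
    have h8 : 0 ≤ δ * (h 0 : ℝ) := by positivity
    nlinarith
  have hsum : ∑ N ∈ Ioc y x, (if (1 - c) * (N : ℝ) < ‖∑ n ∈ Icc 1 N, f (n + h 0) *
      ∏ i : Fin d, g i (n + h i.succ)‖ then (1 : ℝ) / N else 0) ≤
      ∑ N ∈ Ioc y Ns, (if (1 - c₁) * (N : ℝ) < ‖∑ n ∈ Icc 1 N, f (n + h 0) *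
      ∏ i : Fin d, g i (n + h i.succ)‖ then (1 : ℝ) / N else 0) := by
    have h1 : ∑ N ∈ Ioc y x, (if (1 - c) * (N : ℝ) < ‖∑ n ∈ Icc 1 N, f (n + h 0) *
        ∏ i : Fin d, g i (n + h i.succ)‖ then (1 : ℝ) / N else 0) ≤
        ∑ N ∈ (Ioc y x).filter (fun N => N ≤ Ns), (if (1 - c₁) * (N : ℝ) < ‖∑ n ∈ Icc 1 N, f (n + h 0) *
        ∏ i : Fin d, g i (n + h i.succ)‖ then (1 : ℝ) / N else 0) := by
      rw [sum_filter]
      apply sum_le_sum
      intro N hN
      have hN0 : (0 : ℝ) ≤ N := Nat.cast_nonneg _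
      by_cases hNN : N ≤ Ns
      · rw [if_pos hNN]
        by_cases hb : (1 - c) * (N : ℝ) < ‖∑ n ∈ Icc 1 N, f (n + h 0) * ∏ i : Fin d, g i (n + h i.succ)‖
        · rw [if_pos hb, if_pos]
          refine lt_of_le_of_lt (mul_le_mul_of_nonneg_right ?_ hN0) hb
          linarith
        · rw [if_neg hb]
          split_ifs <;> positivity
      · rw [if_neg hNN, if_neg (hbey N hN hNN)]
    refine h1.trans ?_
    apply sum_le_sum_of_subset_of_nonneg
    · intro N hN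
      rw [mem_filter, mem_Ioc] at hN
      rw [mem_Ioc]
      exact ⟨hN.1.1, hN.2⟩
    · intro N _ _
      split_ifs <;> positivity
  refine hsum.trans ?_
  by_cases hcase : ω₀ * y ≤ Ns
  swap
  · push Not at hcase
    have h1 : ∑ N ∈ Ioc y Ns, (if (1 - c₁) * (N : ℝ) < ‖∑ n ∈ Icc 1 N, f (n + h 0) *
        ∏ i : Fin d, g i (n + h i.succ)‖ then (1 : ℝ) / N else 0) ≤ ∑ N ∈ Ioc y (ω₀ * y), (1 : ℝ) / N := by
      refine (sum_le_sum (g := fun N : ℕ => (1 : ℝ) / N) fun N _ => ?_).trans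
        (sum_le_sum_of_subset_of_nonneg (Ioc_subset_Ioc_right hcase.le) fun _ _ _ => by positivity)
      split_ifs
      · exact le_rfl
      · positivity
    refine h1.trans ((harm_win y (ω₀ * y) hy1 (Nat.le_mul_of_pos_left _ (by omega))).trans ?_)
    have h2 : ((ω₀ * y : ℕ) : ℝ) / y = ω₀ := by
      push_cast
      field_simp
    rw [h2]
    have h3 : Real.log ω₀ / η ≤ Real.log ((x : ℝ) / y) := by
      have hA0 : (0 : ℝ) < A := by exact_mod_cast (by omega : 0 < A)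
      have h4 : (A : ℝ) ≤ (x : ℝ) / y := by
        rw [le_div_iff₀ hy0]
        exact_mod_cast hxA
      have h5 : Real.exp (Real.log ω₀ / η) ≤ A := (Nat.le_ceil _).trans (Nat.cast_le.2 (by omega))
      rw [Real.le_log_iff_exp_le (lt_of_lt_of_le hA0 h4)]
      exact h5.trans h4
    rw [div_le_iff₀ hη] at h3
    linarith
  -- the main case
  have hyNs : y ≤ Ns := le_trans (Nat.le_mul_of_pos_left _ (by omega)) hcase
  set u : ℕ → ℤ := fun p => if 0 ≤ (z p).re then 1 else -1 with hu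
  have hu1 : ∀ p, u p = 1 ∨ u p = -1 := by
    intro p
    simp only [hu]
    split_ifs
    · exact Or.inl rfl
    · exact Or.inr rfl
  have hur : ∀ p, ((u p : ℤ) : ℝ) * (z p).re = |(z p).re| := by
    intro p
    simp only [hu]
    split_ifs with h1
    · rw [abs_of_nonneg h1]; norm_num
    · rw [abs_of_neg (not_le.1 h1)]; norm_num
  set s : ℕ → ℤ := cmf u with hs
  have hscm : CM s := cmf_cm u hu1
  have hsu : ∀ p : ℕ, p.Prime → s p = u p := fun p hp => cmf_prime u hp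
  have hfars : Far ω₀ y s := by
    intro q ψ hq1 hq2 hψ
    have h1 := hfar q ψ hq1 (by omega) hψ
    have h2 : ∀ p ∈ (Icc 1 y).filter Nat.Prime, (1 - (z p).re * (ψ ((p : ℕ) : ZMod q)).re) / (p : ℝ) ≤
        (1 - ((s p : ℂ) * ψ (p : ZMod q)).re) / (p : ℝ) + (1 - |(z p).re|) / (p : ℝ) := by
      intro p hp
      rw [mem_filter, mem_Icc] at hp
      rw [← add_div]
      apply div_le_div_of_nonneg_right _ (Nat.cast_nonneg _)
      have e1 : ((s p : ℂ) * ψ (p : ZMod q)).re = (s p : ℝ) * (ψ (p : ZMod q)).re := by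
        have e2 : (s p : ℂ) = (((s p : ℤ) : ℝ) : ℂ) := by push_cast; rfl
        rw [e2, Complex.re_ofReal_mul]
      rw [e1, hsu p hp.2]
      have h3 := hur p
      have h4 := hre1 p
      have h5 : |(ψ (p : ZMod q)).re| ≤ 1 := (Complex.abs_re_le_norm _).trans (ψ.norm_le_one _)
      set ρ := (ψ (p : ZMod q)).re
      set r := (z p).re
      rcases hu1 p with h6 | h6
      · rw [h6] at h3 ⊢
        push_cast at h3 ⊢
        have h7 : r = |r| := by linarith
        have h8 := (abs_le.1 h5).2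
        nlinarith
      · rw [h6] at h3 ⊢
        push_cast at h3 ⊢
        have h7 : r = -|r| := by linarith
        have h8 := (abs_le.1 h5).1
        nlinarith
    have h3 := h1.trans (sum_le_sum h2)
    rw [sum_add_distrib] at h3
    have h4 : ∑ p ∈ (Icc 1 y).filter Nat.Prime, (1 - |(z p).re|) / (p : ℝ) ≤ Bm + δ := by
      have h5 : ∑ p ∈ (Icc 1 y).filter Nat.Prime, (1 - |(z p).re|) / (p : ℝ) ≤
          ∑ p ∈ (Icc 1 Bm).filter Nat.Prime, (1 - |(z p).re|) / (p : ℝ) +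
          ∑ p ∈ (Ioc Bm y).filter Nat.Prime, (1 - |(z p).re|) / (p : ℝ) := by
        rw [← sum_union (by
          apply disjoint_filter_filter
          rw [disjoint_left]
          intro n hn
          rw [mem_Icc] at hn
          rw [mem_Ioc]
          omega)]
        apply sum_le_sum_of_subset_of_nonneg
        · rw [← filter_union]
          apply filter_subset_filter
          intro n hn
          rw [mem_Icc] at hn
          rw [mem_union, mem_Icc, mem_Ioc]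
          omega
        · intro p _ _
          exact div_nonneg (by have := hre1 p; linarith) (Nat.cast_nonneg _)
      have h6 : ∑ p ∈ (Icc 1 Bm).filter Nat.Prime, (1 - |(z p).re|) / (p : ℝ) ≤ Bm := by
        have h7 : ∑ p ∈ (Icc 1 Bm).filter Nat.Prime, (1 - |(z p).re|) / (p : ℝ) ≤
            ∑ p ∈ Icc 1 Bm, (1 : ℝ) := by
          refine (sum_le_sum (g := fun _ => (1 : ℝ)) fun p hp => ?_).trans
            (sum_le_sum_of_subset_of_nonneg (filter_subset _ _) fun _ _ _ => zero_le_one)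
          rw [mem_filter, mem_Icc] at hp
          have hp1 : (1 : ℝ) ≤ p := by exact_mod_cast hp.1.1
          rw [div_le_one (by linarith)]
          have := abs_nonneg (z p).re
          linarith
        simpa using h7
      have h7 : ∑ p ∈ (Ioc Bm y).filter Nat.Prime, (1 - |(z p).re|) / (p : ℝ) ≤ δ := (hEmono y Ns hyNs).trans hENs
      linarith
    have h5 : (ω₀ : ℝ) + Bm + 1 ≤ A := by exact_mod_cast (by omega : ω₀ + Bm + 1 ≤ A)
    have h6 : dst s ψ y = ∑ p ∈ (Icc 1 y).filter Nat.Prime, (1 - ((s p : ℂ) * ψ (p : ZMod q)).re) / (p : ℝ) := rfl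
    rw [h6]
    linarith
  have hBm0 : (B : ℝ) ≤ Bm := by exact_mod_cast (by omega : B ≤ Bm)
  have h1 := hω y Ns (by omega) hcase s hscm hfars f hf g hg Q χ t hQ (by omega)
    (ht.trans (mul_le_mul_of_nonneg_right hBm0 hy0.le)) (by
      refine le_trans (le_of_eq ?_) (hENs.trans hδδ₁)
      apply sum_congr rfl
      intro p hp
      rw [mem_filter] at hp
      congr 2
      have e1 : f p * (starRingEnd ℂ) (uC s p * χ ((p : ℕ) : ZMod Q) * nit t p) = (((u p : ℤ) : ℝ) : ℂ) * z p := by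
        rw [uC_ne hp.2.ne_zero, hsu p hp.2, hz]
        simp only
        unfold zt
        rw [map_mul, map_mul, map_mul, map_intCast]
        push_cast
        ring
      rw [e1, Complex.re_ofReal_mul, hur])
  have h2 : Real.log ((Ns : ℝ) / y) ≤ Real.log ((x : ℝ) / y) := by
    apply Real.log_le_log
    · exact div_pos (by exact_mod_cast (by omega : 0 < Ns)) hy0
    · exact div_le_div_of_nonneg_right (by exact_mod_cast hNsx) hy0.le
  refine le_trans (le_of_eq ?_) (h1.trans (mul_le_mul_of_nonneg_left h2 hη.le))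
  congr!

end Pool.Agent.R512.U
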