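import Pool.Agent.R512.U.FinC

/-!
Library R512.U (helper512): final uniform statements, one factor nearly real up to a twist.
-/

set_option autoImplicit false

namespace Pool.Agent.R512.U

open Finset Filter Topology
open Pool.Agent.Y958.U
open Pool.Agent.Y958.E

/-- nearly real up to the twist by `χ(n) n ^ (i t)` at the primes of `(B, x]`, and far, up to `y`, from the real
characters -/
def NRF (B : ℕ) (T κ : ℝ) (x A y : ℕ) (f : ℕ → ℂ) : Prop :=
  ∃ (Q : ℕ) (χ : DirichletCharacter ℂ Q) (t : ℝ), 1 ≤ Q ∧ Q ≤ B ∧ |t| ≤ T ∧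
    ∑ p ∈ (Ioc B x).filter Nat.Prime, (zt f χ t p).im ^ 2 / (p : ℝ) ≤ κ ∧
    ∀ (q : ℕ) (ψ : DirichletCharacter ℂ q), 1 ≤ q → q ≤ A → ψ ^ 2 = 1 →
      (A : ℝ) ≤ ∑ p ∈ (Icc 1 y).filter Nat.Prime, (1 - (zt f χ t p).re * (ψ ((p : ℕ) : ZMod q)).re) / (p : ℝ)

lemma rr_le {f : ℕ → ℂ} (hf : ∀ n, ‖f n‖ ≤ 1) {Q : ℕ} (χ : DirichletCharacter ℂ Q) (t : ℝ) {q : ℕ}
    (ψ : DirichletCharacter ℂ q) (p : ℕ) : 0 ≤ 1 - (zt f χ t p).re * (ψ ((p : ℕ) : ZMod q)).re ∧
      1 - (zt f χ t p).re * (ψ ((p : ℕ) : ZMod q)).re ≤ 2 := by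
  have h1 : |(zt f χ t p).re| ≤ 1 := (Complex.abs_re_le_norm _).trans (zt_le hf χ t p)
  have h2 : |(ψ ((p : ℕ) : ZMod q)).re| ≤ 1 := (Complex.abs_re_le_norm _).trans (ψ.norm_le_one _)
  have h3 : |(zt f χ t p).re * (ψ ((p : ℕ) : ZMod q)).re| ≤ 1 := by
    rw [abs_mul]
    exact mul_le_one₀ h1 (abs_nonneg _) h2
  have h4 := abs_le.1 h3
  constructor <;> linarith [h4.1, h4.2]

/-- both statements in windows -/
theorem winD (k : ℕ) : ∃ c : ℝ, 0 < c ∧ c < 1 ∧ ∀ h : Fin (k + 1) → ℕ, Function.Injective h →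
    ∀ (B : ℕ) (η : ℝ), 0 < η → ∃ A : ℕ, 1 ≤ A ∧ ∀ y x : ℕ, A ≤ y → A * y ≤ x →
      ∀ f : Fin (k + 1) → ℕ → ℂ, (∀ i, BM (f i)) → NRF B (B * y) c x A y (f 0) →
      ∑ N ∈ Ioc y x, (open Classical in
        if (1 - c) * (N : ℝ) < ‖∑ n ∈ Icc 1 N, ∏ i, f i (n + h i)‖ then (1 : ℝ) / N else 0) ≤
        η * Real.log ((x : ℝ) / y) ∧
      ‖∑ n ∈ Ioc y x, (∏ i, f i (n + h i)) / n‖ ≤ (1 - c) * Real.log ((x : ℝ) / y) := by
  classical
  obtain ⟨c, hc0, hc1, hF⟩ := finC k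
  refine ⟨c / 2, by positivity, by linarith, fun h hinj B η hη => ?_⟩
  obtain ⟨A₁, hA₁, h1⟩ := hF h hinj B (min η (c / 4)) (lt_min hη (by positivity))
  obtain ⟨A, hA⟩ : ∃ A, A = A₁ + ⌈Real.exp (8 / c)⌉₊ := ⟨_, rfl⟩
  refine ⟨A, by omega, fun y x hyA hxA f hf hn => ?_⟩
  obtain ⟨Q, χ, t, hQ, hQB, ht, him, hfar⟩ := hn
  have hy1 : 1 ≤ y := by omega
  have hy0 : (0 : ℝ) < y := by exact_mod_cast hy1
  have hyx : y ≤ x := le_trans (Nat.le_mul_of_pos_left _ (by omega)) hxA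
  have hA0 : (0 : ℝ) < A := by exact_mod_cast (by omega : 0 < A)
  have hAx : (A : ℝ) ≤ (x : ℝ) / y := by
    rw [le_div_iff₀ hy0]
    exact_mod_cast hxA
  have hlog2 : 8 / c ≤ Real.log ((x : ℝ) / y) := by
    rw [Real.le_log_iff_exp_le (lt_of_lt_of_le hA0 hAx)]
    exact le_trans (le_trans (Nat.le_ceil _) (Nat.cast_le.2 (by omega))) hAx
  have hlog0 : 0 ≤ Real.log ((x : ℝ) / y) := le_trans (by positivity) hlog2
  have h2 := h1 y x (by omega) ((Nat.mul_le_mul_right _ (by omega)).trans hxA) (f 0) (hf 0) (fun i => f i.succ)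
    (fun i => hf i.succ) Q χ t hQ hQB ht (him.trans (by linarith)) (fun q ψ h3 h4 h5 => by
      have h6 := hfar q ψ h3 (by omega) h5
      refine le_trans ?_ h6
      exact_mod_cast (by omega : A₁ ≤ A))
  have hprod : ∀ n, f 0 (n + h 0) * ∏ i : Fin k, f i.succ (n + h i.succ) = ∏ i, f i (n + h i) := by
    intro n
    rw [Fin.prod_univ_succ]
  simp only [hprod] at h2
  constructor
  · refine le_trans (sum_le_sum fun N hN => ?_)
      (h2.trans (mul_le_mul_of_nonneg_right (min_le_left _ _) hlog0))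
    have hN0 : (0 : ℝ) < N := by exact_mod_cast (by rw [mem_Ioc] at hN; omega : 0 < N)
    by_cases hb : (1 - c / 2) * (N : ℝ) < ‖∑ n ∈ Icc 1 N, ∏ i, f i (n + h i)‖
    · rw [if_pos hb, if_pos]
      refine lt_of_le_of_lt (mul_le_mul_of_nonneg_right ?_ hN0.le) hb
      linarith
    · rw [if_neg hb]
      split_ifs <;> positivity
  · have h3 := log_win (fun n => ∏ i, f i (n + h i)) (fun n => by
      show ‖∏ i, f i (n + h i)‖ ≤ 1
      rw [norm_prod]
      exact prod_le_one (fun _ _ => norm_nonneg _) fun i _ => (hf i).1 _) c (c / 4) hc1.le y x hy1 hyx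
      (h2.trans (mul_le_mul_of_nonneg_right (min_le_right _ _) hlog0))
    refine h3.trans ?_
    rw [div_le_iff₀ hc0] at hlog2
    have h5 : (1 - c + c / 4) * Real.log ((x : ℝ) / y) + c / 4 * Real.log ((x : ℝ) / y) =
        (1 - c / 2) * Real.log ((x : ℝ) / y) := by ring
    linarith

/-- the primes between two scales -/
lemma mertens_win : ∃ C : ℝ, 0 ≤ C ∧ ∀ y x : ℕ, 3 ≤ y → y ≤ x →
    ∑ p ∈ (Ioc y x).filter Nat.Prime, (1 : ℝ) / p ≤ Real.log (Real.log x / Real.log y) + C := by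
  obtain ⟨C, hC⟩ := Pool.Agent.Helper601.Mertens.mertens_inv
  refine ⟨2 * |C|, by positivity, fun y x hy hyx => ?_⟩
  have h1 := (abs_le.1 (hC y hy)).1
  have h2 := (abs_le.1 (hC x (by omega))).2
  have hly : 0 < Real.log y := Real.log_pos (by exact_mod_cast (by omega : 1 < y))
  have hlx : 0 < Real.log x := Real.log_pos (by exact_mod_cast (by omega : 1 < x))
  have h3 : ∑ p ∈ (Icc 1 x).filter Nat.Prime, (1 : ℝ) / p = ∑ p ∈ (Icc 1 y).filter Nat.Prime, (1 : ℝ) / p +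
      ∑ p ∈ (Ioc y x).filter Nat.Prime, (1 : ℝ) / p := by
    rw [← sum_union]
    · apply sum_congr _ fun _ _ => rfl
      rw [← filter_union]
      congr 1
      ext n
      rw [mem_union, mem_Icc, mem_Icc, mem_Ioc]
      omega
    · apply disjoint_filter_filter
      rw [disjoint_left]
      intro n hn
      rw [mem_Icc] at hn
      rw [mem_Ioc]
      omega
  rw [Real.log_div hlx.ne' hly.ne']
  have h4 := le_abs_self C
  have h5 : ∑ p ∈ (Icc 1 x).filter Nat.Prime, (1 : ℝ) / p - Real.log (Real.log x) ≤ C := h2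
  have h6 : -C ≤ ∑ p ∈ (Icc 1 y).filter Nat.Prime, (1 : ℝ) / p - Real.log (Real.log y) := h1
  linarith

/-- **final statement** -/
theorem finReal : ∃ c : ℕ → ℝ, (∀ k, 0 < c k ∧ c k < 1) ∧ ∀ (k : ℕ) (h : Fin (k + 1) → ℕ), Function.Injective h →
    ∀ (B : ℕ) (η : ℝ), 0 < η → ∃ A : ℕ,
      (∀ y x : ℕ, A ≤ y → A * y ≤ x → ∀ f : Fin (k + 1) → ℕ → ℂ, (∀ i, BM (f i)) →
        NRF B (B * y) (c k) x A y (f 0) →
        ∑ N ∈ Ioc y x, (open Classical in
          if (1 - c k) * (N : ℝ) < ‖∑ n ∈ Icc 1 N, ∏ i, f i (n + h i)‖ then (1 : ℝ) / N else 0) ≤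
          η * Real.log ((x : ℝ) / y) ∧
        ‖∑ n ∈ Ioc y x, (∏ i, f i (n + h i)) / n‖ ≤ (1 - c k) * Real.log ((x : ℝ) / y)) ∧
      (∀ x : ℕ, A ≤ x → ∀ f : Fin (k + 1) → ℕ → ℂ, (∀ i, BM (f i)) → NRF B B (c k) x A x (f 0) →
        ∑ N ∈ Icc 1 x, (open Classical in
          if (1 - c k) * (N : ℝ) < ‖∑ n ∈ Icc 1 N, ∏ i, f i (n + h i)‖ then (1 : ℝ) / N else 0) ≤
          η * Real.log x ∧
        ‖∑ n ∈ Icc 1 x, (∏ i, f i (n + h i)) / n‖ ≤ (1 - c k) * Real.log x) := by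
  classical
  choose c₀ hc0 hc1 hW using winD
  refine ⟨fun k => c₀ k / 2, fun k => ⟨by have := hc0 k; linarith, by have := hc1 k; have := hc0 k; linarith⟩,
    fun k h hinj B η hη => ?_⟩
  obtain ⟨c, hc⟩ : ∃ c, c = c₀ k := ⟨_, rfl⟩
  have hcp : 0 < c := by rw [hc]; exact hc0 k
  have hc1' : c < 1 := by rw [hc]; exact hc1 k
  obtain ⟨A₁, hA₁, h1⟩ := hW k h hinj B (min (η / 2) (c / 8)) (lt_min (by positivity) (by positivity))
  simp only [← hc] at h1 ⊢
  obtain ⟨C, hC0, hC⟩ := mertens_win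
  -- the exponent
  obtain ⟨L, hL1, hLη, hLc⟩ : ∃ L : ℕ, 1 ≤ L ∧ 4 / η ≤ L ∧ 8 / c ≤ L := by
    refine ⟨⌈4 / η⌉₊ + ⌈8 / c⌉₊ + 1, by omega, ?_, ?_⟩
    · exact (Nat.le_ceil _).trans (Nat.cast_le.2 (by omega))
    · exact (Nat.le_ceil _).trans (Nat.cast_le.2 (by omega))
  have hL0 : (0 : ℝ) < L := by exact_mod_cast hL1
  obtain ⟨A, hA⟩ : ∃ A, A = A₁ + ⌈2 * Real.log (2 * L) + 2 * C⌉₊ +
      ⌈Real.exp ((L : ℝ) * (Real.log (2 * (A₁ + 3)) + 2 * Real.log 2))⌉₊ +
      ⌈Real.exp ((L : ℝ) * (2 * Real.log (A₁ + 1)) + 4 / η + 8 / c)⌉₊ + (A₁ + 1) := ⟨_, rfl⟩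
  refine ⟨A, fun y x hyA hxA f hf hn => ?_, fun x hxA f hf hn => ?_⟩
  · -- windows
    obtain ⟨Q, χ, t, hQ, hQB, ht, him, hfar⟩ := hn
    have hy1 : 1 ≤ y := by omega
    have hyx : y ≤ x := le_trans (Nat.le_mul_of_pos_left _ (by omega)) hxA
    have hlog0 : 0 ≤ Real.log ((x : ℝ) / y) := by
      apply Real.log_nonneg
      rw [le_div_iff₀ (by exact_mod_cast hy1), one_mul]
      exact_mod_cast hyx
    obtain ⟨h2, h3⟩ := h1 y x (by omega) ((Nat.mul_le_mul_right _ (by omega)).trans hxA) f hf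
      ⟨Q, χ, t, hQ, hQB, ht, him.trans (by linarith), fun q ψ h3 h4 h5 => by
        have h6 := hfar q ψ h3 (by omega) h5
        refine le_trans ?_ h6
        exact_mod_cast (by omega : A₁ ≤ A)⟩
    constructor
    · refine le_trans (sum_le_sum fun N hN => ?_)
        (h2.trans (mul_le_mul_of_nonneg_right (le_trans (min_le_left _ _) (by linarith)) hlog0))
      have hN0 : (0 : ℝ) < N := by exact_mod_cast (by rw [mem_Ioc] at hN; omega : 0 < N)
      by_cases hb : (1 - c / 2) * (N : ℝ) < ‖∑ n ∈ Icc 1 N, ∏ i, f i (n + h i)‖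
      · rw [if_pos hb, if_pos]
        refine lt_of_le_of_lt (mul_le_mul_of_nonneg_right ?_ hN0.le) hb
        linarith
      · rw [if_neg hb]
        split_ifs <;> positivity
    · exact h3.trans (mul_le_mul_of_nonneg_right (by linarith) hlog0)
  -- all scales up to `x`
  obtain ⟨Q, χ, t, hQ, hQB, ht, him, hfar⟩ := hn
  have hx1 : 1 ≤ x := by omega
  have hx0 : (0 : ℝ) < x := by exact_mod_cast hx1
  set lx : ℝ := Real.log x with hlx
  have hl1 : (L : ℝ) * (Real.log (2 * (A₁ + 3)) + 2 * Real.log 2) ≤ lx := by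
    rw [hlx, Real.le_log_iff_exp_le hx0]
    exact (Nat.le_ceil _).trans (Nat.cast_le.2 (by omega))
  have hl2 : (L : ℝ) * (2 * Real.log (A₁ + 1)) + 4 / η + 8 / c ≤ lx := by
    rw [hlx, Real.le_log_iff_exp_le hx0]
    exact (Nat.le_ceil _).trans (Nat.cast_le.2 (by omega))
  have hA₁l : 0 ≤ Real.log ((A₁ : ℝ) + 1) := Real.log_nonneg (by have : (0 : ℝ) ≤ A₁ := Nat.cast_nonneg _; linarith)
  have h4η : 4 / η ≤ lx := by
    have : 0 ≤ (L : ℝ) * (2 * Real.log (A₁ + 1)) := by positivity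
    have : 0 < 8 / c := by positivity
    linarith
  have h8c : 8 / c ≤ lx := by
    have : 0 ≤ (L : ℝ) * (2 * Real.log (A₁ + 1)) := by positivity
    have : 0 < 4 / η := by positivity
    linarith
  have hlx0 : 0 < lx := lt_of_lt_of_le (by positivity) h4η
  obtain ⟨y, hy⟩ : ∃ y, y = ⌊Real.exp (lx / L)⌋₊ := ⟨_, rfl⟩
  have hq1 : Real.log (2 * ((A₁ : ℝ) + 3)) + 2 * Real.log 2 ≤ lx / L := by
    rw [le_div_iff₀ hL0]
    linarith
  have hlog2 : 0 < Real.log 2 := Real.log_pos (by norm_num)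
  have hyge : 2 * ((A₁ : ℝ) + 3) ≤ Real.exp (lx / L) := by
    rw [← Real.log_le_iff_le_exp (by positivity)]
    linarith
  have hy_le : (y : ℝ) ≤ Real.exp (lx / L) := by rw [hy]; exact Nat.floor_le (Real.exp_pos _).le
  have hy_gt : Real.exp (lx / L) < y + 1 := by rw [hy]; exact Nat.lt_floor_add_one _
  have hyA3 : A₁ + 3 ≤ y := by
    have h2 : ((A₁ + 3 : ℕ) : ℝ) < (y : ℝ) + 1 := by
      push_cast
      have : (0 : ℝ) ≤ A₁ := Nat.cast_nonneg _
      linarith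
    have h3 : A₁ + 3 < y + 1 := by exact_mod_cast h2
    omega
  have hy1 : 1 ≤ y := by omega
  have hy0 : (0 : ℝ) < y := by exact_mod_cast hy1
  have hly1 : Real.log y ≤ lx / L := by
    rw [Real.log_le_iff_le_exp hy0]
    exact hy_le
  have hly2 : lx / L - Real.log 2 ≤ Real.log y := by
    have h2 : Real.exp (lx / L) ≤ 2 * y := by
      have : (1 : ℝ) ≤ y := by exact_mod_cast hy1
      linarith
    have h3 : lx / L ≤ Real.log (2 * y) := by
      rw [Real.le_log_iff_exp_le (by positivity)]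
      exact h2
    rw [Real.log_mul (by norm_num) hy0.ne'] at h3
    linarith
  have hly3 : lx / (2 * L) ≤ Real.log y := by
    have h2 : lx / L = lx / (2 * L) + lx / (2 * L) := by field_simp; ring
    have h3 : 2 * Real.log 2 ≤ lx / L := by
      have : 0 ≤ Real.log (2 * ((A₁ : ℝ) + 3)) := Real.log_nonneg (by
        have : (0 : ℝ) ≤ A₁ := Nat.cast_nonneg _
        linarith)
      linarith
    linarith
  -- `A₁ y ≤ x`
  have hL2 : (2 : ℝ) ≤ L := by
    have : 8 ≤ 8 / c := by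
      rw [le_div_iff₀ hcp]
      linarith
    linarith
  have hxy : A₁ * y ≤ x := by
    have h2 : Real.log ((A₁ : ℝ) * y) ≤ lx := by
      have hA₁0 : (0 : ℝ) < A₁ := by exact_mod_cast (by omega : 0 < A₁)
      rw [Real.log_mul hA₁0.ne' hy0.ne']
      have h3 : Real.log (A₁ : ℝ) ≤ Real.log ((A₁ : ℝ) + 1) := Real.log_le_log hA₁0 (by linarith)
      have h4 : lx / L ≤ lx / 2 := div_le_div_of_nonneg_left hlx0.le (by norm_num) hL2
      have h5 : 2 * Real.log ((A₁ : ℝ) + 1) ≤ lx := by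
        have h6 : 1 * (2 * Real.log ((A₁ : ℝ) + 1)) ≤ L * (2 * Real.log ((A₁ : ℝ) + 1)) :=
          mul_le_mul_of_nonneg_right (by linarith) (by positivity)
        have : 0 < 4 / η := by positivity
        have : 0 < 8 / c := by positivity
        linarith
      linarith
    have h3 : ((A₁ * y : ℕ) : ℝ) ≤ x := by
      push_cast
      rw [← Real.log_le_log_iff (mul_pos (by exact_mod_cast (by omega : 0 < A₁)) hy0) hx0]
      exact h2
    exact_mod_cast h3
  have hyx : y ≤ x := le_trans (Nat.le_mul_of_pos_left _ (by omega)) hxy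
  have hy1' : (1 : ℝ) ≤ y := by exact_mod_cast hy1
  obtain ⟨h2, h3⟩ := h1 y x (by omega) hxy f hf
    ⟨Q, χ, t, hQ, hQB, ht.trans (le_mul_of_one_le_right (Nat.cast_nonneg _) hy1'), him.trans (by linarith),
      fun q ψ h3 h4 h5 => by
      have h6 := hfar q ψ h3 (by omega) h5
      have h7 : ∑ p ∈ (Icc 1 x).filter Nat.Prime, (1 - (zt (f 0) χ t p).re * (ψ ((p : ℕ) : ZMod q)).re) / (p : ℝ) =
          ∑ p ∈ (Icc 1 y).filter Nat.Prime, (1 - (zt (f 0) χ t p).re * (ψ ((p : ℕ) : ZMod q)).re) / (p : ℝ) +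
          ∑ p ∈ (Ioc y x).filter Nat.Prime, (1 - (zt (f 0) χ t p).re * (ψ ((p : ℕ) : ZMod q)).re) / (p : ℝ) := by
        rw [← sum_union]
        · apply sum_congr _ fun _ _ => rfl
          rw [← filter_union]
          congr 1
          ext n
          rw [mem_union, mem_Icc, mem_Icc, mem_Ioc]
          omega
        · apply disjoint_filter_filter
          rw [disjoint_left]
          intro n hn
          rw [mem_Icc] at hn
          rw [mem_Ioc]
          omega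
      have h8 : ∑ p ∈ (Ioc y x).filter Nat.Prime, (1 - (zt (f 0) χ t p).re * (ψ ((p : ℕ) : ZMod q)).re) / (p : ℝ) ≤
          2 * ∑ p ∈ (Ioc y x).filter Nat.Prime, (1 : ℝ) / p := by
        rw [mul_sum]
        apply sum_le_sum
        intro p _
        rw [mul_one_div]
        exact div_le_div_of_nonneg_right (rr_le (hf 0).1 χ t ψ p).2 (Nat.cast_nonneg _)
      have h9 := hC y x (by omega) hyx
      have h10 : Real.log (Real.log x / Real.log y) ≤ Real.log (2 * L) := by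
        have hly0 : 0 < Real.log y := lt_of_lt_of_le (by positivity) hly3
        apply Real.log_le_log (by positivity)
        rw [div_le_iff₀ hly0]
        rw [div_le_iff₀ (by positivity)] at hly3
        linarith
      have h11 : 2 * Real.log (2 * L) + 2 * C ≤ (⌈2 * Real.log (2 * (L : ℝ)) + 2 * C⌉₊ : ℝ) := Nat.le_ceil _
      have h12 : (A₁ : ℝ) + (⌈2 * Real.log (2 * (L : ℝ)) + 2 * C⌉₊ : ℝ) ≤ A := by
        exact_mod_cast (by omega : A₁ + ⌈2 * Real.log (2 * (L : ℝ)) + 2 * C⌉₊ ≤ A)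
      linarith⟩
  -- the scales up to `y`
  have hharm : ∑ N ∈ Icc 1 y, (1 : ℝ) / N ≤ 1 + Real.log y := by
    have h4 : Icc 1 y = insert 1 (Ioc 1 y) := by
      ext n
      rw [mem_insert, mem_Icc, mem_Ioc]
      omega
    rw [h4, sum_insert (by simp)]
    have h5 := harm_win 1 y le_rfl hy1
    simp only [Nat.cast_one, div_one] at h5 ⊢
    linarith
  have hsplit : ∀ F : ℕ → ℝ, ∑ N ∈ Icc 1 x, F N = ∑ N ∈ Icc 1 y, F N + ∑ N ∈ Ioc y x, F N := by
    intro F
    rw [← sum_union]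
    · apply sum_congr _ fun _ _ => rfl
      ext n
      rw [mem_union, mem_Icc, mem_Icc, mem_Ioc]
      omega
    · rw [disjoint_left]
      intro n hn
      rw [mem_Icc] at hn
      rw [mem_Ioc]
      omega
  have hlxy : Real.log ((x : ℝ) / y) ≤ lx := by
    apply Real.log_le_log (by positivity)
    exact div_le_self hx0.le hy1'
  have hlxy0 : 0 ≤ Real.log ((x : ℝ) / y) := by
    apply Real.log_nonneg
    rw [le_div_iff₀ hy0, one_mul]
    exact_mod_cast hyx
  constructor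
  · rw [hsplit]
    have h4 : ∑ N ∈ Icc 1 y, (if (1 - c / 2) * (N : ℝ) < ‖∑ n ∈ Icc 1 N, ∏ i, f i (n + h i)‖ then (1 : ℝ) / N else 0) ≤
        1 + Real.log y := by
      refine le_trans (sum_le_sum fun N _ => ?_) hharm
      split_ifs
      · exact le_rfl
      · positivity
    have h5 : ∑ N ∈ Ioc y x, (if (1 - c / 2) * (N : ℝ) < ‖∑ n ∈ Icc 1 N, ∏ i, f i (n + h i)‖ then (1 : ℝ) / N else 0) ≤
        η / 2 * lx := by
      refine le_trans (sum_le_sum fun N hN => ?_)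
        (h2.trans (mul_le_mul (min_le_left _ _) hlxy hlxy0 (by positivity)))
      have hN0 : (0 : ℝ) < N := by exact_mod_cast (by rw [mem_Ioc] at hN; omega : 0 < N)
      by_cases hb : (1 - c / 2) * (N : ℝ) < ‖∑ n ∈ Icc 1 N, ∏ i, f i (n + h i)‖
      · rw [if_pos hb, if_pos]
        refine lt_of_le_of_lt (mul_le_mul_of_nonneg_right ?_ hN0.le) hb
        linarith
      · rw [if_neg hb]
        split_ifs <;> positivity
    have h6 : lx / L ≤ η / 4 * lx := by
      rw [div_le_iff₀ hL0]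
      rw [div_le_iff₀ hη] at hLη
      nlinarith
    have h7 : 1 ≤ η / 4 * lx := by
      rw [div_le_iff₀ hη] at h4η
      linarith
    linarith
  · have h4 : ∑ n ∈ Icc 1 x, (∏ i, f i (n + h i)) / (n : ℂ) = ∑ n ∈ Icc 1 y, (∏ i, f i (n + h i)) / (n : ℂ) +
        ∑ n ∈ Ioc y x, (∏ i, f i (n + h i)) / (n : ℂ) := by
      rw [← sum_union]
      · apply sum_congr _ fun _ _ => rfl
        ext n
        rw [mem_union, mem_Icc, mem_Icc, mem_Ioc]
        omega
      · rw [disjoint_left]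
        intro n hn
        rw [mem_Icc] at hn
        rw [mem_Ioc]
        omega
    rw [h4]
    have h5 : ‖∑ n ∈ Icc 1 y, (∏ i, f i (n + h i)) / (n : ℂ)‖ ≤ 1 + Real.log y := by
      refine (norm_sum_le _ _).trans (le_trans (sum_le_sum fun n _ => ?_) hharm)
      rw [norm_div, Complex.norm_natCast, norm_prod]
      exact div_le_div_of_nonneg_right (prod_le_one (fun _ _ => norm_nonneg _) fun i _ => (hf i).1 _)
        (Nat.cast_nonneg _)
    have h6 : (1 - c) * Real.log ((x : ℝ) / y) ≤ (1 - c) * lx := mul_le_mul_of_nonneg_left hlxy (by linarith)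
    have h7 : lx / L ≤ c / 8 * lx := by
      rw [div_le_iff₀ hL0]
      rw [div_le_iff₀ hcp] at hLc
      nlinarith
    have h8 : 1 ≤ c / 8 * lx := by
      rw [div_le_iff₀ hcp] at h8c
      linarith
    have h9 : 0 < c * lx := by positivity
    refine (norm_add_le _ _).trans ?_
    linarith

end Pool.Agent.R512.U
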