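import Mathlib

/-!
Library R512.U (helper512): the nearest root of unity.
-/

set_option autoImplicit false

namespace Pool.Agent.R512.U

/-- the deficit of the power of order `2 r` -/
noncomputable def ra (r : ℕ) (z : ℂ) : ℝ := ‖z‖ ^ (2 * r) - (z ^ (2 * r)).re

lemma ra_nonneg (r : ℕ) (z : ℂ) : 0 ≤ ra r z := by
  unfold ra
  have h1 := Complex.re_le_norm (z ^ (2 * r))
  rw [norm_pow] at h1
  linarith

lemma small_t (r : ℕ) (t C : ℝ) (ht0 : 0 ≤ t) (ht1 : t ≤ 1) (hC0 : 0 ≤ C) (hC2 : C ≤ 2) :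
    t * C ≤ 2 * (1 - t) + 4 ^ r * (t ^ (2 * r) * C) := by
  have h1 : 0 ≤ t ^ (2 * r) * C := by positivity
  rcases le_total (1 / 2) t with h | h
  · have h2 : 1 ≤ (2 * t) ^ (2 * r) := one_le_pow₀ (by linarith)
    have h3 : (2 * t) ^ (2 * r) = 4 ^ r * t ^ (2 * r) := by
      rw [mul_pow, pow_mul]
      norm_num
    rw [h3] at h2
    have h4 : t * C ≤ (4 ^ r * t ^ (2 * r)) * C := mul_le_mul_of_nonneg_right (by linarith) hC0
    have h5 : (4 ^ r * t ^ (2 * r)) * C = 4 ^ r * (t ^ (2 * r) * C) := by ring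
    linarith
  · have h2 : t * C ≤ t * 2 := mul_le_mul_of_nonneg_left hC2 ht0
    have h3 : (0 : ℝ) ≤ 4 ^ r * (t ^ (2 * r) * C) := by positivity
    linarith

/-- **the nearest root of unity** -/
theorem near_root (r : ℕ) (hr : 1 ≤ r) (z : ℂ) (hz : ‖z‖ ≤ 1) : ∃ (ζ : ℂ) (s : ℤ), ζ ^ (r * 2) = 1 ∧
    (s = 1 ∨ s = -1) ∧ ζ ^ r = ((s : ℤ) : ℂ) ∧
    1 - (z * (starRingEnd ℂ) ζ).re ≤ 3 * (1 - ‖z‖) + 4 ^ r * ra r z ∧
    1 - (s : ℝ) * (z ^ r).re ≤ (r + 2) * (1 - ‖z‖) + 4 ^ r * ra r z := by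
  have hr0 : (0 : ℝ) < r := by exact_mod_cast hr
  have hr1 : (1 : ℝ) ≤ r := by exact_mod_cast hr
  have hpi := Real.pi_pos
  obtain ⟨θ, hθ⟩ : ∃ θ, θ = Complex.arg z := ⟨_, rfl⟩
  obtain ⟨t, ht⟩ : ∃ t, t = ‖z‖ := ⟨_, rfl⟩
  have hzt : z = (t : ℂ) * Complex.exp ((θ : ℂ) * Complex.I) := by
    rw [ht, hθ]
    exact (Complex.norm_mul_exp_arg_mul_I z).symm
  obtain ⟨k, hk⟩ : ∃ k : ℤ, k = round ((r : ℝ) * θ / Real.pi) := ⟨_, rfl⟩
  obtain ⟨τ, hτ⟩ : ∃ τ : ℝ, τ = θ - k * Real.pi / r := ⟨_, rfl⟩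
  have h2rτ : |2 * r * τ| ≤ Real.pi := by
    have h1 := abs_sub_round ((r : ℝ) * θ / Real.pi)
    rw [← hk] at h1
    have h2 : 2 * r * τ = 2 * Real.pi * ((r : ℝ) * θ / Real.pi - k) := by
      rw [hτ]
      field_simp
    rw [h2, abs_mul, abs_of_pos (by positivity : (0 : ℝ) < 2 * Real.pi)]
    nlinarith
  have ht0 : 0 ≤ t := by rw [ht]; exact norm_nonneg _
  have ht1 : t ≤ 1 := by rw [ht]; exact hz
  -- cosines
  have hrτ : |(r : ℝ) * τ| ≤ |2 * r * τ| := by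
    have : 2 * (r : ℝ) * τ = 2 * (r * τ) := by ring
    rw [this, abs_mul 2, abs_of_pos (by norm_num : (0 : ℝ) < 2)]
    have := abs_nonneg ((r : ℝ) * τ)
    linarith
  have hττ : |τ| ≤ |(r : ℝ) * τ| := by
    rw [abs_mul, abs_of_pos hr0]
    exact le_mul_of_one_le_left (abs_nonneg _) hr1
  have hc1 : Real.cos (2 * r * τ) ≤ Real.cos (r * τ) := by
    rw [← Real.cos_abs (2 * r * τ), ← Real.cos_abs (r * τ)]
    exact Real.cos_le_cos_of_nonneg_of_le_pi (abs_nonneg _) h2rτ hrτ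
  have hc2 : Real.cos (2 * r * τ) ≤ Real.cos τ := by
    rw [← Real.cos_abs (2 * r * τ), ← Real.cos_abs τ]
    exact Real.cos_le_cos_of_nonneg_of_le_pi (abs_nonneg _) h2rτ (hττ.trans hrτ)
  have hcb := Real.neg_one_le_cos (2 * r * τ)
  have hcb' := Real.cos_le_one (2 * r * τ)
  -- the roots of unity
  obtain ⟨ζ, hζ⟩ : ∃ ζ : ℂ, ζ = Complex.exp (((k * Real.pi / r : ℝ) : ℂ) * Complex.I) := ⟨_, rfl⟩
  obtain ⟨s, hs⟩ : ∃ s : ℤ, s = if Even k then 1 else -1 := ⟨_, rfl⟩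
  have hs1 : s = 1 ∨ s = -1 := by
    rw [hs]
    split_ifs
    · exact Or.inl rfl
    · exact Or.inr rfl
  have hrC : (r : ℂ) ≠ 0 := by exact_mod_cast (by omega : r ≠ 0)
  have hζr : ζ ^ r = ((s : ℤ) : ℂ) := by
    rw [hζ, ← Complex.exp_nat_mul]
    have e1 : (r : ℂ) * (((k * Real.pi / r : ℝ) : ℂ) * Complex.I) = (k : ℂ) * (Real.pi * Complex.I) := by
      push_cast
      field_simp
    rw [e1, Complex.exp_int_mul, Complex.exp_pi_mul_I, hs]
    split_ifs with hev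
    · rw [hev.neg_one_zpow]; simp
    · rw [(Int.not_even_iff_odd.1 hev).neg_one_zpow]; simp
  have hss : s * s = 1 := by rcases hs1 with h | h <;> rw [h] <;> norm_num
  have hssR : (s : ℝ) * s = 1 := by exact_mod_cast hss
  have hζ2r : ζ ^ (r * 2) = 1 := by
    rw [pow_mul, hζr, pow_two]
    exact_mod_cast hss
  have hzζ : (z * (starRingEnd ℂ) ζ).re = t * Real.cos τ := by
    have e1 : z * (starRingEnd ℂ) ζ = (t : ℂ) * Complex.exp ((τ : ℂ) * Complex.I) := by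
      rw [hzt, hζ, ← Complex.exp_conj, map_mul, Complex.conj_ofReal, Complex.conj_I, mul_assoc, ← Complex.exp_add]
      congr 2
      rw [hτ]
      push_cast
      ring
    rw [e1, Complex.re_ofReal_mul, Complex.exp_ofReal_mul_I_re]
  have hzr : (s : ℝ) * (z ^ r).re = t ^ r * Real.cos (r * τ) := by
    have e1 : z ^ r = (((t ^ r * s : ℝ)) : ℂ) * Complex.exp (((r * τ : ℝ) : ℂ) * Complex.I) := by
      have e2 : (((t ^ r * s : ℝ)) : ℂ) = (t : ℂ) ^ r * ζ ^ r := by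
        rw [hζr]
        push_cast
        ring
      rw [e2, hζ, hzt, mul_pow, ← Complex.exp_nat_mul, ← Complex.exp_nat_mul, mul_assoc, ← Complex.exp_add]
      congr 2
      rw [hτ]
      push_cast
      field_simp
      ring
    rw [e1, Complex.re_ofReal_mul, Complex.exp_ofReal_mul_I_re]
    calc (s : ℝ) * (t ^ r * s * Real.cos (r * τ)) = (s * s) * (t ^ r * Real.cos (r * τ)) := by ring
      _ = _ := by rw [hssR, one_mul]
  have hz2r : (z ^ (2 * r)).re = t ^ (2 * r) * Real.cos (2 * r * τ) := by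
    have e1 : z ^ (2 * r) = ((t ^ (2 * r) : ℝ) : ℂ) * Complex.exp (((2 * r * τ : ℝ) : ℂ) * Complex.I) := by
      have e2 : ((t ^ (2 * r) : ℝ) : ℂ) = (t : ℂ) ^ (2 * r) * ζ ^ (r * 2) := by
        rw [hζ2r]
        push_cast
        ring
      rw [e2, hζ, hzt, mul_pow, ← Complex.exp_nat_mul, ← Complex.exp_nat_mul, mul_assoc, ← Complex.exp_add]
      congr 2
      rw [hτ]
      push_cast
      field_simp
      ring
    rw [e1, Complex.re_ofReal_mul, Complex.exp_ofReal_mul_I_re]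
  have hra : ra r z = t ^ (2 * r) * (1 - Real.cos (2 * r * τ)) := by
    unfold ra
    rw [hz2r, ← ht]
    ring
  have hkey := small_t r t (1 - Real.cos (2 * r * τ)) ht0 ht1 (by linarith) (by linarith)
  refine ⟨ζ, s, hζ2r, hs1, hζr, ?_, ?_⟩
  · rw [hzζ, hra, ← ht]
    have h1 : t * (1 - Real.cos τ) ≤ t * (1 - Real.cos (2 * r * τ)) :=
      mul_le_mul_of_nonneg_left (by linarith) ht0
    linarith
  · rw [hzr, hra, ← ht]
    have htr0 : 0 ≤ t ^ r := by positivity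
    have htr : t ^ r ≤ t := by
      have := pow_le_pow_of_le_one ht0 ht1 hr
      rwa [pow_one] at this
    have h1 : t ^ r * (1 - Real.cos (r * τ)) ≤ t * (1 - Real.cos (2 * r * τ)) :=
      mul_le_mul htr (by linarith) (by have := Real.cos_le_one ((r : ℝ) * τ); linarith) ht0
    have h2 := one_add_mul_le_pow (a := t - 1) (by linarith) r
    have h3 : (1 + (t - 1)) ^ r = t ^ r := by congr 1; ring
    rw [h3] at h2
    nlinarith

end Pool.Agent.R512.U
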