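import Pool.Agent.R512.U.RootE
import Pool.Agent.R512.U.FinC
import Pool.Agent.R512.U.Trig

/-!
Library R512.U (helper512): uniform statements, one factor nearly a real multiple of a root of unity up to a twist.
-/

set_option autoImplicit false

namespace Pool.Agent.R512.U

open Finset Filter Topology
open Pool.Agent.Y958.U
open Pool.Agent.Y958.E
open Pool.Agent.Y872.L (CM)
open Pool.Agent.R512.U.Hal (dst)
open Pool.Agent.R512.Q (CR)

/-- the completely multiplicative function with given values at the primes -/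
noncomputable def cmfC (v : ℕ → ℂ) (n : ℕ) : ℂ := (n.primeFactorsList.map v).prod

lemma cmfC_prime (v : ℕ → ℂ) {p : ℕ} (hp : p.Prime) : cmfC v p = v p := by
  unfold cmfC
  rw [Nat.primeFactorsList_prime hp]
  simp

lemma cmfC_cr (m : ℕ) (v : ℕ → ℂ) (hv : ∀ p, v p ^ m = 1) : CR m (cmfC v) := by
  refine ⟨fun n => ?_, fun a b ha hb => ?_⟩
  · unfold cmfC
    induction n.primeFactorsList with
    | nil => simp
    | cons p l ih =>
      rw [List.map_cons, List.prod_cons, mul_pow, hv, ih, one_mul]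
  · unfold cmfC
    rw [((Nat.perm_primeFactorsList_mul ha hb).map v).prod_eq, List.map_append, List.prod_append]

lemma cmfC_pow (r : ℕ) (v : ℕ → ℂ) (u : ℕ → ℤ) (h : ∀ p, v p ^ r = ((u p : ℤ) : ℂ)) (n : ℕ) (hn : n ≠ 0) :
    cmfC v n ^ r = ((cmf u n : ℤ) : ℂ) := by
  unfold cmfC cmf
  rw [if_neg hn]
  induction n.primeFactorsList with
  | nil => simp
  | cons p l ih =>
    rw [List.map_cons, List.prod_cons, List.map_cons, List.prod_cons, mul_pow, h, ih]
    push_cast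
    rfl

/-- **most scales** -/
theorem finCr (d r : ℕ) (hr : 1 ≤ r) : ∃ c : ℝ, 0 < c ∧ c < 1 ∧
    ∀ h : Fin (d + 1) → ℕ, Function.Injective h → ∀ (B : ℕ) (η : ℝ), 0 < η → ∃ A : ℕ, 1 ≤ A ∧
      ∀ y x : ℕ, A ≤ y → A * y ≤ x →
      ∀ f : ℕ → ℂ, BM f → ∀ g : Fin d → ℕ → ℂ, (∀ i, BM (g i)) →
      ∀ (Q : ℕ) (χ : DirichletCharacter ℂ Q) (t : ℝ), 1 ≤ Q → Q ≤ B → |t| ≤ B * y →
      ∑ p ∈ (Ioc B x).filter Nat.Prime, ra r (zt f χ t p) / (p : ℝ) ≤ c →
      (∀ (q : ℕ) (ψ : DirichletCharacter ℂ q), 1 ≤ q → q ≤ A → ψ ^ 2 = 1 →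
        (A : ℝ) ≤ ∑ p ∈ (Icc 1 y).filter Nat.Prime,
          (1 - (zt f χ t p ^ r).re * (ψ ((p : ℕ) : ZMod q)).re) / (p : ℝ)) →
      ∑ N ∈ Ioc y x, (open Classical in
        if (1 - c) * (N : ℝ) < ‖∑ n ∈ Icc 1 N, f (n + h 0) * ∏ i : Fin d, g i (n + h i.succ)‖
          then (1 : ℝ) / N else 0) ≤
        η * Real.log ((x : ℝ) / y) := by
  classical
  obtain ⟨c₁, δ₁, hc₁, hc₁1, hδ₁, hU⟩ := unifRr d r hr
  obtain ⟨δ₂, hδ₂⟩ : ∃ δ₂, δ₂ = min δ₁ 1 := ⟨_, rfl⟩
  have hδ₂0 : 0 < δ₂ := by rw [hδ₂]; exact lt_min hδ₁ one_pos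
  have hδ₂1 : δ₂ ≤ 1 := by rw [hδ₂]; exact min_le_right _ _
  have hδ₂₁ : δ₂ ≤ δ₁ := by rw [hδ₂]; exact min_le_left _ _
  obtain ⟨δ, hδ⟩ : ∃ δ, δ = δ₂ / 8 := ⟨_, rfl⟩
  have hδ0 : 0 < δ := by rw [hδ]; positivity
  have hδ8 : δ ≤ 1 / 8 := by rw [hδ]; linarith
  obtain ⟨A₀, N₀, hfarm⟩ := mean_far δ hδ0 hδ8
  have h4r : (0 : ℝ) < 4 ^ r := by positivity
  obtain ⟨c, hc⟩ : ∃ c, c = min c₁ (min (δ / 8) (δ₂ / (2 * 4 ^ r))) := ⟨_, rfl⟩
  have hc0 : 0 < c := by rw [hc]; exact lt_min hc₁ (lt_min (by positivity) (by positivity))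
  have hcc₁ : c ≤ c₁ := by rw [hc]; exact min_le_left _ _
  have hcδ : c ≤ δ / 8 := by rw [hc]; exact (min_le_right _ _).trans (min_le_left _ _)
  have hc4 : 4 ^ r * c ≤ δ₂ / 2 := by
    have h1 : c ≤ δ₂ / (2 * 4 ^ r) := by rw [hc]; exact (min_le_right _ _).trans (min_le_right _ _)
    rw [le_div_iff₀ (by positivity)] at h1
    linarith
  refine ⟨c, hc0, by linarith, fun h hinj B η hη => ?_⟩
  obtain ⟨Bm, hBm⟩ : ∃ Bm, Bm = B + A₀ := ⟨_, rfl⟩
  obtain ⟨ω₀, hω₀1, hω⟩ := hU h hinj Bm η hη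
  obtain ⟨A, hA⟩ : ∃ A, A = ω₀ + 2 * Bm + r + 2 + N₀ + ⌈8 * (h 0 : ℝ) / δ⌉₊ + ⌈Real.exp (Real.log ω₀ / η)⌉₊ :=
    ⟨_, rfl⟩
  refine ⟨A, by omega, fun y x hyA hxA f hf g hg Q χ t hQ hQB ht him hfar => ?_⟩
  have hy1 : 1 ≤ y := by omega
  have hy0 : (0 : ℝ) < y := by exact_mod_cast hy1
  have hyx : y ≤ x := le_trans (Nat.le_mul_of_pos_left _ (by omega)) hxA
  have hlog0 : 0 ≤ Real.log ((x : ℝ) / y) := by
    apply Real.log_nonneg
    rw [le_div_iff₀ hy0, one_mul]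
    exact_mod_cast hyx
  set z : ℕ → ℂ := fun p => zt f χ t p with hz
  have hz1 : ∀ p, ‖z p‖ ≤ 1 := fun p => zt_le hf.1 χ t p
  set E : ℕ → ℝ := fun N => ∑ p ∈ (Ioc Bm N).filter Nat.Prime, (1 - ‖z p‖) / (p : ℝ) with hE
  have hEmono : ∀ N N' : ℕ, N ≤ N' → E N ≤ E N' := by
    intro N N' hNN
    simp only [hE]
    apply sum_le_sum_of_subset_of_nonneg
    · exact filter_subset_filter _ (Ioc_subset_Ioc_right hNN)
    · intro p _ _
      exact div_nonneg (by have := hz1 p; linarith) (Nat.cast_nonneg _)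
  obtain ⟨Ns, hNs⟩ : ∃ Ns, Ns = Nat.findGreatest (fun N => E N ≤ δ) x := ⟨_, rfl⟩
  have hNsx : Ns ≤ x := by rw [hNs]; exact Nat.findGreatest_le x
  have hE0 : E 0 ≤ δ := by
    have : E 0 = 0 := by
      simp only [hE]
      rw [Ioc_eq_empty_of_le (Nat.zero_le _)]
      simp
    rw [this]
    exact hδ0.le
  have hENs : E Ns ≤ δ := by
    rw [hNs]
    exact Nat.findGreatest_spec (P := fun N => E N ≤ δ) (Nat.zero_le x) hE0
  have hNsgt : ∀ N, Ns < N → N ≤ x → δ < E N := by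
    intro N h1 h2
    by_contra hc
    push Not at hc
    have := Nat.le_findGreatest (P := fun N => E N ≤ δ) h2 hc
    omega
  -- beyond `Ns`
  have hbey : ∀ N ∈ Ioc y x, ¬ N ≤ Ns →
      ¬ ((1 - c) * (N : ℝ) < ‖∑ n ∈ Icc 1 N, f (n + h 0) * ∏ i : Fin d, g i (n + h i.succ)‖) := by
    intro N hN hNNs
    rw [mem_Ioc] at hN
    push Not at hNNs ⊢
    have h1 := hNsgt N hNNs hN.2
    have h2 : δ < ∑ p ∈ (Ioc Bm N).filter Nat.Prime, (1 - ‖f p‖) / (p : ℝ) := by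
      refine h1.trans_le (le_of_eq ?_)
      simp only [hE]
      apply sum_congr rfl
      intro p hp
      rw [mem_filter, mem_Ioc] at hp
      rw [hz]
      simp only
      rw [zt_eq hQ χ t hp.2 (by omega)]
    have hN₀N : N₀ ≤ N := by omega
    have h3 : ∑ n ∈ Icc 1 (N + h 0), ‖f n‖ ≤ (1 - δ / 4) * ((N + h 0 : ℕ) : ℝ) := by
      refine hfarm Bm (by omega) (N + h 0) (by omega) (fun n => ‖f n‖) (fun n => norm_nonneg _) hf.1
        (fun m n hm hn hmn => ?_) ?_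
      · show ‖f (m * n)‖ = ‖f m‖ * ‖f n‖
        rw [hf.2 m n hm hn hmn, norm_mul]
      · refine h2.trans_le ?_
        apply sum_le_sum_of_subset_of_nonneg
        · exact filter_subset_filter _ (Ioc_subset_Ioc_right (by omega))
        · intro p _ _
          exact div_nonneg (by have := hf.1 p; linarith) (Nat.cast_nonneg _)
    have h4 : ‖∑ n ∈ Icc 1 N, f (n + h 0) * ∏ i : Fin d, g i (n + h i.succ)‖ ≤
        ∑ n ∈ Icc 1 N, ‖f (n + h 0)‖ := by
      refine (norm_sum_le _ _).trans (sum_le_sum fun n _ => ?_)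
      rw [norm_mul, norm_prod]
      exact mul_le_of_le_one_right (norm_nonneg _) (prod_le_one (fun _ _ => norm_nonneg _) fun i _ => (hg i).1 _)
    have h5 : ∑ n ∈ Icc 1 N, ‖f (n + h 0)‖ ≤ ∑ n ∈ Icc 1 (N + h 0), ‖f n‖ := by
      have h6 : ∑ n ∈ Icc 1 N, ‖f (n + h 0)‖ = ∑ n ∈ (Icc 1 N).map (addRightEmbedding (h 0)), ‖f n‖ := by
        rw [sum_map]
        rfl
      rw [h6]
      apply sum_le_sum_of_subset_of_nonneg
      · intro n hn
        rw [Finset.mem_map] at hn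
        obtain ⟨m, hm, rfl⟩ := hn
        rw [mem_Icc] at hm ⊢
        simp only [addRightEmbedding_apply]
        omega
      · intro n _ _
        exact norm_nonneg _
    have h6 : 8 * (h 0 : ℝ) / δ ≤ N := (Nat.le_ceil _).trans (Nat.cast_le.2 (by omega))
    rw [div_le_iff₀ hδ0] at h6
    have hN0 : (0 : ℝ) ≤ N := Nat.cast_nonneg _
    have hh0 : (0 : ℝ) ≤ (h 0 : ℝ) := Nat.cast_nonneg _
    push_cast at h3
    have h7 : c * N ≤ δ / 8 * N := mul_le_mul_of_nonneg_right hcδ hN0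
    have h8 : 0 ≤ δ * (h 0 : ℝ) := by positivity
    nlinarith
  have hsum : ∑ N ∈ Ioc y x, (if (1 - c) * (N : ℝ) < ‖∑ n ∈ Icc 1 N, f (n + h 0) *
      ∏ i : Fin d, g i (n + h i.succ)‖ then (1 : ℝ) / N else 0) ≤
      ∑ N ∈ Ioc y Ns, (if (1 - c₁) * (N : ℝ) < ‖∑ n ∈ Icc 1 N, f (n + h 0) *
      ∏ i : Fin d, g i (n + h i.succ)‖ then (1 : ℝ) / N else 0) := by
    have h1 : ∑ N ∈ Ioc y x, (if (1 - c) * (N : ℝ) < ‖∑ n ∈ Icc 1 N, f (n + h 0) *
        ∏ i : Fin d, g i (n + h i.succ)‖ then (1 : ℝ) / N else 0) ≤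
        ∑ N ∈ (Ioc y x).filter (fun N => N ≤ Ns), (if (1 - c₁) * (N : ℝ) < ‖∑ n ∈ Icc 1 N, f (n + h 0) *
        ∏ i : Fin d, g i (n + h i.succ)‖ then (1 : ℝ) / N else 0) := by
      rw [sum_filter]
      apply sum_le_sum
      intro N hN
      have hN0 : (0 : ℝ) ≤ N := Nat.cast_nonneg _
      by_cases hNN : N ≤ Ns
      · rw [if_pos hNN]
        by_cases hb : (1 - c) * (N : ℝ) < ‖∑ n ∈ Icc 1 N, f (n + h 0) * ∏ i : Fin d, g i (n + h i.succ)‖
        · rw [if_pos hb, if_pos]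
          refine lt_of_le_of_lt (mul_le_mul_of_nonneg_right ?_ hN0) hb
          linarith
        · rw [if_neg hb]
          split_ifs <;> positivity
      · rw [if_neg hNN, if_neg (hbey N hN hNN)]
    refine h1.trans ?_
    apply sum_le_sum_of_subset_of_nonneg
    · intro N hN
      rw [mem_filter, mem_Ioc] at hN
      rw [mem_Ioc]
      exact ⟨hN.1.1, hN.2⟩
    · intro N _ _
      split_ifs <;> positivity
  refine hsum.trans ?_
  by_cases hcase : ω₀ * y ≤ Ns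
  swap
  · push Not at hcase
    have h1 : ∑ N ∈ Ioc y Ns, (if (1 - c₁) * (N : ℝ) < ‖∑ n ∈ Icc 1 N, f (n + h 0) *
        ∏ i : Fin d, g i (n + h i.succ)‖ then (1 : ℝ) / N else 0) ≤ ∑ N ∈ Ioc y (ω₀ * y), (1 : ℝ) / N := by
      refine (sum_le_sum (g := fun N : ℕ => (1 : ℝ) / N) fun N _ => ?_).trans
        (sum_le_sum_of_subset_of_nonneg (Ioc_subset_Ioc_right hcase.le) fun _ _ _ => by positivity)
      split_ifs
      · exact le_rfl
      · positivity
    refine h1.trans ((harm_win y (ω₀ * y) hy1 (Nat.le_mul_of_pos_left _ (by omega))).trans ?_)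
    have h2 : ((ω₀ * y : ℕ) : ℝ) / y = ω₀ := by
      push_cast
      field_simp
    rw [h2]
    have h3 : Real.log ω₀ / η ≤ Real.log ((x : ℝ) / y) := by
      have hA0 : (0 : ℝ) < A := by exact_mod_cast (by omega : 0 < A)
      have h4 : (A : ℝ) ≤ (x : ℝ) / y := by
        rw [le_div_iff₀ hy0]
        exact_mod_cast hxA
      have h5 : Real.exp (Real.log ω₀ / η) ≤ A := (Nat.le_ceil _).trans (Nat.cast_le.2 (by omega))
      rw [Real.le_log_iff_exp_le (lt_of_lt_of_le hA0 h4)]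
      exact h5.trans h4
    rw [div_le_iff₀ hη] at h3
    linarith
  -- the main case
  have hyNs : y ≤ Ns := le_trans (Nat.le_mul_of_pos_left _ (by omega)) hcase
  choose v u hv2r hu1 hvr hnear hpow using fun p : ℕ => near_root r hr (z p) (hz1 p)
  have hRP : RP r (cmfC v) (cmf u) := ⟨cmfC_cr (r * 2) v hv2r, cmf_cm u hu1, cmfC_pow r v u hvr⟩
  have hras : ∀ N : ℕ, N ≤ x → ∑ p ∈ (Ioc Bm N).filter Nat.Prime, ra r (z p) / (p : ℝ) ≤ c := by
    intro N hN
    refine le_trans ?_ him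
    apply sum_le_sum_of_subset_of_nonneg
    · exact filter_subset_filter _ (Ioc_subset_Ioc (by omega) hN)
    · intro p _ _
      exact div_nonneg (ra_nonneg _ _) (Nat.cast_nonneg _)
  have hcomb : ∀ (a : ℝ), 0 ≤ a → ∀ (F : ℕ → ℝ), (∀ p, F p ≤ a * (1 - ‖z p‖) + 4 ^ r * ra r (z p)) →
      ∀ N : ℕ, N ≤ Ns → ∑ p ∈ (Ioc Bm N).filter Nat.Prime, F p / (p : ℝ) ≤ a * δ + δ₂ / 2 := by
    intro a ha F hF N hN
    have h1 : ∑ p ∈ (Ioc Bm N).filter Nat.Prime, F p / (p : ℝ) ≤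
        ∑ p ∈ (Ioc Bm N).filter Nat.Prime, (a * ((1 - ‖z p‖) / (p : ℝ)) + 4 ^ r * (ra r (z p) / (p : ℝ))) := by
      apply sum_le_sum
      intro p _
      have h2 := div_le_div_of_nonneg_right (hF p) (Nat.cast_nonneg p : (0 : ℝ) ≤ p)
      refine h2.trans (le_of_eq ?_)
      ring
    rw [sum_add_distrib, ← mul_sum, ← mul_sum] at h1
    have h2 : ∑ p ∈ (Ioc Bm N).filter Nat.Prime, (1 - ‖z p‖) / (p : ℝ) ≤ δ := (hEmono N Ns hN).trans hENs
    have h3 := hras N (hN.trans hNsx)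
    have h4 := mul_le_mul_of_nonneg_left h2 ha
    have h5 := mul_le_mul_of_nonneg_left h3 h4r.le
    linarith
  have hfars : Far ω₀ y (cmf u) := by
    intro q ψ hq1 hq2 hψ
    have h1 := hfar q ψ hq1 (by omega) hψ
    have hρ1 : ∀ p, (u p : ℝ) * (z p ^ r).re ≤ 1 ∧ -1 ≤ (u p : ℝ) * (z p ^ r).re := by
      intro p
      have e1 : |(z p ^ r).re| ≤ 1 := by
        refine (Complex.abs_re_le_norm _).trans ?_
        rw [norm_pow]
        exact pow_le_one₀ (norm_nonneg _) (hz1 p)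
      have e2 := abs_le.1 e1
      rcases hu1 p with h6 | h6 <;> rw [h6] <;> push_cast <;> constructor <;> linarith [e2.1, e2.2]
    have h2 : ∀ p ∈ (Icc 1 y).filter Nat.Prime, (1 - (z p ^ r).re * (ψ ((p : ℕ) : ZMod q)).re) / (p : ℝ) ≤
        (1 - ((cmf u p : ℂ) * ψ (p : ZMod q)).re) / (p : ℝ) + (1 - (u p : ℝ) * (z p ^ r).re) / (p : ℝ) := by
      intro p hp
      rw [mem_filter, mem_Icc] at hp
      rw [← add_div]
      apply div_le_div_of_nonneg_right _ (Nat.cast_nonneg _)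
      have e1 : ((cmf u p : ℂ) * ψ (p : ZMod q)).re = (cmf u p : ℝ) * (ψ (p : ZMod q)).re := by
        have e2 : (cmf u p : ℂ) = (((cmf u p : ℤ) : ℝ) : ℂ) := by push_cast; rfl
        rw [e2, Complex.re_ofReal_mul]
      rw [e1, cmf_prime u hp.2]
      have h4 := hρ1 p
      have h5 : |(ψ (p : ZMod q)).re| ≤ 1 := (Complex.abs_re_le_norm _).trans (ψ.norm_le_one _)
      have h6 := abs_le.1 h5
      set ρ := (ψ (p : ZMod q)).re
      set w := (z p ^ r).re
      rcases hu1 p with h7 | h7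
      · rw [h7] at h4 ⊢
        push_cast at h4 ⊢
        nlinarith [h4.1, h4.2, h6.1, h6.2]
      · rw [h7] at h4 ⊢
        push_cast at h4 ⊢
        nlinarith [h4.1, h4.2, h6.1, h6.2]
    have h3 := h1.trans (sum_le_sum h2)
    rw [sum_add_distrib] at h3
    have h4 : ∑ p ∈ (Icc 1 y).filter Nat.Prime, (1 - (u p : ℝ) * (z p ^ r).re) / (p : ℝ) ≤
        2 * Bm + ((r + 2) * δ + δ₂ / 2) := by
      have h5 : ∑ p ∈ (Icc 1 y).filter Nat.Prime, (1 - (u p : ℝ) * (z p ^ r).re) / (p : ℝ) ≤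
          ∑ p ∈ (Icc 1 Bm).filter Nat.Prime, (1 - (u p : ℝ) * (z p ^ r).re) / (p : ℝ) +
          ∑ p ∈ (Ioc Bm y).filter Nat.Prime, (1 - (u p : ℝ) * (z p ^ r).re) / (p : ℝ) := by
        rw [← sum_union (by
          apply disjoint_filter_filter
          rw [disjoint_left]
          intro n hn
          rw [mem_Icc] at hn
          rw [mem_Ioc]
          omega)]
        apply sum_le_sum_of_subset_of_nonneg
        · rw [← filter_union]
          apply filter_subset_filter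
          intro n hn
          rw [mem_Icc] at hn
          rw [mem_union, mem_Icc, mem_Ioc]
          omega
        · intro p _ _
          exact div_nonneg (by have := (hρ1 p).1; linarith) (Nat.cast_nonneg _)
      have h6 : ∑ p ∈ (Icc 1 Bm).filter Nat.Prime, (1 - (u p : ℝ) * (z p ^ r).re) / (p : ℝ) ≤ 2 * Bm := by
        have h7 : ∑ p ∈ (Icc 1 Bm).filter Nat.Prime, (1 - (u p : ℝ) * (z p ^ r).re) / (p : ℝ) ≤
            ∑ p ∈ Icc 1 Bm, (2 : ℝ) := by
          refine (sum_le_sum (g := fun _ => (2 : ℝ)) fun p hp => ?_).trans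
            (sum_le_sum_of_subset_of_nonneg (filter_subset _ _) fun _ _ _ => zero_le_two)
          rw [mem_filter, mem_Icc] at hp
          have hp1 : (1 : ℝ) ≤ p := by exact_mod_cast hp.1.1
          rw [div_le_iff₀ (by linarith)]
          have := (hρ1 p).2
          linarith
        refine h7.trans (le_of_eq ?_)
        rw [sum_const, Nat.card_Icc, nsmul_eq_mul]
        push_cast
        ring
      have h7 := hcomb (r + 2) (by positivity) (fun p => 1 - (u p : ℝ) * (z p ^ r).re) hpow y hyNs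
      linarith
    have h5 : (ω₀ : ℝ) + 2 * Bm + r + 2 ≤ A := by
      exact_mod_cast (by omega : ω₀ + 2 * Bm + r + 2 ≤ A)
    have h6 : dst (cmf u) ψ y = ∑ p ∈ (Icc 1 y).filter Nat.Prime,
        (1 - ((cmf u p : ℂ) * ψ (p : ZMod q)).re) / (p : ℝ) := rfl
    have h7 : ((r : ℝ) + 2) * δ + δ₂ / 2 ≤ r + 2 := by
      have hr0 : (0 : ℝ) ≤ r := Nat.cast_nonneg _
      nlinarith
    rw [h6]
    linarith
  have hBm0 : (B : ℝ) ≤ Bm := by exact_mod_cast (by omega : B ≤ Bm)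
  have h1 := hω y Ns (by omega) hcase (cmfC v) (cmf u) hRP hfars f hf g hg Q χ t hQ (by omega)
    (ht.trans (mul_le_mul_of_nonneg_right hBm0 hy0.le)) (by
      have h2 := hcomb 3 (by norm_num) (fun p => 1 - (z p * (starRingEnd ℂ) (v p)).re) hnear Ns le_rfl
      refine le_trans (le_of_eq ?_) (h2.trans (by linarith))
      apply sum_congr rfl
      intro p hp
      rw [mem_filter] at hp
      have e1 : f p * (starRingEnd ℂ) (cmfC v p * χ ((p : ℕ) : ZMod Q) * nit t p) = z p * (starRingEnd ℂ) (v p) := by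
        rw [cmfC_prime v hp.2, hz]
        simp only
        unfold zt
        rw [map_mul, map_mul, map_mul]
        ring
      rw [e1])
  have h2 : Real.log ((Ns : ℝ) / y) ≤ Real.log ((x : ℝ) / y) := by
    apply Real.log_le_log
    · exact div_pos (by exact_mod_cast (by omega : 0 < Ns)) hy0
    · exact div_le_div_of_nonneg_right (by exact_mod_cast hNsx) hy0.le
  refine le_trans (le_of_eq ?_) (h1.trans (mul_le_mul_of_nonneg_left h2 hη.le))
  congr!

end Pool.Agent.R512.U
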