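import Pool.Agent.R512.U.FinE
import Pool.Agent.R512.U.FinD

/-!
Library R512.U (helper512): final uniform statement, one factor nearly a real multiple of a root of unity up to a twist.
-/

set_option autoImplicit false

namespace Pool.Agent.R512.U

open Finset Filter Topology
open Pool.Agent.Y958.U
open Pool.Agent.Y958.E

/-- nearly a real multiple of a root of unity up to a twist at the primes of `(B, x]`, with power of order `r` far,
up to `w`, from the real characters -/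
def NRr (r B : ℕ) (T κ : ℝ) (x A w : ℕ) (f : ℕ → ℂ) : Prop :=
  ∃ (Q : ℕ) (χ : DirichletCharacter ℂ Q) (t : ℝ), 1 ≤ Q ∧ Q ≤ B ∧ |t| ≤ T ∧
    ∑ p ∈ (Ioc B x).filter Nat.Prime, ra r (zt f χ t p) / (p : ℝ) ≤ κ ∧
    ∀ (q : ℕ) (ψ : DirichletCharacter ℂ q), 1 ≤ q → q ≤ A → ψ ^ 2 = 1 →
      (A : ℝ) ≤ ∑ p ∈ (Icc 1 w).filter Nat.Prime, (1 - (zt f χ t p ^ r).re * (ψ ((p : ℕ) : ZMod q)).re) / (p : ℝ)

lemma rrr_le {f : ℕ → ℂ} (hf : ∀ n, ‖f n‖ ≤ 1) (r : ℕ) {Q : ℕ} (χ : DirichletCharacter ℂ Q) (t : ℝ) {q : ℕ}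
    (ψ : DirichletCharacter ℂ q) (p : ℕ) : 0 ≤ 1 - (zt f χ t p ^ r).re * (ψ ((p : ℕ) : ZMod q)).re ∧
      1 - (zt f χ t p ^ r).re * (ψ ((p : ℕ) : ZMod q)).re ≤ 2 := by
  have h1 : |(zt f χ t p ^ r).re| ≤ 1 := by
    refine (Complex.abs_re_le_norm _).trans ?_
    rw [norm_pow]
    exact pow_le_one₀ (norm_nonneg _) (zt_le hf χ t p)
  have h2 : |(ψ ((p : ℕ) : ZMod q)).re| ≤ 1 := (Complex.abs_re_le_norm _).trans (ψ.norm_le_one _)
  have h3 : |(zt f χ t p ^ r).re * (ψ ((p : ℕ) : ZMod q)).re| ≤ 1 := by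
    rw [abs_mul]
    exact mul_le_one₀ h1 (abs_nonneg _) h2
  have h4 := abs_le.1 h3
  constructor <;> linarith [h4.1, h4.2]

/-- both statements in windows -/
theorem winDr (k r : ℕ) (hr : 1 ≤ r) : ∃ c : ℝ, 0 < c ∧ c < 1 ∧ ∀ h : Fin (k + 1) → ℕ, Function.Injective h →
    ∀ (B : ℕ) (η : ℝ), 0 < η → ∃ A : ℕ, 1 ≤ A ∧ ∀ y x : ℕ, A ≤ y → A * y ≤ x →
      ∀ f : Fin (k + 1) → ℕ → ℂ, (∀ i, BM (f i)) → NRr r B (B * y) c x A y (f 0) →
      ∑ N ∈ Ioc y x, (open Classical in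
        if (1 - c) * (N : ℝ) < ‖∑ n ∈ Icc 1 N, ∏ i, f i (n + h i)‖ then (1 : ℝ) / N else 0) ≤
        η * Real.log ((x : ℝ) / y) ∧
      ‖∑ n ∈ Ioc y x, (∏ i, f i (n + h i)) / n‖ ≤ (1 - c) * Real.log ((x : ℝ) / y) := by
  classical
  obtain ⟨c, hc0, hc1, hF⟩ := finCr k r hr
  refine ⟨c / 2, by positivity, by linarith, fun h hinj B η hη => ?_⟩
  obtain ⟨A₁, hA₁, h1⟩ := hF h hinj B (min η (c / 4)) (lt_min hη (by positivity))
  obtain ⟨A, hA⟩ : ∃ A, A = A₁ + ⌈Real.exp (8 / c)⌉₊ := ⟨_, rfl⟩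
  refine ⟨A, by omega, fun y x hyA hxA f hf hn => ?_⟩
  obtain ⟨Q, χ, t, hQ, hQB, ht, him, hfar⟩ := hn
  have hy1 : 1 ≤ y := by omega
  have hy0 : (0 : ℝ) < y := by exact_mod_cast hy1
  have hyx : y ≤ x := le_trans (Nat.le_mul_of_pos_left _ (by omega)) hxA
  have hA0 : (0 : ℝ) < A := by exact_mod_cast (by omega : 0 < A)
  have hAx : (A : ℝ) ≤ (x : ℝ) / y := by
    rw [le_div_iff₀ hy0]
    exact_mod_cast hxA
  have hlog2 : 8 / c ≤ Real.log ((x : ℝ) / y) := by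
    rw [Real.le_log_iff_exp_le (lt_of_lt_of_le hA0 hAx)]
    exact le_trans (le_trans (Nat.le_ceil _) (Nat.cast_le.2 (by omega))) hAx
  have hlog0 : 0 ≤ Real.log ((x : ℝ) / y) := le_trans (by positivity) hlog2
  have h2 := h1 y x (by omega) ((Nat.mul_le_mul_right _ (by omega)).trans hxA) (f 0) (hf 0) (fun i => f i.succ)
    (fun i => hf i.succ) Q χ t hQ hQB ht (him.trans (by linarith)) (fun q ψ h3 h4 h5 => by
      have h6 := hfar q ψ h3 (by omega) h5
      refine le_trans ?_ h6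
      exact_mod_cast (by omega : A₁ ≤ A))
  have hprod : ∀ n, f 0 (n + h 0) * ∏ i : Fin k, f i.succ (n + h i.succ) = ∏ i, f i (n + h i) := by
    intro n
    rw [Fin.prod_univ_succ]
  simp only [hprod] at h2
  constructor
  · refine le_trans (sum_le_sum fun N hN => ?_)
      (h2.trans (mul_le_mul_of_nonneg_right (min_le_left _ _) hlog0))
    have hN0 : (0 : ℝ) < N := by exact_mod_cast (by rw [mem_Ioc] at hN; omega : 0 < N)
    by_cases hb : (1 - c / 2) * (N : ℝ) < ‖∑ n ∈ Icc 1 N, ∏ i, f i (n + h i)‖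
    · rw [if_pos hb, if_pos]
      refine lt_of_le_of_lt (mul_le_mul_of_nonneg_right ?_ hN0.le) hb
      linarith
    · rw [if_neg hb]
      split_ifs <;> positivity
  · have h3 := log_win (fun n => ∏ i, f i (n + h i)) (fun n => by
      show ‖∏ i, f i (n + h i)‖ ≤ 1
      rw [norm_prod]
      exact prod_le_one (fun _ _ => norm_nonneg _) fun i _ => (hf i).1 _) c (c / 4) hc1.le y x hy1 hyx
      (h2.trans (mul_le_mul_of_nonneg_right (min_le_right _ _) hlog0))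
    refine h3.trans ?_
    rw [div_le_iff₀ hc0] at hlog2
    have h5 : (1 - c + c / 4) * Real.log ((x : ℝ) / y) + c / 4 * Real.log ((x : ℝ) / y) =
        (1 - c / 2) * Real.log ((x : ℝ) / y) := by ring
    linarith

/-- **final statement** -/
theorem finRoot : ∃ c : ℕ → ℕ → ℝ, (∀ r k, 0 < c r k ∧ c r k < 1) ∧ ∀ r : ℕ, 1 ≤ r →
    ∀ (k : ℕ) (h : Fin (k + 1) → ℕ), Function.Injective h →
    ∀ (B K : ℕ) (η : ℝ), 0 < η → ∃ A : ℕ, ∀ y w x : ℕ, 1 ≤ y → A * y ≤ x → A ≤ w → (w ≤ y ∨ w * y ^ K ≤ x ^ K) →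
      ∀ f : Fin (k + 1) → ℕ → ℂ, (∀ i, BM (f i)) → NRr r B (B * y) (c r k) x A w (f 0) →
        ∑ N ∈ Ioc y x, (open Classical in
          if (1 - c r k) * (N : ℝ) < ‖∑ n ∈ Icc 1 N, ∏ i, f i (n + h i)‖ then (1 : ℝ) / N else 0) ≤
          η * Real.log ((x : ℝ) / y) ∧
        ‖∑ n ∈ Ioc y x, (∏ i, f i (n + h i)) / n‖ ≤ (1 - c r k) * Real.log ((x : ℝ) / y) := by
  classical
  have hW' : ∀ r k : ℕ, ∃ c : ℝ, 0 < c ∧ c < 1 ∧ (1 ≤ r → ∀ h : Fin (k + 1) → ℕ, Function.Injective h →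
    ∀ (B : ℕ) (η : ℝ), 0 < η → ∃ A : ℕ, 1 ≤ A ∧ ∀ y x : ℕ, A ≤ y → A * y ≤ x →
      ∀ f : Fin (k + 1) → ℕ → ℂ, (∀ i, BM (f i)) → NRr r B (B * y) c x A y (f 0) →
      ∑ N ∈ Ioc y x, (
        if (1 - c) * (N : ℝ) < ‖∑ n ∈ Icc 1 N, ∏ i, f i (n + h i)‖ then (1 : ℝ) / N else 0) ≤
        η * Real.log ((x : ℝ) / y) ∧
      ‖∑ n ∈ Ioc y x, (∏ i, f i (n + h i)) / n‖ ≤ (1 - c) * Real.log ((x : ℝ) / y)) := by
    intro r k
    by_cases hr : 1 ≤ r
    · obtain ⟨c, h1, h2, h3⟩ := winDr k r hr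
      refine ⟨c, h1, h2, fun _ h hinj B η hη => ?_⟩
      obtain ⟨A, hA, h4⟩ := h3 h hinj B η hη
      refine ⟨A, hA, fun y x hy hx f hf hn => ?_⟩
      have h5 := h4 y x hy hx f hf hn
      exact ⟨le_trans (le_of_eq (by congr!)) h5.1, h5.2⟩
    · exact ⟨1 / 2, by norm_num, by norm_num, fun hh => absurd hh hr⟩
  choose c₀ hc0 hc1 hW using hW'
  refine ⟨fun r k => c₀ r k / 2, fun r k => ⟨by have := hc0 r k; linarith, by
    have := hc1 r k
    have := hc0 r k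
    linarith⟩, fun r hr k h hinj B K η hη => ?_⟩
  obtain ⟨c, hc⟩ : ∃ c, c = c₀ r k := ⟨_, rfl⟩
  have hcp : 0 < c := by rw [hc]; exact hc0 r k
  have hc1' : c < 1 := by rw [hc]; exact hc1 r k
  obtain ⟨A₁, hA₁, h1⟩ := hW r k hr h hinj B (η / 2) (by positivity)
  simp only [← hc] at h1 ⊢
  obtain ⟨C, hC0, hC⟩ := mertens_win
  -- the exponent
  obtain ⟨L, hL1, hLη, hLc, hLK⟩ : ∃ L : ℕ, 1 ≤ L ∧ 2 * (K : ℝ) ≤ η * L ∧ 2 * (K : ℝ) ≤ c * L ∧ 2 * K ≤ L := by
    refine ⟨⌈2 * (K : ℝ) / η⌉₊ + ⌈2 * (K : ℝ) / c⌉₊ + 2 * K + 1, by omega, ?_, ?_, by omega⟩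
    · have h2 : 2 * (K : ℝ) / η ≤ ((⌈2 * (K : ℝ) / η⌉₊ + ⌈2 * (K : ℝ) / c⌉₊ + 2 * K + 1 : ℕ) : ℝ) :=
        (Nat.le_ceil _).trans (Nat.cast_le.2 (by omega))
      rw [div_le_iff₀ hη] at h2
      linarith
    · have h2 : 2 * (K : ℝ) / c ≤ ((⌈2 * (K : ℝ) / η⌉₊ + ⌈2 * (K : ℝ) / c⌉₊ + 2 * K + 1 : ℕ) : ℝ) :=
        (Nat.le_ceil _).trans (Nat.cast_le.2 (by omega))
      rw [div_le_iff₀ hcp] at h2
      linarith
  have hL0 : (0 : ℝ) < L := by exact_mod_cast hL1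
  obtain ⟨A, hA⟩ : ∃ A, A = A₁ + ⌈2 * Real.log (2 * L) + 2 * C⌉₊ +
      ⌈Real.exp ((L : ℝ) * (Real.log (2 * (A₁ + 3)) + 2 * Real.log 2))⌉₊ + A₁ * A₁ + 1 := ⟨_, rfl⟩
  refine ⟨A, fun y w x hy1 hxA hwA hwyx f hf hn => ?_⟩
  obtain ⟨Q, χ, t, hQ, hQB, ht, him, hfar⟩ := hn
  have hy0 : (0 : ℝ) < y := by exact_mod_cast hy1
  have hyx : y ≤ x := le_trans (Nat.le_mul_of_pos_left _ (by omega)) hxA
  have hx0 : (0 : ℝ) < x := by exact_mod_cast (by omega : 0 < x)
  have hw1 : 1 ≤ w := by omega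
  have hw0 : (0 : ℝ) < w := by exact_mod_cast hw1
  have hA0 : (0 : ℝ) < A := by exact_mod_cast (by omega : 0 < A)
  have hAx : (A : ℝ) ≤ (x : ℝ) / y := by
    rw [le_div_iff₀ hy0]
    exact_mod_cast hxA
  have hlog0 : 0 ≤ Real.log ((x : ℝ) / y) := by
    apply Real.log_nonneg
    rw [le_div_iff₀ hy0, one_mul]
    exact_mod_cast hyx
  -- a good lower end
  obtain ⟨y', hyy', hA₁y', hA₁x, hy'l, hfar'⟩ : ∃ y' : ℕ, y ≤ y' ∧ A₁ ≤ y' ∧ A₁ * y' ≤ x ∧
      Real.log ((y' : ℝ) / y) ≤ (K : ℝ) / L * Real.log ((x : ℝ) / y) ∧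
      (∀ (q : ℕ) (ψ : DirichletCharacter ℂ q), 1 ≤ q → q ≤ A₁ → ψ ^ 2 = 1 →
        (A₁ : ℝ) ≤ ∑ p ∈ (Icc 1 y').filter Nat.Prime,
          (1 - (zt (f 0) χ t p ^ r).re * (ψ ((p : ℕ) : ZMod q)).re) / (p : ℝ)) := by
    have hmono : ∀ (q : ℕ) (ψ : DirichletCharacter ℂ q) (N N' : ℕ), N ≤ N' →
        ∑ p ∈ (Icc 1 N).filter Nat.Prime, (1 - (zt (f 0) χ t p ^ r).re * (ψ ((p : ℕ) : ZMod q)).re) / (p : ℝ) ≤
        ∑ p ∈ (Icc 1 N').filter Nat.Prime, (1 - (zt (f 0) χ t p ^ r).re * (ψ ((p : ℕ) : ZMod q)).re) / (p : ℝ) := by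
      intro q ψ N N' hNN
      apply sum_le_sum_of_subset_of_nonneg
      · exact filter_subset_filter _ (Icc_subset_Icc_right hNN)
      · intro p _ _
        exact div_nonneg (rrr_le (hf 0).1 r χ t ψ p).1 (Nat.cast_nonneg _)
    have hA₁A : (A₁ : ℝ) ≤ A := by exact_mod_cast (by omega : A₁ ≤ A)
    rcases hwyx with hwy | hwyx
    · refine ⟨y, le_rfl, by omega, (Nat.mul_le_mul_right _ (by omega)).trans hxA, ?_, fun q ψ h3 h4 h5 => ?_⟩
      · rw [div_self hy0.ne', Real.log_one]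
        positivity
      · exact hA₁A.trans ((hfar q ψ h3 (by omega) h5).trans (hmono q ψ w y hwy))
    -- the power of `w`
    set lw : ℝ := Real.log w with hlw
    have hlwx : lw ≤ K * Real.log ((x : ℝ) / y) := by
      have h2 : (w : ℝ) ≤ ((x : ℝ) / y) ^ K := by
        rw [div_pow, le_div_iff₀ (by positivity)]
        exact_mod_cast hwyx
      have h3 := Real.log_le_log hw0 h2
      rwa [Real.log_pow] at h3
    have hl1 : (L : ℝ) * (Real.log (2 * (A₁ + 3)) + 2 * Real.log 2) ≤ lw := by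
      rw [hlw, Real.le_log_iff_exp_le hw0]
      exact (Nat.le_ceil _).trans (Nat.cast_le.2 (by omega))
    have hlog2 : 0 < Real.log 2 := Real.log_pos (by norm_num)
    have hA₁0 : (0 : ℝ) ≤ A₁ := Nat.cast_nonneg _
    have hlA3 : 0 ≤ Real.log (2 * ((A₁ : ℝ) + 3)) := Real.log_nonneg (by linarith)
    have hlw0 : 0 < lw := lt_of_lt_of_le (by positivity) hl1
    obtain ⟨v, hv⟩ : ∃ v, v = ⌊Real.exp (lw / L)⌋₊ := ⟨_, rfl⟩
    have hq1 : Real.log (2 * ((A₁ : ℝ) + 3)) + 2 * Real.log 2 ≤ lw / L := by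
      rw [le_div_iff₀ hL0]
      linarith
    have hvge : 2 * ((A₁ : ℝ) + 3) ≤ Real.exp (lw / L) := by
      rw [← Real.log_le_iff_le_exp (by positivity)]
      linarith
    have hv_le : (v : ℝ) ≤ Real.exp (lw / L) := by rw [hv]; exact Nat.floor_le (Real.exp_pos _).le
    have hv_gt : Real.exp (lw / L) < v + 1 := by rw [hv]; exact Nat.lt_floor_add_one _
    have hvA3 : A₁ + 3 ≤ v := by
      have h2 : ((A₁ + 3 : ℕ) : ℝ) < (v : ℝ) + 1 := by
        push_cast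
        linarith
      have h3 : A₁ + 3 < v + 1 := by exact_mod_cast h2
      omega
    have hv1 : 1 ≤ v := by omega
    have hv0 : (0 : ℝ) < v := by exact_mod_cast hv1
    have hlv1 : Real.log v ≤ lw / L := by
      rw [Real.log_le_iff_le_exp hv0]
      exact hv_le
    have hlv2 : lw / L - Real.log 2 ≤ Real.log v := by
      have h2 : Real.exp (lw / L) ≤ 2 * v := by
        have : (1 : ℝ) ≤ v := by exact_mod_cast hv1
        linarith
      have h3 : lw / L ≤ Real.log (2 * v) := by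
        rw [Real.le_log_iff_exp_le (by positivity)]
        exact h2
      rw [Real.log_mul (by norm_num) hv0.ne'] at h3
      linarith
    have hlv3 : lw / (2 * L) ≤ Real.log v := by
      have h2 : lw / L = lw / (2 * L) + lw / (2 * L) := by field_simp; ring
      have h3 : 2 * Real.log 2 ≤ lw / L := by linarith
      linarith
    have hlvx : Real.log v ≤ (K : ℝ) / L * Real.log ((x : ℝ) / y) := by
      refine hlv1.trans ?_
      rw [div_mul_eq_mul_div]
      exact div_le_div_of_nonneg_right hlwx hL0.le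
    have hfarv : ∀ y' : ℕ, v ≤ y' → ∀ (q : ℕ) (ψ : DirichletCharacter ℂ q), 1 ≤ q → q ≤ A₁ → ψ ^ 2 = 1 →
        (A₁ : ℝ) ≤ ∑ p ∈ (Icc 1 y').filter Nat.Prime,
          (1 - (zt (f 0) χ t p ^ r).re * (ψ ((p : ℕ) : ZMod q)).re) / (p : ℝ) := by
      intro y' hvy' q ψ h3 h4 h5
      have h6 := hfar q ψ h3 (by omega) h5
      rcases Nat.le_total w y' with hwy | hwy
      · exact hA₁A.trans (h6.trans (hmono q ψ w y' hwy))
      have h7 : ∑ p ∈ (Icc 1 w).filter Nat.Prime, (1 - (zt (f 0) χ t p ^ r).re * (ψ ((p : ℕ) : ZMod q)).re) / (p : ℝ) =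
          ∑ p ∈ (Icc 1 y').filter Nat.Prime, (1 - (zt (f 0) χ t p ^ r).re * (ψ ((p : ℕ) : ZMod q)).re) / (p : ℝ) +
          ∑ p ∈ (Ioc y' w).filter Nat.Prime, (1 - (zt (f 0) χ t p ^ r).re * (ψ ((p : ℕ) : ZMod q)).re) / (p : ℝ) := by
        rw [← sum_union]
        · apply sum_congr _ fun _ _ => rfl
          rw [← filter_union]
          congr 1
          ext n
          rw [mem_union, mem_Icc, mem_Icc, mem_Ioc]
          omega
        · apply disjoint_filter_filter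
          rw [disjoint_left]
          intro n hn
          rw [mem_Icc] at hn
          rw [mem_Ioc]
          omega
      have h8 : ∑ p ∈ (Ioc y' w).filter Nat.Prime, (1 - (zt (f 0) χ t p ^ r).re * (ψ ((p : ℕ) : ZMod q)).re) / (p : ℝ) ≤
          2 * ∑ p ∈ (Ioc y' w).filter Nat.Prime, (1 : ℝ) / p := by
        rw [mul_sum]
        apply sum_le_sum
        intro p _
        rw [mul_one_div]
        exact div_le_div_of_nonneg_right (rrr_le (hf 0).1 r χ t ψ p).2 (Nat.cast_nonneg _)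
      have h9 := hC y' w (by omega) hwy
      have hlvy' : Real.log v ≤ Real.log y' := Real.log_le_log hv0 (by exact_mod_cast hvy')
      have h10 : Real.log (Real.log w / Real.log y') ≤ Real.log (2 * L) := by
        have hly0 : 0 < Real.log y' := lt_of_lt_of_le (by positivity) (hlv3.trans hlvy')
        apply Real.log_le_log (by positivity)
        rw [div_le_iff₀ hly0]
        rw [div_le_iff₀ (by positivity)] at hlv3
        have h11 : Real.log v * (2 * L) ≤ Real.log y' * (2 * L) := mul_le_mul_of_nonneg_right hlvy' (by positivity)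
        linarith
      have h11 : 2 * Real.log (2 * L) + 2 * C ≤ (⌈2 * Real.log (2 * (L : ℝ)) + 2 * C⌉₊ : ℝ) := Nat.le_ceil _
      have h12 : (A₁ : ℝ) + (⌈2 * Real.log (2 * (L : ℝ)) + 2 * C⌉₊ : ℝ) ≤ A := by
        exact_mod_cast (by omega : A₁ + ⌈2 * Real.log (2 * (L : ℝ)) + 2 * C⌉₊ ≤ A)
      linarith
    rcases Nat.le_total v y with hvy | hvy
    · refine ⟨y, le_rfl, by omega, (Nat.mul_le_mul_right _ (by omega)).trans hxA, ?_, hfarv y hvy⟩
      rw [div_self hy0.ne', Real.log_one]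
      positivity
    · refine ⟨v, hvy, by omega, ?_, ?_, hfarv v le_rfl⟩
      · have hA₁0' : (0 : ℝ) < A₁ := by exact_mod_cast hA₁
        have h2 : Real.log ((A₁ : ℝ) * v) ≤ Real.log x := by
          rw [Real.log_mul hA₁0'.ne' hv0.ne']
          have h3 : 2 * Real.log (A₁ : ℝ) ≤ Real.log ((x : ℝ) / y) := by
            have h4 : Real.log ((A₁ * A₁ : ℕ) : ℝ) ≤ Real.log ((x : ℝ) / y) := by
              apply Real.log_le_log (by exact_mod_cast Nat.mul_pos hA₁ hA₁)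
              refine le_trans ?_ hAx
              exact_mod_cast (by omega : A₁ * A₁ ≤ A)
            push_cast at h4
            rw [Real.log_mul hA₁0'.ne' hA₁0'.ne'] at h4
            linarith
          have h4 : (K : ℝ) / L ≤ 1 / 2 := by
            rw [div_le_div_iff₀ hL0 (by norm_num)]
            have : ((2 * K : ℕ) : ℝ) ≤ L := by exact_mod_cast hLK
            push_cast at this
            linarith
          have h5 : (K : ℝ) / L * Real.log ((x : ℝ) / y) ≤ 1 / 2 * Real.log ((x : ℝ) / y) :=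
            mul_le_mul_of_nonneg_right h4 hlog0
          have h6 : Real.log ((x : ℝ) / y) ≤ Real.log x := by
            apply Real.log_le_log (by positivity)
            exact div_le_self hx0.le (by exact_mod_cast hy1)
          linarith
        have h3 : ((A₁ * v : ℕ) : ℝ) ≤ x := by
          push_cast
          rw [← Real.log_le_log_iff (mul_pos hA₁0' hv0) hx0]
          exact h2
        exact_mod_cast h3
      · refine le_trans ?_ hlvx
        apply Real.log_le_log (by positivity)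
        exact div_le_self hv0.le (by exact_mod_cast hy1)
  have hy'x : y' ≤ x := le_trans (Nat.le_mul_of_pos_left _ (by omega)) hA₁x
  have hy'0 : (0 : ℝ) < y' := by exact_mod_cast (by omega : 0 < y')
  have hyy'r : (y : ℝ) ≤ y' := by exact_mod_cast hyy'
  obtain ⟨h2, h3⟩ := h1 y' x hA₁y' hA₁x f hf
    ⟨Q, χ, t, hQ, hQB, ht.trans (mul_le_mul_of_nonneg_left hyy'r (Nat.cast_nonneg _)), him.trans (by linarith), hfar'⟩
  have hlxy : Real.log ((x : ℝ) / y') ≤ Real.log ((x : ℝ) / y) := by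
    apply Real.log_le_log (by positivity)
    exact div_le_div_of_nonneg_left hx0.le hy0 hyy'r
  have hlxy0 : 0 ≤ Real.log ((x : ℝ) / y') := by
    apply Real.log_nonneg
    rw [le_div_iff₀ hy'0, one_mul]
    exact_mod_cast hy'x
  have hKL1 : (K : ℝ) / L ≤ η / 2 := by
    rw [div_le_iff₀ hL0]
    linarith
  have hKL2 : (K : ℝ) / L ≤ c / 2 := by
    rw [div_le_iff₀ hL0]
    linarith
  have hharm := harm_win y y' hy1 hyy'
  constructor
  · rw [← sum_Ioc_consecutive _ hyy' hy'x]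
    have h4 : ∑ N ∈ Ioc y y', (if (1 - c / 2) * (N : ℝ) < ‖∑ n ∈ Icc 1 N, ∏ i, f i (n + h i)‖ then (1 : ℝ) / N else 0) ≤
        η / 2 * Real.log ((x : ℝ) / y) := by
      refine le_trans (sum_le_sum (g := fun N : ℕ => (1 : ℝ) / N) fun N _ => ?_)
        (hharm.trans (hy'l.trans (mul_le_mul_of_nonneg_right hKL1 hlog0)))
      split_ifs
      · exact le_rfl
      · positivity
    have h5 : ∑ N ∈ Ioc y' x, (if (1 - c / 2) * (N : ℝ) < ‖∑ n ∈ Icc 1 N, ∏ i, f i (n + h i)‖ then (1 : ℝ) / N else 0) ≤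
        η / 2 * Real.log ((x : ℝ) / y) := by
      refine le_trans (sum_le_sum fun N hN => ?_)
        (h2.trans (mul_le_mul_of_nonneg_left hlxy (by positivity)))
      have hN0 : (0 : ℝ) < N := by exact_mod_cast (by rw [mem_Ioc] at hN; omega : 0 < N)
      by_cases hb : (1 - c / 2) * (N : ℝ) < ‖∑ n ∈ Icc 1 N, ∏ i, f i (n + h i)‖
      · rw [if_pos hb, if_pos]
        refine lt_of_le_of_lt (mul_le_mul_of_nonneg_right ?_ hN0.le) hb
        linarith
      · rw [if_neg hb]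
        split_ifs <;> positivity
    linarith
  · rw [← sum_Ioc_consecutive _ hyy' hy'x]
    have h5 : ‖∑ n ∈ Ioc y y', (∏ i, f i (n + h i)) / (n : ℂ)‖ ≤ c / 2 * Real.log ((x : ℝ) / y) := by
      refine (norm_sum_le _ _).trans (le_trans (sum_le_sum (g := fun N : ℕ => (1 : ℝ) / N) fun n _ => ?_)
        (hharm.trans (hy'l.trans (mul_le_mul_of_nonneg_right hKL2 hlog0))))
      rw [norm_div, Complex.norm_natCast, norm_prod]
      exact div_le_div_of_nonneg_right (prod_le_one (fun _ _ => norm_nonneg _) fun i _ => (hf i).1 _)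
        (Nat.cast_nonneg _)
    have h6 : (1 - c) * Real.log ((x : ℝ) / y') ≤ (1 - c) * Real.log ((x : ℝ) / y) :=
      mul_le_mul_of_nonneg_left hlxy (by linarith)
    refine (norm_add_le _ _).trans ?_
    linarith

end Pool.Agent.R512.U
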