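import Pool.Agent.R512.U.ExpR
import Pool.Agent.R512.U.Blk

/-!
Library R512.U (helper512): exponential sums of functions glued along blocks.
-/

set_option autoImplicit false

namespace Pool.Agent.R512.U

open Finset Filter Topology
open Pool.Agent.H807R2.Dav (ee norm_ee)
open Pool.Agent.TH823.MRS (ExpoSmall)
open Pool.Agent.Y872.L (CM cm_abs)

/-- the ramp -/
noncomputable def ramp (a w : ℝ) (n : ℕ) : ℝ := max 0 (min 1 ((a - n) / w))

lemma ramp_mem (a w : ℝ) (n : ℕ) : 0 ≤ ramp a w n ∧ ramp a w n ≤ 1 :=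
  ⟨le_max_left _ _, max_le zero_le_one (min_le_left _ _)⟩

lemma ramp_lip {a w : ℝ} (hw : 0 < w) (n k : ℕ) : |ramp a w n - ramp a w k| ≤ |(n : ℝ) - k| / w := by
  unfold ramp
  have h1 := abs_max_sub_max_le_abs (min 1 ((a - n) / w)) (min 1 ((a - k) / w)) (0 : ℝ)
  rw [max_comm 0, max_comm 0]
  refine h1.trans ?_
  have h2 := abs_min_sub_min_le_max (1 : ℝ) ((a - n) / w) 1 ((a - k) / w)
  refine h2.trans ?_
  rw [sub_self, abs_zero, max_eq_right (abs_nonneg _)]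
  have e : (a - n) / w - (a - k) / w = ((k : ℝ) - n) / w := by ring
  rw [e, abs_div, abs_of_pos hw, abs_sub_comm]

lemma ramp_zero {a w : ℝ} (hw : 0 < w) {n : ℕ} (h : a ≤ n) : ramp a w n = 0 := by
  unfold ramp
  apply max_eq_left
  apply (min_le_right _ _).trans
  apply div_nonpos_of_nonpos_of_nonneg _ hw.le
  linarith

lemma ramp_one {a w : ℝ} (hw : 0 < w) {n : ℕ} (h : (n : ℝ) + w ≤ a) : ramp a w n = 1 := by
  unfold ramp
  have h1 : 1 ≤ (a - n) / w := by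
    rw [le_div_iff₀ hw]
    linarith
  rw [min_eq_left h1]
  exact max_eq_right zero_le_one

/-- **exponential sums of glued functions** -/
theorem expo_glue (P : ℕ → ℕ) (hP : StrictMono P) (hP2 : ∀ m, (m + 1) * P m ≤ P (m + 1)) (fm : ℕ → ℕ → ℤ)
    (hf : ∀ j, CM (fm j)) (hsm : ∀ B : ℕ, ∃ J : ℕ, ∀ j, J ≤ j → ∀ X : ℕ, P j ≤ 3 * X → SMn B X (fm j)) :
    ExpoSmall (fun n => ((fm (bl P n) n : ℤ) : ℂ)) := by
  classical
  intro ε hε A hA
  set ε' : ℝ := ε / 8 with hε'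
  have hε'0 : 0 < ε' := by positivity
  obtain ⟨B, H₀, X₀, hE⟩ := expoR ε' hε'0 (A + 1 / ε') (by positivity)
  obtain ⟨J, hJ⟩ := hsm B
  obtain ⟨K, hK⟩ := exists_nat_ge (3 / ε')
  set X₁ : ℕ := P (J + K + 2) + ⌈2 / ε'⌉₊ + X₀ with hX₁
  refine ⟨|H₀| + 1, X₁, fun X hX H hH hHX T hT hT2 hT3 α => ?_⟩
  have hH0 : 0 < H := by
    have := abs_nonneg H₀
    linarith
  have hH₀ : H₀ ≤ H := by
    have := le_abs_self H₀
    linarith
  have hX0 : (0 : ℝ) < X := by linarith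
  have hXε : 2 / ε' ≤ X := (Nat.le_ceil _).trans (by exact_mod_cast (by omega : ⌈2 / ε'⌉₊ ≤ X))
  rw [div_le_iff₀ hε'0] at hXε
  -- the block of `3 X`
  have hex : ∃ m, 3 * X < P (m + 1) := ⟨3 * X, by
    have := hP.id_le (3 * X + 1)
    simp only [id] at this
    omega⟩
  set M : ℕ := Nat.find hex with hM
  have hM1 : 3 * X < P (M + 1) := Nat.find_spec hex
  have hMJ : J + K + 2 ≤ M := by
    by_contra hcon
    have h1 := hP.monotone (by omega : M + 1 ≤ J + K + 2)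
    omega
  obtain ⟨m, hm⟩ : ∃ m, M = m + 1 := ⟨M - 1, by omega⟩
  have hM2 : P (m + 1) ≤ 3 * X := by
    have h1 := Nat.find_min hex (m := m) (by omega)
    omega
  rw [hm] at hM1 hMJ
  have hw : 0 < ε' * X := by positivity
  have hPm : (P m : ℝ) ≤ ε' * X := by
    have h1 : (m + 1) * P m ≤ 3 * X := (hP2 m).trans hM2
    have h2 : ((m : ℝ) + 1) * P m ≤ 3 * X := by exact_mod_cast h1
    have h3 : (K : ℝ) ≤ (m : ℝ) + 1 := by exact_mod_cast (by omega : K ≤ m + 1)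
    have h4 : 3 / ε' ≤ (m : ℝ) + 1 := hK.trans h3
    rw [div_le_iff₀ hε'0] at h4
    have h5 : (0 : ℝ) ≤ P m := Nat.cast_nonneg _
    have h6 : 3 * (P m : ℝ) ≤ ε' * (3 * X) := by
      calc 3 * (P m : ℝ) ≤ ((m : ℝ) + 1) * ε' * P m := mul_le_mul_of_nonneg_right h4 h5
        _ = ε' * (((m : ℝ) + 1) * P m) := by ring
        _ ≤ ε' * (3 * X) := mul_le_mul_of_nonneg_left h2 hε'0.le
    linarith
  set ρ : ℕ → ℝ := ramp (P (m + 1)) (ε' * X) with hρ
  have hρm : ∀ n, 0 ≤ ρ n ∧ ρ n ≤ 1 := fun n => ramp_mem _ _ n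
  set T1 : ℕ → ℂ := fun n => (ρ n : ℂ) * T n with hT1
  set T2 : ℕ → ℂ := fun n => ((1 - ρ n : ℝ) : ℂ) * T n with hT2'
  have hn1 : ∀ n, ‖T1 n‖ ≤ H := fun n => by
    rw [hT1]
    simp only
    rw [norm_mul, Complex.norm_real, Real.norm_eq_abs, abs_of_nonneg (hρm n).1]
    calc ρ n * ‖T n‖ ≤ 1 * H := mul_le_mul (hρm n).2 (hT n) (norm_nonneg _) zero_le_one
      _ = H := one_mul H
  have hn2 : ∀ n, ‖T2 n‖ ≤ H := fun n => by
    rw [hT2']
    simp only
    rw [norm_mul, Complex.norm_real, Real.norm_eq_abs, abs_of_nonneg (by linarith [(hρm n).2])]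
    calc (1 - ρ n) * ‖T n‖ ≤ 1 * H := mul_le_mul (by linarith [(hρm n).1]) (hT n) (norm_nonneg _) zero_le_one
      _ = H := one_mul H
  have hHX' : H / (ε' * X) ≤ 1 / ε' := by
    rw [div_le_div_iff₀ hw hε'0]
    nlinarith
  have hlipρ : ∀ n k : ℕ, |ρ n - ρ k| * H ≤ 1 / ε' * |(n : ℝ) - k| := by
    intro n k
    have h1 := mul_le_mul_of_nonneg_right (ramp_lip (a := P (m + 1)) hw n k) hH0.le
    have h2 : |(n : ℝ) - k| / (ε' * X) * H = H / (ε' * X) * |(n : ℝ) - k| := by ring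
    rw [h2] at h1
    exact h1.trans (mul_le_mul_of_nonneg_right hHX' (abs_nonneg _))
  have hl1 : ∀ n k : ℕ, ‖T1 n - T1 k‖ ≤ (A + 1 / ε') * |(n : ℝ) - k| := by
    intro n k
    have e1 : T1 n - T1 k = (ρ n : ℂ) * (T n - T k) + ((ρ n - ρ k : ℝ) : ℂ) * T k := by
      rw [hT1]
      simp only
      push_cast
      ring
    rw [e1]
    refine (norm_add_le _ _).trans ?_
    rw [norm_mul, norm_mul, Complex.norm_real, Complex.norm_real, Real.norm_eq_abs, Real.norm_eq_abs,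
      abs_of_nonneg (hρm n).1]
    have h1 : ρ n * ‖T n - T k‖ ≤ 1 * (A * |(n : ℝ) - k|) :=
      mul_le_mul (hρm n).2 (hT2 n k) (norm_nonneg _) zero_le_one
    have h2 : |ρ n - ρ k| * ‖T k‖ ≤ |ρ n - ρ k| * H := mul_le_mul_of_nonneg_left (hT k) (abs_nonneg _)
    have h3 := hlipρ n k
    have e2 : (A + 1 / ε') * |(n : ℝ) - k| = A * |(n : ℝ) - k| + 1 / ε' * |(n : ℝ) - k| := by ring
    rw [e2]
    linarith
  have hl2 : ∀ n k : ℕ, ‖T2 n - T2 k‖ ≤ (A + 1 / ε') * |(n : ℝ) - k| := by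
    intro n k
    have e1 : T2 n - T2 k = ((1 - ρ n : ℝ) : ℂ) * (T n - T k) - ((ρ n - ρ k : ℝ) : ℂ) * T k := by
      rw [hT2']
      simp only
      push_cast
      ring
    rw [e1]
    refine (norm_sub_le _ _).trans ?_
    rw [norm_mul, norm_mul, Complex.norm_real, Complex.norm_real, Real.norm_eq_abs, Real.norm_eq_abs,
      abs_of_nonneg (show 0 ≤ 1 - ρ n by linarith [(hρm n).2])]
    have h1 : (1 - ρ n) * ‖T n - T k‖ ≤ 1 * (A * |(n : ℝ) - k|) :=
      mul_le_mul (by linarith [(hρm n).1]) (hT2 n k) (norm_nonneg _) zero_le_one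
    have h2 : |ρ n - ρ k| * ‖T k‖ ≤ |ρ n - ρ k| * H := mul_le_mul_of_nonneg_left (hT k) (abs_nonneg _)
    have h3 := hlipρ n k
    have e2 : (A + 1 / ε') * |(n : ℝ) - k| = A * |(n : ℝ) - k| + 1 / ε' * |(n : ℝ) - k| := by ring
    rw [e2]
    linarith
  have hs1 := hE X (by omega) (fm m) (hf m) (hJ m (by omega) X (by
    have := hP.monotone (Nat.le_succ m)
    have e : P m ≤ P (m + 1) := this
    omega)) H hH₀ hHX T1 hn1 hl1 (fun n hn => by
      rw [hT1]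
      simp only
      rw [hT3 n hn, mul_zero]) α
  have hs2 := hE X (by omega) (fm (m + 1)) (hf (m + 1)) (hJ (m + 1) (by omega) X hM2) H hH₀ hHX T2 hn2 hl2
    (fun n hn => by
      rw [hT2']
      simp only
      rw [hT3 n hn, mul_zero]) α
  have habs : ∀ j n, ‖((fm j n : ℤ) : ℂ)‖ ≤ 1 := fun j n => by
    rw [Complex.norm_intCast]
    exact_mod_cast cm_abs (hf j) n
  -- the remainder
  have hR : ∀ n ∈ Icc 1 (3 * X), ‖((fm (bl P n) n : ℤ) : ℂ) * ee ((n : ℝ) * α) * T n -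
      ((fm m n : ℤ) : ℂ) * ee ((n : ℝ) * α) * T1 n - ((fm (m + 1) n : ℤ) : ℂ) * ee ((n : ℝ) * α) * T2 n‖ ≤
      (if n < P m then 2 * H else 0) +
        (if (P (m + 1) : ℝ) - ε' * X < n ∧ n < P (m + 1) then 2 * H else 0) := by
    intro n hn
    rw [mem_Icc] at hn
    have hee : ‖ee ((n : ℝ) * α)‖ = 1 := norm_ee _
    by_cases hn1' : n < P m
    · rw [if_pos hn1']
      have e1 : ((fm (bl P n) n : ℤ) : ℂ) * ee ((n : ℝ) * α) * T n -
          ((fm m n : ℤ) : ℂ) * ee ((n : ℝ) * α) * T1 n - ((fm (m + 1) n : ℤ) : ℂ) * ee ((n : ℝ) * α) * T2 n =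
          ee ((n : ℝ) * α) * T n * (((fm (bl P n) n : ℤ) : ℂ) - (((fm m n : ℤ) : ℂ) * (ρ n : ℂ) +
            ((fm (m + 1) n : ℤ) : ℂ) * ((1 - ρ n : ℝ) : ℂ))) := by
        rw [hT1, hT2']
        ring
      have h1 : ‖((fm m n : ℤ) : ℂ) * (ρ n : ℂ) + ((fm (m + 1) n : ℤ) : ℂ) * ((1 - ρ n : ℝ) : ℂ)‖ ≤ 1 := by
        refine (norm_add_le _ _).trans ?_
        rw [norm_mul, norm_mul, Complex.norm_real, Complex.norm_real, Real.norm_eq_abs, Real.norm_eq_abs,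
          abs_of_nonneg (hρm n).1, abs_of_nonneg (show 0 ≤ 1 - ρ n by linarith [(hρm n).2])]
        have h2 := mul_le_mul_of_nonneg_right (habs m n) (hρm n).1
        have h3 := mul_le_mul_of_nonneg_right (habs (m + 1) n) (show 0 ≤ 1 - ρ n by linarith [(hρm n).2])
        linarith
      have h2 : ‖((fm (bl P n) n : ℤ) : ℂ) - (((fm m n : ℤ) : ℂ) * (ρ n : ℂ) +
            ((fm (m + 1) n : ℤ) : ℂ) * ((1 - ρ n : ℝ) : ℂ))‖ ≤ 2 := by
        refine (norm_sub_le _ _).trans ?_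
        have := habs (bl P n) n
        linarith
      rw [e1, norm_mul, norm_mul, hee, one_mul]
      have h3 : ‖T n‖ * ‖((fm (bl P n) n : ℤ) : ℂ) - (((fm m n : ℤ) : ℂ) * (ρ n : ℂ) +
            ((fm (m + 1) n : ℤ) : ℂ) * ((1 - ρ n : ℝ) : ℂ))‖ ≤ H * 2 :=
        mul_le_mul (hT n) h2 (norm_nonneg _) hH0.le
      have h4 : 0 ≤ (if (P (m + 1) : ℝ) - ε' * X < n ∧ n < P (m + 1) then 2 * H else 0) := by
        split_ifs <;> linarith
      linarith
    rw [if_neg hn1', zero_add]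
    by_cases hn2' : n < P (m + 1)
    · have hb : bl P n = m := bl_eq hP (not_lt.1 hn1') hn2'
      rw [hb]
      have e1 : ((fm m n : ℤ) : ℂ) * ee ((n : ℝ) * α) * T n -
          ((fm m n : ℤ) : ℂ) * ee ((n : ℝ) * α) * T1 n - ((fm (m + 1) n : ℤ) : ℂ) * ee ((n : ℝ) * α) * T2 n =
          ee ((n : ℝ) * α) * T n * ((((fm m n : ℤ) : ℂ) - ((fm (m + 1) n : ℤ) : ℂ)) * ((1 - ρ n : ℝ) : ℂ)) := by
        rw [hT1, hT2']
        push_cast
        ring
      rw [e1, norm_mul, norm_mul, hee, one_mul, norm_mul, Complex.norm_real, Real.norm_eq_abs,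
        abs_of_nonneg (show 0 ≤ 1 - ρ n by linarith [(hρm n).2])]
      have h2 : ‖((fm m n : ℤ) : ℂ) - ((fm (m + 1) n : ℤ) : ℂ)‖ ≤ 2 := by
        refine (norm_sub_le _ _).trans ?_
        have h3 := habs m n
        have h4 := habs (m + 1) n
        linarith
      split_ifs with hc
      · calc ‖T n‖ * (‖((fm m n : ℤ) : ℂ) - ((fm (m + 1) n : ℤ) : ℂ)‖ * (1 - ρ n)) ≤ H * (2 * 1) := by
              apply mul_le_mul (hT n) _ (mul_nonneg (norm_nonneg _) (by linarith [(hρm n).2])) hH0.le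
              exact mul_le_mul h2 (by linarith [(hρm n).1]) (by linarith [(hρm n).2]) (by norm_num)
          _ = 2 * H := by ring
      · have h3 : ρ n = 1 := by
          apply ramp_one hw
          by_contra h4
          exact hc ⟨by linarith, hn2'⟩
        rw [h3]
        simp
    · rw [if_neg (fun h => hn2' h.2)]
      have hb : bl P n = m + 1 := bl_eq hP (not_lt.1 hn2') (by omega)
      have h3 : ρ n = 0 := ramp_zero hw (by exact_mod_cast not_lt.1 hn2')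
      rw [hb, hT1, hT2']
      simp only
      rw [h3]
      simp
  have hsum : ∑ n ∈ Icc 1 (3 * X), ((fm (bl P n) n : ℤ) : ℂ) * ee ((n : ℝ) * α) * T n =
      ∑ n ∈ Icc 1 (3 * X), ((fm m n : ℤ) : ℂ) * ee ((n : ℝ) * α) * T1 n +
      ∑ n ∈ Icc 1 (3 * X), ((fm (m + 1) n : ℤ) : ℂ) * ee ((n : ℝ) * α) * T2 n +
      ∑ n ∈ Icc 1 (3 * X), (((fm (bl P n) n : ℤ) : ℂ) * ee ((n : ℝ) * α) * T n -
      ((fm m n : ℤ) : ℂ) * ee ((n : ℝ) * α) * T1 n - ((fm (m + 1) n : ℤ) : ℂ) * ee ((n : ℝ) * α) * T2 n) := by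
    rw [← sum_add_distrib, ← sum_add_distrib]
    apply sum_congr rfl
    intro n _
    ring
  have hc1 : ∑ n ∈ Icc 1 (3 * X), (if n < P m then 2 * H else 0) ≤ 2 * H * (ε' * X) := by
    rw [← sum_filter, sum_const, nsmul_eq_mul]
    have h1 : ((Icc 1 (3 * X)).filter (fun n => n < P m)).card ≤ P m := by
      have : (Icc 1 (3 * X)).filter (fun n => n < P m) ⊆ range (P m) := by
        intro n hn
        rw [mem_filter] at hn
        exact mem_range.2 hn.2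
      have := card_le_card this
      rwa [card_range] at this
    have h2 : ((((Icc 1 (3 * X)).filter (fun n => n < P m)).card : ℕ) : ℝ) ≤ P m := by exact_mod_cast h1
    nlinarith
  have hc2 : ∑ n ∈ Icc 1 (3 * X), (if (P (m + 1) : ℝ) - ε' * X < n ∧ n < P (m + 1) then 2 * H else 0) ≤
      2 * H * (ε' * X + 1) := by
    rw [← sum_filter, sum_const, nsmul_eq_mul]
    have h1 : ((Icc 1 (3 * X)).filter (fun n : ℕ => (P (m + 1) : ℝ) - ε' * X < n ∧ n < P (m + 1))).card ≤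
        ⌈ε' * X⌉₊ := by
      have : (Icc 1 (3 * X)).filter (fun n : ℕ => (P (m + 1) : ℝ) - ε' * X < n ∧ n < P (m + 1)) ⊆
          Ico (P (m + 1) - ⌈ε' * X⌉₊) (P (m + 1)) := by
        intro n hn
        rw [mem_filter] at hn
        rw [mem_Ico]
        refine ⟨?_, hn.2.2⟩
        have h2 := hn.2.1
        have h3 := Nat.le_ceil (ε' * X)
        have h4 : (P (m + 1) : ℝ) < n + ⌈ε' * X⌉₊ := by linarith
        have h5 : P (m + 1) < n + ⌈ε' * X⌉₊ := by exact_mod_cast h4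
        omega
      have h6 := card_le_card this
      rw [Nat.card_Ico] at h6
      omega
    have h2 : ((((Icc 1 (3 * X)).filter (fun n : ℕ => (P (m + 1) : ℝ) - ε' * X < n ∧ n < P (m + 1))).card : ℕ) : ℝ) ≤
        ε' * X + 1 := by
      refine le_trans (Nat.cast_le.2 h1) ?_
      exact (Nat.ceil_lt_add_one hw.le).le
    nlinarith
  show ‖∑ n ∈ Icc 1 (3 * X), ((fm (bl P n) n : ℤ) : ℂ) * ee ((n : ℝ) * α) * T n‖ ≤ ε * H * X
  rw [hsum]
  refine (norm_add_le _ _).trans ?_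
  have h1 := norm_add_le (∑ n ∈ Icc 1 (3 * X), ((fm m n : ℤ) : ℂ) * ee ((n : ℝ) * α) * T1 n)
      (∑ n ∈ Icc 1 (3 * X), ((fm (m + 1) n : ℤ) : ℂ) * ee ((n : ℝ) * α) * T2 n)
  have h2 : ‖∑ n ∈ Icc 1 (3 * X), (((fm (bl P n) n : ℤ) : ℂ) * ee ((n : ℝ) * α) * T n -
      ((fm m n : ℤ) : ℂ) * ee ((n : ℝ) * α) * T1 n - ((fm (m + 1) n : ℤ) : ℂ) * ee ((n : ℝ) * α) * T2 n)‖ ≤
      2 * H * (ε' * X) + 2 * H * (ε' * X + 1) := by
    refine (norm_sum_le _ _).trans ((sum_le_sum hR).trans ?_)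
    rw [sum_add_distrib]
    exact add_le_add hc1 hc2
  have h3 : ε * H * X = 8 * (ε' * H * X) := by rw [hε']; ring
  have h4 : 2 * H ≤ ε' * H * X := by nlinarith
  have h5 : 0 < ε' * H * X := by positivity
  rw [h3]
  nlinarith

end Pool.Agent.R512.U
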