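import Pool.Agent.R512.U.Blk
import Pool.Agent.R512.Q.FinA

/-!
Library R512.U (helper512): uniform bounds for a fixed completely multiplicative factor with values in the roots of
unity and arbitrary multiplicative companions.
-/

set_option autoImplicit false

namespace Pool.Agent.R512.U

open Finset Filter Topology
open Pool.Agent.Y958.U
open Pool.Agent.Y958.E
open Pool.Agent.Y958.TC (ind ind_nonneg)
open Pool.Agent.R512.Q (CR psC mainC ru_norm Kind E2C twoZ twoR avC_shift cr_Om)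

lemma NW_of_LZ {y x : ℕ → ℕ} (h1 : ∀ j, 1 ≤ y j) (hx : Tendsto x atTop atTop)
    (h2 : ∀ j, y j ^ 2 ≤ x j) {E : Set ℕ} (hE : LZ E) : NW y x E := by
  classical
  unfold NW
  rw [Metric.tendsto_atTop]
  intro ε hε
  obtain ⟨X₀, hX₀⟩ := (LZ_iff _).1 hE (ε / 4) (by positivity)
  obtain ⟨J, hJ⟩ := eventually_atTop.1 (hx.eventually_ge_atTop (X₀ + 2))
  refine ⟨J, fun j hj => ?_⟩
  have hxj := hJ j hj
  have hx2 : (2 : ℝ) ≤ x j := by exact_mod_cast (by omega : 2 ≤ x j)
  have hx0 : (0 : ℝ) < x j := by linarith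
  have hy0 : (0 : ℝ) < y j := by exact_mod_cast h1 j
  have hlx : 0 < Real.log (x j) := Real.log_pos (by linarith)
  have hly : 2 * Real.log (y j) ≤ Real.log (x j) := by
    have h3 : ((y j : ℝ)) ^ 2 ≤ x j := by exact_mod_cast h2 j
    have h4 := Real.log_le_log (by positivity) h3
    rwa [Real.log_pow] at h4
  have hl : Real.log ((x j : ℝ) / y j) = Real.log (x j) - Real.log (y j) := Real.log_div hx0.ne' hy0.ne'
  have hl2 : Real.log (x j) / 2 ≤ Real.log ((x j : ℝ) / y j) := by rw [hl]; linarith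
  have hl0 : 0 < Real.log ((x j : ℝ) / y j) := by linarith
  have hs0 : 0 ≤ ∑ n ∈ Ioc (y j) (x j), (if n ∈ E then (1 : ℝ) / n else 0) :=
    sum_nonneg fun n _ => by split_ifs <;> positivity
  have hs1 : ∑ n ∈ Ioc (y j) (x j), (if n ∈ E then (1 : ℝ) / n else 0) ≤ ls E (x j) := by
    unfold ls
    apply sum_le_sum_of_subset_of_nonneg
    · intro n hn
      rw [mem_Ioc] at hn
      rw [mem_Icc]
      omega
    · intro n _ _
      split_ifs <;> positivity
  have hs2 := hX₀ (x j) (by omega)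
  rw [Real.dist_eq, sub_zero, abs_of_nonneg (div_nonneg hs0 hl0.le), div_lt_iff₀ hl0]
  have h5 : ε * Real.log ((x j : ℝ) / y j) ≥ ε * (Real.log (x j) / 2) := mul_le_mul_of_nonneg_left hl2 hε.le
  have h6 : ∑ n ∈ Ioc (y j) (x j), (if n ∈ E then (1 : ℝ) / n else 0) ≤ ε / 4 * Real.log (x j) := hs1.trans hs2
  have h7 : 0 < ε * Real.log (x j) := by positivity
  refine lt_of_le_of_lt h6 (lt_of_lt_of_le ?_ h5)
  nlinarith

/-- from sets of residues to shifts -/
lemma e2_shift {Nl : Set ℕ → Prop} (hN : NullId Nl) (φ : ℕ → ℂ) (hφ1 : ∀ n, ‖φ n‖ ≤ 1) (V : ℕ → Prop) (A : ℕ)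
    (hA : 1 ≤ A) (hV : ∀ n, V (n + A) ↔ V n) (hdv : 0 < dv V A) (s' R : ℕ)
    (h1 : Nl (E2C φ V A R (dv V A / 4))) : ∃ E' : Set ℕ, Nl E' ∧ ∀ M, M ∉ E' →
      ‖AvC M (fun n => (ind V n : ℂ) * (φ (n + s') * (starRingEnd ℂ) (φ (n + s' + R))))‖ ≤ (1 - 1 / 2) * dv V A := by
  set K : ℕ := ⌈8 * s' / dv V A⌉₊ + 1 with hK
  refine ⟨_, hN.union _ _ h1 (hN.bdd {N | N < K} K fun n hn => hn), fun M hME => ?_⟩
  have hM1 : M ∉ E2C φ V A R (dv V A / 4) := fun h => hME (Or.inl h)
  have hM2 : ¬ (M < K) := fun h => hME (Or.inr h)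
  have hM0 : (0 : ℝ) < M := by exact_mod_cast (by omega : 0 < M)
  have hMK : 8 * s' / dv V A ≤ M := (Nat.le_ceil _).trans (by exact_mod_cast (by omega : ⌈8 * s' / dv V A⌉₊ ≤ M))
  rw [div_le_iff₀ hdv] at hMK
  -- the residue
  have hA0 : 0 < A := by omega
  set a : ℕ := (A - s' % A) % A with ha
  have haA : a < A := Nat.mod_lt _ hA0
  have hdvd : A ∣ s' + a := by
    have h2 : s' % A < A := Nat.mod_lt _ hA0
    rw [ha]
    by_cases h3 : s' % A = 0
    · rw [h3, Nat.sub_zero, Nat.mod_self, add_zero]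
      exact Nat.dvd_of_mod_eq_zero h3
    · rw [Nat.mod_eq_of_lt (by omega)]
      have h4 := Nat.div_add_mod s' A
      refine ⟨s' / A + 1, ?_⟩
      rw [mul_add, mul_one]
      omega
  set ψ : ℕ → ℂ := fun n => (ind V (n + a) : ℂ) * (φ n * (starRingEnd ℂ) (φ (n + R))) with hψ
  have hψ1 : ∀ n, ‖ψ n‖ ≤ 1 := by
    intro n
    rw [hψ]
    simp only
    rw [norm_mul, norm_mul, RCLike.norm_conj]
    calc ‖(ind V (n + a) : ℂ)‖ * (‖φ n‖ * ‖φ (n + R)‖) ≤ 1 * (1 * 1) := by
          gcongr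
          · exact norm_ind_le _ _
          · exact hφ1 _
          · exact hφ1 _
      _ = 1 := by norm_num
  have h2 : ‖AvC M ψ‖ ≤ dv V A / 4 := by
    by_contra hcon
    exact hM1 ⟨a, mem_range.2 haA, not_le.1 hcon⟩
  have h3 := avC_shift M s' ψ hψ1
  have e : (fun n => ψ (n + s')) = fun n => (ind V n : ℂ) * (φ (n + s') *
      (starRingEnd ℂ) (φ (n + s' + R))) := by
    funext n
    rw [hψ]
    simp only
    congr 2
    apply ind_at
    apply V_congr hV
    obtain ⟨k, hk⟩ := hdvd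
    rw [add_assoc, hk]
    exact (Nat.modEq_iff_dvd' (by omega)).2 ⟨k, by omega⟩ |>.symm
  rw [e] at h3
  have h4 : ‖AvC M ψ‖ * M ≤ dv V A / 4 * M := mul_le_mul_of_nonneg_right h2 hM0.le
  have h5 : ‖AvC M (fun n => (ind V n : ℂ) * (φ (n + s') * (starRingEnd ℂ) (φ (n + s' + R))))‖ * M ≤
      ((1 - 1 / 2) * dv V A) * M := by
    linarith
  exact le_of_mul_le_mul_right h5 hM0

/-- the two point theorem for both kinds -/
lemma e2_kind {r q : ℕ} (hr : 1 ≤ r) (hq : q.Prime) {f : ℕ → ℂ} (hf : Kind r q f) (hf0 : f 0 = 1)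
    (V : ℕ → Prop) (A : ℕ) (hA : 1 ≤ A) (hV : ∀ n, V (n + A) ↔ V n) (R : ℕ) (hR : 1 ≤ R) (δ : ℝ) (hδ : 0 < δ) :
    LZ (E2C (fun n => f n ^ r) V A R δ) := by
  have hm0 : 1 ≤ r * q := Nat.mul_pos hr hq.pos
  obtain ⟨hfC, hf | hf⟩ := hf
  · obtain ⟨w, hwq, hw1, hw⟩ := hf
    have hfw := cr_Om (by omega) hfC hw
    have e : (fun n => f n ^ r) = fun n => w ^ ArithmeticFunction.cardFactors n := by
      funext n
      by_cases hn : n = 0
      · rw [hn, hf0, one_pow]
        simp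
      · exact hfw n hn
    rw [e]
    exact twoZ w (ru_norm hq.ne_zero hwq) hw1 V A hA hV R hR δ hδ
  · obtain ⟨s, hs, hsn, hfs⟩ := hf
    exact twoR hs hsn (fun n => f n ^ r) hfs (fun n => by
      rw [norm_pow, ru_norm (by omega) (hfC.pow n), one_pow]) V A hA hV R hR δ hδ

/-- bounds uniform in the companions, in residue classes -/
theorem glueK (d r q : ℕ) (hr : 1 ≤ r) (hq : q.Prime) : ∃ c : ℝ, 0 < c ∧ c < 1 ∧
    ∀ h : Fin (d + 1) → ℕ, Function.Injective h → ∀ Q a : ℕ, 1 ≤ Q → ∀ f : ℕ → ℂ, Kind r q f → f 0 = 1 →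
    ∀ η : ℝ, 0 < η → ∃ ω₀ : ℕ, ∀ y x : ℕ, 1 ≤ y → (y + ω₀) ^ ω₀ ≤ x → ∀ g : Fin d → ℕ → ℂ, (∀ i, BM (g i)) →
      ∑ N ∈ Ioc y x, (open Classical in
        if (1 - c) * ((N : ℝ) / Q) < ‖Sc h f g Q a N‖ then (1 : ℝ) / N else 0) ≤
        η * Real.log ((x : ℝ) / y) := by
  classical
  haveI : Fact q.Prime := ⟨hq⟩
  have hm0 : 1 ≤ r * q := Nat.mul_pos hr hq.pos
  have hqm : q ∣ r * q := Dvd.intro_left _ rfl
  have hdiv : r * q / q = r := Nat.mul_div_cancel _ hq.pos
  obtain ⟨c, hc0, hc1, hB⟩ := blockM d (r * q) q hm0 hqm (1 / 2) (by norm_num) (by norm_num)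
  rw [hdiv] at hB
  refine ⟨c, hc0, hc1, fun h hinj Q a hQ f hf hf0 η hη => ?_⟩
  obtain ⟨Tz, hTz⟩ := hB h hinj Q a hQ
  by_contra hcon
  push Not at hcon
  choose Yf Xf hY1 hYX G hG hbad using hcon
  set Om : ℕ → ℕ → ℕ := fun P m => (m + 1) * P + m + 2 + ⌈8 / η⌉₊ with hOm
  obtain ⟨P, hP0, hPs⟩ : ∃ P : ℕ → ℕ, P 0 = 1 ∧ ∀ m, P (m + 1) =
      (m + 2) * (Xf (Om (P m) m) + 1) + Tz (m + 1) + P m :=
    ⟨fun m => Nat.rec 1 (fun m P => (m + 2) * (Xf (Om P m) + 1) + Tz (m + 1) + P) m, rfl, fun m => rfl⟩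
  have hPmono : StrictMono P := by
    apply strictMono_nat_of_lt_succ
    intro m
    rw [hPs]
    have : 0 < (m + 2) * (Xf (Om (P m) m) + 1) := by positivity
    omega
  have hP1 : ∀ m, 1 ≤ P m := by
    intro m
    have := hPmono.monotone (Nat.zero_le m)
    omega
  have hPT : ∀ m, 1 ≤ m → Tz m ≤ P m := by
    intro m hm
    obtain ⟨m', rfl⟩ : ∃ m', m = m' + 1 := ⟨m - 1, by omega⟩
    rw [hPs]
    omega
  set ym : ℕ → ℕ := fun m => Yf (Om (P m) m) with hym
  set xm : ℕ → ℕ := fun m => Xf (Om (P m) m) with hxm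
  set y' : ℕ → ℕ := fun m => max (ym m) ((m + 1) * P m) with hy'
  have hOmx : ∀ m, (ym m + Om (P m) m) ^ (Om (P m) m) ≤ xm m := fun m => hYX _
  have hym1 : ∀ m, 1 ≤ ym m := fun m => hY1 _
  have hy'Om : ∀ m, y' m ≤ ym m + Om (P m) m := by
    intro m
    apply max_le
    · omega
    · simp only [hOm]
      omega
  have hy'1 : ∀ m, 1 ≤ y' m := fun m => (hym1 m).trans (le_max_left _ _)
  have hOm2 : ∀ m, m + 2 ≤ Om (P m) m := fun m => by simp only [hOm]; omega
  have hsq : ∀ m, (ym m + Om (P m) m) ^ 2 ≤ xm m := fun m =>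
    le_trans (Nat.pow_le_pow_right (by have := hym1 m; omega) (by have := hOm2 m; omega)) (hOmx m)
  have hy'sq : ∀ m, y' m ^ 2 ≤ xm m := fun m => (Nat.pow_le_pow_left (hy'Om m) 2).trans (hsq m)
  have hwin : ∀ m, (m + 1) * y' m ≤ xm m := by
    intro m
    refine le_trans ?_ (hsq m)
    rw [pow_two]
    apply Nat.mul_le_mul _ (hy'Om m)
    have := hOm2 m
    omega
  have hBl : Blocks P y' xm := ⟨hPmono, hP1, fun m => le_max_right _ _, hwin, fun m => by
    rw [hPs]
    simp only [hxm]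
    omega⟩
  have hxt : Tendsto xm atTop atTop := by
    apply tendsto_atTop_mono (f := fun m : ℕ => m) _ tendsto_id
    intro m
    have h1 := hwin m
    have h2 : m + 1 ≤ (m + 1) * y' m := Nat.le_mul_of_pos_right _ (hy'1 m)
    omega
  have hNull : NullId (NW y' xm) := Pool.Agent.Y434.E.Nwi.nwi Pool.Agent.Y304.U.pw y' xm hBl.y1 hBl.ratio
  obtain ⟨J, hJ⟩ := hTz P y' xm hBl hPT (fun _ => f) (fun _ => hf.1) (fun m => G (Om (P m) m))
    (fun m i => hG _ i) (fun V A hA hV hdv s' R hR => by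
      obtain ⟨E', hE'1, hE'2⟩ := e2_shift hNull (fun n => f n ^ r) (fun n => by
        rw [norm_pow, ru_norm (by omega) (hf.1.pow n), one_pow]) V A hA hV hdv s' R
        (NW_of_LZ hy'1 hxt hy'sq (e2_kind hr hq hf hf0 V A hA hV R hR (dv V A / 4) (by positivity)))
      exact ⟨E', hE'1, fun W => ⟨0, fun N _ _ M _ _ hM => hE'2 M hM⟩⟩) (η / 2) (by positivity)
  have h1 := hbad (Om (P J) J)
  have h2 := hJ J le_rfl
  have hyy' : ym J ≤ y' J := le_max_left _ _
  have hy'x : y' J ≤ xm J := le_trans (Nat.le_mul_of_pos_left _ (by omega)) (hwin J)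
  have hy0 : (0 : ℝ) < ym J := by exact_mod_cast hym1 J
  have hy'0 : (0 : ℝ) < y' J := by exact_mod_cast hy'1 J
  have hx0 : (0 : ℝ) < xm J := by exact_mod_cast (by have := hy'1 J; omega : 0 < xm J)
  have h3 : η * Real.log ((xm J : ℝ) / ym J) < Real.log (y' J) + η / 2 * Real.log ((xm J : ℝ) / y' J) := by
    refine lt_of_lt_of_le h1 ?_
    have e1 := sum_Ioc_consecutive (fun N : ℕ => if (1 - c) * ((N : ℝ) / Q) <
      ‖Sc h f (G (Om (P J) J)) Q a N‖ then (1 : ℝ) / N else 0) hyy' hy'x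
    have e2 : ∑ N ∈ Ioc (Yf (Om (P J) J)) (Xf (Om (P J) J)), (if (1 - c) * ((N : ℝ) / Q) <
      ‖Sc h f (G (Om (P J) J)) Q a N‖ then (1 : ℝ) / N else 0) = _ := e1.symm
    refine le_of_eq_of_le (by convert e2) (add_le_add ?_ ?_)
    · have h4 := harm_win (ym J) (y' J) (hym1 J) hyy'
      have h5 : Real.log ((y' J : ℝ) / ym J) ≤ Real.log (y' J) := by
        apply Real.log_le_log (by positivity)
        apply div_le_self hy'0.le
        exact_mod_cast hym1 J
      refine (sum_le_sum fun N _ => ?_).trans (h4.trans h5)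
      split_ifs
      · exact le_rfl
      · positivity
    · convert h2
  -- logarithms
  set ω : ℕ := Om (P J) J with hω
  have hω8 : 8 / η ≤ ω := by
    refine (Nat.le_ceil _).trans ?_
    exact_mod_cast (by simp only [hω, hOm]; omega : ⌈8 / η⌉₊ ≤ ω)
  have hω2 : (2 : ℝ) ≤ ω := by exact_mod_cast (by have := hOm2 J; omega : 2 ≤ ω)
  have hlx : ω * Real.log (y' J) ≤ Real.log (xm J) := by
    have h4 : (y' J) ^ ω ≤ xm J := (Nat.pow_le_pow_left (hy'Om J) ω).trans (hOmx J)
    have h5 : ((y' J : ℝ)) ^ ω ≤ xm J := by exact_mod_cast h4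
    have h6 := Real.log_le_log (by positivity) h5
    rwa [Real.log_pow] at h6
  have hly' : 0 ≤ Real.log (y' J) := Real.log_nonneg (by exact_mod_cast hy'1 J)
  have hly : Real.log (ym J) ≤ Real.log (y' J) := Real.log_le_log hy0 (by exact_mod_cast hyy')
  have hly0 : 0 ≤ Real.log (ym J) := Real.log_nonneg (by exact_mod_cast hym1 J)
  rw [Real.log_div hx0.ne' hy0.ne', Real.log_div hx0.ne' hy'0.ne'] at h3
  rw [div_le_iff₀ hη] at hω8
  have h4 : 8 * Real.log (y' J) ≤ ω * η * Real.log (y' J) := mul_le_mul_of_nonneg_right hω8 hly'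
  have h5 : η * (ω * Real.log (y' J)) ≤ η * Real.log (xm J) := mul_le_mul_of_nonneg_left hlx hη.le
  have h6 : 2 * Real.log (y' J) ≤ ω * Real.log (y' J) := mul_le_mul_of_nonneg_right hω2 hly'
  have h7 : η * (2 * Real.log (y' J)) ≤ η * Real.log (xm J) := mul_le_mul_of_nonneg_left (h6.trans hlx) hη.le
  have h8 : η * Real.log (ym J) ≤ η * Real.log (y' J) := mul_le_mul_of_nonneg_left hly hη.le
  have h9 : 0 ≤ η * Real.log (y' J) := by positivity
  nlinarith

/-- from residue classes to periodic weights -/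
lemma wts_of {d : ℕ} (h : Fin (d + 1) → ℕ) (f : ℕ → ℂ) (g : Fin d → ℕ → ℂ) (c η' : ℝ) (y x q : ℕ) (hq : 1 ≤ q)
    (w : ℕ → ℂ) (hw1 : ∀ n, ‖w n‖ ≤ 1) (hwq : ∀ n, w (n + q) = w n)
    (hb : ∀ r ∈ range q, ∑ N ∈ Ioc y x, (open Classical in
        if (1 - c) * ((N : ℝ) / q) < ‖Sc h f g q r N‖ then (1 : ℝ) / N else 0) ≤ η') :
    ∑ N ∈ Ioc y x, (open Classical in
        if (1 - c) * (N : ℝ) < ‖∑ n ∈ Icc 1 N, w n * (f (n + h 0) * ∏ i : Fin d, g i (n + h i.succ))‖
          then (1 : ℝ) / N else 0) ≤ q * η' := by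
  classical
  have hq0 : (0 : ℝ) < q := by exact_mod_cast hq
  have h2 : ∑ N ∈ Ioc y x, (if (1 - c) * (N : ℝ) < ‖∑ n ∈ Icc 1 N, w n * (f (n + h 0) *
      ∏ i : Fin d, g i (n + h i.succ))‖ then (1 : ℝ) / N else 0) ≤
      ∑ r ∈ range q, ∑ N ∈ Ioc y x, (if (1 - c) * ((N : ℝ) / q) < ‖Sc h f g q r N‖ then (1 : ℝ) / N else 0) := by
    rw [sum_comm]
    apply sum_le_sum
    intro N hN
    split_ifs with hbad
    · by_contra hcon
      push Not at hcon
      have h3 : ∀ r ∈ range q, ‖Sc h f g q r N‖ ≤ (1 - c) * ((N : ℝ) / q) := by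
        intro r hr
        by_contra h4
        apply absurd hcon
        push Not
        refine le_trans ?_ (single_le_sum (f := fun r => if (1 - c) * ((N : ℝ) / q) < ‖Sc h f g q r N‖ then
          (1 : ℝ) / N else 0) (fun r _ => by split_ifs <;> positivity) hr)
        rw [if_pos (not_le.1 h4)]
      have h4 : ∑ n ∈ Icc 1 N, w n * (f (n + h 0) * ∏ i : Fin d, g i (n + h i.succ)) =
          ∑ r ∈ range q, w r * Sc h f g q r N := by
        unfold Sc
        simp only [mul_sum]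
        rw [sum_comm]
        apply sum_congr rfl
        intro n _
        rw [sum_eq_single (n % q)]
        · unfold psC
          have e1 : ind (fun m => m % q = n % q % q) n = 1 := by
            unfold Pool.Agent.Y958.TC.ind
            rw [if_pos (Nat.mod_mod _ _).symm]
          have e2 : w (n % q) = w n := by
            have h1 : ∀ k m, w (m + q * k) = w m := by
              intro k
              induction k with
              | zero => intro m; simp
              | succ k ih =>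
                intro m
                rw [mul_add, mul_one, ← add_assoc, hwq, ih]
            have h2 := h1 (n / q) (n % q)
            rw [Nat.mod_add_div] at h2
            exact h2.symm
          rw [e1, e2]
          push_cast
          ring
        · intro r hr hne
          unfold psC
          have e1 : ind (fun m => m % q = r % q) n = 0 := by
            unfold Pool.Agent.Y958.TC.ind
            rw [if_neg]
            intro hh
            rw [Nat.mod_eq_of_lt (mem_range.1 hr)] at hh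
            exact hne hh.symm
          rw [e1]
          simp
        · intro hh
          exact absurd (mem_range.2 (Nat.mod_lt _ (by omega))) hh
      rw [h4] at hbad
      have h5 : ‖∑ r ∈ range q, w r * Sc h f g q r N‖ ≤ (1 - c) * N := by
        refine (norm_sum_le _ _).trans ?_
        have h6 : ∀ r ∈ range q, ‖w r * Sc h f g q r N‖ ≤ (1 - c) * ((N : ℝ) / q) := by
          intro r hr
          rw [norm_mul]
          calc ‖w r‖ * ‖Sc h f g q r N‖ ≤ 1 * ‖Sc h f g q r N‖ :=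
                mul_le_mul_of_nonneg_right (hw1 r) (norm_nonneg _)
            _ ≤ (1 - c) * ((N : ℝ) / q) := by rw [one_mul]; exact h3 r hr
        refine (sum_le_sum h6).trans (le_of_eq ?_)
        rw [sum_const, card_range, nsmul_eq_mul]
        field_simp
      linarith
    · exact sum_nonneg fun r _ => by split_ifs <;> positivity
  refine le_trans (le_of_eq (by congr!)) (h2.trans ?_)
  refine (sum_le_sum (g := fun _ => η') fun r hr => le_trans (le_of_eq (by congr!)) (hb r hr)).trans (le_of_eq ?_)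
  rw [sum_const, card_range, nsmul_eq_mul]

end Pool.Agent.R512.U
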