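import Pool.Agent.Y872.L.M.Defs
import Pool.Agent.Y872.L.M.LevA
import Pool.Agent.Y872.L.M.LevB
import Pool.Agent.Y872.L.M.Cnt
import Pool.Agent.Y872.L.M.Mach

/-!
Library R512.U (helper512): the abstract Matomaki-Radziwill machine for families of functions, with
uniform constants. The files are adapted from `Y872/L/M` (starting files), where the constants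
depend on the function.
-/

set_option autoImplicit false

namespace Pool.Agent.R512.U

open Finset Filter
open Pool.Agent.H376R2.MR
open Pool.Agent.Y872.L.M (SmA SmjA)

/-- input of the machine, for a family, with uniform constants -/
structure MachF (ι : Type) (P : ι → ℕ → ℕ → ℤ → ℂ) (m : ℕ → ℕ → ℝ) (G : ι → ℝ → ℤ → ℂ) : Prop where
  m_nonneg : ∀ H v, 0 ≤ m H v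
  P_le : ∀ i H v k, ‖P i H v k‖ ≤ m H v
  rich : ∃ c : ℝ, 0 < c ∧ ∃ C : ℝ, ∀ H v₀ v₁ : ℕ, 1 ≤ H → H ≤ v₀ → v₀ ≤ v₁ →
    c * Real.log ((v₁ : ℝ) / v₀) - C ≤ ∑ v ∈ Ico v₀ v₁, m H v
  cell : ∃ c' : ℝ, 0 < c' ∧ c' ≤ 1 ∧ ∀ M H : ℕ, 1 ≤ H → ∃ T₀ V₀ : ℕ, ∀ i, ∀ v : ℕ, V₀ ≤ v →
    ∀ k : ℤ, (T₀ : ℝ) ≤ |(k : ℝ)| → |(k : ℝ)| ≤ Real.exp (M * (v : ℝ) / H) →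
    ‖P i H v k‖ ≤ (1 - c') * m H v
  dec : ∃ C : ℝ, 0 < C ∧ ∃ β : ℝ, 0 < β ∧ ∃ Z₀ : ℝ, ∀ i, ∀ H v₀ v₁ : ℕ, 1 ≤ H → H ≤ v₀ →
    1 ≤ ∑ v ∈ Ico v₀ v₁, m H v → ∀ Y : ℝ, Real.exp (4 * (v₁ : ℝ) / H) ≤ Y → ∃ E : ℤ → ℂ,
      (∀ k : ℤ, G i Y k = -(1 / ((∑ v ∈ Ico v₀ v₁, m H v : ℝ) : ℂ)) *
        ∑ v ∈ Ico v₀ v₁, P i H v k * G i (Y * Real.exp (-((v : ℝ) / H))) k + E k) ∧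
      (∀ K : ℕ, 1 ≤ K → (K : ℝ) ≤ Y → ∑ k ∈ FK K, ‖E k‖ ^ 2 ≤
        C * (1 / (∑ v ∈ Ico v₀ v₁, m H v) + 1 / (H : ℝ) ^ 2)) ∧
      (Z₀ ≤ Y → ∀ U : Finset ℤ, (∀ k ∈ U, |(k : ℝ)| ≤ Y ^ (4 / 3 : ℝ)) → (U.card : ℝ) ≤ Y ^ β →
        ∑ k ∈ U, ‖E k‖ ^ 2 ≤ C * (1 / (∑ v ∈ Ico v₀ v₁, m H v) + 1 / (H : ℝ) ^ 2))
  mom_zero : ∃ C : ℝ, 0 < C ∧ ∀ i, ∀ (K : ℕ) (Z : ℝ), 3 ≤ Z → 1 ≤ K →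
    ∑ k ∈ FK K, ‖G i Z k‖ ^ 2 ≤ C * (1 + (K : ℝ) / Z)
  momP : ∃ C : ℝ, 1 ≤ C ∧ ∀ i, ∀ H r ℓ K : ℕ, 1 ≤ H → 1 ≤ K → (K : ℝ) ≤ Real.exp ((r : ℝ) * ℓ / H) →
    ∑ k ∈ FK K, ‖P i H r k‖ ^ (2 * ℓ) ≤ C ^ (ℓ + 1) * (ℓ.factorial : ℝ) ^ 8
  mom : ∃ C : ℝ, 1 ≤ C ∧ ∀ i, ∀ (H r ℓ K : ℕ) (Z : ℝ), 1 ≤ H → 3 ≤ Z → 1 ≤ K →
    (K : ℝ) ≤ Z * Real.exp ((r : ℝ) * ℓ / H) →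
    ∑ k ∈ FK K, ‖P i H r k ^ ℓ * G i Z k‖ ^ 2 ≤ C ^ (ℓ + 1) * (ℓ.factorial : ℝ) ^ 8
  sparse : ∃ C : ℝ, 0 < C ∧ ∃ β : ℝ, 0 < β ∧ ∃ Z₀ : ℝ, ∀ i, ∀ Z : ℝ, Z₀ ≤ Z → ∀ U : Finset ℤ,
    (∀ k ∈ U, |(k : ℝ)| ≤ Z ^ (4 / 3 : ℝ)) → (U.card : ℝ) ≤ Z ^ β → ∑ k ∈ U, ‖G i Z k‖ ^ 2 ≤ C

variable {ι : Type} {P : ι → ℕ → ℕ → ℤ → ℂ} {m : ℕ → ℕ → ℝ} {G : ι → ℝ → ℤ → ℂ}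

end Pool.Agent.R512.U
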