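import Pool.Agent.R512.U.MMach
import Pool.Agent.Y872.L.Inst

/-!
Library R512.U (helper512): the machine applies uniformly to all pairs `u, g` with `g (p m) = u(p) g(m)` for the primes
in a rich set (adapted from `Y872/L/Dec`, `Mom`, `Inst`, `H970R2/X/Mom`, with uniform constants).
-/

set_option autoImplicit false

namespace Pool.Agent.R512.U

open Finset Filter Pool.Agent.H376R2.MR Pool.Agent.H970R2.X Pool.Agent.Y872.L

theorem dec_fU (P : ℕ → Prop) :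
    ∃ C : ℝ, 0 < C ∧ ∀ u g : ℕ → ℤ, Bdd g → Tw P u g → ∀ H v₀ v₁ : ℕ, 1 ≤ H → 1 ≤ WWp P H v₀ v₁ → ∀ Y : ℝ,
    Real.exp (4 * (v₁ : ℝ) / H) ≤ Y → ∃ (s : Finset ℕ) (a : ℕ → ℂ),
      (∀ n ∈ s, Y / Real.exp 2 ≤ (n : ℝ) ∧ (n : ℝ) ≤ Real.exp 2 * Y) ∧
      (∀ k : ℤ, GGg g Y k = (1 / (WWp P H v₀ v₁ : ℂ)) *
        ∑ v ∈ Ico v₀ v₁, PPf P u H v k * GGg g (Y * Real.exp (-((v : ℝ) / H))) k + DP s a k) ∧
      ∑ n ∈ s, (n : ℝ) * ‖a n‖ ^ 2 ≤ C * (1 / WWp P H v₀ v₁ + 1 / (H : ℝ) ^ 2) := by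
  obtain ⟨C, hC, htk⟩ := tk
  refine ⟨2 * (6 * C + 4 * (Real.exp 2 * Real.exp 2)), by positivity, ?_⟩
  intro u g hb hf H v₀ v₁ hH hW Y hexp
  set W := WWp P H v₀ v₁ with hWdef
  have hY : 1 ≤ Y := by
    refine le_trans ?_ hexp
    rw [← Real.exp_zero]
    apply Real.exp_le_exp.mpr; positivity
  have hY0 : 0 < Y := by linarith
  have hH0 : (0:ℝ) < H := by exact_mod_cast hH
  have hH1 : (1:ℝ) ≤ H := by exact_mod_cast hH
  have hW0 : 0 < W := by linarith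
  have hWc : (W : ℂ) ≠ 0 := by exact_mod_cast hW0.ne'
  set S : Finset ℕ := (Ico v₀ v₁).biUnion (cellP P H) with hS
  have hdisj : Set.PairwiseDisjoint (↑(Ico v₀ v₁) : Set ℕ) (cellP P H) := by
    intro v _ v' _ hne
    rw [Function.onFun, Finset.disjoint_left]
    intro p hp hp'
    exact hne (dec_disj hH (xdec_cellP hp).1 (xdec_cellP hp').1)
  have hSP : ∀ p ∈ S, p.Prime ∧ P p := by
    intro p hp
    rw [hS, mem_biUnion] at hp
    obtain ⟨v, hv, hp⟩ := hp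
    exact ⟨(dec_cell (xdec_cellP hp).1).1, (xdec_cellP hp).2⟩
  have hWS : ∑ p ∈ S, 1 / (p : ℝ) = W := by
    rw [hS, Finset.sum_biUnion hdisj, hWdef]; rfl
  have hom : ∀ (q : ℕ → Prop) [DecidablePred q], ((S.filter q).card : ℝ) =
      ∑ v ∈ Ico v₀ v₁, (((cellP P H v).filter q).card : ℝ) := by
    intro q _
    rw [hS, Finset.filter_biUnion, Finset.card_biUnion]
    · push_cast; rfl
    · intro v hv v' hv' hne
      rw [Function.onFun, Finset.disjoint_left]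
      intro p hp hp'
      exact hne (dec_disj hH (xdec_cellP (mem_filter.mp hp).1).1
        (xdec_cellP (mem_filter.mp hp').1).1)
  have hTK := htk S (Real.exp ((v₁ : ℝ) / H)) Y (by
    intro p hp
    rw [hS, mem_biUnion] at hp
    obtain ⟨v, hv, hp⟩ := hp
    obtain ⟨h1, h2, h3⟩ := dec_cell (xdec_cellP hp).1
    refine ⟨h1, ?_⟩
    have hp0 : (0:ℝ) < p := by exact_mod_cast h1.pos
    rw [← Real.log_le_iff_le_exp hp0]
    refine h3.le.trans ?_
    apply div_le_div_of_nonneg_right _ hH0.le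
    have := (mem_Ico.mp hv).2
    exact_mod_cast this) (by rw [hWS]; exact hW) (by
    rw [← Real.exp_nat_mul]
    refine le_trans (le_of_eq ?_) hexp
    congr 1; push_cast; ring)
  rw [hWS] at hTK
  refine ⟨decS Y, fun n => ((((g n : ℝ) *
    (w (Real.log n - Real.log Y) - xdecT P H v₀ v₁ Y n / W)) / n : ℝ) : ℂ), ?_, ?_, ?_⟩
  · intro n hn
    exact ⟨(dec_mem hY hn).2.1, (dec_mem hY hn).2.2⟩
  · intro k
    rw [decf_sum P u g hf hH hY k, xdec_GG g hY k]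
    unfold DP
    rw [Finset.mul_sum, ← Finset.sum_add_distrib]
    refine Finset.sum_congr rfl fun n hn => ?_
    have hn1 := (dec_mem hY hn).1
    have hnc : (n : ℂ) ≠ 0 := by exact_mod_cast (by omega : n ≠ 0)
    push_cast
    field_simp
    ring
  · have hterm : ∀ n ∈ decS Y, (n : ℝ) * ‖((((g n : ℝ) *
        (w (Real.log n - Real.log Y) - xdecT P H v₀ v₁ Y n / W)) / n : ℝ) : ℂ)‖ ^ 2 ≤
        2 * ((2 / W ^ 2 + 4 / (H ^ 2 * W ^ 2)) *
          ((((S.filter (fun p => p ∣ n)).card : ℝ) - W) ^ 2 / n) +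
          4 / H ^ 2 * (1 / n)) := by
      intro n hn
      have hn1 := (dec_mem hY hn).1
      have hn0 : (0:ℝ) < n := by exact_mod_cast hn1
      rw [Complex.norm_real, Real.norm_eq_abs, sq_abs, div_pow]
      set om : ℝ := ((S.filter (fun p => p ∣ n)).card : ℝ) with hom'
      have hT : |om * w (Real.log n - Real.log Y) - xdecT P H v₀ v₁ Y n| ≤ om / H := by
        have e1 : om * w (Real.log n - Real.log Y) - xdecT P H v₀ v₁ Y n =
          ∑ v ∈ Ico v₀ v₁, ∑ p ∈ (cellP P H v).filter (fun p => p ∣ n),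
            (w (Real.log n - Real.log Y) -
              w (Real.log n - Real.log Y - (Real.log p - (v : ℝ) / H))) := by
          unfold xdecT
          rw [hom', hom (fun p => p ∣ n), Finset.sum_mul, ← Finset.sum_sub_distrib]
          refine Finset.sum_congr rfl fun v _ => ?_
          rw [Finset.sum_sub_distrib, Finset.sum_const, nsmul_eq_mul]
        have e2 : om / H =
            ∑ v ∈ Ico v₀ v₁, ∑ p ∈ (cellP P H v).filter (fun p => p ∣ n), 1 / (H : ℝ) := by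
          rw [hom', hom (fun p => p ∣ n), Finset.sum_div]
          refine Finset.sum_congr rfl fun v _ => ?_
          rw [Finset.sum_const, nsmul_eq_mul]; ring
        rw [e1, e2]
        refine (Finset.abs_sum_le_sum_abs _ _).trans (Finset.sum_le_sum fun v _ => ?_)
        refine (Finset.abs_sum_le_sum_abs _ _).trans (Finset.sum_le_sum fun p hp => ?_)
        obtain ⟨h1, h2, h3⟩ := dec_cell (xdec_cellP (mem_filter.mp hp).1).1
        refine (dec_w_lip _ _).trans ?_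
        have e3 : Real.log n - Real.log Y - (Real.log n - Real.log Y - (Real.log p - (v : ℝ) / H)) =
          Real.log p - (v : ℝ) / H := by ring
        rw [e3, abs_of_nonneg (by linarith)]
        have e4 : ((v : ℝ) + 1) / H = (v : ℝ) / H + 1 / H := by ring
        linarith
      have hr := dec_real hW hH1 (dec_w_nonneg (Real.log n - Real.log Y))
        (dec_w_le (Real.log n - Real.log Y)) (by positivity : 0 ≤ om) hT
      have hg : (g n : ℝ) ^ 2 ≤ 1 := by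
        have h2 : |(g n : ℝ)| ≤ 1 := by
          have := hb n
          rw [← Int.cast_abs]; exact_mod_cast this
        rw [← sq_abs]
        nlinarith [abs_nonneg (g n : ℝ)]
      set D : ℝ := w (Real.log n - Real.log Y) - xdecT P H v₀ v₁ Y n / W with hD
      have hmain : ((g n : ℝ) * D) ^ 2 ≤
          2 * (((om - W) ^ 2 / W ^ 2 +
              (2 * (om - W) ^ 2 + 2 * W ^ 2) / ((H : ℝ) ^ 2 * W ^ 2))) := by
        have h2 : ((g n : ℝ) * D) ^ 2 ≤ D ^ 2 := by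
          rw [mul_pow]
          nlinarith [sq_nonneg D]
        linarith
      have hnn : 0 ≤ ((om - W) ^ 2 / W ^ 2 +
              (2 * (om - W) ^ 2 + 2 * W ^ 2) / ((H : ℝ) ^ 2 * W ^ 2)) := by positivity
      calc (n : ℝ) * (((g n : ℝ) * D) ^ 2 / (n : ℝ) ^ 2)
          = (1 / n) * ((g n : ℝ) * D) ^ 2 := by
            field_simp
        _ ≤ (1 / n) * (2 * (2 * ((om - W) ^ 2 / W ^ 2 +
              (2 * (om - W) ^ 2 + 2 * W ^ 2) / ((H : ℝ) ^ 2 * W ^ 2)))) := by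
            apply mul_le_mul_of_nonneg_left _ (by positivity)
            linarith
        _ = _ := by field_simp; ring
    refine (Finset.sum_le_sum hterm).trans ?_
    rw [← Finset.mul_sum, Finset.sum_add_distrib,
      ← Finset.mul_sum, ← Finset.mul_sum]
    have hinv := dec_sum_inv hY
    have hTK' : ∑ n ∈ decS Y, (((S.filter (fun p => p ∣ n)).card : ℝ) - W) ^ 2 / n ≤ C * W := hTK
    have hc : 0 ≤ 2 / W ^ 2 + 4 / ((H : ℝ) ^ 2 * W ^ 2) := by positivity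
    have hold : (2 / W ^ 2 + 4 / ((H : ℝ) ^ 2 * W ^ 2)) *
          ∑ n ∈ decS Y, (((S.filter (fun p => p ∣ n)).card : ℝ) - W) ^ 2 / n +
          4 / (H : ℝ) ^ 2 * ∑ n ∈ decS Y, (1 : ℝ) / n
        ≤ (6 * C + 4 * (Real.exp 2 * Real.exp 2)) * (1 / W + 1 / (H : ℝ) ^ 2) := by
      calc (2 / W ^ 2 + 4 / ((H : ℝ) ^ 2 * W ^ 2)) *
            ∑ n ∈ decS Y, (((S.filter (fun p => p ∣ n)).card : ℝ) - W) ^ 2 / n +
            4 / (H : ℝ) ^ 2 * ∑ n ∈ decS Y, (1 : ℝ) / n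
          ≤ (2 / W ^ 2 + 4 / ((H : ℝ) ^ 2 * W ^ 2)) * (C * W) +
            4 / (H : ℝ) ^ 2 * (Real.exp 2 * Real.exp 2) := by
            apply add_le_add
            · exact mul_le_mul_of_nonneg_left hTK' hc
            · apply mul_le_mul_of_nonneg_left hinv; positivity
        _ ≤ (6 / W ^ 2) * (C * W) + 4 / (H : ℝ) ^ 2 * (Real.exp 2 * Real.exp 2) := by
            have h6 : 4 / ((H : ℝ) ^ 2 * W ^ 2) ≤ 4 / W ^ 2 := by
              apply div_le_div_of_nonneg_left (by norm_num) (by positivity)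
              have : (1:ℝ) ≤ (H : ℝ) ^ 2 := by nlinarith
              nlinarith [sq_nonneg W]
            have h7 : 2 / W ^ 2 + 4 / ((H : ℝ) ^ 2 * W ^ 2) ≤ 6 / W ^ 2 := by
              have : (6:ℝ) / W ^ 2 = 2 / W ^ 2 + 4 / W ^ 2 := by ring
              linarith
            have := mul_le_mul_of_nonneg_right h7 (by positivity : 0 ≤ C * W)
            linarith
        _ = 6 * C * (1 / W) + 4 * (Real.exp 2 * Real.exp 2) * (1 / (H : ℝ) ^ 2) := by
            field_simp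
        _ ≤ (6 * C + 4 * (Real.exp 2 * Real.exp 2)) * (1 / W + 1 / (H : ℝ) ^ 2) := by
            have ha : 0 ≤ 1 / W := by positivity
            have hb : 0 ≤ 1 / (H : ℝ) ^ 2 := by positivity
            have he : 0 ≤ 4 * (Real.exp 2 * Real.exp 2) := by positivity
            have h1 : 0 ≤ 6 * C * (1 / (H : ℝ) ^ 2) := by positivity
            have h2 : 0 ≤ 4 * (Real.exp 2 * Real.exp 2) * (1 / W) := by positivity
            nlinarith
    calc _ ≤ 2 * ((6 * C + 4 * (Real.exp 2 * Real.exp 2)) * (1 / W + 1 / (H : ℝ) ^ 2)) :=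
          mul_le_mul_of_nonneg_left hold (by norm_num)
      _ = _ := by ring

theorem cell_fU (P : ℕ → Prop) (c : ℝ) (hc : 0 < c)
    (hR : Rich P c) :
    ∃ c' : ℝ, 0 < c' ∧ c' ≤ 1 ∧ ∀ M H : ℕ, 1 ≤ H → ∃ T₀ V₀ : ℕ, ∀ u : ℕ → ℤ, (∀ n, |u n| ≤ 1) → ∀ v : ℕ, V₀ ≤ v →
    ∀ k : ℤ, (T₀ : ℝ) ≤ |(k : ℝ)| → |(k : ℝ)| ≤ Real.exp (M * (v : ℝ) / H) →
    ‖PPf P u H v k‖ ≤ (1 - c') * mmp P H v := by
  obtain ⟨c₀, h0, h1, hcell⟩ := cell_bound_gen P c hc hR
  refine ⟨c₀ / 4, by linarith, by linarith, fun M H hH => ?_⟩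
  obtain ⟨T₀, v₀, hT⟩ := hcell (M + 1) H hH
  refine ⟨T₀, max v₀ H, fun u hu v hv k hk1 hk2 => ?_⟩
  have hv0 : v₀ ≤ v := (le_max_left _ _).trans hv
  have hvH : H ≤ v := (le_max_right _ _).trans hv
  have hH0 : (0 : ℝ) < H := by exact_mod_cast hH
  have e1 : |((2 * k : ℤ) : ℝ)| = 2 * |(k : ℝ)| := by
    push_cast
    rw [abs_mul, abs_two]
  have h2 := hT v hv0 (2 * k) (by
    rw [e1]
    have := abs_nonneg (k : ℝ)
    linarith) (by
    rw [e1]
    have h3 : (2 : ℝ) ≤ Real.exp ((v : ℝ) / H) := by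
      have h4 : (1 : ℝ) ≤ (v : ℝ) / H := by
        rw [le_div_iff₀ hH0, one_mul]
        exact_mod_cast hvH
      have := Real.add_one_le_exp ((v : ℝ) / H)
      linarith
    calc 2 * |(k : ℝ)| ≤ Real.exp ((v : ℝ) / H) * Real.exp (M * (v : ℝ) / H) :=
          mul_le_mul h3 hk2 (abs_nonneg _) (Real.exp_pos _).le
      _ = _ := by
        rw [← Real.exp_add]
        congr 1
        push_cast
        ring)
  have hm : 0 ≤ mmp P H v := xrap_mmp_nonneg P H v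
  have h3 := PPf_sq P hu H v k
  have h4 : ‖PPf P u H v k‖ ^ 2 ≤ ((1 - c₀ / 4) * mmp P H v) ^ 2 := by
    refine h3.trans ?_
    have h5 : (mmp P H v + ‖PPp P H v (2 * k)‖) / 2 ≤ (1 - c₀ / 2) * mmp P H v := by linarith
    calc mmp P H v * ((mmp P H v + ‖PPp P H v (2 * k)‖) / 2)
        ≤ mmp P H v * ((1 - c₀ / 2) * mmp P H v) := mul_le_mul_of_nonneg_left h5 hm
      _ ≤ _ := by nlinarith [sq_nonneg (c₀ * mmp P H v)]
  exact (pow_le_pow_iff_left₀ (norm_nonneg _) (mul_nonneg (by linarith) hm) (by norm_num)).1 h4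

theorem momP_fU (P : ℕ → Prop) : ∃ C : ℝ, 0 < C ∧ ∀ u : ℕ → ℤ, (∀ n, |u n| ≤ 1) → ∀ (H r ℓ K : ℕ), 1 ≤ H → 1 ≤ K →
    (K : ℝ) ≤ Real.exp ((r : ℝ) * ℓ / H) →
    ∑ k ∈ FK K, ‖PPf P u H r k‖ ^ (2 * ℓ) ≤
      C * (1 + (ℓ : ℝ) / H) * 2 ^ ℓ * (ℓ.factorial : ℝ) := by
  obtain ⟨C, hC, hmv⟩ := mv
  refine ⟨2 * C, by positivity, ?_⟩
  intro u hu H r ℓ K hH hK hKe
  set t := (Fintype.piFinset (fun _ : Fin ℓ => cellP P H r)).image (fun p => ∏ i, p i) with ht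
  set N₁ : ℝ := Real.exp ((r : ℝ) * ℓ / H) with hN1
  set N₂ : ℝ := Real.exp (((r : ℝ) + 1) * ℓ / H) with hN2
  have hHpos : (0 : ℝ) < H := by exact_mod_cast hH
  have h1 : (1 : ℝ) ≤ N₁ := Real.one_le_exp (by positivity)
  have h12 : N₁ ≤ N₂ := by
    apply Real.exp_le_exp.2
    gcongr
    linarith
  have hmem : ∀ n ∈ t, N₁ ≤ (n : ℝ) ∧ (n : ℝ) ≤ N₂ := by
    intro n hn
    rw [ht, Finset.mem_image] at hn
    obtain ⟨p, hp', rfl⟩ := hn
    have hp := xmom_pi_sub P H r ℓ hp'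
    have hpos : (0 : ℝ) < ((∏ i, p i : ℕ) : ℝ) := by exact_mod_cast mom_prod_pos hp
    have := mom_prod_log hp
    constructor
    · rw [hN1, ← Real.le_log_iff_exp_le hpos]
      exact this.1
    · rw [hN2, ← Real.log_le_iff_le_exp hpos]
      exact this.2
  have hlog : Real.log (N₂ / N₁) = ℓ / H := by
    rw [hN1, hN2, ← Real.exp_sub, Real.log_exp]
    ring
  have hm := hmv t (momfCP P u H r ℓ) N₁ N₂ K h1 h12 hmem hK
  rw [hlog] at hm
  calc ∑ k ∈ FK K, ‖PPf P u H r k‖ ^ (2 * ℓ) = ∑ k ∈ FK K, ‖DP t (momfCP P u H r ℓ) k‖ ^ 2 := by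
        apply Finset.sum_congr rfl
        intro k _
        rw [← momf_PP_DP, norm_pow, ← pow_mul, mul_comm]
    _ ≤ _ := hm
    _ ≤ C * (1 + (ℓ : ℝ) / H) * ∑ n ∈ t, 2 * ((ge (cell H r) ℓ n : ℝ) ^ 2 / n) := by
        apply mul_le_mul_of_nonneg_left _ (by positivity)
        apply Finset.sum_le_sum
        intro n hn
        have hn1 := (hmem n hn).1
        have hnpos : (0 : ℝ) < n := by linarith
        have hKn : (K : ℝ) ≤ n := hKe.trans hn1
        have hge := momf_CP_norm P hu H r ℓ n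
        calc ‖momfCP P u H r ℓ n‖ ^ 2 * ((n : ℝ) + K)
            ≤ ((ge (cell H r) ℓ n : ℝ) / n) ^ 2 * ((n : ℝ) + n) := by gcongr
          _ = 2 * ((ge (cell H r) ℓ n : ℝ) ^ 2 / n) := by
              field_simp
              ring
    _ = C * (1 + (ℓ : ℝ) / H) * (2 * ∑ n ∈ t, ((ge (cell H r) ℓ n : ℝ) ^ 2 / n)) := by
        rw [← Finset.mul_sum]
    _ ≤ C * (1 + (ℓ : ℝ) / H) * (2 * ((ℓ.factorial : ℝ) * 2 ^ ℓ)) := by
        have := sum_ge_sq H r ℓ hH t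
        gcongr
    _ = 2 * C * (1 + (ℓ : ℝ) / H) * 2 ^ ℓ * (ℓ.factorial : ℝ) := by ring

/-! ### the product -/

theorem mom_fU (P : ℕ → Prop) :
    ∃ C : ℝ, 0 < C ∧ ∀ u g : ℕ → ℤ, (∀ n, |u n| ≤ 1) → Bdd g → ∀ (H r ℓ K : ℕ) (Z : ℝ), 1 ≤ H → 3 ≤ Z → 1 ≤ K →
    (K : ℝ) ≤ Z * Real.exp ((r : ℝ) * ℓ / H) →
    ∑ k ∈ FK K, ‖PPf P u H r k ^ ℓ * GGg g Z k‖ ^ 2 ≤
      C * (3 + (ℓ : ℝ) / H) ^ 2 * (ℓ.factorial : ℝ) ^ 2 := by
  obtain ⟨C, hC, hmv⟩ := mv
  obtain ⟨C', hC', hgd⟩ := sum_gd_sq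
  set e := Real.exp 1 with he
  have he0 : 0 < e := Real.exp_pos 1
  have he3 : e < 3 := Real.exp_one_lt_three
  have he1 : 1 ≤ e := Real.one_le_exp zero_le_one
  refine ⟨C * 4 * C', by positivity, ?_⟩
  intro u g hu hb H r ℓ K Z hH hZ hK hKe
  have hZ0 : 0 < Z := by linarith
  have hHpos : (0 : ℝ) < H := by exact_mod_cast hH
  set A : ℝ := Real.exp ((r : ℝ) * ℓ / H) with hA
  set B : ℝ := Real.exp (((r : ℝ) + 1) * ℓ / H) with hB
  have hA1 : (1 : ℝ) ≤ A := Real.one_le_exp (by positivity)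
  have hAB : A ≤ B := by
    apply Real.exp_le_exp.2
    gcongr
    linarith
  have hA0 : 0 < A := by linarith
  have hB0 : 0 < B := by linarith
  have hZe : (1 : ℝ) ≤ Z / e := by
    rw [le_div_iff₀ he0]
    linarith
  have h1 : (1 : ℝ) ≤ Z / e * A := by nlinarith
  have h12 : Z / e * A ≤ e * Z * B := by
    have : Z / e ≤ e * Z := by
      rw [div_le_iff₀ he0]
      calc Z = 1 * Z * 1 := by ring
        _ ≤ e * Z * e := by gcongr
    gcongr
  set t := Icc ⌈Z / e * A⌉₊ ⌊e * Z * B⌋₊ with ht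
  have hmem : ∀ n ∈ t, Z / e * A ≤ (n : ℝ) ∧ (n : ℝ) ≤ e * Z * B := by
    intro n hn
    rw [ht, Finset.mem_Icc] at hn
    exact ⟨Nat.ceil_le.1 hn.1, (Nat.le_floor_iff (by positivity)).1 hn.2⟩
  have hmaps : ∀ x ∈ xmomPr P H r ℓ Z, x.2 * ∏ i, x.1 i ∈ t := by
    intro x hx
    unfold xmomPr at hx
    rw [Finset.mem_product, Finset.mem_filter] at hx
    obtain ⟨hx1, hx2, hx3⟩ := hx
    obtain ⟨h0, hl1, hl2⟩ := mom_bw_ne hx3
    have hp := mom_prod_pos (xmom_pi_sub P H r ℓ hx1)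
    obtain ⟨hq1, hq2⟩ := mom_prod_log (xmom_pi_sub P H r ℓ hx1)
    have hpr : (0 : ℝ) < ((∏ i, x.1 i : ℕ) : ℝ) := by exact_mod_cast hp
    have hx2r : (0 : ℝ) < (x.2 : ℝ) := by exact_mod_cast h0
    have hlogn : Real.log ((x.2 * ∏ i, x.1 i : ℕ) : ℝ) =
        Real.log (x.2 : ℝ) + Real.log ((∏ i, x.1 i : ℕ) : ℝ) := by
      rw [Nat.cast_mul, Real.log_mul hx2r.ne' hpr.ne']
    have hnpos : (0 : ℝ) < ((x.2 * ∏ i, x.1 i : ℕ) : ℝ) := by
      rw [Nat.cast_mul]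
      positivity
    rw [ht, Finset.mem_Icc]
    constructor
    · apply Nat.ceil_le.2
      rw [← Real.log_le_log_iff (by positivity) hnpos, hlogn, Real.log_mul (by positivity) hA0.ne',
        Real.log_div hZ0.ne' he0.ne', he, Real.log_exp, hA, Real.log_exp]
      linarith
    · apply (Nat.le_floor_iff (by positivity)).2
      rw [← Real.log_le_log_iff hnpos (by positivity), hlogn, Real.log_mul (by positivity) hB0.ne',
        Real.log_mul he0.ne' hZ0.ne', he, Real.log_exp, hB, Real.log_exp]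
      linarith
  have hlog : Real.log (e * Z * B / (Z / e * A)) = 2 + ℓ / H := by
    rw [Real.log_div (by positivity) (by positivity), Real.log_mul (by positivity) hB0.ne',
      Real.log_mul he0.ne' hZ0.ne', Real.log_mul (by positivity) hA0.ne',
      Real.log_div hZ0.ne' he0.ne', he, hA, hB, Real.log_exp, Real.log_exp, Real.log_exp]
    ring
  have hm := hmv t (momfC P u g H r ℓ Z) (Z / e * A) (e * Z * B) K h1 h12 hmem hK
  rw [hlog] at hm
  have hg := hgd H r ℓ (Z / e * A) (e * Z * B) hH h1 h12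
  rw [hlog, ← ht] at hg
  calc ∑ k ∈ FK K, ‖PPf P u H r k ^ ℓ * GGg g Z k‖ ^ 2
      = ∑ k ∈ FK K, ‖DP t (momfC P u g H r ℓ Z) k‖ ^ 2 := by
        apply Finset.sum_congr rfl
        intro k _
        rw [momf_prod_DP P u g H r ℓ Z k t hmaps]
    _ ≤ _ := hm
    _ ≤ C * (1 + (2 + (ℓ : ℝ) / H)) * ∑ n ∈ t, 4 * ((gd (cell H r) ℓ n : ℝ) ^ 2 / n) := by
        apply mul_le_mul_of_nonneg_left _ (by positivity)
        apply Finset.sum_le_sum
        intro n hn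
        have hn1 := (hmem n hn).1
        have hnpos : (0 : ℝ) < n := by linarith
        have hKn : (K : ℝ) ≤ 3 * n := by
          calc (K : ℝ) ≤ Z * A := hKe
            _ = e * (Z / e * A) := by field_simp
            _ ≤ e * n := by gcongr
            _ ≤ 3 * n := by gcongr
        have hcn := momf_C_norm P hu hb H r ℓ Z n
        calc ‖momfC P u g H r ℓ Z n‖ ^ 2 * ((n : ℝ) + K)
            ≤ ((gd (cell H r) ℓ n : ℝ) / n) ^ 2 * ((n : ℝ) + 3 * n) := by gcongr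
          _ = 4 * ((gd (cell H r) ℓ n : ℝ) ^ 2 / n) := by
              field_simp
              ring
    _ = C * (1 + (2 + (ℓ : ℝ) / H)) * (4 * ∑ n ∈ t, ((gd (cell H r) ℓ n : ℝ) ^ 2 / n)) := by
        rw [← Finset.mul_sum]
    _ ≤ C * (1 + (2 + (ℓ : ℝ) / H)) *
        (4 * (C' * (ℓ.factorial : ℝ) ^ 2 * (1 + (2 + (ℓ : ℝ) / H)))) := by gcongr
    _ = C * 4 * C' * (3 + (ℓ : ℝ) / H) ^ 2 * (ℓ.factorial : ℝ) ^ 2 := by ring

theorem mom_zeroU :
    ∃ C : ℝ, 0 < C ∧ ∀ g : ℕ → ℤ, Bdd g → ∀ (K : ℕ) (Z : ℝ), 3 ≤ Z → 1 ≤ K →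
    ∑ k ∈ FK K, ‖GGg g Z k‖ ^ 2 ≤ C * (1 + K / Z) := by
  obtain ⟨C, hC, hmv⟩ := mv
  set e := Real.exp 1 with he
  have he0 : 0 < e := Real.exp_pos 1
  have he3 : e < 3 := Real.exp_one_lt_three
  have he1 : 1 ≤ e := Real.one_le_exp zero_le_one
  refine ⟨C * 3 * e ^ 3, by positivity, ?_⟩
  intro g hb K Z hZ hK
  have hZ0 : 0 < Z := by linarith
  set t := (WN Z).filter (fun n => bw Z n ≠ 0) with ht
  have hmem : ∀ n ∈ t, Z / e ≤ (n : ℝ) ∧ (n : ℝ) ≤ e * Z := by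
    intro n hn
    rw [ht, Finset.mem_filter] at hn
    obtain ⟨h0, h1, h2⟩ := mom_bw_ne hn.2
    have hpos : (0 : ℝ) < n := by exact_mod_cast h0
    constructor
    · rw [← Real.log_le_log_iff (by positivity) hpos, Real.log_div hZ0.ne' he0.ne', he,
        Real.log_exp]
      exact h1
    · rw [← Real.log_le_log_iff hpos (by positivity), Real.log_mul he0.ne' hZ0.ne', he,
        Real.log_exp]
      linarith
  have h1 : (1 : ℝ) ≤ Z / e := by
    rw [le_div_iff₀ he0]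
    linarith
  have h12 : Z / e ≤ e * Z := by
    rw [div_le_iff₀ he0]
    calc Z = 1 * Z * 1 := by ring
      _ ≤ e * Z * e := by gcongr
  have hlog : Real.log (e * Z / (Z / e)) = 2 := by
    have : e * Z / (Z / e) = e ^ 2 := by field_simp
    rw [this, he, Real.log_pow, Real.log_exp]
    norm_num
  have hm := hmv t (fun n => (g n : ℂ) * (bw Z n : ℂ)) (Z / e) (e * Z) K h1 h12 hmem hK
  rw [hlog] at hm
  have hcard : (t.card : ℝ) ≤ e * Z := by
    have h1 : t.card ≤ ⌊e * Z⌋₊ := by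
      calc t.card ≤ (WN Z).card := Finset.card_filter_le _ _
        _ = ⌊e * Z⌋₊ := by
          unfold WN
          rw [Nat.card_Icc]
          simp [he]
    calc (t.card : ℝ) ≤ (⌊e * Z⌋₊ : ℝ) := by exact_mod_cast h1
      _ ≤ e * Z := Nat.floor_le (by positivity)
  calc ∑ k ∈ FK K, ‖GGg g Z k‖ ^ 2
      = ∑ k ∈ FK K, ‖DP t (fun n => (g n : ℂ) * (bw Z n : ℂ)) k‖ ^ 2 := by
        apply Finset.sum_congr rfl
        intro k _
        rw [xmom_GG_filter]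
    _ ≤ _ := hm
    _ ≤ C * (1 + 2) * ∑ n ∈ t, (e / Z + K * (e / Z) ^ 2) := by
        apply mul_le_mul_of_nonneg_left _ (by positivity)
        apply Finset.sum_le_sum
        intro n hn
        have hn1 := (hmem n hn).1
        have hnpos : (0 : ℝ) < n := by linarith
        have hinv : 1 / (n : ℝ) ≤ e / Z := by
          rw [div_le_div_iff₀ hnpos hZ0, one_mul]
          rw [div_le_iff₀ he0] at hn1
          linarith
        calc ‖(g n : ℂ) * (bw Z n : ℂ)‖ ^ 2 * ((n : ℝ) + K)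
            ≤ (1 / (n : ℝ)) ^ 2 * ((n : ℝ) + K) := by
              gcongr
              exact xmom_coef_norm hb Z n
          _ = 1 / (n : ℝ) + K * (1 / (n : ℝ)) ^ 2 := by
              field_simp
          _ ≤ e / Z + K * (e / Z) ^ 2 := by gcongr
    _ = C * 3 * (t.card * (e / Z + K * (e / Z) ^ 2)) := by
        rw [Finset.sum_const, nsmul_eq_mul]
        norm_num
    _ ≤ C * 3 * (e * Z * (e / Z + K * (e / Z) ^ 2)) := by gcongr
    _ = C * 3 * (e ^ 2 + e ^ 3 * (K / Z)) := by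
        field_simp
    _ ≤ C * 3 * (e ^ 3 + e ^ 3 * (K / Z)) := by
        gcongr
        norm_num
    _ = C * 3 * e ^ 3 * (1 + K / Z) := by ring

/-! ### the product -/

/-- the pairs -/
abbrev UG (P : ℕ → Prop) : Type := {p : (ℕ → ℤ) × (ℕ → ℤ) // (∀ n, |p.1 n| ≤ 1) ∧ Bdd p.2 ∧ Tw P p.1 p.2}

theorem machF_f (P : ℕ → Prop) (c : ℝ) (hc : 0 < c) (hR : Rich P c) :
    MachF (UG P) (fun i H v k => -PPf P i.1.1 H v k) (mmp P) (fun i => GGg i.1.2) := by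
  obtain ⟨C₁, hC₁, hdec⟩ := dec_fU P
  obtain ⟨C₂, hC₂, hmv⟩ := mv
  obtain ⟨β, hβ, hls⟩ := ls
  obtain ⟨Z₁, hZ₁⟩ := hls 1 one_pos
  obtain ⟨Z₂, hZ₂⟩ := Filter.eventually_atTop.mp
    (wnorm.eventually (ge_mem_nhds (show (2 / 3 : ℝ) < 1 by norm_num)))
  have hpi : Real.pi < 3.15 := Real.pi_lt_d2
  have hpi0 := Real.pi_pos
  refine ⟨fun H v => xrap_mmp_nonneg P H v, ?_, ?_, ?_, ?_, ?_, ?_, ?_, ?_⟩
  · intro i H v k
    rw [norm_neg]
    exact PPf_le P i.2.1 H v k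
  · obtain ⟨C, hC⟩ := hR.1
    exact ⟨c, hc, C, hC⟩
  · obtain ⟨c', h1, h2, h3⟩ := cell_fU P c hc hR
    refine ⟨c', h1, h2, fun M H hH => ?_⟩
    obtain ⟨T₀, V₀, h4⟩ := h3 M H hH
    refine ⟨T₀, V₀, fun i v hv k hk1 hk2 => ?_⟩
    rw [norm_neg]
    exact h4 i.1.1 i.2.1 v hv k hk1 hk2
  · -- dec
    have he2 : 1 ≤ Real.exp 2 := Real.one_le_exp (by norm_num)
    have he20 : 0 < Real.exp 2 := Real.exp_pos 2
    refine ⟨max (C₂ * 5 * (1 + Real.exp 2) * C₁) (8 * C₁), lt_of_lt_of_le (by positivity)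
      (le_max_right _ _), β, hβ, Z₁, fun i H v₀ v₁ hH hv₀ hW Y hY => ?_⟩
    obtain ⟨s, a, hs, hGG, ha⟩ := hdec i.1.1 i.1.2 i.2.2.1 i.2.2.2 H v₀ v₁ hH hW Y hY
    have hW' : WWp P H v₀ v₁ = ∑ v ∈ Ico v₀ v₁, mmp P H v := rfl
    have hY1 : 1 ≤ Y := by
      refine le_trans ?_ hY
      exact Real.one_le_exp (by positivity)
    refine ⟨fun k => DP s a k, ?_, ?_, ?_⟩
    · intro k
      have h1 := hGG k
      rw [h1, hW']
      congr 1
      simp only [neg_mul, Finset.sum_neg_distrib, mul_neg, neg_neg]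
    · intro K hK hKY
      -- the elements of s are at least 1
      have hs' : ∀ n ∈ s, max 1 (Y / Real.exp 2) ≤ (n : ℝ) ∧ (n : ℝ) ≤ Real.exp 2 * Y := by
        intro n hn
        obtain ⟨h1, h2⟩ := hs n hn
        refine ⟨max_le ?_ h1, h2⟩
        have h3 : 0 < (n : ℝ) := lt_of_lt_of_le (by positivity) h1
        have h4 : 0 < n := by exact_mod_cast h3
        exact_mod_cast h4
      have h12 : max 1 (Y / Real.exp 2) ≤ Real.exp 2 * Y := by
        apply max_le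
        · nlinarith
        · rw [div_le_iff₀ he20]
          nlinarith [mul_le_mul he2 he2 zero_le_one he20.le]
      have hm := hmv s a (max 1 (Y / Real.exp 2)) (Real.exp 2 * Y) K (le_max_left _ _) h12 hs' hK
      have hlog : Real.log (Real.exp 2 * Y / max 1 (Y / Real.exp 2)) ≤ 4 := by
        rw [Real.log_le_iff_le_exp (by positivity)]
        rw [div_le_iff₀ (by positivity)]
        have h5 : Real.exp 4 = Real.exp 2 * Real.exp 2 := by
          rw [← Real.exp_add]; norm_num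
        rw [h5]
        have h6 : Y / Real.exp 2 ≤ max 1 (Y / Real.exp 2) := le_max_right _ _
        have h7 : Y = Real.exp 2 * (Y / Real.exp 2) := by field_simp
        calc Real.exp 2 * Y = Real.exp 2 * Real.exp 2 * (Y / Real.exp 2) := by
              field_simp
          _ ≤ _ := mul_le_mul_of_nonneg_left h6 (by positivity)
      have hsum : ∑ n ∈ s, ‖a n‖ ^ 2 * ((n : ℝ) + K) ≤
          (1 + Real.exp 2) * ∑ n ∈ s, (n : ℝ) * ‖a n‖ ^ 2 := by
        rw [Finset.mul_sum]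
        refine Finset.sum_le_sum fun n hn => ?_
        obtain ⟨h1, -⟩ := hs n hn
        rw [div_le_iff₀ he20] at h1
        have h2 : (K : ℝ) ≤ Real.exp 2 * n := by linarith
        have h3 : 0 ≤ ‖a n‖ ^ 2 := by positivity
        nlinarith
      have hS0 : 0 ≤ ∑ n ∈ s, (n : ℝ) * ‖a n‖ ^ 2 := Finset.sum_nonneg fun n _ => by positivity
      have hR0 : 0 ≤ 1 / (∑ v ∈ Ico v₀ v₁, mmp P H v) + 1 / (H : ℝ) ^ 2 := by
        have : 0 ≤ ∑ v ∈ Ico v₀ v₁, mmp P H v := by linarith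
        positivity
      calc ∑ k ∈ FK K, ‖DP s a k‖ ^ 2 ≤ _ := hm
        _ ≤ C₂ * 5 * ((1 + Real.exp 2) * ∑ n ∈ s, (n : ℝ) * ‖a n‖ ^ 2) := by
            refine mul_le_mul ?_ hsum (Finset.sum_nonneg fun n _ => by positivity) (by positivity)
            exact mul_le_mul_of_nonneg_left (by linarith) hC₂.le
        _ ≤ C₂ * 5 * ((1 + Real.exp 2) * (C₁ * (1 / (∑ v ∈ Ico v₀ v₁, mmp P H v) +
              1 / (H : ℝ) ^ 2))) := by
            refine mul_le_mul_of_nonneg_left ?_ (by positivity)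
            exact mul_le_mul_of_nonneg_left ha (by positivity)
        _ = (C₂ * 5 * (1 + Real.exp 2) * C₁) * (1 / (∑ v ∈ Ico v₀ v₁, mmp P H v) +
              1 / (H : ℝ) ^ 2) := by ring
        _ ≤ _ := mul_le_mul_of_nonneg_right (le_max_left _ _) hR0
    · intro hZY U hU hcard
      have h1 := hZ₁ Y hZY U hU hcard s a hs
      have hR0 : 0 ≤ 1 / (∑ v ∈ Ico v₀ v₁, mmp P H v) + 1 / (H : ℝ) ^ 2 := by
        have : 0 ≤ ∑ v ∈ Ico v₀ v₁, mmp P H v := by linarith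
        positivity
      calc ∑ k ∈ U, ‖DP s a k‖ ^ 2 ≤ _ := h1
        _ ≤ 8 * (C₁ * (1 / (∑ v ∈ Ico v₀ v₁, mmp P H v) + 1 / (H : ℝ) ^ 2)) := by
            refine mul_le_mul (by linarith) ha (Finset.sum_nonneg fun n _ => by positivity)
              (by norm_num)
        _ = (8 * C₁) * (1 / (∑ v ∈ Ico v₀ v₁, mmp P H v) + 1 / (H : ℝ) ^ 2) := by ring
        _ ≤ _ := mul_le_mul_of_nonneg_right (le_max_right _ _) hR0
  · obtain ⟨C, hC, h⟩ := mom_zeroU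
    exact ⟨C, hC, fun i => h i.1.2 i.2.2.1⟩
  · -- momP
    obtain ⟨C, hC, h⟩ := momP_fU P
    refine ⟨4 * (C + 1), by linarith, fun i H r ℓ K hH hK hKe => ?_⟩
    have h1 := h i.1.1 i.2.1 H r ℓ K hH hK hKe
    have e1 : ∀ k, ‖-PPf P i.1.1 H r k‖ ^ (2 * ℓ) = ‖PPf P i.1.1 H r k‖ ^ (2 * ℓ) := fun k => by
      rw [norm_neg]
    rw [Finset.sum_congr rfl fun k _ => e1 k]
    refine h1.trans ?_
    have hH1 : (1 : ℝ) ≤ H := by exact_mod_cast hH
    have h2 : 1 + (ℓ : ℝ) / H ≤ 2 ^ ℓ := by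
      have h3 : (ℓ : ℝ) / H ≤ ℓ := div_le_self (Nat.cast_nonneg _) hH1
      have := succ_le_two_pow ℓ
      linarith
    have h3 : (ℓ.factorial : ℝ) ≤ (ℓ.factorial : ℝ) ^ 8 := by
      have := fac8_ge ℓ 1 (by norm_num)
      rwa [pow_one] at this
    calc C * (1 + (ℓ : ℝ) / H) * 2 ^ ℓ * (ℓ.factorial : ℝ)
        ≤ (C + 1) * 2 ^ ℓ * 2 ^ ℓ * (ℓ.factorial : ℝ) ^ 8 := by gcongr; linarith
      _ = (C + 1) * 4 ^ ℓ * (ℓ.factorial : ℝ) ^ 8 := by
          rw [show (4 : ℝ) = 2 * 2 by norm_num, mul_pow]; ring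
      _ ≤ (4 * (C + 1)) ^ (ℓ + 1) * (ℓ.factorial : ℝ) ^ 8 := by
          refine mul_le_mul_of_nonneg_right ?_ (by positivity)
          rw [mul_pow, pow_succ 4 ℓ, pow_succ (C + 1) ℓ]
          have h5 : 1 ≤ (C + 1) ^ ℓ := one_le_pow₀ (by linarith)
          have h6 : (0 : ℝ) < 4 ^ ℓ := by positivity
          have h7 : (C + 1) * 4 ^ ℓ ≤ (C + 1) ^ ℓ * ((C + 1) * 4 ^ ℓ) :=
            le_mul_of_one_le_left (by positivity) h5
          nlinarith [mul_pos (mul_pos h6 (by linarith : (0:ℝ) < C + 1)) (by positivity : 0 < (C + 1) ^ ℓ)]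
  · -- mom
    obtain ⟨C, hC, h⟩ := mom_fU P
    refine ⟨9 * (C + 1) * 4, by linarith, fun i H r ℓ K Z hH hZ hK hKe => ?_⟩
    have h1 := h i.1.1 i.1.2 i.2.1 i.2.2.1 H r ℓ K Z hH hZ hK hKe
    have e1 : ∀ k, ‖(-PPf P i.1.1 H r k) ^ ℓ * GGg i.1.2 Z k‖ ^ 2 = ‖PPf P i.1.1 H r k ^ ℓ * GGg i.1.2 Z k‖ ^ 2 := by
      intro k
      rw [norm_mul, norm_mul, norm_pow, norm_pow, norm_neg]
    rw [Finset.sum_congr rfl fun k _ => e1 k]
    refine h1.trans ?_
    have hH1 : (1 : ℝ) ≤ H := by exact_mod_cast hH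
    have h2 : 3 + (ℓ : ℝ) / H ≤ 3 * 2 ^ ℓ := by
      have h3 : (ℓ : ℝ) / H ≤ ℓ := div_le_self (Nat.cast_nonneg _) hH1
      have := succ_le_two_pow ℓ
      have : (0 : ℝ) ≤ ℓ := Nat.cast_nonneg _
      linarith
    have h3 := fac8_ge ℓ 2 (by norm_num)
    calc C * (3 + (ℓ : ℝ) / H) ^ 2 * (ℓ.factorial : ℝ) ^ 2
        ≤ (C + 1) * (3 * 2 ^ ℓ) ^ 2 * (ℓ.factorial : ℝ) ^ 8 := by gcongr; linarith
      _ = 9 * (C + 1) * 4 ^ ℓ * (ℓ.factorial : ℝ) ^ 8 := by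
          have e4 : (3 * (2 : ℝ) ^ ℓ) ^ 2 = 9 * 4 ^ ℓ := by
            have e5 : (4 : ℝ) ^ ℓ = 2 ^ ℓ * 2 ^ ℓ := by rw [← mul_pow]; norm_num
            rw [e5]; ring
          rw [e4]; ring
      _ ≤ (9 * (C + 1) * 4) ^ (ℓ + 1) * (ℓ.factorial : ℝ) ^ 8 := by
          refine mul_le_mul_of_nonneg_right ?_ (by positivity)
          rw [mul_pow, pow_succ 4 ℓ, pow_succ (9 * (C + 1)) ℓ]
          have h5 : 1 ≤ (9 * (C + 1)) ^ ℓ := one_le_pow₀ (by linarith)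
          have h6 : (0 : ℝ) < 4 ^ ℓ := by positivity
          have h7 : 9 * (C + 1) * 4 ^ ℓ ≤ (9 * (C + 1)) ^ ℓ * (9 * (C + 1) * 4 ^ ℓ) :=
            le_mul_of_one_le_left (by positivity) h5
          nlinarith [mul_pos (mul_pos h6 (by linarith : (0:ℝ) < 9 * (C + 1)))
            (by positivity : 0 < (9 * (C + 1)) ^ ℓ)]
  · -- sparse
    refine ⟨8, by norm_num, β, hβ, max 1 (max Z₁ Z₂), fun i Z hZ U hU hcard => ?_⟩
    have hZ1 : 1 ≤ Z := (le_max_left _ _).trans hZ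
    have hZZ₁ : Z₁ ≤ Z := ((le_max_left _ _).trans (le_max_right _ _)).trans hZ
    have hZZ₂ : Z₂ ≤ Z := ((le_max_right _ _).trans (le_max_right _ _)).trans hZ
    refine (xupart_GG i.1.2 i.2.2.1 Z (by linarith) _ (by positivity) U (hZ₁ Z hZZ₁ U hU hcard)).trans ?_
    refine (mul_le_mul_of_nonneg_left (hZ₂ Z hZZ₂) (by positivity)).trans ?_
    linarith

/-- large frequencies, uniformly -/
theorem mr_largeU (P : ℕ → Prop) (c : ℝ) (hc : 0 < c) (hR : Rich P c) (η : ℝ) (hη : 0 < η) :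
    ∃ T₀ : ℕ, ∃ h : ℝ, 1 ≤ h ∧ ∃ Y₀ : ℝ, ∀ u g : ℕ → ℤ, (∀ n, |u n| ≤ 1) → Bdd g → Tw P u g → ∀ Y : ℝ, Y₀ ≤ Y →
    ∑ k ∈ (FK ⌊Y / h⌋₊).filter (fun k : ℤ => T₀ ≤ k.natAbs), ‖GGg g Y k‖ ^ 2 ≤ η := by
  obtain ⟨T₀, h, hh, Y₀, h1⟩ := mach (machF_f P c hc hR) η hη
  exact ⟨T₀, h, hh, Y₀, fun u g hu hb hf Y hY => h1 ⟨(u, g), hu, hb, hf⟩ Y hY⟩

end Pool.Agent.R512.U
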