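import Pool.Agent.R512.U.MDefs

/-!
Library R512.U (helper512): the levels of the machine and the count of the bad frequencies, for families.
Adapted from `Y872/L/M/LevA`, `LevB`, `Cnt`.
-/

set_option autoImplicit false

namespace Pool.Agent.R512.U

open Finset Filter
open Pool.Agent.H376R2.MR
open Pool.Agent.Y872.L.M (SmA SmjA levb_real' xlevb_vr' cnt_asymA cnt_oneA)

variable {ι : Type} {P : ι → ℕ → ℕ → ℤ → ℂ} {m : ℕ → ℕ → ℝ} {G : ι → ℝ → ℤ → ℂ}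

theorem leva (hM : MachF ι P m G) :
    ∃ C : ℝ, 0 < C ∧ ∀ α : ℝ, 0 < α → α ≤ 1 → ∃ L₀ : ℕ, ∀ L : ℕ, L₀ ≤ L →
    ∀ ix, ∀ (Y : ℝ) (K : ℕ), Real.exp (4 * (L : ℝ) ^ 2) ≤ Y → 1 ≤ K → (K : ℝ) * Real.exp ((L : ℝ) ^ 2) ≤ Y →
    (open scoped Classical in
      ∑ k ∈ (FK K).filter (fun k => SmjA (P ix) L α 0 k), ‖G ix Y k‖ ^ 2) ≤ C / Real.log L := by
  classical
  obtain ⟨c, hc, C₄, hWW⟩ := hM.rich
  obtain ⟨C₁, hC₁, β, hβ, Z₀, hdec⟩ := hM.dec
  obtain ⟨C₃, hC₃, hmom⟩ := hM.mom_zero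
  refine ⟨4 * C₃ + 2 * C₁ * (2 / c + 1), by positivity, fun α hα hα1 => ?_⟩
  obtain ⟨L₁, hL₁⟩ := leva_decay α hα
  have hlogt : Tendsto (fun L : ℕ => Real.log L) atTop atTop :=
    Real.tendsto_log_atTop.comp tendsto_natCast_atTop_atTop
  obtain ⟨L₂, hL₂⟩ := Filter.eventually_atTop.mp (hlogt.eventually_ge_atTop ((2 * |C₄| + 2) / c))
  refine ⟨max (max L₁ L₂) 1, fun L hL ix Y K hY hK hKY => ?_⟩
  have hL1 : 1 ≤ L := (le_max_right _ _).trans hL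
  have hLa : L₁ ≤ L := ((le_max_left _ _).trans (le_max_left _ _)).trans hL
  have hLb : L₂ ≤ L := ((le_max_right _ _).trans (le_max_left _ _)).trans hL
  have hL1' : (1 : ℝ) ≤ L := by exact_mod_cast hL1
  have hlog0 : (2 * |C₄| + 2) / c ≤ Real.log L := hL₂ L hLb
  have hlogpos : 0 < Real.log L := lt_of_lt_of_le (by positivity) hlog0
  have hlog : 2 * |C₄| + 2 ≤ c * Real.log L := by
    rw [div_le_iff₀ hc] at hlog0; linarith
  have hC4 := le_abs_self C₄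
  have hC4' := abs_nonneg C₄
  have hYpos : 0 < Y := (Real.exp_pos _).trans_le hY
  set W : ℝ := ∑ v ∈ Ico (L ^ 2) (L ^ 3), m L v with hW
  have hWlog : c * Real.log L - C₄ ≤ W := by
    have h := hWW L (L ^ 2) (L ^ 3) hL1 (by nlinarith) (Nat.pow_le_pow_right hL1 (by norm_num))
    have e : (((L ^ 3 : ℕ) : ℝ) / ((L ^ 2 : ℕ) : ℝ)) = L := by
      push_cast
      field_simp
    rw [e] at h
    exact h
  have hW1 : 1 ≤ W := by linarith
  have hW2 : c * Real.log L / 2 ≤ W := by linarith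
  have hLpos : (0 : ℝ) < L := by linarith
  obtain ⟨E, hGG, hE, -⟩ := hdec ix L (L ^ 2) (L ^ 3) hL1 (by nlinarith) hW1 Y (by
    have e : 4 * (((L ^ 3 : ℕ) : ℝ)) / (L : ℝ) = 4 * (L : ℝ) ^ 2 := by
      push_cast; field_simp
    rw [e]; exact hY)
  have hexpL : (1 : ℝ) ≤ Real.exp ((L : ℝ) ^ 2) := Real.one_le_exp (by positivity)
  have hKY' : (K : ℝ) ≤ Y := by
    have : (K : ℝ) * 1 ≤ K * Real.exp ((L : ℝ) ^ 2) :=
      mul_le_mul_of_nonneg_left hexpL (Nat.cast_nonneg _)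
    linarith
  have herr := hE K hK hKY'
  -- the main part
  set ρ : ℝ := Real.exp (-(α * L)) with hρ
  have hρ0 : 0 < ρ := Real.exp_pos _
  have hmain : ∀ k ∈ (FK K).filter (fun k => SmjA (P ix) L α 0 k), ‖(G ix) Y k‖ ^ 2 ≤
      2 * ((L : ℝ) ^ 3 * ρ * ∑ v ∈ Ico (L ^ 2) (L ^ 3), ‖(G ix) (Y * Real.exp (-((v : ℝ) / L))) k‖ ^ 2) +
        2 * ‖E k‖ ^ 2 := by
    intro k hk
    have hk2 := (Finset.mem_filter.mp hk).2
    rw [hGG k]
    have hP : ∀ v ∈ Ico (L ^ 2) (L ^ 3), ‖(P ix) L v k‖ ^ 2 ≤ ρ := by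
      intro v hv
      have hk3 : ‖(P ix) (LL L 0) v k‖ ≤ Real.exp (-(aa α 0 * v / (LL L 0 : ℕ))) :=
        hk2 v (by simpa [LL] using hv)
      have e0 : LL L 0 = L := by simp [LL]
      rw [e0] at hk3
      have e1 : aa α 0 = α / 2 := by simp only [aa]; norm_num; ring
      rw [e1] at hk3
      have hv1 : ((L : ℝ)) ^ 2 ≤ v := by exact_mod_cast (Finset.mem_Ico.mp hv).1
      have h6 : Real.exp (-(α / 2 * v / L)) ^ 2 ≤ ρ := by
        rw [hρ, ← Real.exp_nat_mul]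
        apply Real.exp_le_exp.mpr
        push_cast
        have : (L : ℝ) ≤ v / L := by
          rw [le_div_iff₀ hLpos]; nlinarith
        have h7 : α * L ≤ α * (v / L) := mul_le_mul_of_nonneg_left this hα.le
        have h8 : 2 * -(α / 2 * (v : ℝ) / L) = -(α * (v / L)) := by ring
        rw [h8]
        linarith
      exact (pow_le_pow_left₀ (norm_nonneg _) hk3 2).trans h6
    have h9 := leva_cs (Ico (L ^ 2) (L ^ 3)) W hW1 (fun v => (P ix) L v k)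
      (fun v => (G ix) (Y * Real.exp (-((v : ℝ) / L))) k) (E k) ρ hP
    refine h9.trans ?_
    have hcard : ((Ico (L ^ 2) (L ^ 3)).card : ℝ) ≤ (L : ℝ) ^ 3 := by
      rw [Nat.card_Ico]
      exact_mod_cast Nat.sub_le _ _
    have hS : 0 ≤ ∑ v ∈ Ico (L ^ 2) (L ^ 3), ‖(G ix) (Y * Real.exp (-((v : ℝ) / L))) k‖ ^ 2 :=
      Finset.sum_nonneg fun v _ => sq_nonneg _
    have : ((Ico (L ^ 2) (L ^ 3)).card : ℝ) * ρ *
        ∑ v ∈ Ico (L ^ 2) (L ^ 3), ‖(G ix) (Y * Real.exp (-((v : ℝ) / L))) k‖ ^ 2 ≤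
        (L : ℝ) ^ 3 * ρ * ∑ v ∈ Ico (L ^ 2) (L ^ 3), ‖(G ix) (Y * Real.exp (-((v : ℝ) / L))) k‖ ^ 2 :=
      mul_le_mul_of_nonneg_right (mul_le_mul_of_nonneg_right hcard hρ0.le) hS
    linarith
  have hv : ∀ v ∈ Ico (L ^ 2) (L ^ 3),
      ∑ k ∈ FK K, ‖(G ix) (Y * Real.exp (-((v : ℝ) / L))) k‖ ^ 2 ≤ 2 * C₃ := by
    intro v hv
    have hv2 : (v : ℝ) / L ≤ (L : ℝ) ^ 2 := by
      rw [div_le_iff₀ hLpos]
      have : (v : ℝ) ≤ (L : ℝ) ^ 3 := by exact_mod_cast (Finset.mem_Ico.mp hv).2.le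
      nlinarith
    set Z : ℝ := Y * Real.exp (-((v : ℝ) / L)) with hZ
    have hZ1 : Y * Real.exp (-((L : ℝ) ^ 2)) ≤ Z :=
      mul_le_mul_of_nonneg_left (Real.exp_le_exp.mpr (by linarith)) hYpos.le
    have hZK : (K : ℝ) ≤ Z := by
      refine le_trans ?_ hZ1
      rw [Real.exp_neg, ← div_eq_mul_inv, le_div_iff₀ (Real.exp_pos _)]
      exact hKY
    have hZ3 : 3 ≤ Z := by
      refine le_trans ?_ hZ1
      have h5 : Real.exp (4 * (L : ℝ) ^ 2) * Real.exp (-((L : ℝ) ^ 2)) ≤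
          Y * Real.exp (-((L : ℝ) ^ 2)) :=
        mul_le_mul_of_nonneg_right hY (Real.exp_pos _).le
      rw [← Real.exp_add] at h5
      have h6 := Real.add_one_le_exp (4 * (L : ℝ) ^ 2 + -((L : ℝ) ^ 2))
      nlinarith
    have hZpos : 0 < Z := by linarith
    refine (hmom ix K Z hZ3 hK).trans ?_
    have : (K : ℝ) / Z ≤ 1 := by rw [div_le_one hZpos]; exact hZK
    nlinarith
  calc ∑ k ∈ (FK K).filter (fun k => SmjA (P ix) L α 0 k), ‖(G ix) Y k‖ ^ 2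
      ≤ ∑ k ∈ (FK K).filter (fun k => SmjA (P ix) L α 0 k),
        (2 * ((L : ℝ) ^ 3 * ρ *
          ∑ v ∈ Ico (L ^ 2) (L ^ 3), ‖(G ix) (Y * Real.exp (-((v : ℝ) / L))) k‖ ^ 2) +
        2 * ‖E k‖ ^ 2) := Finset.sum_le_sum hmain
    _ ≤ ∑ k ∈ FK K,
        (2 * ((L : ℝ) ^ 3 * ρ *
          ∑ v ∈ Ico (L ^ 2) (L ^ 3), ‖(G ix) (Y * Real.exp (-((v : ℝ) / L))) k‖ ^ 2) +
        2 * ‖E k‖ ^ 2) := by
        refine Finset.sum_le_sum_of_subset_of_nonneg (Finset.filter_subset _ _) ?_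
        intro k _ _
        positivity
    _ = 2 * ((L : ℝ) ^ 3 * ρ) * (∑ v ∈ Ico (L ^ 2) (L ^ 3),
          ∑ k ∈ FK K, ‖(G ix) (Y * Real.exp (-((v : ℝ) / L))) k‖ ^ 2) +
        2 * ∑ k ∈ FK K, ‖E k‖ ^ 2 := by
        rw [Finset.sum_add_distrib, ← Finset.mul_sum, ← Finset.mul_sum, ← Finset.mul_sum,
          Finset.sum_comm]
        ring
    _ ≤ 2 * ((L : ℝ) ^ 3 * ρ) * ((L : ℝ) ^ 3 * (2 * C₃)) +
        2 * (C₁ * (1 / W + 1 / (L : ℝ) ^ 2)) := by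
        refine add_le_add (mul_le_mul_of_nonneg_left ?_ (by positivity)) ?_
        · refine (Finset.sum_le_card_nsmul _ _ _ hv).trans ?_
          rw [nsmul_eq_mul, Nat.card_Ico]
          refine mul_le_mul_of_nonneg_right ?_ (by positivity)
          exact_mod_cast Nat.sub_le _ _
        · exact mul_le_mul_of_nonneg_left herr (by norm_num)
    _ ≤ (4 * C₃ + 2 * C₁ * (2 / c + 1)) / Real.log L := by
        rw [le_div_iff₀ hlogpos, add_mul]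
        have h1 := hL₁ L hLa
        have h2 : 1 / W * Real.log L ≤ 2 / c := by
          rw [one_div, inv_mul_le_iff₀ (by linarith), ← div_le_iff₀ (by positivity)]
          have e9 : Real.log L / (2 / c) = c * Real.log L / 2 := by
            field_simp
          rw [e9]; exact hW2
        have h3 : 1 / (L : ℝ) ^ 2 * Real.log L ≤ 1 := by
          rw [one_div, inv_mul_le_iff₀ (by positivity), mul_one]
          have : Real.log L ≤ L := (Real.log_le_sub_one_of_pos (by linarith)).trans (by linarith)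
          nlinarith
        have h4 : 2 * ((L : ℝ) ^ 3 * ρ) * ((L : ℝ) ^ 3 * (2 * C₃)) * Real.log L =
            4 * C₃ * ((L : ℝ) ^ 6 * ρ * Real.log L) := by ring
        have h5 : 2 * (C₁ * (1 / W + 1 / (L : ℝ) ^ 2)) * Real.log L =
            2 * C₁ * (1 / W * Real.log L + 1 / (L : ℝ) ^ 2 * Real.log L) := by ring
        rw [h4, h5]
        have h6 : 4 * C₃ * ((L : ℝ) ^ 6 * ρ * Real.log L) ≤ 4 * C₃ * 1 :=
          mul_le_mul_of_nonneg_left h1 (by positivity)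
        have h7 : 2 * C₁ * (1 / W * Real.log L + 1 / (L : ℝ) ^ 2 * Real.log L) ≤
            2 * C₁ * (2 / c + 1) := mul_le_mul_of_nonneg_left (by linarith) (by positivity)
        linarith

theorem levb (hM : MachF ι P m G) :
    ∃ C : ℝ, 0 < C ∧ ∀ α : ℝ, 0 < α → α ≤ 1 → ∃ L₀ : ℕ, ∀ L : ℕ, L₀ ≤ L →
    ∀ ix, ∀ (j : ℕ) (Y : ℝ) (K : ℕ), Real.exp (4 * (LL L (j + 1) : ℝ) ^ 2) ≤ Y → 1 ≤ K → (K : ℝ) ≤ Y →
    (open scoped Classical in
      ∑ k ∈ (FK K).filter (fun k => SmjA (P ix) L α (j + 1) k ∧ ¬ SmjA (P ix) L α j k), ‖G ix Y k‖ ^ 2) ≤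
      C / (3 ^ (j + 1) * Real.log L) := by
  classical
  obtain ⟨c, hc, CW', hWW⟩ := hM.rich
  obtain ⟨CD, hCD, β, hβ, Z₀, hdec⟩ := hM.dec
  obtain ⟨C₀, hC₀1, hmom⟩ := hM.mom
  have hC₀ : 0 < C₀ := by linarith
  obtain ⟨CW, hCWdef⟩ : ∃ CW : ℝ, CW = |CW'| := ⟨_, rfl⟩
  have hCW0 : 0 ≤ CW := by rw [hCWdef]; exact abs_nonneg _
  have hCW1 : CW' ≤ CW := by rw [hCWdef]; exact le_abs_self _
  obtain ⟨CB, hCBdef⟩ : ∃ CB : ℝ, CB = (2 * CW + 2) / c := ⟨_, rfl⟩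
  have hCB0 : 0 < CB := by rw [hCBdef]; positivity
  have hcCB : c * CB = 2 * CW + 2 := by rw [hCBdef]; field_simp
  obtain ⟨κ, hκdef⟩ : ∃ κ : ℝ, κ = 2 / c + 1 := ⟨_, rfl⟩
  have hκ0 : 0 < κ := by rw [hκdef]; positivity
  refine ⟨1 + 2 * (CD * κ), by positivity, fun α hα hα1 => ?_⟩
  refine ⟨max (max 4 ⌈C₀⌉₊) (max ⌈(520 / α) ^ 2⌉₊ ⌈Real.exp CB⌉₊), fun L hL ix j Y K hY hK hKY => ?_⟩
  have hL4 : 4 ≤ L := le_trans (le_trans (le_max_left _ _) (le_max_left _ _)) hL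
  have hCL : C₀ ≤ (L : ℝ) := by
    have h1 : ⌈C₀⌉₊ ≤ L := le_trans (le_trans (le_max_right _ _) (le_max_left _ _)) hL
    exact (Nat.le_ceil _).trans (by exact_mod_cast h1)
  have hL2 : (520 / α) ^ 2 ≤ (L : ℝ) := by
    have h1 : ⌈(520 / α) ^ 2⌉₊ ≤ L := le_trans (le_trans (le_max_left _ _) (le_max_right _ _)) hL
    exact (Nat.le_ceil _).trans (by exact_mod_cast h1)
  have hL3 : Real.exp CB ≤ (L : ℝ) := by
    have h1 : ⌈Real.exp CB⌉₊ ≤ L :=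
      le_trans (le_trans (le_max_right _ _) (le_max_right _ _)) hL
    exact (Nat.le_ceil _).trans (by exact_mod_cast h1)
  have hLr : (4 : ℝ) ≤ L := by exact_mod_cast hL4
  have hLα : 520 ≤ α * Real.sqrt L := by
    have h1 : 520 / α ≤ Real.sqrt L := Real.le_sqrt_of_sq_le hL2
    rw [div_le_iff₀ hα] at h1
    linarith
  have hlogL : CB ≤ Real.log L := by
    rw [Real.le_log_iff_exp_le (by linarith)]
    exact hL3
  -- the two levels
  set lN : ℕ := LL L j with hlN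
  have hhN : LL L (j + 1) = lN ^ 3 := levb_LL_succ L j
  set hN : ℕ := LL L (j + 1) with hhNdef
  have hl1 : 1 ≤ lN := Nat.one_le_pow _ _ (by omega)
  have hh1 : 1 ≤ hN := Nat.one_le_pow _ _ (by omega)
  have hlr : (1 : ℝ) ≤ lN := by exact_mod_cast hl1
  have hhr : (1 : ℝ) ≤ hN := by exact_mod_cast hh1
  have hlreal : (lN : ℝ) = (L : ℝ) ^ 3 ^ j := by
    rw [hlN]
    unfold LL
    push_cast
    rfl
  have hhreal : (hN : ℝ) = (lN : ℝ) ^ 3 := by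
    rw [hhN]
    push_cast
    rfl
  have hlogl : 3 * Real.log (lN : ℝ) = 3 ^ (j + 1) * Real.log L := by
    rw [hlreal, Real.log_pow]
    push_cast
    ring
  have hlogh : Real.log (hN : ℝ) = 3 ^ (j + 1) * Real.log L := by
    rw [hhreal, Real.log_pow, ← hlogl]
    push_cast
    ring
  set D : ℝ := 3 ^ (j + 1) * Real.log L with hD
  have h3j : (1 : ℝ) ≤ 3 ^ (j + 1) := one_le_pow₀ (by norm_num)
  have hDge : CB ≤ D := by
    rw [hD]
    nlinarith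
  have hD0 : 0 < D := by linarith
  -- `W`
  have hhh2 : hN ≤ hN ^ 2 := Nat.le_self_pow (by norm_num) _
  have hh23 : hN ^ 2 ≤ hN ^ 3 := Nat.pow_le_pow_right hh1 (by norm_num)
  have hWb := hWW hN (hN ^ 2) (hN ^ 3) hh1 hhh2 hh23
  have hratio : ((hN ^ 3 : ℕ) : ℝ) / ((hN ^ 2 : ℕ) : ℝ) = hN := by
    push_cast
    field_simp
  rw [hratio, hlogh] at hWb
  set W := ∑ v ∈ Ico (hN ^ 2) (hN ^ 3), m hN v with hWdef
  have hcD : 2 * CW + 2 ≤ c * D := by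
    rw [← hcCB]
    exact mul_le_mul_of_nonneg_left hDge hc.le
  have hWge : c * D / 2 ≤ W := by linarith
  have hW1 : 1 ≤ W := by linarith
  have hYdec : Real.exp (4 * ((hN ^ 3 : ℕ) : ℝ) / hN) ≤ Y := by
    have : 4 * ((hN ^ 3 : ℕ) : ℝ) / hN = 4 * (hN : ℝ) ^ 2 := by
      push_cast
      field_simp
    rw [this]
    exact hY
  obtain ⟨E, hGG, hE, -⟩ := hdec ix hN (hN ^ 2) (hN ^ 3) hh1 hhh2 hW1 Y hYdec
  -- second part
  have hpart2 : ∑ k ∈ FK K, ‖E k‖ ^ 2 ≤ CD * κ / D := by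
    have h5 : 1 / W + 1 / (hN : ℝ) ^ 2 ≤ κ / D := by
      have h6 : 1 / W ≤ (2 / c) / D := by
        rw [div_div, div_le_div_iff₀ (by linarith) (by positivity)]
        linarith
      have h7 : 1 / (hN : ℝ) ^ 2 ≤ 1 / D := by
        apply one_div_le_one_div_of_le hD0
        rw [← hlogh]
        have := Real.log_le_sub_one_of_pos (show (0:ℝ) < hN by linarith)
        nlinarith
      have h8 : κ / D = (2 / c) / D + 1 / D := by rw [hκdef]; ring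
      rw [h8]
      linarith
    calc ∑ k ∈ FK K, ‖E k‖ ^ 2 ≤ CD * (1 / W + 1 / (hN : ℝ) ^ 2) := hE K hK hKY
      _ ≤ CD * (κ / D) := mul_le_mul_of_nonneg_left h5 hCD.le
      _ = _ := by ring
  -- first part
  set T := (FK K).filter (fun k => SmjA (P ix) L α (j + 1) k ∧ ¬ SmjA (P ix) L α j k) with hT
  have hTs : T ⊆ FK K := Finset.filter_subset _ _
  have hvbound : ∀ v ∈ Ico (hN ^ 2) (hN ^ 3),
      ∑ k ∈ T, ‖(P ix) hN v k * (G ix) (Y * Real.exp (-((v : ℝ) / hN))) k‖ ^ 2 ≤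
        (lN : ℝ) ^ 3 * (1 / D / (2 * (lN : ℝ) ^ 21)) := by
    intro v hv
    rw [Finset.mem_Ico] at hv
    have hcover : ∀ k ∈ T, ‖(P ix) hN v k * (G ix) (Y * Real.exp (-((v : ℝ) / hN))) k‖ ^ 2 ≤
        ∑ r ∈ Ico (lN ^ 2) (lN ^ 3), (if Real.exp (-(aa α j * r / lN)) < ‖(P ix) lN r k‖ then
          ‖(P ix) hN v k * (G ix) (Y * Real.exp (-((v : ℝ) / hN))) k‖ ^ 2 else 0) := by
      intro k hk
      rw [hT, Finset.mem_filter] at hk
      have h1 := hk.2.2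
      unfold SmjA SmA at h1
      push Not at h1
      obtain ⟨r, hr, hr2⟩ := h1
      have h2 := Finset.single_le_sum (f := fun r : ℕ => (if Real.exp (-(aa α j * r / lN)) < ‖(P ix) lN r k‖
          then ‖(P ix) hN v k * (G ix) (Y * Real.exp (-((v : ℝ) / hN))) k‖ ^ 2 else 0))
          (fun r _ => by split_ifs <;> positivity) hr
      rw [if_pos hr2] at h2
      exact h2
    refine (Finset.sum_le_sum hcover).trans ?_
    rw [Finset.sum_comm]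
    have hrb : ∀ r ∈ Ico (lN ^ 2) (lN ^ 3),
        ∑ k ∈ T, (if Real.exp (-(aa α j * r / lN)) < ‖(P ix) lN r k‖ then
          ‖(P ix) hN v k * (G ix) (Y * Real.exp (-((v : ℝ) / hN))) k‖ ^ 2 else 0) ≤
        (1 / D / (2 * (lN : ℝ) ^ 21)) := by
      intro r hr
      rw [Finset.mem_Ico] at hr
      obtain ⟨n, hn1, hn2⟩ := xlevb_vr' hC₀.le (hmom ix) hα hα1 (lN := lN) (hN := hN) (v := v) (r := r)
        (K := K) j (Y := Y) hl1 hh1 hv.2 hr.1 hr.2 hK hKY hY T hTs (fun k hk => by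
          rw [hT, Finset.mem_filter] at hk
          exact hk.2.1 v (Finset.mem_Ico.2 hv))
      refine hn2.trans ?_
      have hx1 : (lN : ℝ) ^ 3 ≤ (v : ℝ) / hN := by
        rw [le_div_iff₀ (by linarith), ← hhreal]
        have h1 : (hN : ℝ) ^ 2 ≤ v := by exact_mod_cast hv.1
        calc (hN : ℝ) * hN = (hN : ℝ) ^ 2 := by ring
          _ ≤ v := h1
      have hx2 : (v : ℝ) / hN ≤ (lN : ℝ) ^ 6 := by
        rw [div_le_iff₀ (by linarith)]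
        have h1 : (v : ℝ) ≤ (hN : ℝ) ^ 3 := by exact_mod_cast hv.2.le
        have h2 : (lN : ℝ) ^ 6 * hN = (hN : ℝ) ^ 3 := by rw [hhreal]; ring
        rw [h2]
        exact h1
      have hreal := levb_real' hC₀1 hα hα1 hL4 hCL hLα j hlreal hx1 hx2 n hn1
      rw [hlogl] at hreal
      rw [le_div_iff₀ (by positivity)]
      linarith
    calc ∑ r ∈ Ico (lN ^ 2) (lN ^ 3), ∑ k ∈ T, (if Real.exp (-(aa α j * r / lN)) < ‖(P ix) lN r k‖ then
          ‖(P ix) hN v k * (G ix) (Y * Real.exp (-((v : ℝ) / hN))) k‖ ^ 2 else 0)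
        ≤ ∑ r ∈ Ico (lN ^ 2) (lN ^ 3), (1 / D / (2 * (lN : ℝ) ^ 21)) :=
          Finset.sum_le_sum hrb
      _ = ((Ico (lN ^ 2) (lN ^ 3)).card : ℝ) * (1 / D / (2 * (lN : ℝ) ^ 21)) := by
          rw [Finset.sum_const, nsmul_eq_mul]
      _ ≤ (lN : ℝ) ^ 3 * (1 / D / (2 * (lN : ℝ) ^ 21)) := by
          apply mul_le_mul_of_nonneg_right _ (by positivity)
          rw [Nat.card_Ico]
          have : lN ^ 3 - lN ^ 2 ≤ lN ^ 3 := Nat.sub_le _ _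
          exact_mod_cast this
  have hcard : ((Ico (hN ^ 2) (hN ^ 3)).card : ℝ) ≤ (lN : ℝ) ^ 9 := by
    rw [Nat.card_Ico]
    have h1 : hN ^ 3 - hN ^ 2 ≤ hN ^ 3 := Nat.sub_le _ _
    have h2 : hN ^ 3 = lN ^ 9 := by rw [hhN, ← pow_mul]
    rw [h2] at h1
    have h3 : hN ^ 3 - hN ^ 2 ≤ lN ^ 9 := by rw [h2]; exact h1
    exact_mod_cast h3
  have hpart1 : ∑ k ∈ T, 2 * (((Ico (hN ^ 2) (hN ^ 3)).card : ℝ) *
      ∑ v ∈ Ico (hN ^ 2) (hN ^ 3), ‖(P ix) hN v k * (G ix) (Y * Real.exp (-((v : ℝ) / hN))) k‖ ^ 2) ≤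
      1 / D := by
    rw [← Finset.mul_sum, ← Finset.mul_sum, Finset.sum_comm]
    have h1 : ∑ v ∈ Ico (hN ^ 2) (hN ^ 3), ∑ k ∈ T,
        ‖(P ix) hN v k * (G ix) (Y * Real.exp (-((v : ℝ) / hN))) k‖ ^ 2 ≤
        (lN : ℝ) ^ 9 * ((lN : ℝ) ^ 3 * (1 / D / (2 * (lN : ℝ) ^ 21))) := by
      refine (Finset.sum_le_sum hvbound).trans ?_
      rw [Finset.sum_const, nsmul_eq_mul]
      exact mul_le_mul_of_nonneg_right hcard (by positivity)
    have h2 : (0 : ℝ) < (lN : ℝ) ^ 21 := by positivity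
    calc 2 * (((Ico (hN ^ 2) (hN ^ 3)).card : ℝ) * ∑ v ∈ Ico (hN ^ 2) (hN ^ 3), ∑ k ∈ T,
        ‖(P ix) hN v k * (G ix) (Y * Real.exp (-((v : ℝ) / hN))) k‖ ^ 2)
        ≤ 2 * ((lN : ℝ) ^ 9 * ((lN : ℝ) ^ 9 * ((lN : ℝ) ^ 3 *
          (1 / D / (2 * (lN : ℝ) ^ 21))))) := by
          apply mul_le_mul_of_nonneg_left _ (by norm_num)
          apply mul_le_mul hcard h1 (Finset.sum_nonneg fun v _ =>
            Finset.sum_nonneg fun k _ => by positivity) (by positivity)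
      _ = 1 / D := by
          field_simp
  -- the total
  have htotal : ∑ k ∈ T, ‖(G ix) Y k‖ ^ 2 ≤ ∑ k ∈ T, (2 * (((Ico (hN ^ 2) (hN ^ 3)).card : ℝ) *
      ∑ v ∈ Ico (hN ^ 2) (hN ^ 3), ‖(P ix) hN v k * (G ix) (Y * Real.exp (-((v : ℝ) / hN))) k‖ ^ 2) +
        2 * ‖E k‖ ^ 2) := by
    refine Finset.sum_le_sum fun k _ => ?_
    exact levb_sq _ _ _ _ W hW1 (hGG k)
  rw [Finset.sum_add_distrib] at htotal
  have hlast : ∑ k ∈ T, 2 * ‖E k‖ ^ 2 ≤ 2 * (CD * κ / D) := by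
    rw [← Finset.mul_sum]
    apply mul_le_mul_of_nonneg_left _ (by norm_num)
    refine le_trans ?_ hpart2
    exact Finset.sum_le_sum_of_subset_of_nonneg hTs fun k _ _ => by positivity
  have hfin : (1 + 2 * (CD * κ)) / D =
      1 / D + 2 * (CD * κ / D) := by ring
  rw [hfin]
  linarith

theorem s_cnt (hM : MachF ι P m G) :
  ∀ α : ℝ, 0 < α → α ≤ 1 → ∃ L₀ : ℕ, ∀ L : ℕ, L₀ ≤ L → ∃ Y₀ : ℝ, ∀ ix, ∀ Y : ℝ, Y₀ ≤ Y →
    ∀ j K : ℕ, (LL L j : ℝ) ^ 4 ≤ Real.log Y → Real.log Y < (LL L (j + 1) : ℝ) ^ 4 → (K : ℝ) ≤ Y →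
    (open scoped Classical in
      (((FK K).filter (fun k => ¬ SmjA (P ix) L α j k)).card : ℝ)) ≤ Y ^ (4 * α) := by
  classical
  intro α hα _
  obtain ⟨C, hC, hmom⟩ := hM.momP
  obtain ⟨T₀, hT₀1, hT₀⟩ := cnt_asymA α C hα hC
  refine ⟨1, fun L hL => ⟨Real.exp T₀, fun ix Y hY j K h4 h12 hKY => ?_⟩⟩
  have hYpos : 0 < Y := lt_of_lt_of_le (Real.exp_pos _) hY
  obtain ⟨T, hT⟩ : ∃ T : ℝ, T = Real.log Y := ⟨_, rfl⟩
  have hTT₀ : T₀ ≤ T := by
    rw [hT]; exact (Real.le_log_iff_exp_le hYpos).mpr hY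
  have hT1 : 1 ≤ T := hT₀1.trans hTT₀
  have hYα : Y ^ (4 * α) = Real.exp (4 * α * T) := by
    rw [Real.rpow_def_of_pos hYpos, ← hT, mul_comm]
  rw [← hT] at h4 h12
  obtain ⟨l, hl⟩ : ∃ l : ℕ, l = LL L j := ⟨_, rfl⟩
  have hl1 : 1 ≤ l := by rw [hl]; exact LL_pos hL j
  rw [LL_succ_eq] at h12
  rw [← hl] at h4 h12
  have h12' : T < (l : ℝ) ^ 12 := by
    calc T < ((l ^ 3 : ℕ) : ℝ) ^ 4 := h12
      _ = (l : ℝ) ^ 12 := by push_cast; ring
  rcases Nat.eq_zero_or_pos K with hK0 | hKpos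
  · subst hK0
    have : FK 0 = ∅ := by simp [FK]
    rw [this]
    simp only [filter_empty, card_empty, Nat.cast_zero]
    positivity
  · have hsub : (FK K).filter (fun k => ¬ SmjA (P ix) L α j k) ⊆
        (Ico (l ^ 2) (l ^ 3)).biUnion (fun r => (FK K).filter
          (fun k => ¬ ‖(P ix) l r k‖ ≤ Real.exp (-(aa α j * r / l)))) := by
      intro k hk
      rw [mem_filter] at hk
      obtain ⟨hkF, hkS⟩ := hk
      unfold SmjA SmA at hkS
      rw [← hl] at hkS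
      push Not at hkS
      obtain ⟨r, hr, hrk⟩ := hkS
      rw [mem_biUnion]
      exact ⟨r, hr, mem_filter.mpr ⟨hkF, not_le.mpr hrk⟩⟩
    have hcard : (((FK K).filter (fun k => ¬ SmjA (P ix) L α j k)).card : ℝ) ≤
        ∑ r ∈ Ico (l ^ 2) (l ^ 3), (((FK K).filter
          (fun k => ¬ ‖(P ix) l r k‖ ≤ Real.exp (-(aa α j * r / l)))).card : ℝ) := by
      have h1 := (card_le_card hsub).trans card_biUnion_le
      exact_mod_cast h1
    have hsum : ∑ r ∈ Ico (l ^ 2) (l ^ 3), (((FK K).filter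
          (fun k => ¬ ‖(P ix) l r k‖ ≤ Real.exp (-(aa α j * r / l)))).card : ℝ) ≤
        ∑ r ∈ Ico (l ^ 2) (l ^ 3), (Real.exp (2 * α * (T + T ^ (1 / 2 : ℝ))) *
      (C * Real.exp (16 * T ^ (11 / 12 : ℝ) * Real.log (2 * C * T)))) := by
      apply sum_le_sum
      intro r hr
      rw [mem_Ico] at hr
      exact cnt_oneA (P ix) hC (hmom ix) (aa_nonneg hα.le j) (aa_le hα.le j) hT hYpos hT1 hl1 hr.1 hr.2.le h4
        h12' hKpos hKY
    have hnum : ((Ico (l ^ 2) (l ^ 3)).card : ℝ) ≤ T := by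
      rw [Nat.card_Ico]
      have h1 : ((l ^ 3 - l ^ 2 : ℕ) : ℝ) ≤ ((l ^ 4 : ℕ) : ℝ) := by
        have : l ^ 3 - l ^ 2 ≤ l ^ 4 :=
          (Nat.sub_le _ _).trans (Nat.pow_le_pow_right hl1 (by norm_num))
        exact_mod_cast this
      calc ((l ^ 3 - l ^ 2 : ℕ) : ℝ) ≤ ((l ^ 4 : ℕ) : ℝ) := h1
        _ = (l : ℝ) ^ 4 := by push_cast; ring
        _ ≤ T := h4
    rw [hYα]
    refine hcard.trans (hsum.trans ?_)
    rw [sum_const, nsmul_eq_mul]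
    refine le_trans ?_ (hT₀ T hTT₀)
    have hT0 : 0 < T := by linarith
    have hC0 : 0 < C := by linarith
    gcongr

end Pool.Agent.R512.U
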