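import Pool.Agent.R512.U.MLev

/-!
Library R512.U (helper512): the conclusion of the machine, for families. Adapted from `Y872/L/M/Mach`.
-/

set_option autoImplicit false

namespace Pool.Agent.R512.U

open Finset Filter
open Pool.Agent.H376R2.MR
open Pool.Agent.Y872.L.M (SmA SmjA ustep)

variable {ι : Type} {P : ι → ℕ → ℕ → ℤ → ℂ} {m : ℕ → ℕ → ℝ} {G : ι → ℝ → ℤ → ℂ}

theorem tpart (hM : MachF ι P m G) :
    ∀ α η : ℝ, 0 < α → 0 < η → ∃ h : ℝ, 1 ≤ h ∧ ∃ Y₀ : ℝ, ∀ ix, ∀ Y : ℝ, Y₀ ≤ Y →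
    ∃ U : Finset ℤ, (U.card : ℝ) ≤ Y ^ α ∧ ∑ k ∈ FK ⌊Y / h⌋₊ \ U, ‖G ix Y k‖ ^ 2 ≤ η := by
  intro α η hα hη
  classical
  set β : ℝ := min α 1 / 8 with hβ
  have hβ0 : 0 < β := by positivity
  have hβ1 : β ≤ 1 := by
    have : min α 1 ≤ 1 := min_le_right _ _
    rw [hβ]; linarith
  have hβα : 4 * β ≤ α := by
    have : min α 1 ≤ α := min_le_left _ _
    have h2 : 0 < min α 1 := by positivity
    rw [hβ]; linarith
  obtain ⟨C₁, hC₁, h₁⟩ := leva hM
  obtain ⟨L₁, hL₁⟩ := h₁ β hβ0 hβ1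
  obtain ⟨C₂, hC₂, h₂⟩ := levb hM
  obtain ⟨L₂, hL₂⟩ := h₂ β hβ0 hβ1
  obtain ⟨L₃, hL₃⟩ := s_cnt hM β hβ0 hβ1
  set C : ℝ := max C₁ C₂ with hC
  have hC0 : 0 < C := lt_of_lt_of_le hC₁ (le_max_left _ _)
  -- choice of L
  have hlim : Tendsto (fun L : ℕ => 2 * C / Real.log L) atTop (nhds 0) :=
    Tendsto.div_atTop tendsto_const_nhds (Real.tendsto_log_atTop.comp tendsto_natCast_atTop_atTop)
  obtain ⟨L₄, hL₄⟩ := eventually_atTop.1 ((tendsto_order.1 hlim).2 η hη)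
  set L : ℕ := max (max L₁ L₂) (max L₃ (max L₄ 2)) with hL
  have hLL₁ : L₁ ≤ L := le_trans (le_max_left _ _) (le_max_left _ _)
  have hLL₂ : L₂ ≤ L := le_trans (le_max_right _ _) (le_max_left _ _)
  have hLL₃ : L₃ ≤ L := le_trans (le_max_left _ _) (le_max_right _ _)
  have hLL₄ : L₄ ≤ L := le_trans (le_trans (le_max_left _ _) (le_max_right _ _)) (le_max_right _ _)
  have hL2 : 2 ≤ L := le_trans (le_trans (le_max_right _ _) (le_max_right _ _)) (le_max_right _ _)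
  clear_value L
  have hL2' : (2 : ℝ) ≤ L := by exact_mod_cast hL2
  have hlogL : 0 < Real.log L := Real.log_pos (by linarith)
  have hCL : 2 * C / Real.log L ≤ η := (hL₄ L hLL₄).le
  obtain ⟨Y₃, hY₃⟩ := hL₃ L hLL₃
  refine ⟨Real.exp ((L : ℝ) ^ 2), Real.one_le_exp (by positivity),
    max Y₃ (Real.exp ((L : ℝ) ^ 4)), ?_⟩
  intro ix Y hY
  have hYY₃ : Y₃ ≤ Y := le_trans (le_max_left _ _) hY
  have hYL : Real.exp ((L : ℝ) ^ 4) ≤ Y := le_trans (le_max_right _ _) hY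
  have hY1 : 1 ≤ Y := le_trans (Real.one_le_exp (by positivity)) hYL
  have hY0 : 0 < Y := by linarith
  have hlogY : (L : ℝ) ^ 4 ≤ Real.log Y := by
    rw [Real.le_log_iff_exp_le hY0]; exact hYL
  set K : ℕ := ⌊Y / Real.exp ((L : ℝ) ^ 2)⌋₊ with hK
  have hKY' : (K : ℝ) * Real.exp ((L : ℝ) ^ 2) ≤ Y := by
    have := Nat.floor_le (a := Y / Real.exp ((L : ℝ) ^ 2)) (by positivity)
    rwa [← hK, le_div_iff₀ (Real.exp_pos _)] at this
  have hKY : (K : ℝ) ≤ Y := by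
    have h1 : (1 : ℝ) ≤ Real.exp ((L : ℝ) ^ 2) := Real.one_le_exp (by positivity)
    have h2 : (0 : ℝ) ≤ K := by positivity
    nlinarith
  rcases Nat.eq_zero_or_pos K with hK0 | hK0
  · refine ⟨∅, ?_, ?_⟩
    · simp only [card_empty, Nat.cast_zero]
      positivity
    · rw [hK0]
      have : FK 0 = ∅ := by simp [FK]
      rw [this]
      simp [hη.le]
  have hK1 : 1 ≤ K := hK0
  obtain ⟨J, hJ, hJ'⟩ := tpart_level hL2 hlogY
  refine ⟨(FK K).filter (fun k => ∀ j ≤ J, ¬ SmjA (P ix) L β j k), ?_, ?_⟩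
  · have h1 := hY₃ ix Y hYY₃ J K (hJ J le_rfl) hJ' hKY
    have h2 : ((FK K).filter (fun k => ∀ j ≤ J, ¬ SmjA (P ix) L β j k)).card ≤
        ((FK K).filter (fun k => ¬ SmjA (P ix) L β J k)).card := by
      refine card_le_card (fun k hk => ?_)
      rw [mem_filter] at hk ⊢
      exact ⟨hk.1, hk.2 J le_rfl⟩
    have h3 : (((FK K).filter (fun k => ¬ SmjA (P ix) L β J k)).card : ℝ) ≤ Y ^ (4 * β) := by
      convert h1
    calc (((FK K).filter (fun k => ∀ j ≤ J, ¬ SmjA (P ix) L β j k)).card : ℝ)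
        ≤ (((FK K).filter (fun k => ¬ SmjA (P ix) L β J k)).card : ℝ) := by exact_mod_cast h2
      _ ≤ Y ^ (4 * β) := h3
      _ ≤ Y ^ α := Real.rpow_le_rpow_of_exponent_le hY1 hβα
  · set A : Finset ℤ := (FK K).filter (fun k => SmjA (P ix) L β 0 k) with hA
    set B : ℕ → Finset ℤ := fun j => (FK K).filter (fun k => SmjA (P ix) L β (j + 1) k ∧ ¬ SmjA (P ix) L β j k)
      with hB
    have hsub : FK K \ (FK K).filter (fun k => ∀ j ≤ J, ¬ SmjA (P ix) L β j k) ⊆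
        A ∪ (range J).biUnion B := by
      intro k hk
      rw [Finset.mem_sdiff, mem_filter] at hk
      obtain ⟨hkK, hk2⟩ := hk
      have hk3 : ∃ j, j ≤ J ∧ SmjA (P ix) L β j k := by
        by_contra hcon
        push Not at hcon
        exact hk2 ⟨hkK, fun j hj => hcon j hj⟩
      have hfs := Nat.find_spec hk3
      have hfm := fun m (hm : m < Nat.find hk3) => Nat.find_min hk3 hm
      set i := Nat.find hk3 with hi
      rw [mem_union]
      rcases Nat.eq_zero_or_pos i with h0 | h0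
      · left
        rw [hA, mem_filter]
        rw [h0] at hfs
        exact ⟨hkK, hfs.2⟩
      · right
        rw [mem_biUnion]
        obtain ⟨m, hm⟩ := Nat.exists_eq_succ_of_ne_zero h0.ne'
        refine ⟨m, ?_, ?_⟩
        · rw [mem_range]; omega
        · rw [hB, mem_filter]
          refine ⟨hkK, ?_, ?_⟩
          · rw [← Nat.succ_eq_add_one, ← hm]; exact hfs.2
          · intro hcon
            exact hfm m (by omega) ⟨by omega, hcon⟩
    have hsumA : ∑ k ∈ A, ‖(G ix) Y k‖ ^ 2 ≤ C / Real.log L := by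
      have h1 := hL₁ L hLL₁ ix Y K (le_trans (Real.exp_le_exp.2 (by
        nlinarith [sq_nonneg ((L : ℝ) ^ 2), pow_le_pow_left₀ (by norm_num) hL2' 2])) hYL) hK1 hKY'
      have h2 : ∑ k ∈ A, ‖(G ix) Y k‖ ^ 2 ≤ C₁ / Real.log L := by convert h1
      refine h2.trans ?_
      exact div_le_div_of_nonneg_right (le_max_left _ _) hlogL.le
    have hsumB : ∀ j ∈ range J, ∑ k ∈ B j, ‖(G ix) Y k‖ ^ 2 ≤ C / Real.log L * (1 / 3 ^ (j + 1)) := by
      intro j hj
      rw [mem_range] at hj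
      have hlj := hJ (j + 1) (by omega)
      have hl2 : (2 : ℝ) ≤ LL L (j + 1) := by exact_mod_cast tpart_LL_ge hL2 (j + 1)
      have h1 := hL₂ L hLL₂ ix j Y K (by
        rw [← Real.le_log_iff_exp_le hY0]
        refine le_trans ?_ hlj
        nlinarith [sq_nonneg ((LL L (j + 1) : ℝ) ^ 2), pow_le_pow_left₀ (by norm_num) hl2 2])
        hK1 hKY
      have h2 : ∑ k ∈ B j, ‖(G ix) Y k‖ ^ 2 ≤ C₂ / (3 ^ (j + 1) * Real.log L) := by convert h1
      refine h2.trans ?_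
      rw [div_mul_div_comm, mul_one, mul_comm (Real.log L)]
      exact div_le_div_of_nonneg_right (le_max_right _ _) (by positivity)
    calc ∑ k ∈ FK K \ (FK K).filter (fun k => ∀ j ≤ J, ¬ SmjA (P ix) L β j k), ‖(G ix) Y k‖ ^ 2
        ≤ ∑ k ∈ A ∪ (range J).biUnion B, ‖(G ix) Y k‖ ^ 2 :=
          sum_le_sum_of_subset_of_nonneg hsub (fun _ _ _ => by positivity)
      _ ≤ ∑ k ∈ A, ‖(G ix) Y k‖ ^ 2 + ∑ k ∈ (range J).biUnion B, ‖(G ix) Y k‖ ^ 2 := by
          rw [← sum_union_inter]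
          have : 0 ≤ ∑ k ∈ A ∩ (range J).biUnion B, ‖(G ix) Y k‖ ^ 2 :=
            sum_nonneg (fun _ _ => by positivity)
          linarith
      _ ≤ ∑ k ∈ A, ‖(G ix) Y k‖ ^ 2 + ∑ j ∈ range J, ∑ k ∈ B j, ‖(G ix) Y k‖ ^ 2 := by
          gcongr
          exact tpart_biUnion _ _ _ (fun _ => by positivity)
      _ ≤ C / Real.log L + ∑ j ∈ range J, C / Real.log L * (1 / 3 ^ (j + 1)) := by
          gcongr with j hj
          exact hsumB j hj
      _ = C / Real.log L * (1 + ∑ j ∈ range J, (1 : ℝ) / 3 ^ (j + 1)) := by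
          rw [← mul_sum]; ring
      _ ≤ C / Real.log L * (1 + 1 / 2) := by
          gcongr
          exact tpart_geom J
      _ ≤ 2 * C / Real.log L := by
          rw [mul_div_assoc]
          have : 0 < C / Real.log L := by positivity
          linarith
      _ ≤ η := hCL


theorem upart (hM : MachF ι P m G) :
  ∀ η : ℝ, 0 < η → ∃ T₀ : ℕ, ∃ α : ℝ, 0 < α ∧ ∃ Y₀ : ℝ, ∀ ix, ∀ Y : ℝ, Y₀ ≤ Y → ∀ U : Finset ℤ,
    (∀ k ∈ U, (T₀ : ℝ) ≤ |(k : ℝ)| ∧ |(k : ℝ)| ≤ Y) → (U.card : ℝ) ≤ Y ^ α →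
    ∑ k ∈ U, ‖G ix Y k‖ ^ 2 ≤ η := by
  classical
  intro η hη
  obtain ⟨c, hc, C₂, hWW⟩ := hM.rich
  obtain ⟨c₁, hc₁0, hc₁1, hcellM⟩ := hM.cell
  obtain ⟨c', hc'⟩ : ∃ c' : ℝ, c₁ = 2 * c' := ⟨c₁ / 2, by ring⟩
  have hc'0 : 0 < c' := by linarith
  have hc'2 : 2 * c' ≤ 1 := by linarith
  have hc'1 : c' ≤ 1 := by linarith
  rw [hc'] at hcellM
  obtain ⟨C₁, hC₁, β₁, hβ₁, Z₁, hdec⟩ := hM.dec
  obtain ⟨C₃, hC₃, β₂, hβ₂, Z₂, hsp⟩ := hM.sparse
  -- number of iterations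
  obtain ⟨N₀, hN₀⟩ := exists_pow_lt_of_lt_one (show (0 : ℝ) < η / (2 * C₃) by positivity)
    (show 1 - c' < 1 by linarith)
  set N : ℕ := N₀ + 1 with hN
  have hNpos : (0 : ℝ) < N := by rw [hN]; positivity
  have hN1 : (1 : ℝ) ≤ N := by rw [hN]; push_cast; linarith [Nat.cast_nonneg (α := ℝ) N₀]
  have hNpow : C₃ * (1 - c') ^ N ≤ η / 2 := by
    have h1 : (1 - c') ^ N ≤ (1 - c') ^ N₀ := by
      rw [hN, pow_succ]
      have h2 : 0 ≤ (1 - c') ^ N₀ := pow_nonneg (by linarith) _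
      nlinarith
    calc C₃ * (1 - c') ^ N ≤ C₃ * (1 - c') ^ N₀ := mul_le_mul_of_nonneg_left h1 hC₃.le
      _ ≤ C₃ * (η / (2 * C₃)) := mul_le_mul_of_nonneg_left hN₀.le hC₃.le
      _ = η / 2 := by field_simp
  -- the error
  set B₀ : ℝ := 4 * (1 + 1 / c') * C₁ / (c' * η) + 1 with hB₀
  have hB₀1 : 1 ≤ B₀ := by
    rw [hB₀]
    have : 0 ≤ 4 * (1 + 1 / c') * C₁ / (c' * η) := by positivity
    linarith
  have hB₀pos : 0 < B₀ := by linarith
  have hBE : (1 + 1 / c') * (C₁ * (1 / B₀ + 1 / B₀)) ≤ c' * (η / 2) := by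
    have h1 : 4 * (1 + 1 / c') * C₁ / (c' * η) ≤ B₀ := by rw [hB₀]; linarith
    rw [div_le_iff₀ (by positivity)] at h1
    have h2 : (1 + 1 / c') * (C₁ * (1 / B₀ + 1 / B₀)) = (4 * (1 + 1 / c') * C₁) / (2 * B₀) := by
      field_simp
      ring
    rw [h2, div_le_iff₀ (by positivity)]
    nlinarith
  obtain ⟨H, hH⟩ := exists_nat_ge B₀
  have hHr : (1 : ℝ) ≤ H := by linarith
  have hH1 : 1 ≤ H := by exact_mod_cast hHr
  have hHpos : (0 : ℝ) < H := by linarith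
  obtain ⟨q, hq⟩ := exists_nat_ge (Real.exp ((|C₂| + B₀) / c))
  have hq0 : (1 : ℝ) ≤ q := (Real.one_le_exp (by positivity)).trans hq
  have hqpos : (0 : ℝ) < q := by linarith
  have hqlog : C₂ + B₀ ≤ c * Real.log q := by
    have h1 : (|C₂| + B₀) / c ≤ Real.log q := by
      rw [Real.le_log_iff_exp_le hqpos]; exact hq
    rw [div_le_iff₀ hc] at h1
    have := le_abs_self C₂
    linarith
  have hq1 : 1 ≤ q := by exact_mod_cast hq0
  obtain ⟨T₀, v₀, hcell⟩ := hcellM (32 * N * q) H hH1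
  have ev : ∀ᶠ Y : ℝ in atTop, 1 ≤ Y ∧ Z₁ ≤ Y ^ (3 / 4 : ℝ) ∧ Z₂ ≤ Y ^ (3 / 4 : ℝ) ∧
      32 * N * q * ((H : ℝ) + v₀ + 1) ≤ H * Real.log Y := by
    have t1 : Tendsto (fun Y : ℝ => Y ^ (3 / 4 : ℝ)) atTop atTop :=
      tendsto_rpow_atTop (by norm_num)
    have t2 : Tendsto (fun Y : ℝ => (H : ℝ) * Real.log Y) atTop atTop :=
      Real.tendsto_log_atTop.const_mul_atTop hHpos
    filter_upwards [eventually_ge_atTop 1, t1.eventually_ge_atTop Z₁, t1.eventually_ge_atTop Z₂,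
      t2.eventually_ge_atTop (32 * N * q * ((H : ℝ) + v₀ + 1))] with Y h1 h2 h3 h4
    exact ⟨h1, h2, h3, h4⟩
  obtain ⟨Y₀, hY₀⟩ := Filter.eventually_atTop.mp ev
  set β : ℝ := min β₁ β₂ with hβdef
  have hβ : 0 < β := lt_min hβ₁ hβ₂
  refine ⟨T₀, 3 / 4 * β, by positivity, Y₀, fun ix Y hY U hU hcard => ?_⟩
  obtain ⟨hY1, hYZ₁, hYZ₂, hYlog⟩ := hY₀ Y hY
  have hYpos : 0 < Y := by linarith
  set m' : ℕ := ⌊(H : ℝ) * Real.log Y / (16 * N * q)⌋₊ with hm
  have hlogY : 0 ≤ Real.log Y := Real.log_nonneg hY1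
  have hnle : (m' : ℝ) ≤ H * Real.log Y / (16 * N * q) := Nat.floor_le (by positivity)
  have hnge : (H : ℝ) * Real.log Y / (16 * N * q) - 1 < m' := Nat.sub_one_lt_floor _
  have h2x : 2 * ((H : ℝ) + v₀ + 1) ≤ H * Real.log Y / (16 * N * q) := by
    rw [le_div_iff₀ (by positivity)]
    linarith
  have hv₀nn : (0 : ℝ) ≤ v₀ := Nat.cast_nonneg _
  have hnH : (H : ℝ) ≤ m' := by linarith
  have hnv : (v₀ : ℝ) ≤ m' := by linarith
  have hn8 : (H : ℝ) * Real.log Y / (32 * N * q) ≤ m' := by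
    have e : (H : ℝ) * Real.log Y / (32 * N * q) = (H * Real.log Y / (16 * N * q)) / 2 := by
      field_simp; ring
    rw [e]
    linarith
  have hnpos : (0 : ℝ) < m' := by linarith
  have hnH' : H ≤ m' := by exact_mod_cast hnH
  have hnv' : v₀ ≤ m' := by exact_mod_cast hnv
  set W : ℝ := ∑ v ∈ Ico m' (q * m'), m H v with hW
  have hWge : B₀ ≤ W := by
    have h := hWW H m' (q * m') hH1 hnH' (Nat.le_mul_of_pos_left m' hq1)
    have e : (((q * m' : ℕ) : ℝ) / (m' : ℝ)) = q := by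
      push_cast
      field_simp
    rw [e] at h
    linarith
  have hW1 : 1 ≤ W := by linarith
  have hWpos : 0 < W := by linarith
  -- `q m' / H ≤ log Y / (16 N)`
  have hqm : ((q * m' : ℕ) : ℝ) / H ≤ Real.log Y / (16 * N) := by
    rw [div_le_div_iff₀ hHpos (by positivity)]
    push_cast
    rw [le_div_iff₀ (by positivity)] at hnle
    linarith
  have hexp : ∀ Z : ℝ, Y ^ (3 / 4 : ℝ) ≤ Z → Real.exp (4 * ((q * m' : ℕ) : ℝ) / H) ≤ Z := by
    intro Z hZ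
    refine le_trans ?_ hZ
    rw [Real.rpow_def_of_pos hYpos]
    apply Real.exp_le_exp.mpr
    have h1 : Real.log Y / (16 * N) ≤ Real.log Y / 16 := by
      apply div_le_div_of_nonneg_left hlogY (by norm_num)
      linarith
    have h2 : 4 * ((q * m' : ℕ) : ℝ) / H = 4 * (((q * m' : ℕ) : ℝ) / H) := by ring
    rw [h2]
    linarith
  have hUZ : ∀ Z : ℝ, Y ^ (3 / 4 : ℝ) ≤ Z → ∀ k ∈ U, |(k : ℝ)| ≤ Z ^ (4 / 3 : ℝ) := by
    intro Z hZ k hk
    have hYp : (0 : ℝ) ≤ Y ^ (3 / 4 : ℝ) := Real.rpow_nonneg hYpos.le _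
    refine (hU k hk).2.trans ?_
    calc Y = (Y ^ (3 / 4 : ℝ)) ^ (4 / 3 : ℝ) := by
          rw [← Real.rpow_mul hYpos.le]; norm_num
      _ ≤ Z ^ (4 / 3 : ℝ) := Real.rpow_le_rpow hYp hZ (by norm_num)
  have hcardZ : ∀ Z : ℝ, Y ^ (3 / 4 : ℝ) ≤ Z → ∀ γ : ℝ, β ≤ γ → 0 < γ → (U.card : ℝ) ≤ Z ^ γ := by
    intro Z hZ γ hγ hγ0
    have hYp : (0 : ℝ) ≤ Y ^ (3 / 4 : ℝ) := Real.rpow_nonneg hYpos.le _
    refine hcard.trans ?_
    calc Y ^ (3 / 4 * β) ≤ Y ^ (3 / 4 * γ) :=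
          Real.rpow_le_rpow_of_exponent_le hY1 (by linarith)
      _ = (Y ^ (3 / 4 : ℝ)) ^ γ := by rw [← Real.rpow_mul hYpos.le]
      _ ≤ Z ^ γ := Real.rpow_le_rpow hYp hZ hγ0.le
  have hbase : ∀ Z : ℝ, Y ^ (3 / 4 : ℝ) ≤ Z → ∑ k ∈ U, ‖(G ix) Z k‖ ^ 2 ≤ C₃ := by
    intro Z hZge
    exact hsp ix Z (hYZ₂.trans hZge) U (hUZ Z hZge) (hcardZ Z hZge β₂ (min_le_right _ _) hβ₂)
  have hPv : ∀ k ∈ U, ∑ v ∈ Ico m' (q * m'), ‖(P ix) H v k‖ ≤ (1 - 2 * c') * W := by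
    intro k hk
    rw [hW, Finset.mul_sum]
    refine Finset.sum_le_sum fun v hv => ?_
    rw [Finset.mem_Ico] at hv
    refine hcell ix v (hnv'.trans hv.1) k (hU k hk).1 ((hU k hk).2.trans ?_)
    have hmv : (m' : ℝ) ≤ v := by exact_mod_cast hv.1
    calc Y = Real.exp (Real.log Y) := (Real.exp_log hYpos).symm
      _ ≤ Real.exp (((32 * N * q : ℕ) : ℝ) * (v : ℝ) / H) := by
        apply Real.exp_le_exp.mpr
        rw [le_div_iff₀ hHpos]
        rw [div_le_iff₀ (by positivity)] at hn8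
        push_cast
        have h7 : (m' : ℝ) * (32 * N * q) ≤ v * (32 * N * q) :=
          mul_le_mul_of_nonneg_right hmv (by positivity)
        linarith
  -- the induction
  have key : ∀ i : ℕ, i ≤ N → ∀ Z : ℝ, Y ^ (3 / 4 + (i : ℝ) / (4 * N)) ≤ Z →
      ∑ k ∈ U, ‖(G ix) Z k‖ ^ 2 ≤ C₃ * (1 - c') ^ i + η / 2 := by
    intro i
    induction i with
    | zero =>
      intro _ Z hZ
      have h1 := hbase Z (by simpa using hZ)
      simp only [pow_zero, mul_one]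
      linarith
    | succ i ih =>
      intro hi Z hZ
      have hi' : i ≤ N := by omega
      have hZ34 : Y ^ (3 / 4 : ℝ) ≤ Z := by
        refine le_trans (Real.rpow_le_rpow_of_exponent_le hY1 ?_) hZ
        have : (0 : ℝ) ≤ ((i + 1 : ℕ) : ℝ) / (4 * N) := by positivity
        linarith
      have hZpos : 0 < Z := (Real.rpow_pos_of_pos hYpos _).trans_le hZ34
      obtain ⟨E, hGG, -, hE⟩ := hdec ix H m' (q * m') hH1 hnH' hW1 Z (hexp Z hZ34)
      have herr : ∑ k ∈ U, ‖E k‖ ^ 2 ≤ C₁ * (1 / B₀ + 1 / B₀) := by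
        refine (hE (hYZ₁.trans hZ34) U (hUZ Z hZ34)
          (hcardZ Z hZ34 β₁ (min_le_left _ _) hβ₁)).trans ?_
        refine mul_le_mul_of_nonneg_left (add_le_add ?_ ?_) hC₁.le
        · exact div_le_div_of_nonneg_left (by norm_num) hB₀pos hWge
        · exact div_le_div_of_nonneg_left (by norm_num) hB₀pos (by nlinarith)
      have hstep := ustep (P ix) m (G ix) (hM.P_le ix) c' hc'0 hc'2 H m' (q * m') Z U W hWpos rfl E hGG _
        herr hPv (C₃ * (1 - c') ^ i + η / 2)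
        (add_nonneg (mul_nonneg hC₃.le (pow_nonneg (by linarith) _)) (by positivity)) (by
          intro v hv
          apply ih hi'
          have h1 : (v : ℝ) / H ≤ Real.log Y / (16 * N) := by
            refine le_trans ?_ hqm
            have h3 : (v : ℝ) ≤ ((q * m' : ℕ) : ℝ) := by exact_mod_cast (Finset.mem_Ico.mp hv).2.le
            exact div_le_div_of_nonneg_right h3 hHpos.le
          rw [Real.rpow_def_of_pos hYpos] at hZ
          calc Y ^ (3 / 4 + (i : ℝ) / (4 * N))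
              = Real.exp (Real.log Y * (3 / 4 + (i : ℝ) / (4 * N))) := Real.rpow_def_of_pos hYpos _
            _ ≤ Real.exp (Real.log Y * (3 / 4 + ((i + 1 : ℕ) : ℝ) / (4 * N)) +
                  -((v : ℝ) / H)) := by
                apply Real.exp_le_exp.mpr
                have e1 : Real.log Y * (3 / 4 + ((i + 1 : ℕ) : ℝ) / (4 * N)) =
                    Real.log Y * (3 / 4 + (i : ℝ) / (4 * N)) + Real.log Y / (4 * N) := by
                  push_cast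
                  field_simp
                  ring
                have e2 : Real.log Y / (16 * N) ≤ Real.log Y / (4 * N) := by
                  apply div_le_div_of_nonneg_left hlogY (by positivity)
                  nlinarith
                rw [e1]
                linarith
            _ = Real.exp (Real.log Y * (3 / 4 + ((i + 1 : ℕ) : ℝ) / (4 * N))) *
                  Real.exp (-((v : ℝ) / H)) := Real.exp_add _ _
            _ ≤ Z * Real.exp (-((v : ℝ) / H)) :=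
                mul_le_mul_of_nonneg_right hZ (Real.exp_pos _).le)
      refine hstep.trans ?_
      rw [pow_succ]
      have h1 : (1 - c') * (C₃ * (1 - c') ^ i + η / 2) + c' * (η / 2) =
          C₃ * ((1 - c') ^ i * (1 - c')) + η / 2 := by ring
      linarith
  have hfin := key N le_rfl Y (by
    have : (3 / 4 + (N : ℝ) / (4 * N)) = 1 := by field_simp; ring
    rw [this, Real.rpow_one])
  linarith

/-- **the machine for families** -/
theorem mach (hM : MachF ι P m G) :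
  ∀ η : ℝ, 0 < η → ∃ T₀ : ℕ, ∃ h : ℝ, 1 ≤ h ∧ ∃ Y₀ : ℝ, ∀ ix, ∀ Y : ℝ, Y₀ ≤ Y →
    ∑ k ∈ (FK ⌊Y / h⌋₊).filter (fun k : ℤ => T₀ ≤ k.natAbs), ‖G ix Y k‖ ^ 2 ≤ η := by
  classical
  intro η hη
  have hη2 : 0 < η / 2 := by linarith
  obtain ⟨T₀, al, hal, Y1, hup⟩ := upart hM (η / 2) hη2
  obtain ⟨h, hh, Y2, htp⟩ := tpart hM al (η / 2) hal hη2
  refine ⟨T₀, h, hh, max 1 (max Y1 Y2), fun ix Y hY => ?_⟩
  have hY0 : 1 ≤ Y := le_trans (le_max_left _ _) hY
  have hY' : max Y1 Y2 ≤ Y := le_trans (le_max_right _ _) hY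
  have hY1 : Y1 ≤ Y := le_trans (le_max_left _ _) hY'
  have hY2 : Y2 ≤ Y := le_trans (le_max_right _ _) hY'
  obtain ⟨U, hU1, hU2⟩ := htp ix Y hY2
  set F := FK ⌊Y / h⌋₊ with hF
  set Ft := F.filter (fun k : ℤ => T₀ ≤ k.natAbs) with hFt
  have hsplit : ∑ k ∈ Ft, ‖(G ix) Y k‖ ^ 2 =
      ∑ k ∈ Ft ∩ U, ‖(G ix) Y k‖ ^ 2 + ∑ k ∈ Ft \ U, ‖(G ix) Y k‖ ^ 2 :=
    (Finset.sum_inter_add_sum_sdiff Ft U _).symm
  have h5 : ∑ k ∈ Ft ∩ U, ‖(G ix) Y k‖ ^ 2 ≤ η / 2 := by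
    refine hup ix Y hY1 _ ?_ ?_
    · intro k hk
      rw [Finset.mem_inter, hFt, Finset.mem_filter] at hk
      have hkT : (T₀ : ℝ) ≤ |(k : ℝ)| := by
        have := hk.1.2
        rw [← Int.cast_abs, Int.abs_eq_natAbs]
        exact_mod_cast this
      refine ⟨hkT, ?_⟩
      have hkF : k ∈ FK ⌊Y / h⌋₊ := hk.1.1
      rw [FK, Finset.mem_Ioo] at hkF
      have h3 : |(k : ℝ)| ≤ (⌊Y / h⌋₊ : ℝ) := by
        rw [abs_le]
        constructor
        · have : (-(⌊Y / h⌋₊ : ℤ) : ℤ) ≤ k := hkF.1.le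
          have := (Int.cast_le (R := ℝ)).2 this
          push_cast at this
          linarith
        · have : k ≤ (⌊Y / h⌋₊ : ℤ) := hkF.2.le
          have := (Int.cast_le (R := ℝ)).2 this
          push_cast at this
          linarith
      have h4 : (⌊Y / h⌋₊ : ℝ) ≤ Y / h := Nat.floor_le (by positivity)
      have h5 : Y / h ≤ Y := div_le_self (by linarith) hh
      linarith
    · refine le_trans ?_ hU1
      exact_mod_cast Finset.card_le_card Finset.inter_subset_right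
  have h6 : ∑ k ∈ Ft \ U, ‖(G ix) Y k‖ ^ 2 ≤ η / 2 := by
    refine le_trans (Finset.sum_le_sum_of_subset_of_nonneg ?_ (fun _ _ _ => by positivity)) hU2
    exact Finset.sdiff_subset_sdiff (Finset.filter_subset _ _) (Finset.Subset.refl _)
  rw [hsplit]
  linarith


end Pool.Agent.R512.U
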