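import Pool.Agent.R512.U.GlueE
import Pool.Agent.R512.U.Kind

/-!
Library R512.U (helper512): uniform bounds for varying completely multiplicative factors with values `±1` along blocks.
-/

set_option autoImplicit false

namespace Pool.Agent.R512.U

open Finset Filter Topology
open Pool.Agent.Y958.U
open Pool.Agent.Y958.E
open Pool.Agent.Y958.TC (ind ind_nonneg)
open Pool.Agent.R512.Q (CR psC mainC ru_norm E2C)
open Pool.Agent.R512.G (LocD E2_G cm_sq)
open Pool.Agent.TH823.MRS (ExpoSmall)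
open Pool.Agent.Y872.L (CM cm_abs)

/-- from integer values to complex values -/
lemma twoRN {Nl : Set ℕ → Prop} (hN : NullId Nl) (f : ℕ → ℤ) (hf : ∀ n, |f n| ≤ 1) (φ : ℕ → ℂ)
    (hφ : ∀ n, n ≠ 0 → φ n = ((f n : ℤ) : ℂ)) (hφ1 : ∀ n, ‖φ n‖ = 1) (V : ℕ → Prop) (A R : ℕ) (δ : ℝ)
    (hδ : 0 < δ) (h0 : Nl (E2 f V A R (δ / 2))) : Nl (E2C φ V A R δ) := by
  classical
  refine hN.sub _ _ ?_ (hN.union _ _ h0 (hN.bdd {N | N < ⌈4 / δ⌉₊ + 1} _ fun n hn => hn))
  rintro N ⟨a, ha, hN⟩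
  by_cases hNK : N < ⌈4 / δ⌉₊ + 1
  · exact Or.inr hNK
  left
  refine ⟨a, ha, ?_⟩
  have hN : δ < ‖AvC N (fun n => (ind V (n + a) : ℂ) * (φ n * (starRingEnd ℂ) (φ (n + R))))‖ := hN
  show δ / 2 < |Pool.Agent.Y958.TC.Av N (fun n => ind V (n + a) * f n * f (n + R))|
  have hN0 : (0 : ℝ) < N := by exact_mod_cast (by omega : 0 < N)
  have h1 : 4 / δ ≤ N := (Nat.le_ceil _).trans (by exact_mod_cast (by omega : ⌈4 / δ⌉₊ ≤ N))
  rw [div_le_iff₀ hδ] at h1
  have h2 : |Pool.Agent.Y958.TC.Av N (fun n => ind V (n + a) * f n * f (n + R))| =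
      ‖∑ n ∈ range N, (ind V (n + a) : ℂ) * (((f n : ℤ) : ℂ) * ((f (n + R) : ℤ) : ℂ))‖ / N := by
    unfold Pool.Agent.Y958.TC.Av
    rw [abs_div, abs_of_pos hN0, ← Real.norm_eq_abs, ← Complex.norm_real]
    congr 2
    push_cast
    apply sum_congr rfl
    intro n _
    ring
  unfold Pool.Agent.Y958.E.AvC at hN
  rw [norm_div, Complex.norm_natCast, lt_div_iff₀ hN0] at hN
  rw [h2, lt_div_iff₀ hN0]
  have hf1 : ∀ n, ‖((f n : ℤ) : ℂ)‖ ≤ 1 := fun n => by
    rw [Complex.norm_intCast]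
    exact_mod_cast hf n
  have h3 : ‖∑ n ∈ range N, (ind V (n + a) : ℂ) * (φ n * (starRingEnd ℂ) (φ (n + R))) -
      ∑ n ∈ range N, (ind V (n + a) : ℂ) * (((f n : ℤ) : ℂ) * ((f (n + R) : ℤ) : ℂ))‖ ≤ 2 := by
    rw [← sum_sub_distrib]
    refine (norm_sum_le _ _).trans ?_
    have h4 : ∀ n ∈ range N, ‖(ind V (n + a) : ℂ) * (φ n * (starRingEnd ℂ) (φ (n + R))) -
        (ind V (n + a) : ℂ) * (((f n : ℤ) : ℂ) * ((f (n + R) : ℤ) : ℂ))‖ ≤ if n = 0 then 2 else 0 := by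
      intro n _
      split_ifs with hn0
      · refine (norm_sub_le _ _).trans ?_
        rw [norm_mul, norm_mul, norm_mul, norm_mul, RCLike.norm_conj, hφ1, hφ1, mul_one, mul_one]
        have h5 := norm_ind_le V (n + a)
        have h6 : ‖((f n : ℤ) : ℂ)‖ * ‖((f (n + R) : ℤ) : ℂ)‖ ≤ 1 * 1 :=
          mul_le_mul (hf1 _) (hf1 _) (norm_nonneg _) zero_le_one
        have h7 : ‖(ind V (n + a) : ℂ)‖ * (‖((f n : ℤ) : ℂ)‖ * ‖((f (n + R) : ℤ) : ℂ)‖) ≤ 1 * (1 * 1) :=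
          mul_le_mul h5 h6 (mul_nonneg (norm_nonneg _) (norm_nonneg _)) zero_le_one
        linarith
      · rw [hφ n hn0, hφ (n + R) (by omega), map_intCast, sub_self, norm_zero]
    refine (sum_le_sum h4).trans ?_
    rw [sum_ite_eq' (range N) 0 (fun _ => (2 : ℝ))]
    split_ifs <;> norm_num
  have h5 := norm_sub_norm_le (∑ n ∈ range N, (ind V (n + a) : ℂ) * (φ n * (starRingEnd ℂ) (φ (n + R))))
    (∑ n ∈ range N, (ind V (n + a) : ℂ) * (((f n : ℤ) : ℂ) * ((f (n + R) : ℤ) : ℂ)))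
  linarith

/-- the function with values of norm one -/
noncomputable def uC (f : ℕ → ℤ) (n : ℕ) : ℂ := if n = 0 then 1 else ((f n : ℤ) : ℂ)

lemma uC_ne {f : ℕ → ℤ} {n : ℕ} (hn : n ≠ 0) : uC f n = ((f n : ℤ) : ℂ) := if_neg hn

lemma uC_cr {f : ℕ → ℤ} (hf : CM f) : CR 2 (uC f) := by
  refine ⟨fun n => ?_, fun a b ha hb => ?_⟩
  · by_cases hn : n = 0
    · rw [hn]; simp [uC]
    · rw [uC_ne hn]
      rcases hf.val n (by omega) with h | h <;> rw [h] <;> norm_num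
  · rw [uC_ne ha, uC_ne hb, uC_ne (Nat.mul_ne_zero ha hb), hf.mul]
    push_cast
    rfl

/-- the two point condition for glued functions with values `±1` -/
theorem e2P_real (P y x : ℕ → ℕ) (hBl : Blocks P y x) (fm : ℕ → ℕ → ℤ)
    (hf : ∀ j, CM (fm j)) (hsm : ∀ B : ℕ, ∃ J : ℕ, ∀ j, J ≤ j → ∀ X : ℕ, P j ≤ 3 * X → SMn B X (fm j)) :
    E2P 2 1 (1 / 2) y x (fun n => uC (fm (bl P n)) n) := by
  classical
  have hy1 := hBl.y1
  have hPmono := hBl.mono
  have hyx : ∀ m, y m ≤ x m := fun m => le_trans (Nat.le_mul_of_pos_left _ (by omega)) (hBl.win m)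
  have hxP : ∀ m, x m ≤ P (m + 1) := fun m => by
    refine le_trans ?_ (hBl.up m)
    have : x m + 1 ≤ (m + 2) * (x m + 1) := Nat.le_mul_of_pos_left _ (by omega)
    omega
  have hP2 : ∀ m, (m + 1) * P m ≤ P (m + 1) := fun m => (hBl.low m).trans ((hyx m).trans (hxP m))
  have hNull : NullId (NW y x) := Pool.Agent.Y434.E.Nwi.nwi Pool.Agent.Y304.U.pw y x hy1 hBl.ratio
  set F0 : ℕ → ℤ := fun n => fm (bl P n) n with hF0
  have hF01 : ∀ n, |F0 n| ≤ 1 := fun n => cm_abs (hf _) n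
  have hE : ExpoSmall (fun n => ((F0 n : ℤ) : ℂ)) := expo_glue P hPmono hP2 fm hf hsm
  set u : ℕ → ℕ → ℤ := fun M p => if p = 0 then 1 else fm (bl P M) p with hu
  set G₀ : Set ℕ := {N | ∃ j, y j < N ∧ N ≤ x j} with hG₀
  have hu2 : ∀ M p, u M p * u M p = 1 := by
    intro M p
    simp only [hu]
    split_ifs with hp
    · norm_num
    · exact cm_sq (hf _) hp
  have hG₀n : NW y x G₀ᶜ := by
    unfold NW
    refine tendsto_const_nhds.congr (f₁ := fun _ => (0 : ℝ)) fun m => ?_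
    rw [sum_eq_zero, zero_div]
    intro n hn
    rw [mem_Ioc] at hn
    rw [if_neg]
    intro h
    exact h ⟨m, hn.1, hn.2⟩
  have hloc : LocD F0 u G₀ := by
    intro W
    refine ⟨P (W * W + W + 1), fun N hN hNN M h1 h2 p hp hpW n hMn hpn hpdn => ?_⟩
    obtain ⟨j, hj1, hj2⟩ := hN
    have hjW : W * W + W + 1 ≤ j := by
      by_contra hc
      push Not at hc
      have h3 := hPmono.monotone (by omega : j + 1 ≤ W * W + W + 1)
      have h4 := hBl.up j
      have h5 : x j + 1 ≤ (j + 2) * (x j + 1) := Nat.le_mul_of_pos_left _ (by omega)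
      omega
    have hW0 : 1 ≤ W := hp.one_le.trans hpW
    have hlow := hBl.low j
    have hup := hBl.up j
    have hPL : P j ≤ (j + 1) * P j := Nat.le_mul_of_pos_left _ (by omega)
    have hn1 : P j ≤ n := by
      have h3 : (j + 1) * P j ≤ W * n := by omega
      have h4 : W * P j ≤ W * n := by
        refine le_trans ?_ h3
        apply Nat.mul_le_mul_right
        have : W ≤ W * W + W := Nat.le_add_left _ _
        omega
      exact Nat.le_of_mul_le_mul_left h4 hW0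
    have hpn2 : p * n < P (j + 1) := by
      have h3 : W * M ≤ W * (W * x j) :=
        Nat.mul_le_mul_left _ (h2.trans (Nat.mul_le_mul_left _ hj2))
      have h4 : W * (W * x j) = W * W * x j := by ring
      have h5 : W * W * x j ≤ (j + 2) * x j := Nat.mul_le_mul_right _ (by omega)
      have h6 : (j + 2) * x j < (j + 2) * (x j + 1) := Nat.mul_lt_mul_of_pos_left (by omega) (by omega)
      omega
    have hnpn : n ≤ p * n := Nat.le_mul_of_pos_left _ hp.pos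
    have hMn2 : M < P (j + 1) := by
      have h3 : M ≤ W * x j := h2.trans (Nat.mul_le_mul_left _ hj2)
      have h5 : W * x j ≤ (j + 2) * x j := Nat.mul_le_mul_right _ (by omega)
      have h6 : (j + 2) * x j < (j + 2) * (x j + 1) := Nat.mul_lt_mul_of_pos_left (by omega) (by omega)
      omega
    have hbM : bl P M = j := bl_eq hPmono (by omega) hMn2
    have hbn : bl P n = j := bl_eq hPmono hn1 (by omega)
    have hbpn : bl P (p * n) = j := bl_eq hPmono (by omega) hpn2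
    simp only [hF0, hu]
    rw [hbM, hbn, hbpn, if_neg hp.ne_zero]
    exact (hf j).mul p n
  intro V A hA hV hdv s' R hR
  have h1 := E2_G hNull F0 hF01 u hu2 G₀ hG₀n hloc hE V A R hA hV hR (dv V A / 4 / 2) (by positivity)
  have hcr : ∀ j, CR 2 (uC (fm j)) := fun j => uC_cr (hf j)
  have hφ1 : ∀ n, ‖uC (fm (bl P n)) n‖ = 1 := fun n => ru_norm (by norm_num) ((hcr _).pow n)
  have h2 := twoRN hNull F0 hF01 (fun n => uC (fm (bl P n)) n) (fun n hn => uC_ne hn) hφ1 V A R (dv V A / 4)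
    (by positivity) h1
  obtain ⟨E', hE'1, hE'2⟩ := e2_shift hNull (fun n => uC (fm (bl P n)) n) (fun n => (hφ1 n).le) V A hA hV hdv s' R h2
  refine ⟨E', hE'1, fun W => ⟨0, fun N _ _ M _ _ hM => ?_⟩⟩
  simp only [pow_one]
  exact hE'2 M hM

/-- **bounds along blocks** for varying factors with values `±1` and varying companions -/
theorem realA (d : ℕ) : ∃ c : ℝ, 0 < c ∧ c < 1 ∧ ∀ h : Fin (d + 1) → ℕ, Function.Injective h →
    ∀ Q a : ℕ, 1 ≤ Q → ∃ Tz : ℕ → ℕ, ∀ P y x : ℕ → ℕ, Blocks P y x → (∀ j, 1 ≤ j → Tz j ≤ P j) →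
      ∀ (fm : ℕ → ℕ → ℤ), (∀ j, CM (fm j)) →
      (∀ B : ℕ, ∃ J : ℕ, ∀ j, J ≤ j → ∀ X : ℕ, P j ≤ 3 * X → SMn B X (fm j)) →
      ∀ (gm : ℕ → Fin d → ℕ → ℂ), (∀ j i, BM (gm j i)) → ∀ η : ℝ, 0 < η → ∃ J : ℕ, ∀ j : ℕ, J ≤ j →
      ∑ N ∈ Ioc (y j) (x j), (open Classical in if (1 - c) * ((N : ℝ) / Q) < ‖Sc h (uC (fm j)) (gm j) Q a N‖
        then (1 : ℝ) / N else 0) ≤ η * Real.log ((x j : ℝ) / y j) := by
  haveI : Fact (Nat.Prime 2) := ⟨Nat.prime_two⟩
  obtain ⟨c, hc0, hc1, hB⟩ := blockM d 2 2 (by norm_num) dvd_rfl (1 / 2) (by norm_num) (by norm_num)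
  refine ⟨c, hc0, hc1, fun h hinj Q a hQ => ?_⟩
  obtain ⟨Tz, hTz⟩ := hB h hinj Q a hQ
  refine ⟨Tz, fun P y x hBl hPT fm hf hsm gm hgm η hη => ?_⟩
  exact hTz P y x hBl hPT (fun j => uC (fm j)) (fun j => uC_cr (hf j)) gm hgm
    (e2P_real P y x hBl fm hf hsm) η hη

end Pool.Agent.R512.U
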