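import Pool.Agent.R512.U.TwR

/-!
Library R512.U (helper512): uniform statements for varying completely multiplicative functions with values in the
roots of unity of order `2 r`, whose `r`-th powers are far from the real characters.
-/

set_option autoImplicit false

namespace Pool.Agent.R512.U

open Finset Filter Topology
open Pool.Agent.Y958.U
open Pool.Agent.Y958.E
open Pool.Agent.Y958.TC (ind ind_nonneg)
open Pool.Agent.R512.Q (CR psC mainC ru_norm E2C bm_cr conj_mul_one)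
open Pool.Agent.R512.G (LocD E2_G cm_sq)
open Pool.Agent.TH823.MRS (ExpoSmall)
open Pool.Agent.Y872.L (CM cm_abs)

/-- values in the roots of unity of order `2 r`, with a given `r`-th power -/
structure RP (r : ℕ) (φ : ℕ → ℂ) (s : ℕ → ℤ) : Prop where
  cr : CR (r * 2) φ
  cm : CM s
  pow : ∀ n, n ≠ 0 → φ n ^ r = ((s n : ℤ) : ℂ)

/-- the two point condition for glued functions with values in the roots of unity -/
theorem e2P_root (r : ℕ) (hr : 1 ≤ r) (P y x : ℕ → ℕ) (hBl : Blocks P y x) (φm : ℕ → ℕ → ℂ) (fm : ℕ → ℕ → ℤ)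
    (hRP : ∀ j, RP r (φm j) (fm j)) (hsm : ∀ B : ℕ, ∃ J : ℕ, ∀ j, J ≤ j → ∀ X : ℕ, P j ≤ 3 * X → SMn B X (fm j)) :
    E2P (r * 2) r (1 / 2) y x (fun n => φm (bl P n) n) := by
  classical
  have hf : ∀ j, CM (fm j) := fun j => (hRP j).cm
  have hy1 := hBl.y1
  have hPmono := hBl.mono
  have hyx : ∀ m, y m ≤ x m := fun m => le_trans (Nat.le_mul_of_pos_left _ (by omega)) (hBl.win m)
  have hxP : ∀ m, x m ≤ P (m + 1) := fun m => by
    refine le_trans ?_ (hBl.up m)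
    have : x m + 1 ≤ (m + 2) * (x m + 1) := Nat.le_mul_of_pos_left _ (by omega)
    omega
  have hP2 : ∀ m, (m + 1) * P m ≤ P (m + 1) := fun m => (hBl.low m).trans ((hyx m).trans (hxP m))
  have hNull : NullId (NW y x) := Pool.Agent.Y434.E.Nwi.nwi Pool.Agent.Y304.U.pw y x hy1 hBl.ratio
  set F0 : ℕ → ℤ := fun n => fm (bl P n) n with hF0
  have hF01 : ∀ n, |F0 n| ≤ 1 := fun n => cm_abs (hf _) n
  have hE : ExpoSmall (fun n => ((F0 n : ℤ) : ℂ)) := expo_glue P hPmono hP2 fm hf hsm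
  set u : ℕ → ℕ → ℤ := fun M p => if p = 0 then 1 else fm (bl P M) p with hu
  set G₀ : Set ℕ := {N | ∃ j, y j < N ∧ N ≤ x j} with hG₀
  have hu2 : ∀ M p, u M p * u M p = 1 := by
    intro M p
    simp only [hu]
    split_ifs with hp
    · norm_num
    · exact cm_sq (hf _) hp
  have hG₀n : NW y x G₀ᶜ := by
    unfold NW
    refine tendsto_const_nhds.congr (f₁ := fun _ => (0 : ℝ)) fun m => ?_
    rw [sum_eq_zero, zero_div]
    intro n hn
    rw [mem_Ioc] at hn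
    rw [if_neg]
    intro h
    exact h ⟨m, hn.1, hn.2⟩
  have hloc : LocD F0 u G₀ := by
    intro W
    refine ⟨P (W * W + W + 1), fun N hN hNN M h1 h2 p hp hpW n hMn hpn hpdn => ?_⟩
    obtain ⟨j, hj1, hj2⟩ := hN
    have hjW : W * W + W + 1 ≤ j := by
      by_contra hc
      push Not at hc
      have h3 := hPmono.monotone (by omega : j + 1 ≤ W * W + W + 1)
      have h4 := hBl.up j
      have h5 : x j + 1 ≤ (j + 2) * (x j + 1) := Nat.le_mul_of_pos_left _ (by omega)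
      omega
    have hW0 : 1 ≤ W := hp.one_le.trans hpW
    have hlow := hBl.low j
    have hup := hBl.up j
    have hPL : P j ≤ (j + 1) * P j := Nat.le_mul_of_pos_left _ (by omega)
    have hn1 : P j ≤ n := by
      have h3 : (j + 1) * P j ≤ W * n := by omega
      have h4 : W * P j ≤ W * n := by
        refine le_trans ?_ h3
        apply Nat.mul_le_mul_right
        have : W ≤ W * W + W := Nat.le_add_left _ _
        omega
      exact Nat.le_of_mul_le_mul_left h4 hW0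
    have hpn2 : p * n < P (j + 1) := by
      have h3 : W * M ≤ W * (W * x j) :=
        Nat.mul_le_mul_left _ (h2.trans (Nat.mul_le_mul_left _ hj2))
      have h4 : W * (W * x j) = W * W * x j := by ring
      have h5 : W * W * x j ≤ (j + 2) * x j := Nat.mul_le_mul_right _ (by omega)
      have h6 : (j + 2) * x j < (j + 2) * (x j + 1) := Nat.mul_lt_mul_of_pos_left (by omega) (by omega)
      omega
    have hnpn : n ≤ p * n := Nat.le_mul_of_pos_left _ hp.pos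
    have hMn2 : M < P (j + 1) := by
      have h3 : M ≤ W * x j := h2.trans (Nat.mul_le_mul_left _ hj2)
      have h5 : W * x j ≤ (j + 2) * x j := Nat.mul_le_mul_right _ (by omega)
      have h6 : (j + 2) * x j < (j + 2) * (x j + 1) := Nat.mul_lt_mul_of_pos_left (by omega) (by omega)
      omega
    have hbM : bl P M = j := bl_eq hPmono (by omega) hMn2
    have hbn : bl P n = j := bl_eq hPmono hn1 (by omega)
    have hbpn : bl P (p * n) = j := bl_eq hPmono (by omega) hpn2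
    simp only [hF0, hu]
    rw [hbM, hbn, hbpn, if_neg hp.ne_zero]
    exact (hf j).mul p n
  intro V A hA hV hdv s' R hR
  have h1 := E2_G hNull F0 hF01 u hu2 G₀ hG₀n hloc hE V A R hA hV hR (dv V A / 4 / 2) (by positivity)
  have hφ1 : ∀ n, ‖φm (bl P n) n ^ r‖ = 1 := fun n => by
    rw [norm_pow, ru_norm (by omega) ((hRP _).cr.pow n), one_pow]
  have h2 := twoRN hNull F0 hF01 (fun n => φm (bl P n) n ^ r) (fun n hn => (hRP _).pow n hn) hφ1 V A R (dv V A / 4)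
    (by positivity) h1
  obtain ⟨E', hE'1, hE'2⟩ := e2_shift hNull (fun n => φm (bl P n) n ^ r) (fun n => (hφ1 n).le) V A hA hV hdv s' R h2
  exact ⟨E', hE'1, fun W => ⟨0, fun N _ _ M _ _ hM => hE'2 M hM⟩⟩

/-- **bounds along blocks** for varying factors with values in the roots of unity and varying companions -/
theorem realAr (d r : ℕ) (hr : 1 ≤ r) : ∃ c : ℝ, 0 < c ∧ c < 1 ∧ ∀ h : Fin (d + 1) → ℕ, Function.Injective h →
    ∀ Q a : ℕ, 1 ≤ Q → ∃ Tz : ℕ → ℕ, ∀ P y x : ℕ → ℕ, Blocks P y x → (∀ j, 1 ≤ j → Tz j ≤ P j) →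
      ∀ (φm : ℕ → ℕ → ℂ) (fm : ℕ → ℕ → ℤ), (∀ j, RP r (φm j) (fm j)) →
      (∀ B : ℕ, ∃ J : ℕ, ∀ j, J ≤ j → ∀ X : ℕ, P j ≤ 3 * X → SMn B X (fm j)) →
      ∀ (gm : ℕ → Fin d → ℕ → ℂ), (∀ j i, BM (gm j i)) → ∀ η : ℝ, 0 < η → ∃ J : ℕ, ∀ j : ℕ, J ≤ j →
      ∑ N ∈ Ioc (y j) (x j), (open Classical in if (1 - c) * ((N : ℝ) / Q) < ‖Sc h (φm j) (gm j) Q a N‖
        then (1 : ℝ) / N else 0) ≤ η * Real.log ((x j : ℝ) / y j) := by
  haveI : Fact (Nat.Prime 2) := ⟨Nat.prime_two⟩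
  obtain ⟨c, hc0, hc1, hB⟩ := blockM d (r * 2) 2 (by omega) (Dvd.intro_left _ rfl) (1 / 2) (by norm_num) (by norm_num)
  rw [Nat.mul_div_cancel r (by norm_num : 0 < 2)] at hB
  refine ⟨c, hc0, hc1, fun h hinj Q a hQ => ?_⟩
  obtain ⟨Tz, hTz⟩ := hB h hinj Q a hQ
  refine ⟨Tz, fun P y x hBl hPT φm fm hf hsm gm hgm η hη => ?_⟩
  exact hTz P y x hBl hPT φm (fun j => (hf j).cr) gm hgm (e2P_root r hr P y x hBl φm fm hf hsm) η hη

/-- **windows** -/
theorem winRr (d r : ℕ) (hr : 1 ≤ r) : ∃ c : ℝ, 0 < c ∧ c < 1 ∧ ∀ h : Fin (d + 1) → ℕ, Function.Injective h →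
    ∀ Q a : ℕ, 1 ≤ Q → ∀ η : ℝ, 0 < η → ∃ A : ℕ, 1 ≤ A ∧ ∀ y x : ℕ, A ≤ y → A * y ≤ x →
      ∀ (φ : ℕ → ℂ) (f : ℕ → ℤ), RP r φ f → (∀ X : ℕ, y ≤ A * X → SMn A X f) →
      ∀ g : Fin d → ℕ → ℂ, (∀ i, BM (g i)) →
      ∑ N ∈ Ioc y x, (open Classical in if (1 - c) * ((N : ℝ) / Q) < ‖Sc h φ g Q a N‖
        then (1 : ℝ) / N else 0) ≤ η * Real.log ((x : ℝ) / y) := by
  classical
  obtain ⟨c, hc0, hc1, hB⟩ := realAr d r hr
  refine ⟨c, hc0, hc1, fun h hinj Q a hQ η hη => ?_⟩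
  obtain ⟨Tz, hTz⟩ := hB h hinj Q a hQ
  by_contra hcon
  push Not at hcon
  have hcon' : ∀ A : ℕ, ∃ y x : ℕ, ∃ φ : ℕ → ℂ, ∃ f : ℕ → ℤ, ∃ g : Fin d → ℕ → ℂ, 1 ≤ A → A ≤ y ∧ A * y ≤ x ∧ RP r φ f ∧
      (∀ X : ℕ, y ≤ A * X → SMn A X f) ∧ (∀ i, BM (g i)) ∧
      η * Real.log ((x : ℝ) / y) < ∑ N ∈ Ioc y x, (if (1 - c) * ((N : ℝ) / Q) < ‖Sc h φ g Q a N‖
        then (1 : ℝ) / N else 0) := by
    intro A
    by_cases hA : 1 ≤ A
    · obtain ⟨y, x, h1, h2, φ, f, h3, h4, g, h5, h6⟩ := hcon A hA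
      exact ⟨y, x, φ, f, g, fun _ => ⟨h1, h2, h3, h4, h5, by convert h6⟩⟩
    · exact ⟨0, 0, fun _ => 0, fun _ => 0, fun _ _ => 0, fun hh => absurd hh hA⟩
  choose Yf Xf Hf Ff Gf hbad using hcon'
  -- the parameters
  set Om : ℕ → ℕ → ℕ := fun X' m => (m + 1) * ((m + 1) * (X' + 1)) + (m + 1) * (Tz m + 1) + 4 * (m + 1) with hOm
  have hOm1 : ∀ X' m, 1 ≤ Om X' m := fun X' m => by simp only [hOm]; omega
  obtain ⟨Am, hAm0, hAms⟩ : ∃ Am : ℕ → ℕ, Am 0 = Om 0 0 ∧ ∀ m, Am (m + 1) = Om (Xf (Am m)) (m + 1) :=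
    ⟨fun m => Nat.rec (Om 0 0) (fun m A => Om (Xf A) (m + 1)) m, rfl, fun m => rfl⟩
  have hAmO : ∀ m, ∃ X', Am m = Om X' m := by
    intro m
    rcases m with _ | m
    · exact ⟨0, hAm0⟩
    · exact ⟨_, hAms m⟩
  have hAm1 : ∀ m, 1 ≤ Am m := fun m => by
    obtain ⟨X', h1⟩ := hAmO m
    rw [h1]
    exact hOm1 _ _
  set ym : ℕ → ℕ := fun m => Yf (Am m) with hym
  set xm : ℕ → ℕ := fun m => Xf (Am m) with hxm
  set P : ℕ → ℕ := fun m => ym m / (m + 1) with hP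
  have hb : ∀ m, Am m ≤ ym m ∧ Am m * ym m ≤ xm m ∧ RP r (Hf (Am m)) (Ff (Am m)) ∧
      (∀ X : ℕ, ym m ≤ Am m * X → SMn (Am m) X (Ff (Am m))) ∧ (∀ i, BM (Gf (Am m) i)) ∧
      η * Real.log ((xm m : ℝ) / ym m) < ∑ N ∈ Ioc (ym m) (xm m), (if (1 - c) * ((N : ℝ) / Q) <
        ‖Sc h (Hf (Am m)) (Gf (Am m)) Q a N‖ then (1 : ℝ) / N else 0) := fun m => hbad (Am m) (hAm1 m)
  have hA4 : ∀ m, 4 * (m + 1) ≤ Am m := fun m => by
    obtain ⟨X', h1⟩ := hAmO m
    rw [h1]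
    simp only [hOm]
    omega
  have hlow : ∀ m, (m + 1) * P m ≤ ym m := fun m => Nat.mul_div_le _ _
  have hwin : ∀ m, (m + 1) * ym m ≤ xm m := fun m =>
    (Nat.mul_le_mul_right _ (by have := hA4 m; omega)).trans (hb m).2.1
  have hPge : ∀ m, ∀ z : ℕ, (m + 1) * z ≤ Am m → z ≤ P m := by
    intro m z hz
    rw [hP]
    simp only
    rw [Nat.le_div_iff_mul_le (by omega), mul_comm]
    exact hz.trans (hb m).1
  have hP1 : ∀ m, 1 ≤ P m := fun m => hPge m 1 (by have := hA4 m; omega)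
  have hPT : ∀ m, 1 ≤ m → Tz m ≤ P m := by
    intro m _
    apply hPge
    obtain ⟨X', h1⟩ := hAmO m
    rw [h1]
    simp only [hOm]
    have : (m + 1) * Tz m ≤ (m + 1) * (Tz m + 1) := Nat.mul_le_mul_left _ (by omega)
    omega
  have hup : ∀ m, (m + 2) * (xm m + 1) ≤ P (m + 1) := by
    intro m
    apply hPge
    rw [hAms]
    simp only [hOm, hxm]
    have : (m + 1 + 1) * ((m + 2) * (Xf (Am m) + 1)) = (m + 1 + 1) * ((m + 1 + 1) * (Xf (Am m) + 1)) := by ring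
    omega
  have hmono : StrictMono P := by
    apply strictMono_nat_of_lt_succ
    intro m
    have h1 := hlow m
    have h2 := hwin m
    have h3 := hup m
    have h4 : P m ≤ (m + 1) * P m := Nat.le_mul_of_pos_left _ (by omega)
    have h5 : ym m ≤ (m + 1) * ym m := Nat.le_mul_of_pos_left _ (by omega)
    have h6 : xm m + 1 ≤ (m + 2) * (xm m + 1) := Nat.le_mul_of_pos_left _ (by omega)
    omega
  have hBl : Blocks P ym xm := ⟨hmono, hP1, hlow, hwin, hup⟩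
  obtain ⟨J, hJ⟩ := hTz P ym xm hBl hPT (fun m => Hf (Am m)) (fun m => Ff (Am m)) (fun m => (hb m).2.2.1) (fun B => ⟨B, fun j hj X hX => by
    have hBA : B ≤ Am j := by have := hA4 j; omega
    refine SMn_mono hBA ((hb j).2.2.2.1 X ?_)
    have h1 : ym j < (j + 1) * (P j + 1) := by
      rw [hP]
      simp only
      exact Nat.lt_mul_div_succ _ (by omega)
    have hX1 : 1 ≤ X := by have := hP1 j; omega
    have h2 : (j + 1) * (P j + 1) ≤ (j + 1) * (4 * X) := Nat.mul_le_mul_left _ (by omega)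
    have h3 : (j + 1) * (4 * X) = 4 * (j + 1) * X := by ring
    have h4 : 4 * (j + 1) * X ≤ Am j * X := Nat.mul_le_mul_right _ (hA4 j)
    omega⟩) (fun m => Gf (Am m)) (fun m i => (hb m).2.2.2.2.1 i) η hη
  have h1 := (hb J).2.2.2.2.2
  have h2 := hJ J le_rfl
  refine absurd (lt_of_lt_of_le h1 (le_of_eq_of_le ?_ h2)) (lt_irrefl _)
  congr!

/-- **windows**, from the distances -/
theorem winFr (d r : ℕ) (hr : 1 ≤ r) : ∃ c : ℝ, 0 < c ∧ c < 1 ∧ ∀ h : Fin (d + 1) → ℕ, Function.Injective h →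
    ∀ Q a : ℕ, 1 ≤ Q → ∀ η : ℝ, 0 < η → ∃ A : ℕ, 1 ≤ A ∧ ∀ y x : ℕ, A ≤ y → A * y ≤ x →
      ∀ (φ : ℕ → ℂ) (f : ℕ → ℤ), RP r φ f → Far A y f →
      ∀ g : Fin d → ℕ → ℂ, (∀ i, Pool.Agent.Y958.E.BM (g i)) →
      ∑ N ∈ Ioc y x, (open Classical in if (1 - c) * ((N : ℝ) / Q) < ‖Sc h φ g Q a N‖
        then (1 : ℝ) / N else 0) ≤ η * Real.log ((x : ℝ) / y) := by
  classical
  obtain ⟨c, hc0, hc1, hW⟩ := winRr d r hr
  refine ⟨c, hc0, hc1, fun h hinj Q a hQ η hη => ?_⟩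
  obtain ⟨A₁, hA₁, h1⟩ := hW h hinj Q a hQ η hη
  obtain ⟨A₂, hA₂, h2⟩ := smn_of_far A₁
  refine ⟨A₁ + A₂, by omega, fun y x hy hx φ f hf hfar g hg => ?_⟩
  exact h1 y x (by omega) ((Nat.mul_le_mul_right _ (by omega)).trans hx) φ f hf
    (h2 y (by omega) f hf.cm (hfar.mono hf.cm (by omega) le_rfl)) g hg

/-- periodic weights of bounded period -/
theorem wtsRr (d r : ℕ) (hr : 1 ≤ r) : ∃ c : ℝ, 0 < c ∧ c < 1 ∧
    ∀ h : Fin (d + 1) → ℕ, Function.Injective h →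
    ∀ (B : ℕ) (η : ℝ), 0 < η → ∃ ω₀ : ℕ, 1 ≤ ω₀ ∧ ∀ y x : ℕ, ω₀ ≤ y → ω₀ * y ≤ x →
      ∀ (φ : ℕ → ℂ) (f : ℕ → ℤ), RP r φ f → Far ω₀ y f →
      ∀ g : Fin d → ℕ → ℂ, (∀ i, BM (g i)) → ∀ (Q : ℕ) (w : ℕ → ℂ), 1 ≤ Q → Q ≤ B → (∀ n, ‖w n‖ ≤ 1) →
      (∀ n, w (n + Q) = w n) →
      ∑ N ∈ Ioc y x, (open Classical in
        if (1 - c) * (N : ℝ) < ‖∑ n ∈ Icc 1 N, w n * (φ (n + h 0) * ∏ i : Fin d, g i (n + h i.succ))‖
          then (1 : ℝ) / N else 0) ≤
        η * Real.log ((x : ℝ) / y) := by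
  classical
  obtain ⟨c, hc0, hc1, hG⟩ := winFr d r hr
  refine ⟨c, hc0, hc1, fun h hinj B η hη => ?_⟩
  have h1 : ∀ (Q a : ℕ), ∃ ω₀ : ℕ, 1 ≤ Q → ∀ y x : ℕ, ω₀ ≤ y → ω₀ * y ≤ x → ∀ (φ : ℕ → ℂ) (f : ℕ → ℤ), RP r φ f → Far ω₀ y f →
      ∀ g : Fin d → ℕ → ℂ, (∀ i, BM (g i)) →
      ∑ N ∈ Ioc y x, (open Classical in
        if (1 - c) * ((N : ℝ) / Q) < ‖Sc h φ g Q a N‖ then (1 : ℝ) / N else 0) ≤
        η / (B + 1) * Real.log ((x : ℝ) / y) := by
    intro Q a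
    by_cases hQ : 1 ≤ Q
    · obtain ⟨ω₀, _, hω⟩ := hG h hinj Q a hQ (η / (B + 1)) (by positivity)
      exact ⟨ω₀, fun _ => hω⟩
    · exact ⟨0, fun hh => absurd hh hQ⟩
  choose ω hω using h1
  refine ⟨2 + ∑ q ∈ range (B + 1), ∑ r ∈ range (B + 1), ω q r, by omega,
    fun y x hyA hx φ f hf hfar g hg Q w hQ hQB hw1 hwQ => ?_⟩
  have hy : 1 ≤ y := by omega
  have hyx : y ≤ x := le_trans (Nat.le_mul_of_pos_left _ (by omega)) hx
  have hlog : 0 ≤ Real.log ((x : ℝ) / y) := by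
    apply Real.log_nonneg
    rw [le_div_iff₀ (by exact_mod_cast hy), one_mul]
    exact_mod_cast hyx
  have h2 := wts_of h φ g c (η / (B + 1) * Real.log ((x : ℝ) / y)) y x Q hQ w hw1 hwQ (fun a ha => by
    rw [mem_range] at ha
    have h2 : ω Q a ≤ ∑ r ∈ range (B + 1), ω Q r :=
      single_le_sum (f := fun r => ω Q r) (fun _ _ => Nat.zero_le _) (mem_range.2 (by omega))
    have h3 : ∑ r ∈ range (B + 1), ω Q r ≤ ∑ q ∈ range (B + 1), ∑ r ∈ range (B + 1), ω q r :=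
      single_le_sum (f := fun q => ∑ r ∈ range (B + 1), ω q r) (fun _ _ => Nat.zero_le _) (mem_range.2 (by omega))
    exact hω Q a hQ y x (by omega) ((Nat.mul_le_mul_right _ (by omega)).trans hx) φ f hf
      (hfar.mono hf.cm (by omega) le_rfl) g hg)
  refine (le_of_eq (by congr!)).trans (h2.trans ?_)
  have h4 : (Q : ℝ) ≤ B + 1 := by exact_mod_cast (by omega : Q ≤ B + 1)
  have h5 : (Q : ℝ) * (η / (B + 1) * Real.log ((x : ℝ) / y)) ≤
      (B + 1) * (η / (B + 1) * Real.log ((x : ℝ) / y)) :=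
    mul_le_mul_of_nonneg_right h4 (mul_nonneg (by positivity) hlog)
  refine h5.trans (le_of_eq ?_)
  field_simp

/-- **twists** -/
theorem unifRr (d r : ℕ) (hr : 1 ≤ r) : ∃ c δ : ℝ, 0 < c ∧ c < 1 ∧ 0 < δ ∧
    ∀ h : Fin (d + 1) → ℕ, Function.Injective h → ∀ (A : ℕ) (η : ℝ), 0 < η → ∃ ω₀ : ℕ, 1 ≤ ω₀ ∧
      ∀ y x : ℕ, ω₀ ≤ y → ω₀ * y ≤ x → ∀ (φ : ℕ → ℂ) (s : ℕ → ℤ), RP r φ s → Far ω₀ y s →
      ∀ f : ℕ → ℂ, BM f → ∀ g : Fin d → ℕ → ℂ, (∀ i, BM (g i)) →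
      ∀ (Q : ℕ) (χ : DirichletCharacter ℂ Q) (t : ℝ), 1 ≤ Q → Q ≤ A → |t| ≤ A * y →
      ∑ p ∈ (Ioc A x).filter Nat.Prime, (1 - (f p * (starRingEnd ℂ) (φ p *
        χ ((p : ℕ) : ZMod Q) * nit t p)).re) / (p : ℝ) ≤ δ →
      ∑ N ∈ Ioc y x, (open Classical in
        if (1 - c) * (N : ℝ) < ‖∑ n ∈ Icc 1 N, f (n + h 0) * ∏ i : Fin d, g i (n + h i.succ)‖
          then (1 : ℝ) / N else 0) ≤
        η * Real.log ((x : ℝ) / y) := by
  classical
  obtain ⟨c, hc0, hc1, hW⟩ := wtsRr (d + 1) r hr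
  set ε : ℝ := c / 16 with hε
  have hε0 : 0 < ε := by positivity
  obtain ⟨δ, hδ0, hA⟩ := apxU ε hε0
  refine ⟨c / 2, δ, by positivity, by linarith, hδ0, fun h hinj A η hη => ?_⟩
  set e : ℕ := 1 + ∑ i, h i with he
  have hei : ∀ i, h i < e := by
    intro i
    have := single_le_sum (f := fun i => h i) (fun _ _ => Nat.zero_le _) (mem_univ i)
    omega
  set h' : Fin (d + 1 + 1) → ℕ := Fin.cons (h 0) (Fin.cons e (fun i => h i.succ)) with hh'
  have hinj' : Function.Injective h' := by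
    rw [hh', Fin.cons_injective_iff, Fin.cons_injective_iff]
    refine ⟨?_, ?_, ?_⟩
    · rintro ⟨i, hi⟩
      revert hi
      refine Fin.cases ?_ (fun i => ?_) i
      · intro hi
        rw [Fin.cons_zero] at hi
        exact absurd hi (hei 0).ne'
      · intro hi
        rw [Fin.cons_succ] at hi
        exact absurd (hinj hi) (Fin.succ_ne_zero i)
    · rintro ⟨i, hi⟩
      exact absurd hi (hei i.succ).ne
    · intro i j hij
      exact Fin.succ_injective _ (hinj hij)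
  obtain ⟨P, N₀, hP⟩ := hA A
  obtain ⟨ω₁, hω₁, hω⟩ := hW h' hinj' P (η / 2) (by positivity)
  obtain ⟨K, hK1, hK2, hK3, hK4⟩ : ∃ K : ℕ, 1 ≤ K ∧ N₀ ≤ K ∧ (A : ℝ) * e / ε ≤ ε * K ∧
      2 * ((h 0 : ℝ) + 1) ≤ ε * K := by
    refine ⟨⌈(A : ℝ) * e / ε / ε⌉₊ + ⌈2 * ((h 0 : ℝ) + 1) / ε⌉₊ + N₀ + 1, by omega, by omega, ?_, ?_⟩
    · have h1 := Nat.le_ceil ((A : ℝ) * e / ε / ε)
      rw [div_le_iff₀ hε0] at h1
      rw [mul_comm ε]
      refine h1.trans (mul_le_mul_of_nonneg_right ?_ hε0.le)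
      exact_mod_cast (by omega)
    · have h1 := Nat.le_ceil (2 * ((h 0 : ℝ) + 1) / ε)
      rw [div_le_iff₀ hε0] at h1
      rw [mul_comm ε]
      refine h1.trans (mul_le_mul_of_nonneg_right ?_ hε0.le)
      exact_mod_cast (by omega)
  have hK0 : (0 : ℝ) < K := by exact_mod_cast hK1
  have hlK : 0 ≤ Real.log K := Real.log_nonneg (by exact_mod_cast hK1)
  set ω₂ : ℕ := ⌈Real.exp (2 * Real.log K / η)⌉₊ + 1 with hω₂
  have hω₂' : 2 * Real.log K / η ≤ Real.log (ω₂ : ℝ) := by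
    rw [Real.le_log_iff_exp_le (by rw [hω₂]; positivity)]
    refine (Nat.le_ceil _).trans ?_
    rw [hω₂]
    push_cast
    linarith
  refine ⟨ω₁ + ω₂, by omega, fun y x hyA hx φ s hs hfar f hf g hg Q' χ t hQ' hQ'A ht hsum => ?_⟩
  have hy : 1 ≤ y := by omega
  have hx1 : ω₁ * y ≤ x := (Nat.mul_le_mul_right _ (by omega)).trans hx
  have hfar1 : Far ω₁ y s := hfar.mono hs.cm (by omega) le_rfl
  have hcr : CR (r * 2) φ := hs.cr
  have hr2 : r * 2 ≠ 0 := by omega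
  have hf₀n : ∀ n, ‖φ n‖ = 1 := fun n => ru_norm hr2 (hcr.pow n)
  have hlog2 : 2 * Real.log K / η ≤ Real.log ((x : ℝ) / y) := by
    refine hω₂'.trans ?_
    apply Real.log_le_log (by rw [hω₂]; positivity)
    rw [le_div_iff₀ (by exact_mod_cast hy)]
    exact_mod_cast (Nat.mul_le_mul_right y (by omega : ω₂ ≤ ω₁ + ω₂)).trans hx
  have hlog3 : Real.log K ≤ η / 2 * Real.log ((x : ℝ) / y) := by
    rw [div_le_iff₀ hη] at hlog2
    linarith
  -- the twisted function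
  set k : ℕ → ℂ := fun n => (starRingEnd ℂ) (φ n) * (f n * (starRingEnd ℂ) (nit t n)) with hk
  have hkBM : BM k := bm_cr hr2 hcr (bm_tw hf t)
  have hsum' : ∑ p ∈ (Ioc A x).filter Nat.Prime, (1 - (k p * (starRingEnd ℂ) (χ ((p : ℕ) : ZMod Q'))).re) /
      (p : ℝ) ≤ δ := by
    refine le_trans (le_of_eq ?_) hsum
    apply sum_congr rfl
    intro p hp
    congr 3
    rw [hk]
    simp only
    rw [map_mul, map_mul]
    ring
  obtain ⟨Q, w, hQ, hQP, hw1, hwQ, hw⟩ := hP Q' hQ' hQ'A χ k hkBM x hsum'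
  set g' : Fin (d + 1) → ℕ → ℂ := Fin.cons (nit t) g with hg'
  have hg'BM : ∀ i, BM (g' i) := by
    intro i
    refine Fin.cases ?_ (fun i => ?_) i
    · exact ⟨fun n => (nit_norm t n).le, fun m n hm hn _ => nit_mul t hm hn⟩
    · exact hg i
  have h1 := hω y x (by omega) hx1 φ s hs hfar1 g' hg'BM Q (fun n => w (n + h 0)) hQ hQP (fun n => hw1 _) (fun n => by
    show w (n + Q + h 0) = w (n + h 0)
    rw [add_right_comm, hwQ])
  have hkey : ∀ N ∈ Ioc y x, (if (1 - c / 2) * (N : ℝ) < ‖∑ n ∈ Icc 1 N, f (n + h 0) *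
      ∏ i : Fin d, g i (n + h i.succ)‖ then (1 : ℝ) / N else 0) ≤
      (if N ∈ Ioc y (K * y) then (1 : ℝ) / N else 0) +
      (if (1 - c) * (N : ℝ) < ‖∑ n ∈ Icc 1 N, w (n + h 0) * (φ (n + h' 0) *
        ∏ i : Fin (d + 1), g' i (n + h' i.succ))‖ then (1 : ℝ) / N else 0) := by
    intro N hN
    rw [mem_Ioc] at hN
    have hN0 : (0 : ℝ) < N := by exact_mod_cast (by omega : 0 < N)
    have hn1 : (0 : ℝ) ≤ 1 / N := by positivity
    by_cases hNK : N ≤ K * y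
    · rw [if_pos (mem_Ioc.2 ⟨hN.1, hNK⟩)]
      split_ifs <;> linarith
    rw [if_neg (show N ∉ Ioc y (K * y) from fun h => hNK (mem_Ioc.1 h).2), zero_add]
    push Not at hNK
    by_cases hb : (1 - c) * (N : ℝ) < ‖∑ n ∈ Icc 1 N, w (n + h 0) * (φ (n + h' 0) *
        ∏ i : Fin (d + 1), g' i (n + h' i.succ))‖
    · rw [if_pos hb]
      split_ifs <;> linarith
    rw [if_neg hb, if_neg]
    push Not at hb ⊢
    have hKy : (K : ℝ) * y ≤ N := by exact_mod_cast hNK.le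
    have hKN : (K : ℝ) ≤ N := by
      refine le_trans ?_ hKy
      have : (1 : ℝ) ≤ y := by exact_mod_cast hy
      nlinarith
    have hN₀N : N₀ ≤ N := by
      have : K ≤ N := by exact_mod_cast hKN
      omega
    obtain ⟨u, hu, hu2⟩ := hw N hN₀N hN.2
    -- the comparison
    have h2 : ∑ n ∈ Icc 1 N, f (n + h 0) * ∏ i : Fin d, g i (n + h i.succ) =
        u * ∑ n ∈ Icc 1 N, w (n + h 0) * (φ (n + h' 0) *
        ∏ i : Fin (d + 1), g' i (n + h' i.succ)) +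
        ∑ n ∈ Icc 1 N, φ (n + h 0) * ((k (n + h 0) - u * w (n + h 0)) * nit t (n + h 0) +
          u * w (n + h 0) * (nit t (n + h 0) - nit t (n + e))) * ∏ i : Fin d, g i (n + h i.succ) := by
      rw [mul_sum, ← sum_add_distrib]
      apply sum_congr rfl
      intro n hn
      rw [mem_Icc] at hn
      have e1 : ∏ i : Fin (d + 1), g' i (n + h' i.succ) = nit t (n + e) *
          ∏ i : Fin d, g i (n + h i.succ) := by
        rw [Fin.prod_univ_succ]
        rfl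
      have e2 : f (n + h 0) = φ (n + h 0) * (k (n + h 0) * nit t (n + h 0)) := by
        have e3 : nit t (n + h 0) * (starRingEnd ℂ) (nit t (n + h 0)) = 1 := conj_mul_one (nit_norm t _)
        have e4 : φ (n + h 0) * (starRingEnd ℂ) (φ (n + h 0)) = 1 := conj_mul_one (hf₀n _)
        rw [hk]
        simp only
        calc f (n + h 0) = (φ (n + h 0) * (starRingEnd ℂ) (φ (n + h 0))) * f (n + h 0) *
              (nit t (n + h 0) * (starRingEnd ℂ) (nit t (n + h 0))) := by rw [e3, e4]; ring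
          _ = _ := by ring
      have e5 : h' 0 = h 0 := rfl
      rw [e1, e2, e5]
      ring
    have h3 : ‖∑ n ∈ Icc 1 N, φ (n + h 0) * ((k (n + h 0) - u * w (n + h 0)) * nit t (n + h 0) +
          u * w (n + h 0) * (nit t (n + h 0) - nit t (n + e))) * ∏ i : Fin d, g i (n + h i.succ)‖ ≤
        ∑ n ∈ Icc 1 N, ‖k (n + h 0) - u * w (n + h 0)‖ +
        ∑ n ∈ Icc 1 N, ‖nit t (n + h 0) - nit t (n + e)‖ := by
      rw [← sum_add_distrib]
      refine (norm_sum_le _ _).trans (sum_le_sum fun n _ => ?_)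
      have h4 : ‖∏ i : Fin d, g i (n + h i.succ)‖ ≤ 1 := by
        rw [norm_prod]
        exact prod_le_one (fun _ _ => norm_nonneg _) fun i _ => (hg i).1 _
      rw [norm_mul, norm_mul, hf₀n, one_mul]
      refine (mul_le_of_le_one_right (norm_nonneg _) h4).trans ?_
      refine (norm_add_le _ _).trans (add_le_add ?_ ?_)
      · rw [norm_mul, nit_norm, mul_one]
      · rw [norm_mul, norm_mul, hu, one_mul]
        exact mul_le_of_le_one_left (norm_nonneg _) (hw1 _)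
    have h4 := shift_sum (fun m => ‖k m - u * w m‖) (fun _ => norm_nonneg _) (fun m => by
      show ‖k m - u * w m‖ ≤ 2
      have a1 := hkBM.1 m
      have a2 := hw1 m
      have a3 := norm_sub_le (k m) (u * w m)
      rw [norm_mul u (w m), hu, one_mul] at a3
      linarith) (h 0) N
    have h5 := twist_sum t ε hε0 (h 0) e N (hei 0).le
    have h6 : |t| * e / ε ≤ ε * N := by
      have a1 : |t| * e / ε ≤ (A : ℝ) * y * e / ε := by gcongr
      have a2 : (A : ℝ) * y * e / ε = (A : ℝ) * e / ε * y := by ring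
      have a3 : (A : ℝ) * e / ε * y ≤ ε * K * y := mul_le_mul_of_nonneg_right hK3 (Nat.cast_nonneg _)
      have a4 : ε * K * y ≤ ε * N := by
        rw [mul_assoc]
        exact mul_le_mul_of_nonneg_left hKy hε0.le
      linarith
    have h7 : 2 * ((h 0 : ℝ) + 1) ≤ ε * N := hK4.trans (mul_le_mul_of_nonneg_left hKN hε0.le)
    rw [h2]
    refine (norm_add_le _ _).trans ?_
    rw [norm_mul, hu, one_mul]
    have h8 : ε * N * 16 = c * N := by rw [hε]; ring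
    have h9 : 0 ≤ ε * N := by positivity
    have h10 : (1 - c / 2) * (N : ℝ) = (1 - c) * N + c * N / 2 := by ring
    have h11 : ∑ n ∈ range N, ‖k n - u * w n‖ ≤ ε * N := hu2
    rw [h10]
    linarith
  refine (sum_le_sum hkey).trans ?_
  rw [sum_add_distrib]
  have h2 : ∑ N ∈ Ioc y x, (if N ∈ Ioc y (K * y) then (1 : ℝ) / N else 0) ≤ Real.log K := by
    rw [← sum_filter]
    have h3 : (Ioc y x).filter (fun N => N ∈ Ioc y (K * y)) ⊆ Ioc y (K * y) := fun N hN => (mem_filter.1 hN).2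
    refine (sum_le_sum_of_subset_of_nonneg h3 fun _ _ _ => by positivity).trans ?_
    have h4 := harm_win y (K * y) hy (Nat.le_mul_of_pos_left _ hK1)
    have hy0 : (0 : ℝ) < y := by exact_mod_cast hy
    have h5 : (((K * y : ℕ) : ℝ) / y) = K := by
      push_cast
      field_simp
    rw [h5] at h4
    exact h4
  have h3 : η * Real.log ((x : ℝ) / y) = η / 2 * Real.log ((x : ℝ) / y) + η / 2 * Real.log ((x : ℝ) / y) := by
    ring
  rw [h3]
  refine add_le_add (h2.trans hlog3) ?_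
  convert h1


end Pool.Agent.R512.U
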