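import Pool.Agent.R512.U.Kind
import Pool.Agent.Y958.E.UnifT

/-!
Library R512.U (helper512): uniform statements, one factor near a twist of a completely multiplicative function with
values in the roots of unity (after `Pool.Agent.Y958.E.UnifT`, `FinU`).
-/

set_option autoImplicit false

namespace Pool.Agent.R512.U

open Finset Filter Topology
open Pool.Agent.Y958.U
open Pool.Agent.Y958.E
open Pool.Agent.Y958.TC (ind)
open Pool.Agent.R512.Q (CR ru_norm Kind bm_cr conj_mul_one RAdm root_kind exists_lb)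

lemma win_log {y x ω : ℕ} (hy : 1 ≤ y) (hω : 2 ≤ ω) (hx : (y + ω) ^ ω ≤ x) :
    Real.log (ω : ℝ) ≤ Real.log ((x : ℝ) / y) ∧ y ≤ x := by
  have hy0 : (0 : ℝ) < y := by exact_mod_cast hy
  have hω0 : (0 : ℝ) < ω := by exact_mod_cast (by omega : 0 < ω)
  have h1 : (y + ω) ^ 2 ≤ x := le_trans (Nat.pow_le_pow_right (by omega) hω) hx
  have h2 : ω * y ≤ x := by
    refine le_trans ?_ h1
    rw [pow_two]
    exact Nat.mul_le_mul (by omega) (by omega)
  constructor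
  · apply Real.log_le_log hω0
    rw [le_div_iff₀ hy0]
    exact_mod_cast h2
  · exact le_trans (Nat.le_mul_of_pos_left _ (by omega)) h2

lemma win_mono {y x ω ω' : ℕ} (hy : 1 ≤ y) (h : ω ≤ ω') (hx : (y + ω') ^ ω' ≤ x) : (y + ω) ^ ω ≤ x :=
  le_trans (le_trans (Nat.pow_le_pow_left (by omega) _) (Nat.pow_le_pow_right (by omega) h)) hx

/-- the companions uniform, periodic weights of bounded period -/
theorem wtsK (d r q : ℕ) (hr : 1 ≤ r) (hq : q.Prime) : ∃ c : ℝ, 0 < c ∧ c < 1 ∧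
    ∀ h : Fin (d + 1) → ℕ, Function.Injective h → ∀ f : ℕ → ℂ, Kind r q f → f 0 = 1 →
    ∀ (B : ℕ) (η : ℝ), 0 < η → ∃ ω₀ : ℕ, 2 ≤ ω₀ ∧ ∀ y x : ℕ, 1 ≤ y → (y + ω₀) ^ ω₀ ≤ x →
      ∀ g : Fin d → ℕ → ℂ, (∀ i, BM (g i)) → ∀ (Q : ℕ) (w : ℕ → ℂ), 1 ≤ Q → Q ≤ B → (∀ n, ‖w n‖ ≤ 1) →
      (∀ n, w (n + Q) = w n) →
      ∑ N ∈ Ioc y x, (open Classical in
        if (1 - c) * (N : ℝ) < ‖∑ n ∈ Icc 1 N, w n * (f (n + h 0) * ∏ i : Fin d, g i (n + h i.succ))‖
          then (1 : ℝ) / N else 0) ≤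
        η * Real.log ((x : ℝ) / y) := by
  classical
  obtain ⟨c, hc0, hc1, hG⟩ := glueK d r q hr hq
  refine ⟨c, hc0, hc1, fun h hinj f hf hf0 B η hη => ?_⟩
  have h1 : ∀ (Q a : ℕ), ∃ ω₀ : ℕ, 1 ≤ Q → ∀ y x : ℕ, 1 ≤ y → (y + ω₀) ^ ω₀ ≤ x →
      ∀ g : Fin d → ℕ → ℂ, (∀ i, BM (g i)) →
      ∑ N ∈ Ioc y x, (open Classical in
        if (1 - c) * ((N : ℝ) / Q) < ‖Sc h f g Q a N‖ then (1 : ℝ) / N else 0) ≤
        η / (B + 1) * Real.log ((x : ℝ) / y) := by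
    intro Q a
    by_cases hQ : 1 ≤ Q
    · obtain ⟨ω₀, hω⟩ := hG h hinj Q a hQ f hf hf0 (η / (B + 1)) (by positivity)
      exact ⟨ω₀, fun _ => hω⟩
    · exact ⟨0, fun hh => absurd hh hQ⟩
  choose ω hω using h1
  refine ⟨2 + ∑ q ∈ range (B + 1), ∑ r ∈ range (B + 1), ω q r, by omega, fun y x hy hx g hg Q w hQ hQB hw1 hwQ => ?_⟩
  have hlog : 0 ≤ Real.log ((x : ℝ) / y) := by
    refine le_trans ?_ (win_log hy (by omega) hx).1
    apply Real.log_nonneg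
    exact_mod_cast (by omega : 1 ≤ 2 + ∑ q ∈ range (B + 1), ∑ r ∈ range (B + 1), ω q r)
  have h2 := wts_of h f g c (η / (B + 1) * Real.log ((x : ℝ) / y)) y x Q hQ w hw1 hwQ (fun a ha => by
    refine hω Q a hQ y x hy (win_mono hy ?_ hx) g hg
    rw [mem_range] at ha
    have h2 : ω Q a ≤ ∑ r ∈ range (B + 1), ω Q r :=
      single_le_sum (f := fun r => ω Q r) (fun _ _ => Nat.zero_le _) (mem_range.2 (by omega))
    have h3 : ∑ r ∈ range (B + 1), ω Q r ≤ ∑ q ∈ range (B + 1), ∑ r ∈ range (B + 1), ω q r :=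
      single_le_sum (f := fun q => ∑ r ∈ range (B + 1), ω q r) (fun _ _ => Nat.zero_le _) (mem_range.2 (by omega))
    omega)
  refine (le_of_eq (by congr!)).trans (h2.trans ?_)
  have h4 : (Q : ℝ) ≤ B + 1 := by exact_mod_cast (by omega : Q ≤ B + 1)
  have h5 : (Q : ℝ) * (η / (B + 1) * Real.log ((x : ℝ) / y)) ≤
      (B + 1) * (η / (B + 1) * Real.log ((x : ℝ) / y)) :=
    mul_le_mul_of_nonneg_right h4 (mul_nonneg (by positivity) hlog)
  refine h5.trans (le_of_eq ?_)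
  field_simp

/-- **uniform gap in windows** -/
theorem unifK (d r q : ℕ) (hr : 1 ≤ r) (hq : q.Prime) : ∃ c δ : ℝ, 0 < c ∧ c < 1 ∧ 0 < δ ∧
    ∀ h : Fin (d + 1) → ℕ, Function.Injective h → ∀ f₀ : ℕ → ℂ, Kind r q f₀ → f₀ 0 = 1 →
    ∀ (A : ℕ) (η : ℝ), 0 < η → ∃ ω₀ : ℕ, 2 ≤ ω₀ ∧ ∀ y x : ℕ, 1 ≤ y → (y + ω₀) ^ ω₀ ≤ x →
      ∀ f : ℕ → ℂ, BM f → ∀ g : Fin d → ℕ → ℂ, (∀ i, BM (g i)) →
      ∀ (Q : ℕ) (χ : DirichletCharacter ℂ Q) (t : ℝ), 1 ≤ Q → Q ≤ A → |t| ≤ A * y →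
      ∑ p ∈ (Ioc A x).filter Nat.Prime, (1 - (f p * (starRingEnd ℂ) (f₀ p *
        χ ((p : ℕ) : ZMod Q) * nit t p)).re) / (p : ℝ) ≤ δ →
      ∑ N ∈ Ioc y x, (open Classical in
        if (1 - c) * (N : ℝ) < ‖∑ n ∈ Icc 1 N, f (n + h 0) * ∏ i : Fin d, g i (n + h i.succ)‖
          then (1 : ℝ) / N else 0) ≤
        η * Real.log ((x : ℝ) / y) := by
  classical
  have hm0 : r * q ≠ 0 := (Nat.mul_pos hr hq.pos).ne'
  obtain ⟨c, hc0, hc1, hW⟩ := wtsK (d + 1) r q hr hq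
  set ε : ℝ := c / 16 with hε
  have hε0 : 0 < ε := by positivity
  obtain ⟨δ, hδ0, hA⟩ := apxU ε hε0
  refine ⟨c / 2, δ, by positivity, by linarith, hδ0, fun h hinj f₀ hf₀ hf₀0 A η hη => ?_⟩
  have hf₀n : ∀ n, ‖f₀ n‖ = 1 := fun n => ru_norm hm0 (hf₀.1.pow n)
  set e : ℕ := 1 + ∑ i, h i with he
  have hei : ∀ i, h i < e := by
    intro i
    have := single_le_sum (f := fun i => h i) (fun _ _ => Nat.zero_le _) (mem_univ i)
    omega
  set h' : Fin (d + 1 + 1) → ℕ := Fin.cons (h 0) (Fin.cons e (fun i => h i.succ)) with hh'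
  have hinj' : Function.Injective h' := by
    rw [hh', Fin.cons_injective_iff, Fin.cons_injective_iff]
    refine ⟨?_, ?_, ?_⟩
    · rintro ⟨i, hi⟩
      revert hi
      refine Fin.cases ?_ (fun i => ?_) i
      · intro hi
        rw [Fin.cons_zero] at hi
        exact absurd hi (hei 0).ne'
      · intro hi
        rw [Fin.cons_succ] at hi
        exact absurd (hinj hi) (Fin.succ_ne_zero i)
    · rintro ⟨i, hi⟩
      exact absurd hi (hei i.succ).ne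
    · intro i j hij
      exact Fin.succ_injective _ (hinj hij)
  obtain ⟨P, N₀, hP⟩ := hA A
  obtain ⟨ω₁, hω₁, hω⟩ := hW h' hinj' f₀ hf₀ hf₀0 P (η / 2) (by positivity)
  obtain ⟨K, hK1, hK2, hK3, hK4⟩ : ∃ K : ℕ, 1 ≤ K ∧ N₀ ≤ K ∧ (A : ℝ) * e / ε ≤ ε * K ∧
      2 * ((h 0 : ℝ) + 1) ≤ ε * K := by
    refine ⟨⌈(A : ℝ) * e / ε / ε⌉₊ + ⌈2 * ((h 0 : ℝ) + 1) / ε⌉₊ + N₀ + 1, by omega, by omega, ?_, ?_⟩
    · have h1 := Nat.le_ceil ((A : ℝ) * e / ε / ε)
      rw [div_le_iff₀ hε0] at h1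
      rw [mul_comm ε]
      refine h1.trans (mul_le_mul_of_nonneg_right ?_ hε0.le)
      exact_mod_cast (by omega)
    · have h1 := Nat.le_ceil (2 * ((h 0 : ℝ) + 1) / ε)
      rw [div_le_iff₀ hε0] at h1
      rw [mul_comm ε]
      refine h1.trans (mul_le_mul_of_nonneg_right ?_ hε0.le)
      exact_mod_cast (by omega)
  have hK0 : (0 : ℝ) < K := by exact_mod_cast hK1
  have hlK : 0 ≤ Real.log K := Real.log_nonneg (by exact_mod_cast hK1)
  set ω₂ : ℕ := ⌈Real.exp (2 * Real.log K / η)⌉₊ + 1 with hω₂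
  have hω₂' : 2 * Real.log K / η ≤ Real.log (ω₂ : ℝ) := by
    rw [Real.le_log_iff_exp_le (by rw [hω₂]; positivity)]
    refine (Nat.le_ceil _).trans ?_
    rw [hω₂]
    push_cast
    linarith
  refine ⟨ω₁ + ω₂, by omega, fun y x hy hx f hf g hg Q' χ t hQ' hQ'A ht hsum => ?_⟩
  have hx1 : (y + ω₁) ^ ω₁ ≤ x := win_mono hy (by omega) hx
  have hlog2 : 2 * Real.log K / η ≤ Real.log ((x : ℝ) / y) := by
    refine hω₂'.trans (le_trans ?_ (win_log hy (by omega) hx).1)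
    apply Real.log_le_log (by rw [hω₂]; positivity)
    exact_mod_cast (by omega : ω₂ ≤ ω₁ + ω₂)
  have hlog3 : Real.log K ≤ η / 2 * Real.log ((x : ℝ) / y) := by
    rw [div_le_iff₀ hη] at hlog2
    linarith
  -- the twisted function
  set k : ℕ → ℂ := fun n => (starRingEnd ℂ) (f₀ n) * (f n * (starRingEnd ℂ) (nit t n)) with hk
  have hkBM : BM k := bm_cr hm0 hf₀.1 (bm_tw hf t)
  have hsum' : ∑ p ∈ (Ioc A x).filter Nat.Prime, (1 - (k p * (starRingEnd ℂ) (χ ((p : ℕ) : ZMod Q'))).re) /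
      (p : ℝ) ≤ δ := by
    refine le_trans (le_of_eq ?_) hsum
    apply sum_congr rfl
    intro p hp
    congr 3
    rw [hk]
    simp only
    rw [map_mul, map_mul]
    ring
  obtain ⟨Q, w, hQ, hQP, hw1, hwQ, hw⟩ := hP Q' hQ' hQ'A χ k hkBM x hsum'
  set g' : Fin (d + 1) → ℕ → ℂ := Fin.cons (nit t) g with hg'
  have hg'BM : ∀ i, BM (g' i) := by
    intro i
    refine Fin.cases ?_ (fun i => ?_) i
    · exact ⟨fun n => (nit_norm t n).le, fun m n hm hn _ => nit_mul t hm hn⟩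
    · exact hg i
  have h1 := hω y x hy hx1 g' hg'BM Q (fun n => w (n + h 0)) hQ hQP (fun n => hw1 _) (fun n => by
    show w (n + Q + h 0) = w (n + h 0)
    rw [add_right_comm, hwQ])
  have hkey : ∀ N ∈ Ioc y x, (if (1 - c / 2) * (N : ℝ) < ‖∑ n ∈ Icc 1 N, f (n + h 0) *
      ∏ i : Fin d, g i (n + h i.succ)‖ then (1 : ℝ) / N else 0) ≤
      (if N ∈ Ioc y (K * y) then (1 : ℝ) / N else 0) +
      (if (1 - c) * (N : ℝ) < ‖∑ n ∈ Icc 1 N, w (n + h 0) * (f₀ (n + h' 0) *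
        ∏ i : Fin (d + 1), g' i (n + h' i.succ))‖ then (1 : ℝ) / N else 0) := by
    intro N hN
    rw [mem_Ioc] at hN
    have hN0 : (0 : ℝ) < N := by exact_mod_cast (by omega : 0 < N)
    have hn1 : (0 : ℝ) ≤ 1 / N := by positivity
    by_cases hNK : N ≤ K * y
    · rw [if_pos (mem_Ioc.2 ⟨hN.1, hNK⟩)]
      split_ifs <;> linarith
    rw [if_neg (show N ∉ Ioc y (K * y) from fun h => hNK (mem_Ioc.1 h).2), zero_add]
    push Not at hNK
    by_cases hb : (1 - c) * (N : ℝ) < ‖∑ n ∈ Icc 1 N, w (n + h 0) * (f₀ (n + h' 0) *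
        ∏ i : Fin (d + 1), g' i (n + h' i.succ))‖
    · rw [if_pos hb]
      split_ifs <;> linarith
    rw [if_neg hb, if_neg]
    push Not at hb ⊢
    have hKy : (K : ℝ) * y ≤ N := by exact_mod_cast hNK.le
    have hKN : (K : ℝ) ≤ N := by
      refine le_trans ?_ hKy
      have : (1 : ℝ) ≤ y := by exact_mod_cast hy
      nlinarith
    have hN₀N : N₀ ≤ N := by
      have : K ≤ N := by exact_mod_cast hKN
      omega
    obtain ⟨u, hu, hu2⟩ := hw N hN₀N hN.2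
    -- the comparison
    have h2 : ∑ n ∈ Icc 1 N, f (n + h 0) * ∏ i : Fin d, g i (n + h i.succ) =
        u * ∑ n ∈ Icc 1 N, w (n + h 0) * (f₀ (n + h' 0) *
        ∏ i : Fin (d + 1), g' i (n + h' i.succ)) +
        ∑ n ∈ Icc 1 N, f₀ (n + h 0) * ((k (n + h 0) - u * w (n + h 0)) * nit t (n + h 0) +
          u * w (n + h 0) * (nit t (n + h 0) - nit t (n + e))) * ∏ i : Fin d, g i (n + h i.succ) := by
      rw [mul_sum, ← sum_add_distrib]
      apply sum_congr rfl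
      intro n hn
      rw [mem_Icc] at hn
      have e1 : ∏ i : Fin (d + 1), g' i (n + h' i.succ) = nit t (n + e) *
          ∏ i : Fin d, g i (n + h i.succ) := by
        rw [Fin.prod_univ_succ]
        rfl
      have e2 : f (n + h 0) = f₀ (n + h 0) * (k (n + h 0) * nit t (n + h 0)) := by
        have e3 : nit t (n + h 0) * (starRingEnd ℂ) (nit t (n + h 0)) = 1 := conj_mul_one (nit_norm t _)
        have e4 : f₀ (n + h 0) * (starRingEnd ℂ) (f₀ (n + h 0)) = 1 := conj_mul_one (hf₀n _)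
        rw [hk]
        simp only
        calc f (n + h 0) = (f₀ (n + h 0) * (starRingEnd ℂ) (f₀ (n + h 0))) * f (n + h 0) *
              (nit t (n + h 0) * (starRingEnd ℂ) (nit t (n + h 0))) := by rw [e3, e4]; ring
          _ = _ := by ring
      have e5 : h' 0 = h 0 := rfl
      rw [e1, e2, e5]
      ring
    have h3 : ‖∑ n ∈ Icc 1 N, f₀ (n + h 0) * ((k (n + h 0) - u * w (n + h 0)) * nit t (n + h 0) +
          u * w (n + h 0) * (nit t (n + h 0) - nit t (n + e))) * ∏ i : Fin d, g i (n + h i.succ)‖ ≤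
        ∑ n ∈ Icc 1 N, ‖k (n + h 0) - u * w (n + h 0)‖ +
        ∑ n ∈ Icc 1 N, ‖nit t (n + h 0) - nit t (n + e)‖ := by
      rw [← sum_add_distrib]
      refine (norm_sum_le _ _).trans (sum_le_sum fun n _ => ?_)
      have h4 : ‖∏ i : Fin d, g i (n + h i.succ)‖ ≤ 1 := by
        rw [norm_prod]
        exact prod_le_one (fun _ _ => norm_nonneg _) fun i _ => (hg i).1 _
      rw [norm_mul, norm_mul, hf₀n, one_mul]
      refine (mul_le_of_le_one_right (norm_nonneg _) h4).trans ?_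
      refine (norm_add_le _ _).trans (add_le_add ?_ ?_)
      · rw [norm_mul, nit_norm, mul_one]
      · rw [norm_mul, norm_mul, hu, one_mul]
        exact mul_le_of_le_one_left (norm_nonneg _) (hw1 _)
    have h4 := shift_sum (fun m => ‖k m - u * w m‖) (fun _ => norm_nonneg _) (fun m => by
      show ‖k m - u * w m‖ ≤ 2
      have a1 := hkBM.1 m
      have a2 := hw1 m
      have a3 := norm_sub_le (k m) (u * w m)
      rw [norm_mul u (w m), hu, one_mul] at a3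
      linarith) (h 0) N
    have h5 := twist_sum t ε hε0 (h 0) e N (hei 0).le
    have h6 : |t| * e / ε ≤ ε * N := by
      have a1 : |t| * e / ε ≤ (A : ℝ) * y * e / ε := by gcongr
      have a2 : (A : ℝ) * y * e / ε = (A : ℝ) * e / ε * y := by ring
      have a3 : (A : ℝ) * e / ε * y ≤ ε * K * y := mul_le_mul_of_nonneg_right hK3 (Nat.cast_nonneg _)
      have a4 : ε * K * y ≤ ε * N := by
        rw [mul_assoc]
        exact mul_le_mul_of_nonneg_left hKy hε0.le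
      linarith
    have h7 : 2 * ((h 0 : ℝ) + 1) ≤ ε * N := hK4.trans (mul_le_mul_of_nonneg_left hKN hε0.le)
    rw [h2]
    refine (norm_add_le _ _).trans ?_
    rw [norm_mul, hu, one_mul]
    have h8 : ε * N * 16 = c * N := by rw [hε]; ring
    have h9 : 0 ≤ ε * N := by positivity
    have h10 : (1 - c / 2) * (N : ℝ) = (1 - c) * N + c * N / 2 := by ring
    have h11 : ∑ n ∈ range N, ‖k n - u * w n‖ ≤ ε * N := hu2
    rw [h10]
    linarith
  refine (sum_le_sum hkey).trans ?_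
  rw [sum_add_distrib]
  have h2 : ∑ N ∈ Ioc y x, (if N ∈ Ioc y (K * y) then (1 : ℝ) / N else 0) ≤ Real.log K := by
    rw [← sum_filter]
    have h3 : (Ioc y x).filter (fun N => N ∈ Ioc y (K * y)) ⊆ Ioc y (K * y) := fun N hN => (mem_filter.1 hN).2
    refine (sum_le_sum_of_subset_of_nonneg h3 fun _ _ _ => by positivity).trans ?_
    have h4 := harm_win y (K * y) hy (Nat.le_mul_of_pos_left _ hK1)
    have hy0 : (0 : ℝ) < y := by exact_mod_cast hy
    have h5 : (((K * y : ℕ) : ℝ) / y) = K := by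
      push_cast
      field_simp
    rw [h5] at h4
    exact h4
  have h3 : η * Real.log ((x : ℝ) / y) = η / 2 * Real.log ((x : ℝ) / y) + η / 2 * Real.log ((x : ℝ) / y) := by
    ring
  rw [h3]
  refine add_le_add (h2.trans hlog3) ?_
  convert h1

/-- nearness at the primes of `(A, x]` to a twist of `f₀` -/
def NearF (f₀ : ℕ → ℂ) (A : ℕ) (T δ : ℝ) (x : ℕ) (f : ℕ → ℂ) : Prop :=
  ∃ (q : ℕ) (χ : DirichletCharacter ℂ q) (t : ℝ), 1 ≤ q ∧ q ≤ A ∧ |t| ≤ T ∧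
    ∑ p ∈ (Ioc A x).filter Nat.Prime, (1 - (f p * (starRingEnd ℂ) (f₀ p * χ ((p : ℕ) : ZMod q) *
      nit t p)).re) / (p : ℝ) ≤ δ

/-- **final uniform statement** -/
theorem finKU : ∃ c : ℕ → ℕ → ℝ, (∀ M k, 0 < c M k) ∧ ∀ M : ℕ, 1 ≤ M →
    ∀ 𝓕 : Finset (ℕ → ℂ), (∀ f₀ ∈ 𝓕, RAdm M f₀) → ∀ (k : ℕ) (h : Fin (k + 1) → ℕ), Function.Injective h →
    ∀ (A : ℕ) (η : ℝ), 0 < η → ∃ ω₀ : ℕ, ∀ y x : ℕ, 1 ≤ y → (y + ω₀) ^ ω₀ ≤ x →
      ∀ f : Fin (k + 1) → ℕ → ℂ, (∀ i, BM (f i)) → (∃ f₀ ∈ 𝓕, NearF f₀ A (A * y) (c M k) x (f 0)) →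
      ∑ N ∈ Ioc y x, (open Classical in
        if (1 - c M k) * (N : ℝ) < ‖∑ n ∈ Icc 1 N, ∏ i, f i (n + h i)‖ then (1 : ℝ) / N else 0) ≤
        η * Real.log ((x : ℝ) / y) ∧
      ‖∑ n ∈ Ioc y x, (∏ i, f i (n + h i)) / n‖ ≤ (1 - c M k) * Real.log ((x : ℝ) / y) := by
  classical
  choose c₀ δ₀ hc0 hc1 hδ0 hU using fun (k r q : ℕ) (hr : 1 ≤ r) (hq : q.Prime) => unifK k r q hr hq
  have hex : ∀ M k : ℕ, ∃ c : ℝ, 0 < c ∧ c < 1 ∧ ∀ x ∈ range (M + 1) ×ˢ range (M + 3),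
      c ≤ if h : 1 ≤ x.1 ∧ x.2.Prime then min (c₀ k x.1 x.2 h.1 h.2 / 2) (δ₀ k x.1 x.2 h.1 h.2) else 1 := by
    intro M k
    apply exists_lb
    intro x
    split_ifs with h
    · exact lt_min (by have := hc0 k x.1 x.2 h.1 h.2; positivity) (hδ0 _ _ _ _ _)
    · exact one_pos
  choose c hcp hcl1 hcle using hex
  refine ⟨c, hcp, fun M hM 𝓕 h𝓕 k h hinj A η hη => ?_⟩
  have hc := hcp M k
  -- one function
  have key : ∀ f₀ : ℕ → ℂ, ∃ ω₀ : ℕ, RAdm M f₀ → ∀ y x : ℕ, 1 ≤ y → (y + ω₀) ^ ω₀ ≤ x →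
      ∀ f : Fin (k + 1) → ℕ → ℂ, (∀ i, BM (f i)) → NearF f₀ A (A * y) (c M k) x (f 0) →
      ∑ N ∈ Ioc y x, (if (1 - c M k) * (N : ℝ) < ‖∑ n ∈ Icc 1 N, ∏ i, f i (n + h i)‖ then (1 : ℝ) / N else 0) ≤
        η * Real.log ((x : ℝ) / y) ∧
      ‖∑ n ∈ Ioc y x, (∏ i, f i (n + h i)) / n‖ ≤ (1 - c M k) * Real.log ((x : ℝ) / y) := by
    intro f₀
    by_cases hAd : RAdm M f₀
    swap
    · exact ⟨0, fun hh => absurd hh hAd⟩
    obtain ⟨r, q, hr, hrM, hqM, hq, f', hff', hK⟩ := root_kind hM hAd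
    have hle := hcle M k (r, q) (mem_product.2 ⟨mem_range.2 (by omega), mem_range.2 (by omega)⟩)
    rw [dif_pos (show 1 ≤ (r, q).1 ∧ (r, q).2.Prime from ⟨hr, hq⟩)] at hle
    have hle1 : c M k ≤ c₀ k r q hr hq / 2 := hle.trans (min_le_left _ _)
    have hle2 : c M k ≤ δ₀ k r q hr hq := hle.trans (min_le_right _ _)
    -- normalise at zero
    set f'' : ℕ → ℂ := fun n => if n = 0 then 1 else f' n with hf''
    have hf''n : ∀ n, n ≠ 0 → f'' n = f' n := fun n hn => by simp only [hf'']; rw [if_neg hn]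
    have hf''0 : f'' 0 = 1 := by simp only [hf'']; rw [if_pos trivial]
    have hK' : Kind r q f'' := by
      obtain ⟨hC, hk⟩ := hK
      refine ⟨⟨fun n => ?_, fun a b ha hb => ?_⟩, ?_⟩
      · by_cases hn : n = 0
        · rw [hn, hf''0, one_pow]
        · rw [hf''n n hn, hC.pow]
      · rw [hf''n _ (Nat.mul_ne_zero ha hb), hf''n _ ha, hf''n _ hb, hC.mul a b ha hb]
      · rcases hk with ⟨w, h1, h2, h3⟩ | ⟨s, h1, h2, h3⟩
        · exact Or.inl ⟨w, h1, h2, fun p hp => by rw [hf''n p hp.ne_zero]; exact h3 p hp⟩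
        · exact Or.inr ⟨s, h1, h2, fun n hn => by rw [hf''n n hn]; exact h3 n hn⟩
    obtain ⟨ω₁, hω₁, h1⟩ := hU k r q hr hq h hinj f'' hK' hf''0 A (min η (c₀ k r q hr hq / 4))
      (lt_min hη (by have := hc0 k r q hr hq; positivity))
    set ck : ℝ := c₀ k r q hr hq with hck
    have hck0 : 0 < ck := hc0 k r q hr hq
    have hck1 : ck < 1 := hc1 k r q hr hq
    set ω₂ : ℕ := ⌈Real.exp (8 / ck)⌉₊ + 1 with hω₂
    have hω₂' : 8 / ck ≤ Real.log (ω₂ : ℝ) := by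
      rw [Real.le_log_iff_exp_le (by rw [hω₂]; positivity)]
      refine (Nat.le_ceil _).trans ?_
      rw [hω₂]
      push_cast
      linarith
    refine ⟨ω₁ + ω₂, fun _ y x hy hx f hf hnear => ?_⟩
    obtain ⟨Q, χ, t, hQ, hQA, ht, hsum⟩ := hnear
    have hx1 : (y + ω₁) ^ ω₁ ≤ x := win_mono hy (by omega) hx
    have hwl := win_log hy (by omega) hx
    have hyx : y ≤ x := hwl.2
    have hlog2 : 8 / ck ≤ Real.log ((x : ℝ) / y) := by
      refine hω₂'.trans (le_trans ?_ hwl.1)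
      apply Real.log_le_log (by rw [hω₂]; positivity)
      exact_mod_cast (by omega : ω₂ ≤ ω₁ + ω₂)
    have hlog0 : 0 ≤ Real.log ((x : ℝ) / y) := le_trans (by positivity) hlog2
    have h2 := h1 y x hy hx1 (f 0) (hf 0) (fun i => f i.succ) (fun i => hf i.succ) Q χ t hQ hQA ht (by
      refine le_trans (le_of_eq ?_) (hsum.trans hle2)
      apply sum_congr rfl
      intro p hp
      rw [mem_filter] at hp
      rw [hf''n p hp.2.ne_zero, ← hff' p hp.2.ne_zero])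
    have hprod : ∀ n, f 0 (n + h 0) * ∏ i : Fin k, f i.succ (n + h i.succ) = ∏ i, f i (n + h i) := by
      intro n
      rw [Fin.prod_univ_succ]
    simp only [hprod] at h2
    constructor
    · refine le_trans (sum_le_sum fun N hN => ?_)
        (h2.trans (mul_le_mul_of_nonneg_right (min_le_left _ _) hlog0))
      have hN0 : (0 : ℝ) < N := by exact_mod_cast (by rw [mem_Ioc] at hN; omega : 0 < N)
      by_cases hb : (1 - c M k) * (N : ℝ) < ‖∑ n ∈ Icc 1 N, ∏ i, f i (n + h i)‖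
      · rw [if_pos hb, if_pos]
        refine lt_of_le_of_lt (mul_le_mul_of_nonneg_right ?_ hN0.le) hb
        linarith
      · rw [if_neg hb]
        split_ifs <;> positivity
    · have h3 := log_win (fun n => ∏ i, f i (n + h i)) (fun n => by
        show ‖∏ i, f i (n + h i)‖ ≤ 1
        rw [norm_prod]
        exact prod_le_one (fun _ _ => norm_nonneg _) fun i _ => (hf i).1 _) ck (ck / 4) hck1.le y x hy hyx
        (h2.trans (mul_le_mul_of_nonneg_right (min_le_right _ _) hlog0))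
      refine h3.trans ?_
      rw [div_le_iff₀ hck0] at hlog2
      have h4 : (1 - ck / 2) * Real.log ((x : ℝ) / y) ≤ (1 - c M k) * Real.log ((x : ℝ) / y) :=
        mul_le_mul_of_nonneg_right (by linarith) hlog0
      have h5 : (1 - ck + ck / 4) * Real.log ((x : ℝ) / y) + ck / 4 * Real.log ((x : ℝ) / y) =
          (1 - ck / 2) * Real.log ((x : ℝ) / y) := by ring
      linarith
  choose ω hω using key
  refine ⟨∑ f₀ ∈ 𝓕, ω f₀, fun y x hy hx f hf hnear => ?_⟩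
  obtain ⟨f₀, hf₀, hn⟩ := hnear
  have h1 := hω f₀ (h𝓕 f₀ hf₀) y x hy (win_mono hy (single_le_sum (f := ω) (fun _ _ => Nat.zero_le _) hf₀) hx) f hf hn
  exact ⟨le_trans (le_of_eq (by congr!)) h1.1, h1.2⟩

end Pool.Agent.R512.U
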