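import Pool.Agent.R512.U.Cls
import Pool.Agent.R512.U.Unif

/-!
Library R512.U (helper512): uniform statements, one factor near a twist of a varying completely multiplicative function
with values `±1`.
-/

set_option autoImplicit false

namespace Pool.Agent.R512.U

open Finset Filter Topology
open Pool.Agent.Y958.U
open Pool.Agent.Y958.E
open Pool.Agent.Y958.TC (ind)
open Pool.Agent.Y872.L (CM)
open Pool.Agent.R512.Q (CR ru_norm bm_cr conj_mul_one)

/-- periodic weights of bounded period -/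
theorem wtsR (d : ℕ) : ∃ c : ℝ, 0 < c ∧ c < 1 ∧
    ∀ h : Fin (d + 1) → ℕ, Function.Injective h →
    ∀ (B : ℕ) (η : ℝ), 0 < η → ∃ ω₀ : ℕ, 1 ≤ ω₀ ∧ ∀ y x : ℕ, ω₀ ≤ y → ω₀ * y ≤ x →
      ∀ f : ℕ → ℤ, CM f → Far ω₀ y f →
      ∀ g : Fin d → ℕ → ℂ, (∀ i, BM (g i)) → ∀ (Q : ℕ) (w : ℕ → ℂ), 1 ≤ Q → Q ≤ B → (∀ n, ‖w n‖ ≤ 1) →
      (∀ n, w (n + Q) = w n) →
      ∑ N ∈ Ioc y x, (open Classical in
        if (1 - c) * (N : ℝ) < ‖∑ n ∈ Icc 1 N, w n * (uC f (n + h 0) * ∏ i : Fin d, g i (n + h i.succ))‖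
          then (1 : ℝ) / N else 0) ≤
        η * Real.log ((x : ℝ) / y) := by
  classical
  obtain ⟨c, hc0, hc1, hG⟩ := winF d
  refine ⟨c, hc0, hc1, fun h hinj B η hη => ?_⟩
  have h1 : ∀ (Q a : ℕ), ∃ ω₀ : ℕ, 1 ≤ Q → ∀ y x : ℕ, ω₀ ≤ y → ω₀ * y ≤ x → ∀ f : ℕ → ℤ, CM f → Far ω₀ y f →
      ∀ g : Fin d → ℕ → ℂ, (∀ i, BM (g i)) →
      ∑ N ∈ Ioc y x, (open Classical in
        if (1 - c) * ((N : ℝ) / Q) < ‖Sc h (uC f) g Q a N‖ then (1 : ℝ) / N else 0) ≤
        η / (B + 1) * Real.log ((x : ℝ) / y) := by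
    intro Q a
    by_cases hQ : 1 ≤ Q
    · obtain ⟨ω₀, _, hω⟩ := hG h hinj Q a hQ (η / (B + 1)) (by positivity)
      exact ⟨ω₀, fun _ => hω⟩
    · exact ⟨0, fun hh => absurd hh hQ⟩
  choose ω hω using h1
  refine ⟨2 + ∑ q ∈ range (B + 1), ∑ r ∈ range (B + 1), ω q r, by omega,
    fun y x hyA hx f hf hfar g hg Q w hQ hQB hw1 hwQ => ?_⟩
  have hy : 1 ≤ y := by omega
  have hyx : y ≤ x := le_trans (Nat.le_mul_of_pos_left _ (by omega)) hx
  have hlog : 0 ≤ Real.log ((x : ℝ) / y) := by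
    apply Real.log_nonneg
    rw [le_div_iff₀ (by exact_mod_cast hy), one_mul]
    exact_mod_cast hyx
  have h2 := wts_of h (uC f) g c (η / (B + 1) * Real.log ((x : ℝ) / y)) y x Q hQ w hw1 hwQ (fun a ha => by
    rw [mem_range] at ha
    have h2 : ω Q a ≤ ∑ r ∈ range (B + 1), ω Q r :=
      single_le_sum (f := fun r => ω Q r) (fun _ _ => Nat.zero_le _) (mem_range.2 (by omega))
    have h3 : ∑ r ∈ range (B + 1), ω Q r ≤ ∑ q ∈ range (B + 1), ∑ r ∈ range (B + 1), ω q r :=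
      single_le_sum (f := fun q => ∑ r ∈ range (B + 1), ω q r) (fun _ _ => Nat.zero_le _) (mem_range.2 (by omega))
    exact hω Q a hQ y x (by omega) ((Nat.mul_le_mul_right _ (by omega)).trans hx) f hf
      (hfar.mono hf (by omega) le_rfl) g hg)
  refine (le_of_eq (by congr!)).trans (h2.trans ?_)
  have h4 : (Q : ℝ) ≤ B + 1 := by exact_mod_cast (by omega : Q ≤ B + 1)
  have h5 : (Q : ℝ) * (η / (B + 1) * Real.log ((x : ℝ) / y)) ≤
      (B + 1) * (η / (B + 1) * Real.log ((x : ℝ) / y)) :=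
    mul_le_mul_of_nonneg_right h4 (mul_nonneg (by positivity) hlog)
  refine h5.trans (le_of_eq ?_)
  field_simp

/-- **twists** -/
theorem unifR (d : ℕ) : ∃ c δ : ℝ, 0 < c ∧ c < 1 ∧ 0 < δ ∧
    ∀ h : Fin (d + 1) → ℕ, Function.Injective h → ∀ (A : ℕ) (η : ℝ), 0 < η → ∃ ω₀ : ℕ, 1 ≤ ω₀ ∧
      ∀ y x : ℕ, ω₀ ≤ y → ω₀ * y ≤ x → ∀ s : ℕ → ℤ, CM s → Far ω₀ y s →
      ∀ f : ℕ → ℂ, BM f → ∀ g : Fin d → ℕ → ℂ, (∀ i, BM (g i)) →
      ∀ (Q : ℕ) (χ : DirichletCharacter ℂ Q) (t : ℝ), 1 ≤ Q → Q ≤ A → |t| ≤ A * y →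
      ∑ p ∈ (Ioc A x).filter Nat.Prime, (1 - (f p * (starRingEnd ℂ) (uC s p *
        χ ((p : ℕ) : ZMod Q) * nit t p)).re) / (p : ℝ) ≤ δ →
      ∑ N ∈ Ioc y x, (open Classical in
        if (1 - c) * (N : ℝ) < ‖∑ n ∈ Icc 1 N, f (n + h 0) * ∏ i : Fin d, g i (n + h i.succ)‖
          then (1 : ℝ) / N else 0) ≤
        η * Real.log ((x : ℝ) / y) := by
  classical
  obtain ⟨c, hc0, hc1, hW⟩ := wtsR (d + 1)
  set ε : ℝ := c / 16 with hε
  have hε0 : 0 < ε := by positivity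
  obtain ⟨δ, hδ0, hA⟩ := apxU ε hε0
  refine ⟨c / 2, δ, by positivity, by linarith, hδ0, fun h hinj A η hη => ?_⟩
  set e : ℕ := 1 + ∑ i, h i with he
  have hei : ∀ i, h i < e := by
    intro i
    have := single_le_sum (f := fun i => h i) (fun _ _ => Nat.zero_le _) (mem_univ i)
    omega
  set h' : Fin (d + 1 + 1) → ℕ := Fin.cons (h 0) (Fin.cons e (fun i => h i.succ)) with hh'
  have hinj' : Function.Injective h' := by
    rw [hh', Fin.cons_injective_iff, Fin.cons_injective_iff]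
    refine ⟨?_, ?_, ?_⟩
    · rintro ⟨i, hi⟩
      revert hi
      refine Fin.cases ?_ (fun i => ?_) i
      · intro hi
        rw [Fin.cons_zero] at hi
        exact absurd hi (hei 0).ne'
      · intro hi
        rw [Fin.cons_succ] at hi
        exact absurd (hinj hi) (Fin.succ_ne_zero i)
    · rintro ⟨i, hi⟩
      exact absurd hi (hei i.succ).ne
    · intro i j hij
      exact Fin.succ_injective _ (hinj hij)
  obtain ⟨P, N₀, hP⟩ := hA A
  obtain ⟨ω₁, hω₁, hω⟩ := hW h' hinj' P (η / 2) (by positivity)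
  obtain ⟨K, hK1, hK2, hK3, hK4⟩ : ∃ K : ℕ, 1 ≤ K ∧ N₀ ≤ K ∧ (A : ℝ) * e / ε ≤ ε * K ∧
      2 * ((h 0 : ℝ) + 1) ≤ ε * K := by
    refine ⟨⌈(A : ℝ) * e / ε / ε⌉₊ + ⌈2 * ((h 0 : ℝ) + 1) / ε⌉₊ + N₀ + 1, by omega, by omega, ?_, ?_⟩
    · have h1 := Nat.le_ceil ((A : ℝ) * e / ε / ε)
      rw [div_le_iff₀ hε0] at h1
      rw [mul_comm ε]
      refine h1.trans (mul_le_mul_of_nonneg_right ?_ hε0.le)
      exact_mod_cast (by omega)
    · have h1 := Nat.le_ceil (2 * ((h 0 : ℝ) + 1) / ε)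
      rw [div_le_iff₀ hε0] at h1
      rw [mul_comm ε]
      refine h1.trans (mul_le_mul_of_nonneg_right ?_ hε0.le)
      exact_mod_cast (by omega)
  have hK0 : (0 : ℝ) < K := by exact_mod_cast hK1
  have hlK : 0 ≤ Real.log K := Real.log_nonneg (by exact_mod_cast hK1)
  set ω₂ : ℕ := ⌈Real.exp (2 * Real.log K / η)⌉₊ + 1 with hω₂
  have hω₂' : 2 * Real.log K / η ≤ Real.log (ω₂ : ℝ) := by
    rw [Real.le_log_iff_exp_le (by rw [hω₂]; positivity)]
    refine (Nat.le_ceil _).trans ?_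
    rw [hω₂]
    push_cast
    linarith
  refine ⟨ω₁ + ω₂, by omega, fun y x hyA hx s hs hfar f hf g hg Q' χ t hQ' hQ'A ht hsum => ?_⟩
  have hy : 1 ≤ y := by omega
  have hx1 : ω₁ * y ≤ x := (Nat.mul_le_mul_right _ (by omega)).trans hx
  have hfar1 : Far ω₁ y s := hfar.mono hs (by omega) le_rfl
  have hcr : CR 2 (uC s) := uC_cr hs
  have hf₀n : ∀ n, ‖uC s n‖ = 1 := fun n => ru_norm (by norm_num) (hcr.pow n)
  have hlog2 : 2 * Real.log K / η ≤ Real.log ((x : ℝ) / y) := by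
    refine hω₂'.trans ?_
    apply Real.log_le_log (by rw [hω₂]; positivity)
    rw [le_div_iff₀ (by exact_mod_cast hy)]
    exact_mod_cast (Nat.mul_le_mul_right y (by omega : ω₂ ≤ ω₁ + ω₂)).trans hx
  have hlog3 : Real.log K ≤ η / 2 * Real.log ((x : ℝ) / y) := by
    rw [div_le_iff₀ hη] at hlog2
    linarith
  -- the twisted function
  set k : ℕ → ℂ := fun n => (starRingEnd ℂ) (uC s n) * (f n * (starRingEnd ℂ) (nit t n)) with hk
  have hkBM : BM k := bm_cr (by norm_num) hcr (bm_tw hf t)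
  have hsum' : ∑ p ∈ (Ioc A x).filter Nat.Prime, (1 - (k p * (starRingEnd ℂ) (χ ((p : ℕ) : ZMod Q'))).re) /
      (p : ℝ) ≤ δ := by
    refine le_trans (le_of_eq ?_) hsum
    apply sum_congr rfl
    intro p hp
    congr 3
    rw [hk]
    simp only
    rw [map_mul, map_mul]
    ring
  obtain ⟨Q, w, hQ, hQP, hw1, hwQ, hw⟩ := hP Q' hQ' hQ'A χ k hkBM x hsum'
  set g' : Fin (d + 1) → ℕ → ℂ := Fin.cons (nit t) g with hg'
  have hg'BM : ∀ i, BM (g' i) := by
    intro i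
    refine Fin.cases ?_ (fun i => ?_) i
    · exact ⟨fun n => (nit_norm t n).le, fun m n hm hn _ => nit_mul t hm hn⟩
    · exact hg i
  have h1 := hω y x (by omega) hx1 s hs hfar1 g' hg'BM Q (fun n => w (n + h 0)) hQ hQP (fun n => hw1 _) (fun n => by
    show w (n + Q + h 0) = w (n + h 0)
    rw [add_right_comm, hwQ])
  have hkey : ∀ N ∈ Ioc y x, (if (1 - c / 2) * (N : ℝ) < ‖∑ n ∈ Icc 1 N, f (n + h 0) *
      ∏ i : Fin d, g i (n + h i.succ)‖ then (1 : ℝ) / N else 0) ≤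
      (if N ∈ Ioc y (K * y) then (1 : ℝ) / N else 0) +
      (if (1 - c) * (N : ℝ) < ‖∑ n ∈ Icc 1 N, w (n + h 0) * (uC s (n + h' 0) *
        ∏ i : Fin (d + 1), g' i (n + h' i.succ))‖ then (1 : ℝ) / N else 0) := by
    intro N hN
    rw [mem_Ioc] at hN
    have hN0 : (0 : ℝ) < N := by exact_mod_cast (by omega : 0 < N)
    have hn1 : (0 : ℝ) ≤ 1 / N := by positivity
    by_cases hNK : N ≤ K * y
    · rw [if_pos (mem_Ioc.2 ⟨hN.1, hNK⟩)]
      split_ifs <;> linarith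
    rw [if_neg (show N ∉ Ioc y (K * y) from fun h => hNK (mem_Ioc.1 h).2), zero_add]
    push Not at hNK
    by_cases hb : (1 - c) * (N : ℝ) < ‖∑ n ∈ Icc 1 N, w (n + h 0) * (uC s (n + h' 0) *
        ∏ i : Fin (d + 1), g' i (n + h' i.succ))‖
    · rw [if_pos hb]
      split_ifs <;> linarith
    rw [if_neg hb, if_neg]
    push Not at hb ⊢
    have hKy : (K : ℝ) * y ≤ N := by exact_mod_cast hNK.le
    have hKN : (K : ℝ) ≤ N := by
      refine le_trans ?_ hKy
      have : (1 : ℝ) ≤ y := by exact_mod_cast hy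
      nlinarith
    have hN₀N : N₀ ≤ N := by
      have : K ≤ N := by exact_mod_cast hKN
      omega
    obtain ⟨u, hu, hu2⟩ := hw N hN₀N hN.2
    -- the comparison
    have h2 : ∑ n ∈ Icc 1 N, f (n + h 0) * ∏ i : Fin d, g i (n + h i.succ) =
        u * ∑ n ∈ Icc 1 N, w (n + h 0) * (uC s (n + h' 0) *
        ∏ i : Fin (d + 1), g' i (n + h' i.succ)) +
        ∑ n ∈ Icc 1 N, uC s (n + h 0) * ((k (n + h 0) - u * w (n + h 0)) * nit t (n + h 0) +
          u * w (n + h 0) * (nit t (n + h 0) - nit t (n + e))) * ∏ i : Fin d, g i (n + h i.succ) := by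
      rw [mul_sum, ← sum_add_distrib]
      apply sum_congr rfl
      intro n hn
      rw [mem_Icc] at hn
      have e1 : ∏ i : Fin (d + 1), g' i (n + h' i.succ) = nit t (n + e) *
          ∏ i : Fin d, g i (n + h i.succ) := by
        rw [Fin.prod_univ_succ]
        rfl
      have e2 : f (n + h 0) = uC s (n + h 0) * (k (n + h 0) * nit t (n + h 0)) := by
        have e3 : nit t (n + h 0) * (starRingEnd ℂ) (nit t (n + h 0)) = 1 := conj_mul_one (nit_norm t _)
        have e4 : uC s (n + h 0) * (starRingEnd ℂ) (uC s (n + h 0)) = 1 := conj_mul_one (hf₀n _)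
        rw [hk]
        simp only
        calc f (n + h 0) = (uC s (n + h 0) * (starRingEnd ℂ) (uC s (n + h 0))) * f (n + h 0) *
              (nit t (n + h 0) * (starRingEnd ℂ) (nit t (n + h 0))) := by rw [e3, e4]; ring
          _ = _ := by ring
      have e5 : h' 0 = h 0 := rfl
      rw [e1, e2, e5]
      ring
    have h3 : ‖∑ n ∈ Icc 1 N, uC s (n + h 0) * ((k (n + h 0) - u * w (n + h 0)) * nit t (n + h 0) +
          u * w (n + h 0) * (nit t (n + h 0) - nit t (n + e))) * ∏ i : Fin d, g i (n + h i.succ)‖ ≤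
        ∑ n ∈ Icc 1 N, ‖k (n + h 0) - u * w (n + h 0)‖ +
        ∑ n ∈ Icc 1 N, ‖nit t (n + h 0) - nit t (n + e)‖ := by
      rw [← sum_add_distrib]
      refine (norm_sum_le _ _).trans (sum_le_sum fun n _ => ?_)
      have h4 : ‖∏ i : Fin d, g i (n + h i.succ)‖ ≤ 1 := by
        rw [norm_prod]
        exact prod_le_one (fun _ _ => norm_nonneg _) fun i _ => (hg i).1 _
      rw [norm_mul, norm_mul, hf₀n, one_mul]
      refine (mul_le_of_le_one_right (norm_nonneg _) h4).trans ?_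
      refine (norm_add_le _ _).trans (add_le_add ?_ ?_)
      · rw [norm_mul, nit_norm, mul_one]
      · rw [norm_mul, norm_mul, hu, one_mul]
        exact mul_le_of_le_one_left (norm_nonneg _) (hw1 _)
    have h4 := shift_sum (fun m => ‖k m - u * w m‖) (fun _ => norm_nonneg _) (fun m => by
      show ‖k m - u * w m‖ ≤ 2
      have a1 := hkBM.1 m
      have a2 := hw1 m
      have a3 := norm_sub_le (k m) (u * w m)
      rw [norm_mul u (w m), hu, one_mul] at a3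
      linarith) (h 0) N
    have h5 := twist_sum t ε hε0 (h 0) e N (hei 0).le
    have h6 : |t| * e / ε ≤ ε * N := by
      have a1 : |t| * e / ε ≤ (A : ℝ) * y * e / ε := by gcongr
      have a2 : (A : ℝ) * y * e / ε = (A : ℝ) * e / ε * y := by ring
      have a3 : (A : ℝ) * e / ε * y ≤ ε * K * y := mul_le_mul_of_nonneg_right hK3 (Nat.cast_nonneg _)
      have a4 : ε * K * y ≤ ε * N := by
        rw [mul_assoc]
        exact mul_le_mul_of_nonneg_left hKy hε0.le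
      linarith
    have h7 : 2 * ((h 0 : ℝ) + 1) ≤ ε * N := hK4.trans (mul_le_mul_of_nonneg_left hKN hε0.le)
    rw [h2]
    refine (norm_add_le _ _).trans ?_
    rw [norm_mul, hu, one_mul]
    have h8 : ε * N * 16 = c * N := by rw [hε]; ring
    have h9 : 0 ≤ ε * N := by positivity
    have h10 : (1 - c / 2) * (N : ℝ) = (1 - c) * N + c * N / 2 := by ring
    have h11 : ∑ n ∈ range N, ‖k n - u * w n‖ ≤ ε * N := hu2
    rw [h10]
    linarith
  refine (sum_le_sum hkey).trans ?_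
  rw [sum_add_distrib]
  have h2 : ∑ N ∈ Ioc y x, (if N ∈ Ioc y (K * y) then (1 : ℝ) / N else 0) ≤ Real.log K := by
    rw [← sum_filter]
    have h3 : (Ioc y x).filter (fun N => N ∈ Ioc y (K * y)) ⊆ Ioc y (K * y) := fun N hN => (mem_filter.1 hN).2
    refine (sum_le_sum_of_subset_of_nonneg h3 fun _ _ _ => by positivity).trans ?_
    have h4 := harm_win y (K * y) hy (Nat.le_mul_of_pos_left _ hK1)
    have hy0 : (0 : ℝ) < y := by exact_mod_cast hy
    have h5 : (((K * y : ℕ) : ℝ) / y) = K := by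
      push_cast
      field_simp
    rw [h5] at h4
    exact h4
  have h3 : η * Real.log ((x : ℝ) / y) = η / 2 * Real.log ((x : ℝ) / y) + η / 2 * Real.log ((x : ℝ) / y) := by
    ring
  rw [h3]
  refine add_le_add (h2.trans hlog3) ?_
  convert h1


end Pool.Agent.R512.U
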